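import Mathlib

/-!
# The measure algebra `M(G)` as the dual of `C₀(G)`: basic function spaces
-/

open MeasureTheory Filter Topology TopologicalSpace
open scoped ComplexConjugate ZeroAtInfty BoundedContinuousFunction Pointwise

noncomputable section

namespace MPb7f1cf

section Functions

variable {G : Type*} [TopologicalSpace G]

theorem C0_norm_le {f : C₀(G, ℂ)} {C : ℝ} (hC : 0 ≤ C) (h : ∀ x, ‖f x‖ ≤ C) : ‖f‖ ≤ C := by
  rw [← ZeroAtInftyContinuousMap.norm_toBCF_eq_norm]
  exact (BoundedContinuousFunction.norm_le hC).2 h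

theorem C0_apply_le (f : C₀(G, ℂ)) (x : G) : ‖f x‖ ≤ ‖f‖ := by
  rw [← ZeroAtInftyContinuousMap.norm_toBCF_eq_norm]
  exact f.toBCF.norm_coe_le_norm x

/-- multiplication of `f ∈ C₀` by a bounded continuous function -/
def bmul (F : G →ᵇ ℂ) (f : C₀(G, ℂ)) : C₀(G, ℂ) where
  toFun x := F x * f x
  continuous_toFun := F.continuous.mul (map_continuous f)
  zero_at_infty' := by
    have h := (zero_at_infty f).norm
    rw [norm_zero] at h
    have h2 : Tendsto (fun x => ‖F‖ * ‖f x‖) (cocompact G) (𝓝 0) := by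
      simpa using h.const_mul ‖F‖
    refine squeeze_zero_norm (fun x => ?_) h2
    rw [norm_mul]
    exact mul_le_mul_of_nonneg_right (F.norm_coe_le_norm x) (norm_nonneg _)

@[simp] theorem bmul_apply (F : G →ᵇ ℂ) (f : C₀(G, ℂ)) (x : G) : bmul F f x = F x * f x := rfl

theorem norm_bmul_le (F : G →ᵇ ℂ) (f : C₀(G, ℂ)) : ‖bmul F f‖ ≤ ‖F‖ * ‖f‖ := by
  refine C0_norm_le (by positivity) fun x => ?_
  rw [bmul_apply, norm_mul]
  exact mul_le_mul (F.norm_coe_le_norm x) (C0_apply_le f x) (norm_nonneg _) (norm_nonneg _)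

/-- `bmul` as a continuous linear map in the second argument -/
def bmulL (F : G →ᵇ ℂ) : C₀(G, ℂ) →L[ℂ] C₀(G, ℂ) :=
  LinearMap.mkContinuous
    { toFun := bmul F
      map_add' := fun f g => by ext x; simp [mul_add]
      map_smul' := fun a f => by ext x; simp; ring } ‖F‖ (norm_bmul_le F)

@[simp] theorem bmulL_apply (F : G →ᵇ ℂ) (f : C₀(G, ℂ)) : bmulL F f = bmul F f := rfl

/-- a compactly supported continuous function times a bounded one, in `C₀` -/
def cmul (h : C₀(G, ℂ)) (F : G →ᵇ ℂ) : C₀(G, ℂ) := bmul F h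

@[simp] theorem cmul_apply (h : C₀(G, ℂ)) (F : G →ᵇ ℂ) (x : G) : cmul h F x = F x * h x := rfl

variable [T2Space G] [LocallyCompactSpace G]

theorem exists_cutoff (K : Compacts G) : ∃ f : C₀(G, ℂ), HasCompactSupport f ∧
    (∀ x, ∃ t : ℝ, 0 ≤ t ∧ t ≤ 1 ∧ f x = t) ∧ ∀ x ∈ K, f x = 1 := by
  obtain ⟨f, hf1, -, hfc, hf01⟩ := exists_continuous_one_zero_of_isCompact K.isCompact
    isClosed_empty (Set.disjoint_empty _)
  have hcs : HasCompactSupport (fun x => (f x : ℂ)) := hfc.comp_left (g := fun t : ℝ => (t : ℂ)) (by simp)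
  refine ⟨⟨⟨fun x => (f x : ℂ), by fun_prop⟩, hcs.is_zero_at_infty⟩, hcs, fun x => ⟨f x, (hf01 x).1, (hf01 x).2, rfl⟩, ?_⟩
  intro x hx
  have := hf1 hx
  show (f x : ℂ) = 1
  rw [this]; simp

/-- a chosen cutoff function: `1` on `K`, values in `[0,1]`, compact support -/
def cut (K : Compacts G) : C₀(G, ℂ) := Classical.choose (exists_cutoff K)

theorem cut_hcs (K : Compacts G) : HasCompactSupport (cut K) := (Classical.choose_spec (exists_cutoff K)).1

theorem cut_real (K : Compacts G) (x : G) : ∃ t : ℝ, 0 ≤ t ∧ t ≤ 1 ∧ cut K x = t :=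
  (Classical.choose_spec (exists_cutoff K)).2.1 x

theorem cut_one {K : Compacts G} {x : G} (hx : x ∈ K) : cut K x = 1 :=
  (Classical.choose_spec (exists_cutoff K)).2.2 x hx

theorem norm_cut_apply_le (K : Compacts G) (x : G) : ‖cut K x‖ ≤ 1 := by
  obtain ⟨t, h0, h1, h⟩ := cut_real K x
  rw [h]; simp [abs_of_nonneg h0, h1]

theorem norm_one_sub_cut_apply_le (K : Compacts G) (x : G) : ‖1 - cut K x‖ ≤ 1 := by
  obtain ⟨t, h0, h1, h⟩ := cut_real K x
  rw [h, ← Complex.ofReal_one, ← Complex.ofReal_sub, Complex.norm_real, Real.norm_eq_abs,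
    abs_of_nonneg (by linarith)]
  linarith

end Functions

section Group

variable {G : Type*} [CommGroup G] [TopologicalSpace G] [IsTopologicalGroup G]

/-- translate of `f ∈ C₀(G)` : `x ↦ f (y * x)` -/
def tr (y : G) (f : C₀(G, ℂ)) : C₀(G, ℂ) where
  toFun x := f (y * x)
  continuous_toFun := (map_continuous f).comp (continuous_const.mul continuous_id)
  zero_at_infty' := (zero_at_infty f).comp (Homeomorph.mulLeft y).isClosedEmbedding.tendsto_cocompact

@[simp] theorem tr_apply (y : G) (f : C₀(G, ℂ)) (x : G) : tr y f x = f (y * x) := rfl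

/-- translate of a bounded continuous function : `x ↦ F (y * x)` -/
def btr (y : G) (F : G →ᵇ ℂ) : G →ᵇ ℂ :=
  F.compContinuous ⟨fun x => y * x, continuous_const.mul continuous_id⟩

@[simp] theorem btr_apply (y : G) (F : G →ᵇ ℂ) (x : G) : btr y F x = F (y * x) := rfl

theorem norm_btr_le (y : G) (F : G →ᵇ ℂ) : ‖btr y F‖ ≤ ‖F‖ :=
  (BoundedContinuousFunction.norm_le (norm_nonneg _)).2 fun x => F.norm_coe_le_norm _

/-- `F` is uniformly continuous, in the sense that `y ↦ F (y * ·)` is norm continuous -/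
def IsUC (F : G →ᵇ ℂ) : Prop := Continuous fun y : G => btr y F

theorem norm_tr_le (y : G) (f : C₀(G, ℂ)) : ‖tr y f‖ ≤ ‖f‖ :=
  C0_norm_le (norm_nonneg _) fun x => C0_apply_le f _

/-- uniform continuity of `f ∈ C₀(G)` in terms of translates -/
theorem C0_uc (f : C₀(G, ℂ)) {ε : ℝ} (hε : 0 < ε) :
    ∃ U ∈ 𝓝 (1 : G), ∀ a b : G, b / a ∈ U → dist (f a) (f b) < ε := by
  letI : UniformSpace G := IsTopologicalGroup.rightUniformSpace G
  haveI : IsUniformGroup G := isUniformGroup_of_commGroup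
  have huc : UniformContinuous (f : G → ℂ) := ZeroAtInftyContinuousMap.uniformContinuous f
  have h3 := huc (Metric.dist_mem_uniformity hε)
  rw [Filter.mem_map, uniformity_eq_comap_nhds_one, Filter.mem_comap] at h3
  obtain ⟨U, hU, hUs⟩ := h3
  exact ⟨U, hU, fun a b hab => hUs (show (a, b) ∈ _ from hab)⟩

theorem tr_continuous (f : C₀(G, ℂ)) : Continuous fun y : G => tr y f := by
  rw [continuous_iff_continuousAt]
  intro y₀
  rw [ContinuousAt, ZeroAtInftyContinuousMap.tendsto_iff_tendstoUniformly,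
    Metric.tendstoUniformly_iff]
  intro ε hε
  obtain ⟨U, hU, h⟩ := C0_uc f hε
  have h2 : Tendsto (fun y : G => y / y₀) (𝓝 y₀) (𝓝 1) := by
    have : Continuous fun y : G => y / y₀ := continuous_id.div_const y₀
    simpa using this.tendsto y₀
  filter_upwards [h2 hU] with y hy x
  refine h _ _ ?_
  simpa using hy

end Group

end MPb7f1cf
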