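import Pool.Agent.Lib_MP_b7f1cf_an.Tight

/-!
# Convolution on the dual of `C₀(G)`; the Banach algebra `M(G)`
-/

open MeasureTheory Filter Topology TopologicalSpace
open scoped ComplexConjugate ZeroAtInfty BoundedContinuousFunction Pointwise

noncomputable section

namespace MPb7f1cf

variable {G : Type*} [CommGroup G] [TopologicalSpace G] [IsTopologicalGroup G]
  [LocallyCompactSpace G] [T2Space G]

/-- evaluation at a point as an additive homomorphism -/
def evHom (x : G) : C₀(G, ℂ) →+ ℂ where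
  toFun f := f x
  map_zero' := rfl
  map_add' _ _ := rfl

theorem C0_sum_apply {α : Type*} (s : Finset α) (f : α → C₀(G, ℂ)) (x : G) :
    (∑ a ∈ s, f a) x = ∑ a ∈ s, f a x := map_sum (evHom x) f s

theorem one_sub_cut_mul (K : Compacts G) (f : C₀(G, ℂ)) :
    f = cmul (cut K) f.toBCF + (f - cmul (cut K) f.toBCF) := by abel

theorem norm_sub_cmul_le (K : Compacts G) (f : C₀(G, ℂ)) : ‖f - cmul (cut K) f.toBCF‖ ≤ ‖f‖ := by
  refine C0_norm_le (norm_nonneg _) fun x => ?_
  rw [ZeroAtInftyContinuousMap.sub_apply, cmul_apply]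
  show ‖f x - f x * cut K x‖ ≤ ‖f‖
  have : f x - f x * cut K x = f x * (1 - cut K x) := by ring
  rw [this, norm_mul]
  calc ‖f x‖ * ‖1 - cut K x‖ ≤ ‖f‖ * 1 :=
        mul_le_mul (C0_apply_le f x) (norm_one_sub_cut_apply_le K x) (norm_nonneg _) (norm_nonneg _)
    _ = ‖f‖ := mul_one _

theorem sub_cmul_eq_zero (K : Compacts G) (f : C₀(G, ℂ)) {x : G} (hx : x ∈ K) :
    (f - cmul (cut K) f.toBCF) x = 0 := by
  rw [ZeroAtInftyContinuousMap.sub_apply, cmul_apply]
  show f x - f x * cut K x = 0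
  rw [cut_one hx]; ring

/-- the function `x ↦ Λ (y ↦ f (x * y))` -/
def MG.convFun (Λ : MG G) (f : C₀(G, ℂ)) : C₀(G, ℂ) where
  toFun x := Λ (tr x f)
  continuous_toFun := (map_continuous Λ).comp (tr_continuous f)
  zero_at_infty' := by
    rw [Metric.tendsto_nhds]
    intro ε hε
    obtain ⟨K, hK⟩ := Λ.tight (ε := ε / 2 / (‖f‖ + 1)) (by positivity)
    have hf := zero_at_infty f
    have h2 := hf (Metric.ball_mem_nhds (0 : ℂ) (ε := ε / 2 / (‖Λ‖ + 1)) (by positivity))
    rw [Filter.mem_map, Filter.mem_cocompact] at h2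
    obtain ⟨L, hL, hLs⟩ := h2
    have hcomp : IsCompact (L * (tsupport (cut K))⁻¹) := hL.mul (cut_hcs K).inv
    filter_upwards [hcomp.compl_mem_cocompact] with x hx
    rw [dist_zero_right, one_sub_cut_mul K (tr x f), map_add]
    have h3 : ‖Λ (tr x f - cmul (cut K) (tr x f).toBCF)‖ ≤ ε / 2 / (‖f‖ + 1) * ‖f‖ := by
      refine (hK _ fun z hz => sub_cmul_eq_zero K _ hz).trans ?_
      exact mul_le_mul_of_nonneg_left ((norm_sub_cmul_le K _).trans (norm_tr_le x f)) (by positivity)
    have h4 : ‖cmul (cut K) (tr x f).toBCF‖ ≤ ε / 2 / (‖Λ‖ + 1) := by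
      refine C0_norm_le (by positivity) fun z => ?_
      rw [cmul_apply]
      by_cases hz : z ∈ tsupport (cut K)
      · have h5 : x * z ∉ L := fun h => hx ⟨x * z, h, z⁻¹, by simpa using hz, by simp⟩
        have h6 : ‖f (x * z)‖ < ε / 2 / (‖Λ‖ + 1) := by simpa using hLs h5
        show ‖f (x * z) * cut K z‖ ≤ _
        rw [norm_mul]
        calc ‖f (x * z)‖ * ‖cut K z‖ ≤ ‖f (x * z)‖ * 1 :=
              mul_le_mul_of_nonneg_left (norm_cut_apply_le K z) (norm_nonneg _)
          _ ≤ _ := by linarith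
      · rw [image_eq_zero_of_notMem_tsupport hz, mul_zero, norm_zero]; positivity
    have h7 : ‖Λ (cmul (cut K) (tr x f).toBCF)‖ ≤ ‖Λ‖ * (ε / 2 / (‖Λ‖ + 1)) :=
      (Λ.le_norm _).trans (mul_le_mul_of_nonneg_left h4 (norm_nonneg _))
    have h8 : ‖Λ‖ * (ε / 2 / (‖Λ‖ + 1)) ≤ ε / 2 := by
      rw [mul_div_assoc', div_le_iff₀ (by positivity)]
      nlinarith [norm_nonneg Λ]
    have h9 : ε / 2 / (‖f‖ + 1) * ‖f‖ < ε / 2 := by
      rw [div_mul_eq_mul_div, div_lt_iff₀ (by positivity)]
      nlinarith [norm_nonneg f]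
    exact (norm_add_le _ _).trans_lt (by linarith)

@[simp] theorem MG.convFun_apply (Λ : MG G) (f : C₀(G, ℂ)) (x : G) :
    Λ.convFun f x = Λ (tr x f) := rfl

theorem MG.norm_convFun_le (Λ : MG G) (f : C₀(G, ℂ)) : ‖Λ.convFun f‖ ≤ ‖Λ‖ * ‖f‖ :=
  C0_norm_le (by positivity) fun x =>
    (Λ.le_norm _).trans (mul_le_mul_of_nonneg_left (norm_tr_le x f) (norm_nonneg _))

theorem tr_add (y : G) (f g : C₀(G, ℂ)) : tr y (f + g) = tr y f + tr y g := rfl
theorem tr_smul (y : G) (a : ℂ) (f : C₀(G, ℂ)) : tr y (a • f) = a • tr y f := rfl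
theorem tr_tr (x y : G) (f : C₀(G, ℂ)) : tr y (tr x f) = tr (x * y) f := by
  ext z; simp [mul_assoc]
theorem tr_one (f : C₀(G, ℂ)) : tr 1 f = f := by ext z; simp

theorem MG.convFun_add (Λ : MG G) (f g : C₀(G, ℂ)) :
    Λ.convFun (f + g) = Λ.convFun f + Λ.convFun g := by
  ext x; simp [tr_add, map_add]

theorem MG.convFun_smul (Λ : MG G) (a : ℂ) (f : C₀(G, ℂ)) :
    Λ.convFun (a • f) = a • Λ.convFun f := by
  ext x; simp [tr_smul, map_smul]

theorem MG.convFun_tr (Λ : MG G) (x : G) (f : C₀(G, ℂ)) :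
    Λ.convFun (tr x f) = tr x (Λ.convFun f) := by
  ext y; simp [tr_tr]

/-- convolution `(Λ * Λ') f = Λ (x ↦ Λ' (y ↦ f (x * y)))`, i.e.
`∫ f d(μ * ν) = ∫ ∫ f (x y) dν(y) dμ(x)` -/
def MG.conv (Λ Λ' : MG G) : MG G :=
  MG.mk
    { toFun := fun f => Λ (Λ'.convFun f)
      map_add' := fun f g => by rw [MG.convFun_add, map_add]
      map_smul' := fun a f => by rw [MG.convFun_smul, map_smul]; rfl } (‖Λ‖ * ‖Λ'‖) (fun f => by
        refine (Λ.le_norm _).trans ?_
        rw [mul_assoc]
        exact mul_le_mul_of_nonneg_left (Λ'.norm_convFun_le f) (norm_nonneg _))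

/-- the unit mass at `1` -/
def MG.dirac1 : MG G :=
  MG.mk
    { toFun := fun f => f 1
      map_add' := fun f g => rfl
      map_smul' := fun a f => rfl } 1 (fun f => by rw [one_mul]; exact C0_apply_le f 1)

instance : Mul (MG G) := ⟨MG.conv⟩
instance : One (MG G) := ⟨MG.dirac1⟩

theorem MG.mul_apply (Λ Λ' : MG G) (f : C₀(G, ℂ)) : (Λ * Λ') f = Λ (Λ'.convFun f) := rfl
theorem MG.one_apply (f : C₀(G, ℂ)) : (1 : MG G) f = f 1 := rfl

theorem MG.convFun_mul (Λ Λ' : MG G) (f : C₀(G, ℂ)) :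
    (Λ * Λ').convFun f = Λ.convFun (Λ'.convFun f) := by
  ext x
  rw [MG.convFun_apply, MG.mul_apply, MG.convFun_tr, MG.convFun_apply]

theorem MG.mul_assoc' (Λ₁ Λ₂ Λ₃ : MG G) : Λ₁ * Λ₂ * Λ₃ = Λ₁ * (Λ₂ * Λ₃) := by
  refine MG.ext fun f => ?_
  rw [MG.mul_apply, MG.mul_apply, MG.mul_apply, MG.convFun_mul]

theorem MG.convFun_one (f : C₀(G, ℂ)) : (1 : MG G).convFun f = f := by
  ext x; rw [MG.convFun_apply, MG.one_apply]; simp

theorem MG.mul_comm' (Λ Λ' : MG G) : Λ * Λ' = Λ' * Λ := by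
  refine MG.ext fun f => ?_
  rw [MG.mul_apply, MG.mul_apply]
  -- it suffices to bound the difference by `C ε`
  have key : ∀ ε : ℝ, 0 < ε → ‖Λ (Λ'.convFun f) - Λ' (Λ.convFun f)‖ ≤
      ε * (‖Λ'‖ * ‖f‖ + ‖Λ‖ * ‖Λ'‖ + ‖Λ'‖ * (‖f‖ + ‖Λ‖)) := by
    intro ε hε
    obtain ⟨K, hK⟩ := Λ.tight hε
    obtain ⟨U, hU, hUf⟩ := C0_uc f hε
    obtain ⟨V, hVU, hVo, hV1⟩ := mem_nhds_iff.1 hU
    set S := tsupport (cut K) with hS
    have hScomp : IsCompact S := cut_hcs K
    -- finite cover
    obtain ⟨t, ht⟩ := hScomp.elim_finite_subcover (fun x : G => {z : G | z / x ∈ V})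
      (fun x => hVo.preimage (continuous_id.div_const x))
      (fun x _ => Set.mem_iUnion.2 ⟨x, by simpa using hV1⟩)
    -- enumerate the finite set `t`
    set n := t.card with hn
    set e : Fin n ≃ t := t.equivFin.symm with he
    obtain ⟨ρ, hρs, hρ1, hρ01, hρc⟩ := exists_continuous_sum_one_of_isOpen_isCompact
      (s := fun i : Fin n => {z : G | z / (e i : G) ∈ V})
      (fun i => hVo.preimage (continuous_id.div_const _)) hScomp (by
        intro z hz
        obtain ⟨x, hx⟩ := Set.mem_iUnion.1 (ht hz)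
        obtain ⟨hxt, hzx⟩ := Set.mem_iUnion.1 hx
        refine Set.mem_iUnion.2 ⟨e.symm ⟨x, hxt⟩, ?_⟩
        simpa using hzx)
    -- the functions `ρ' i = cut K * ρ i`
    let ρB : Fin n → (G →ᵇ ℂ) := fun i =>
      BoundedContinuousFunction.ofNormedAddCommGroup (fun x => (ρ i x : ℂ))
        (by fun_prop) 1 (fun x => by
          rw [Complex.norm_real, Real.norm_eq_abs, abs_of_nonneg (hρ01 i x).1]; exact (hρ01 i x).2)
    let ρ' : Fin n → C₀(G, ℂ) := fun i => cmul (cut K) (ρB i)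
    have hρ'app : ∀ i x, ρ' i x = (ρ i x : ℂ) * cut K x := fun i x => rfl
    -- the pointwise estimate
    have hpt : ∀ x y : G, ‖cut K x * f (x * y) - ∑ i, ρ' i x * f ((e i : G) * y)‖ ≤ ε := by
      intro x y
      by_cases hx : x ∈ S
      · have hsum : ∑ i, (ρ i x : ℝ) = 1 := by
          have := hρ1 hx
          simpa using this
        have hsumC : ∑ i, ρ' i x = cut K x := by
          simp_rw [hρ'app]
          rw [← Finset.sum_mul, ← Complex.ofReal_sum, hsum]; simp
        have h1 : cut K x * f (x * y) - ∑ i, ρ' i x * f ((e i : G) * y) =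
            ∑ i, ρ' i x * (f (x * y) - f ((e i : G) * y)) := by
          rw [← hsumC, Finset.sum_mul, ← Finset.sum_sub_distrib]
          exact Finset.sum_congr rfl fun i _ => by ring
        rw [h1]
        have h2 : ∀ i, ‖ρ' i x * (f (x * y) - f ((e i : G) * y))‖ ≤ ρ i x * ε := by
          intro i
          rw [norm_mul, hρ'app, norm_mul, Complex.norm_real, Real.norm_eq_abs,
            abs_of_nonneg (hρ01 i x).1]
          by_cases hi : ρ i x = 0
          · rw [hi]; simp
          · have hxi : x ∈ {z : G | z / (e i : G) ∈ V} :=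
              hρs i (subset_tsupport _ (Function.mem_support.2 hi))
            have h3 : ‖f (x * y) - f ((e i : G) * y)‖ ≤ ε := by
              rw [← dist_eq_norm, dist_comm]
              refine (hUf _ _ (hVU ?_)).le
              have : x * y / ((e i : G) * y) = x / (e i : G) := by
                rw [mul_div_mul_right_eq_div]
              rw [this]; exact hxi
            calc ρ i x * ‖cut K x‖ * ‖f (x * y) - f ((e i : G) * y)‖ ≤ ρ i x * 1 * ε := by
                  refine mul_le_mul ?_ h3 (norm_nonneg _) ?_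
                  · exact mul_le_mul_of_nonneg_left (norm_cut_apply_le K x) (hρ01 i x).1
                  · simpa using (hρ01 i x).1
              _ = ρ i x * ε := by ring
        calc ‖∑ i, ρ' i x * (f (x * y) - f ((e i : G) * y))‖ ≤ ∑ i, ρ i x * ε :=
              (norm_sum_le _ _).trans (Finset.sum_le_sum fun i _ => h2 i)
          _ = ε := by rw [← Finset.sum_mul, hsum, one_mul]
      · have hc : cut K x = 0 := image_eq_zero_of_notMem_tsupport hx
        simp only [hρ'app, hc, mul_zero, zero_mul, Finset.sum_const_zero, sub_zero, norm_zero]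
        exact hε.le
    set A : ℂ := ∑ i, Λ (ρ' i) * Λ' (tr (e i : G) f) with hA
    -- first iterated functional
    have hL : ‖Λ (Λ'.convFun f) - A‖ ≤ ε * (‖Λ'‖ * ‖f‖) + ε * (‖Λ‖ * ‖Λ'‖) := by
      have e1 : Λ (Λ'.convFun f) - A =
          Λ (cmul (cut K) (Λ'.convFun f).toBCF - ∑ i, Λ' (tr (e i : G) f) • ρ' i) +
          Λ (Λ'.convFun f - cmul (cut K) (Λ'.convFun f).toBCF) := by
        rw [hA, map_sub, map_sub, map_sum]
        simp_rw [map_smul, smul_eq_mul]
        rw [Finset.sum_congr rfl fun i _ => mul_comm (Λ (ρ' i)) _]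
        ring
      have e2 : ‖cmul (cut K) (Λ'.convFun f).toBCF - ∑ i, Λ' (tr (e i : G) f) • ρ' i‖ ≤
          ‖Λ'‖ * ε := by
        refine C0_norm_le (by positivity) fun x => ?_
        have e3 : (cmul (cut K) (Λ'.convFun f).toBCF - ∑ i, Λ' (tr (e i : G) f) • ρ' i) x =
            Λ' (cut K x • tr x f - ∑ i, ρ' i x • tr (e i : G) f) := by
          rw [ZeroAtInftyContinuousMap.sub_apply, map_sub, map_smul, map_sum]
          have : (∑ i, Λ' (tr (e i : G) f) • ρ' i) x = ∑ i, Λ' (tr (e i : G) f) * ρ' i x := by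
            rw [C0_sum_apply]; rfl
          rw [this]
          simp only [map_smul, smul_eq_mul, cmul_apply]
          show Λ' (tr x f) * cut K x - _ = _
          rw [mul_comm]
          congr 1
          exact Finset.sum_congr rfl fun i _ => mul_comm _ _
        rw [e3]
        refine (Λ'.le_norm _).trans (mul_le_mul_of_nonneg_left ?_ (norm_nonneg _))
        refine C0_norm_le hε.le fun y => ?_
        have e4 : (cut K x • tr x f - ∑ i, ρ' i x • tr (e i : G) f) y =
            cut K x * f (x * y) - ∑ i, ρ' i x * f ((e i : G) * y) := by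
          rw [ZeroAtInftyContinuousMap.sub_apply, C0_sum_apply]; rfl
        rw [e4]; exact hpt x y
      rw [e1]
      refine (norm_add_le _ _).trans ?_
      have e5 : ‖Λ (Λ'.convFun f - cmul (cut K) (Λ'.convFun f).toBCF)‖ ≤ ε * (‖Λ'‖ * ‖f‖) := by
        refine (hK _ fun z hz => sub_cmul_eq_zero K _ hz).trans ?_
        exact mul_le_mul_of_nonneg_left ((norm_sub_cmul_le K _).trans (Λ'.norm_convFun_le f)) hε.le
      have e6 := (Λ.le_norm (cmul (cut K) (Λ'.convFun f).toBCF -
        ∑ i, Λ' (tr (e i : G) f) • ρ' i)).trans (mul_le_mul_of_nonneg_left e2 (norm_nonneg _))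
      linarith
    have hR : ‖Λ' (Λ.convFun f) - A‖ ≤ ‖Λ'‖ * (ε * ‖f‖ + ‖Λ‖ * ε) := by
      have e1 : Λ' (Λ.convFun f) - A = Λ' (Λ.convFun f - ∑ i, Λ (ρ' i) • tr (e i : G) f) := by
        rw [hA, map_sub, map_sum]
        simp_rw [map_smul, smul_eq_mul]
      rw [e1]
      refine (Λ'.le_norm _).trans (mul_le_mul_of_nonneg_left ?_ (norm_nonneg _))
      refine C0_norm_le (by positivity) fun y => ?_
      have e2 : (Λ.convFun f - ∑ i, Λ (ρ' i) • tr (e i : G) f) y =
          Λ (tr y f - cmul (cut K) (tr y f).toBCF) +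
          Λ (cmul (cut K) (tr y f).toBCF - ∑ i, f ((e i : G) * y) • ρ' i) := by
        rw [ZeroAtInftyContinuousMap.sub_apply, C0_sum_apply, map_sub, map_sub, map_sum,
          MG.convFun_apply]
        simp_rw [map_smul, smul_eq_mul]
        have : ∑ i, (Λ (ρ' i) • tr (e i : G) f) y = ∑ i, f ((e i : G) * y) * Λ (ρ' i) :=
          Finset.sum_congr rfl fun i _ => mul_comm _ _
        rw [this]; ring
      rw [e2]
      refine (norm_add_le _ _).trans (add_le_add ?_ ?_)
      · refine (hK _ fun z hz => sub_cmul_eq_zero K _ hz).trans ?_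
        exact mul_le_mul_of_nonneg_left ((norm_sub_cmul_le K _).trans (norm_tr_le y f)) hε.le
      · refine (Λ.le_norm _).trans (mul_le_mul_of_nonneg_left ?_ (norm_nonneg _))
        refine C0_norm_le hε.le fun x => ?_
        have e4 : (cmul (cut K) (tr y f).toBCF - ∑ i, f ((e i : G) * y) • ρ' i) x =
            cut K x * f (x * y) - ∑ i, ρ' i x * f ((e i : G) * y) := by
          rw [ZeroAtInftyContinuousMap.sub_apply, C0_sum_apply]
          congr 1
          · show f (y * x) * cut K x = _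
            rw [mul_comm y x, mul_comm]
          · exact Finset.sum_congr rfl fun i _ => mul_comm _ _
        rw [e4]; exact hpt x y
    calc ‖Λ (Λ'.convFun f) - Λ' (Λ.convFun f)‖ =
          ‖(Λ (Λ'.convFun f) - A) - (Λ' (Λ.convFun f) - A)‖ := by ring_nf
      _ ≤ ‖Λ (Λ'.convFun f) - A‖ + ‖Λ' (Λ.convFun f) - A‖ := norm_sub_le _ _
      _ ≤ _ := by linarith
  have h0 : ‖Λ (Λ'.convFun f) - Λ' (Λ.convFun f)‖ ≤ 0 := by
    refine le_of_forall_pos_le_add fun δ hδ => ?_
    rw [zero_add]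
    refine (key (δ / ((‖Λ'‖ * ‖f‖ + ‖Λ‖ * ‖Λ'‖ + ‖Λ'‖ * (‖f‖ + ‖Λ‖)) + 1)) (by positivity)).trans ?_
    rw [div_mul_eq_mul_div, div_le_iff₀ (by positivity)]
    nlinarith
  exact sub_eq_zero.1 (norm_le_zero_iff.1 h0)

instance : CommRing (MG G) :=
  { (inferInstance : AddCommGroup (MG G)) with
    mul := (· * ·)
    one := 1
    mul_assoc := MG.mul_assoc'
    mul_comm := MG.mul_comm'
    one_mul := fun Λ => MG.ext fun f => by
      rw [MG.mul_apply, MG.one_apply, MG.convFun_apply, tr_one]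
    mul_one := fun Λ => MG.ext fun f => by rw [MG.mul_apply, MG.convFun_one]
    zero_mul := fun Λ => MG.ext fun f => by rw [MG.mul_apply]; rfl
    mul_zero := fun Λ => MG.ext fun f => by
      rw [MG.mul_apply]
      have : (0 : MG G).convFun f = 0 := by ext x; rfl
      rw [this, map_zero]; rfl
    left_distrib := fun a b c => MG.ext fun f => by
      rw [MG.mul_apply, MG.add_apply, MG.mul_apply, MG.mul_apply]
      have : (b + c).convFun f = b.convFun f + c.convFun f := by ext x; rfl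
      rw [this, map_add]
    right_distrib := fun a b c => MG.ext fun f => by
      rw [MG.mul_apply, MG.add_apply, MG.add_apply, MG.mul_apply, MG.mul_apply] }

theorem MG.norm_mul_le' (Λ Λ' : MG G) : ‖Λ * Λ'‖ ≤ ‖Λ‖ * ‖Λ'‖ :=
  MG.norm_le (by positivity) fun f => by
    rw [MG.mul_apply, mul_assoc]
    exact (Λ.le_norm _).trans (mul_le_mul_of_nonneg_left (Λ'.norm_convFun_le f) (norm_nonneg _))

/-- `M(G)` is a commutative Banach algebra -/
instance : NormedCommRing (MG G) :=
  { (inferInstance : NormedAddCommGroup (MG G)), (inferInstance : CommRing (MG G)) with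
    norm_mul_le := MG.norm_mul_le' }

instance : NormedAlgebra ℂ (MG G) :=
  { Algebra.ofModule (R := ℂ) (A := MG G)
      (fun a Λ Λ' => MG.ext fun f => by
        rw [MG.mul_apply, MG.smul_apply, MG.smul_apply, MG.mul_apply])
      (fun a Λ Λ' => by
        rw [mul_comm, mul_comm Λ Λ']
        exact MG.ext fun f => by
          rw [MG.mul_apply, MG.smul_apply, MG.smul_apply, MG.mul_apply]) with
    norm_smul_le := fun a Λ => norm_smul_le a Λ }

theorem MG.norm_one' : ‖(1 : MG G)‖ = 1 := by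
  refine le_antisymm (MG.norm_le zero_le_one fun f => ?_) ?_
  · rw [one_mul, MG.one_apply]; exact C0_apply_le f 1
  · have h1 : (1 : MG G) (cut ⟨{1}, isCompact_singleton⟩) = 1 := by
      rw [MG.one_apply]; exact cut_one (by simp [← SetLike.mem_coe])
    have h2 := (1 : MG G).le_norm (cut ⟨{1}, isCompact_singleton⟩)
    rw [h1, norm_one] at h2
    have h3 : ‖cut (⟨{1}, isCompact_singleton⟩ : Compacts G)‖ ≤ 1 :=
      C0_norm_le zero_le_one fun x => norm_cut_apply_le _ x
    nlinarith [norm_nonneg (1 : MG G)]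

instance : NormOneClass (MG G) := ⟨MG.norm_one'⟩

/-- sanity check: the scalar multiplication and the ring structure are compatible -/
example (φ : MG G →ₐ[ℂ] ℂ) (a : MG G) : ‖φ a‖ ≤ ‖a‖ := AlgHom.norm_apply_le_self φ a

end MPb7f1cf
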