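import Pool.Agent.Lib_MP_b7f1cf_an.Tree

/-!
# Domination of convolutions of Riesz products
-/

open MeasureTheory Filter Topology TopologicalSpace
open MeasureTheory.Measure (haar)
open scoped ComplexConjugate ZeroAtInfty BoundedContinuousFunction Pointwise

set_option linter.unusedSectionVars false

noncomputable section

namespace MPb7f1cf

variable {G : Type*} [CommGroup G] [TopologicalSpace G] [IsTopologicalGroup G]
  [LocallyCompactSpace G] [T2Space G] [MeasurableSpace G] [BorelSpace G] {ι : Type*}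
  (X : IndepSys G ι)

/-- compactly supported cutoff functions with values in `[0,1]` -/
structure CutFn (G : Type*) [TopologicalSpace G] where
  u : C(G, ℝ)
  hc : HasCompactSupport u
  h0 : ∀ x, 0 ≤ u x
  h1 : ∀ x, u x ≤ 1

theorem exists_next (u : CutFn G) :
    ∃ u' : CutFn G, ∀ x ∈ tsupport u.u * tsupport X.f₀, u'.u x = 1 := by
  have hK : IsCompact (tsupport u.u * tsupport X.f₀) := u.hc.isCompact.mul X.hcs.isCompact
  obtain ⟨g, hg1, -, hgc, hg01⟩ := exists_continuous_one_zero_of_isCompact hK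
    isClosed_empty (Set.disjoint_empty _)
  exact ⟨⟨g, hgc, fun x => (hg01 x).1, fun x => (hg01 x).2⟩, fun x hx => hg1 hx⟩

/-- an increasing sequence of cutoff functions -/
def useq : ℕ → CutFn G
  | 0 => ⟨X.f₀, X.hcs, X.h0, X.h1⟩
  | r + 1 => Classical.choose (exists_next X (useq r))

theorem useq_succ (r : ℕ) {x : G} (hx : x ∈ tsupport (useq X r).u * tsupport X.f₀) :
    (useq X (r + 1)).u x = 1 :=
  Classical.choose_spec (exists_next X (useq X r)) x hx

theorem norm_dens_le {F : G → ℝ} (hF : Continuous F) (h0 : ∀ x, 0 ≤ F x) (f : C₀(G, ℂ)) :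
    ‖dens X F hF f‖ ≤ X.c⁻¹ * ∫ x, ‖f x‖ * (X.f₀ x * F x) ∂haar := by
  have hc := X.c_pos
  rw [dens_apply, IndepSys.E, norm_div, Complex.norm_real, Real.norm_eq_abs, abs_of_pos hc,
    div_eq_inv_mul]
  refine mul_le_mul_of_nonneg_left ?_ (by positivity)
  refine norm_integral_le_of_norm_le ?_ (Eventually.of_forall fun x => ?_)
  · refine Continuous.integrable_of_hasCompactSupport (by fun_prop) ?_
    exact HasCompactSupport.mul_left X.hcs.mul_right
  · rw [norm_mul, norm_mul, Complex.norm_real, Complex.norm_real, Real.norm_eq_abs,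
      Real.norm_eq_abs, abs_of_nonneg (X.h0 x), abs_of_nonneg (h0 x)]
    exact le_of_eq (by ring)

/-- one convolution step -/
theorem conv_step {Λ : MG G} {C : ℝ} (hC : 0 ≤ C) (u : CutFn G) (u' : CutFn G)
    (hu' : ∀ x ∈ tsupport u.u * tsupport X.f₀, u'.u x = 1)
    (β γ : ι → ℝ) (hβ : ∀ i, |β i| ≤ 1 / 2) (hγ : ∀ i, |γ i| ≤ 1 / 2) (U : Finset ι)
    (h : ∀ f : C₀(G, ℂ), ‖Λ f‖ ≤ C * ∫ x, ‖f x‖ * (u.u x * X.R β U x) ∂haar) (f : C₀(G, ℂ)) :
    ‖(Λ * dens X (X.R γ U) (X.R_continuous _ _)) f‖
      ≤ C * ∫ x, ‖f x‖ * (u'.u x * X.R (fun i => β i * γ i) U x) ∂haar := by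
  have hc := X.c_pos
  have hRβ := X.R_continuous β U
  have hRγ := X.R_continuous γ U
  have hRβγ := X.R_continuous (fun i => β i * γ i) U
  have hRβ0 := X.R_nonneg hβ U
  have hRγ0 := X.R_nonneg hγ U
  have hf := map_continuous f
  rw [MG.mul_apply]
  refine (h _).trans (mul_le_mul_of_nonneg_left ?_ hC)
  -- the kernel
  let k : G → G → ℝ := fun x z =>
    X.c⁻¹ * (u.u x * X.R β U x * (‖f z‖ * (X.f₀ (x⁻¹ * z) * X.R γ U (x⁻¹ * z))))
  have hkc : Continuous (Function.uncurry k) := by
    change Continuous fun p : G × G => X.c⁻¹ * (u.u p.1 * X.R β U p.1 *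
      (‖f p.2‖ * (X.f₀ (p.1⁻¹ * p.2) * X.R γ U (p.1⁻¹ * p.2))))
    fun_prop
  have hks : HasCompactSupport (Function.uncurry k) := by
    refine HasCompactSupport.intro
      (u.hc.isCompact.prod (u.hc.isCompact.mul X.hcs.isCompact)) fun p hp => ?_
    obtain ⟨x, z⟩ := p
    change X.c⁻¹ * (u.u x * X.R β U x * (‖f z‖ * (X.f₀ (x⁻¹ * z) * X.R γ U (x⁻¹ * z)))) = 0
    by_cases hx : x ∈ tsupport u.u
    · have hz : x⁻¹ * z ∉ tsupport X.f₀ := by
        intro hz
        exact hp ⟨hx, ⟨x, hx, x⁻¹ * z, hz, by simp⟩⟩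
      rw [image_eq_zero_of_notMem_tsupport hz]
      simp
    · rw [image_eq_zero_of_notMem_tsupport hx]
      simp
  have h1 : ∀ x, ‖(dens X (X.R γ U) (X.R_continuous _ _)).convFun f x‖ * (u.u x * X.R β U x)
      ≤ ∫ z, k x z ∂haar := by
    intro x
    rw [MG.convFun_apply]
    have h2 := norm_dens_le X (X.R_continuous γ U) hRγ0 (tr x f)
    have h3 : ∫ z, k x z ∂haar = (X.c⁻¹ * ∫ y, ‖tr x f y‖ * (X.f₀ y * X.R γ U y) ∂haar)
        * (u.u x * X.R β U x) := by
      have h4 : ∀ z, k x z = (X.c⁻¹ * (u.u x * X.R β U x)) *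
          (‖f z‖ * (X.f₀ (x⁻¹ * z) * X.R γ U (x⁻¹ * z))) := fun z => by
        simp only [k]
        ring
      simp_rw [h4]
      rw [integral_const_mul]
      have h5 : ∫ z, ‖f z‖ * (X.f₀ (x⁻¹ * z) * X.R γ U (x⁻¹ * z)) ∂haar
          = ∫ y, ‖tr x f y‖ * (X.f₀ y * X.R γ U y) ∂haar := by
        rw [← integral_mul_left_eq_self
          (fun z => ‖f z‖ * (X.f₀ (x⁻¹ * z) * X.R γ U (x⁻¹ * z))) x]
        simp
      rw [h5]
      ring
    rw [h3]
    exact mul_le_mul_of_nonneg_right h2 (mul_nonneg (u.h0 x) (hRβ0 x))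
  have hint : Integrable (fun x => ∫ z, k x z ∂haar) (haar : Measure G) := by
    refine Continuous.integrable_of_hasCompactSupport ?_ ?_
    · have hk0 : ∀ p x, p ∈ (Set.univ : Set G) → x ∉ tsupport u.u * tsupport X.f₀ →
          k p x = 0 := by
        intro p x _ hx
        simp only [k]
        by_cases hp : p ∈ tsupport u.u
        · have hz' : p⁻¹ * x ∉ tsupport X.f₀ := by
            intro hz'
            exact hx ⟨p, hp, p⁻¹ * x, hz', by simp⟩
          rw [image_eq_zero_of_notMem_tsupport hz']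
          simp
        · rw [image_eq_zero_of_notMem_tsupport hp]
          simp
      have := continuousOn_integral_of_compact_support (μ := (haar : Measure G))
        (u.hc.isCompact.mul X.hcs.isCompact : IsCompact (tsupport u.u * tsupport X.f₀))
        (s := Set.univ) hkc.continuousOn hk0
      exact continuousOn_univ.1 this
    · refine HasCompactSupport.intro u.hc.isCompact fun x hx => ?_
      have : ∀ z, k x z = 0 := fun z => by
        simp only [k]
        rw [image_eq_zero_of_notMem_tsupport hx]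
        simp
      simp [this]
  have h6 : ∫ x, ‖(dens X (X.R γ U) (X.R_continuous _ _)).convFun f x‖ * (u.u x * X.R β U x) ∂haar
      ≤ ∫ x, ∫ z, k x z ∂haar ∂haar := by
    refine integral_mono ?_ hint h1
    refine Continuous.integrable_of_hasCompactSupport ?_ ?_
    · have := map_continuous ((dens X (X.R γ U) (X.R_continuous _ _)).convFun f)
      fun_prop
    · exact HasCompactSupport.mul_left u.hc.mul_right
  refine h6.trans ?_
  rw [integral_integral_swap_of_hasCompactSupport hkc hks]
  -- the inner integral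
  have h7 : ∀ z, ∫ x, k x z ∂haar ≤ ‖f z‖ * (u'.u z * X.R (fun i => β i * γ i) U z) := by
    intro z
    by_cases hz : z ∈ tsupport u.u * tsupport X.f₀
    · rw [hu' z hz, one_mul]
      have h8 := X.conv_R γ β U z
      have h9 : ∫ x, X.c⁻¹ * (X.R β U x * (‖f z‖ * (X.f₀ (x⁻¹ * z) * X.R γ U (x⁻¹ * z)))) ∂haar
          = ‖f z‖ * X.R (fun i => β i * γ i) U z := by
        have h10 : ∀ x, X.c⁻¹ * (X.R β U x * (‖f z‖ * (X.f₀ (x⁻¹ * z) * X.R γ U (x⁻¹ * z))))
            = (X.c⁻¹ * ‖f z‖) * (X.f₀ (x⁻¹ * z) * (X.R γ U (x⁻¹ * z) * X.R β U x)) := fun x => by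
          ring
        simp_rw [h10]
        rw [integral_const_mul]
        have h11 : ∫ x, X.f₀ (x⁻¹ * z) * (X.R γ U (x⁻¹ * z) * X.R β U x) ∂haar
            = ∫ y, X.f₀ y * (X.R γ U y * X.R β U (y⁻¹ * z)) ∂haar := by
          rw [← integral_inv_eq_self (fun x => X.f₀ (x⁻¹ * z) * (X.R γ U (x⁻¹ * z) * X.R β U x))]
          rw [← integral_mul_right_eq_self (fun y => X.f₀ y * (X.R γ U y * X.R β U (y⁻¹ * z))) z]
          congr 1
          ext x
          simp
        rw [h11, h8]
        have h12 : (fun i => γ i * β i) = fun i => β i * γ i := by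
          ext i
          ring
        rw [h12]
        field_simp
      rw [← h9]
      refine integral_mono ?_ ?_ fun x => ?_
      · refine Continuous.integrable_of_hasCompactSupport (by fun_prop) ?_
        refine HasCompactSupport.intro u.hc.isCompact fun x hx => ?_
        simp only [k]
        rw [image_eq_zero_of_notMem_tsupport hx]
        simp
      · refine Continuous.integrable_of_hasCompactSupport (by fun_prop) ?_
        refine HasCompactSupport.intro (K := (fun y => z * y⁻¹) '' tsupport X.f₀)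
          (X.hcs.isCompact.image (by fun_prop)) fun x hx => ?_
        have : x⁻¹ * z ∉ tsupport X.f₀ := by
          intro hmem
          exact hx ⟨x⁻¹ * z, hmem, by simp [mul_comm]⟩
        rw [image_eq_zero_of_notMem_tsupport this]
        simp
      · change X.c⁻¹ * (u.u x * X.R β U x * (‖f z‖ * (X.f₀ (x⁻¹ * z) * X.R γ U (x⁻¹ * z))))
          ≤ X.c⁻¹ * (X.R β U x * (‖f z‖ * (X.f₀ (x⁻¹ * z) * X.R γ U (x⁻¹ * z))))
        refine mul_le_mul_of_nonneg_left ?_ (by positivity)
        refine mul_le_mul_of_nonneg_right ?_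
          (mul_nonneg (norm_nonneg _) (mul_nonneg (X.h0 _) (hRγ0 _)))
        exact mul_le_of_le_one_left (hRβ0 x) (u.h1 x)
    · have h8 : ∀ x, k x z = 0 := by
        intro x
        simp only [k]
        by_cases hx : x ∈ tsupport u.u
        · have hz' : x⁻¹ * z ∉ tsupport X.f₀ := by
            intro hz'
            exact hz ⟨x, hx, x⁻¹ * z, hz', by simp⟩
          rw [image_eq_zero_of_notMem_tsupport hz']
          simp
        · rw [image_eq_zero_of_notMem_tsupport hx]
          simp
      simp only [h8, integral_zero]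
      exact mul_nonneg (norm_nonneg _) (mul_nonneg (u'.h0 z) (X.R_nonneg (fun i => by
        rw [abs_mul]
        nlinarith [hβ i, hγ i, abs_nonneg (β i), abs_nonneg (γ i)]) U z))
  refine integral_mono_of_nonneg ?_ ?_ (Eventually.of_forall h7)
  · refine Eventually.of_forall fun z => integral_nonneg fun x => ?_
    exact mul_nonneg (by positivity) (mul_nonneg (mul_nonneg (u.h0 x) (hRβ0 x))
      (mul_nonneg (norm_nonneg _) (mul_nonneg (X.h0 _) (hRγ0 _))))
  · refine Continuous.integrable_of_hasCompactSupport (by fun_prop) ?_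
    exact HasCompactSupport.mul_left u'.hc.mul_right

end MPb7f1cf
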