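import Pool.Agent.Lib_MP_b7f1cf_an.Conv

/-!
# Extension of elements of `M(G)` to bounded continuous functions
-/

open MeasureTheory Filter Topology TopologicalSpace
open scoped ComplexConjugate ZeroAtInfty BoundedContinuousFunction Pointwise

noncomputable section

namespace MPb7f1cf

section

variable {G : Type*} [TopologicalSpace G] [LocallyCompactSpace G] [T2Space G]

/-- the pairing of a measure with a bounded continuous function -/
def MG.extFun (Λ : MG G) (F : G →ᵇ ℂ) : ℂ :=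
  limUnder atTop fun K : Compacts G => Λ (cmul (cut K) F)

theorem norm_cmul_cut_le (K : Compacts G) (F : G →ᵇ ℂ) : ‖cmul (cut K) F‖ ≤ ‖F‖ :=
  C0_norm_le (norm_nonneg _) fun x => by
    rw [cmul_apply, norm_mul]
    calc ‖F x‖ * ‖cut K x‖ ≤ ‖F‖ * 1 :=
          mul_le_mul (F.norm_coe_le_norm x) (norm_cut_apply_le K x) (norm_nonneg _) (norm_nonneg _)
      _ = ‖F‖ := mul_one _

theorem norm_cut_sub_cut_apply_le (K K' : Compacts G) (x : G) : ‖cut K x - cut K' x‖ ≤ 1 := by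
  obtain ⟨t, h0, h1, h⟩ := cut_real K x
  obtain ⟨t', h0', h1', h'⟩ := cut_real K' x
  rw [h, h', ← Complex.ofReal_sub, Complex.norm_real, Real.norm_eq_abs, abs_le]
  constructor <;> linarith

theorem MG.cauchy_ext (Λ : MG G) {ε : ℝ} (hε : 0 < ε) :
    ∃ K₀ : Compacts G, ∀ K K' : Compacts G, K₀ ≤ K → K₀ ≤ K' → ∀ F : G →ᵇ ℂ,
      ‖Λ (cmul (cut K) F) - Λ (cmul (cut K') F)‖ ≤ ε * ‖F‖ := by
  obtain ⟨K₀, hK₀⟩ := Λ.tight hε
  refine ⟨K₀, fun K K' hK hK' F => ?_⟩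
  rw [← map_sub]
  refine (hK₀ _ fun x hx => ?_).trans (mul_le_mul_of_nonneg_left ?_ hε.le)
  · rw [ZeroAtInftyContinuousMap.sub_apply, cmul_apply, cmul_apply, cut_one (hK hx),
      cut_one (hK' hx), sub_self]
  · refine C0_norm_le (norm_nonneg _) fun x => ?_
    rw [ZeroAtInftyContinuousMap.sub_apply, cmul_apply, cmul_apply, ← mul_sub, norm_mul]
    calc ‖F x‖ * ‖cut K x - cut K' x‖ ≤ ‖F‖ * 1 :=
          mul_le_mul (F.norm_coe_le_norm x) (norm_cut_sub_cut_apply_le K K' x) (norm_nonneg _)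
            (norm_nonneg _)
      _ = ‖F‖ := mul_one _

theorem MG.tendsto_extFun (Λ : MG G) (F : G →ᵇ ℂ) :
    Tendsto (fun K : Compacts G => Λ (cmul (cut K) F)) atTop (𝓝 (Λ.extFun F)) := by
  have hc : CauchySeq fun K : Compacts G => Λ (cmul (cut K) F) := by
    rw [Metric.cauchySeq_iff]
    intro ε hε
    obtain ⟨K₀, hK₀⟩ := Λ.cauchy_ext (ε := ε / (‖F‖ + 1)) (by positivity)
    refine ⟨K₀, fun K hK K' hK' => ?_⟩
    rw [dist_eq_norm]
    refine (hK₀ K K' hK hK' F).trans_lt ?_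
    rw [div_mul_eq_mul_div, div_lt_iff₀ (by positivity)]
    nlinarith [norm_nonneg F]
  obtain ⟨a, ha⟩ := cauchySeq_tendsto_of_complete hc
  exact tendsto_nhds_limUnder ⟨a, ha⟩

/-- the pairing of a measure with a bounded continuous function, as a continuous linear map -/
def MG.ext' (Λ : MG G) : (G →ᵇ ℂ) →L[ℂ] ℂ :=
  LinearMap.mkContinuous
    { toFun := Λ.extFun
      map_add' := fun F F' => by
        refine tendsto_nhds_unique (Λ.tendsto_extFun (F + F')) ?_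
        refine ((Λ.tendsto_extFun F).add (Λ.tendsto_extFun F')).congr fun K => ?_
        rw [← map_add]
        congr 1
        ext x
        simp [add_mul]
      map_smul' := fun a F => by
        refine tendsto_nhds_unique (Λ.tendsto_extFun (a • F)) ?_
        refine ((Λ.tendsto_extFun F).const_mul a).congr fun K => ?_
        rw [← smul_eq_mul, ← map_smul]
        congr 1
        ext x
        simp [mul_assoc] } ‖Λ‖ (fun F => by
        refine le_of_tendsto (Λ.tendsto_extFun F).norm (Eventually.of_forall fun K => ?_)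
        exact (Λ.le_norm _).trans (mul_le_mul_of_nonneg_left (norm_cmul_cut_le K F) (norm_nonneg _)))

theorem MG.tendsto_ext (Λ : MG G) (F : G →ᵇ ℂ) :
    Tendsto (fun K : Compacts G => Λ (cmul (cut K) F)) atTop (𝓝 (Λ.ext' F)) := Λ.tendsto_extFun F

theorem MG.norm_ext_le (Λ : MG G) (F : G →ᵇ ℂ) : ‖Λ.ext' F‖ ≤ ‖Λ‖ * ‖F‖ := by
  refine le_of_tendsto (Λ.tendsto_ext F).norm (Eventually.of_forall fun K => ?_)
  exact (Λ.le_norm _).trans (mul_le_mul_of_nonneg_left (norm_cmul_cut_le K F) (norm_nonneg _))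

theorem MG.ext_add_left (Λ Λ' : MG G) (F : G →ᵇ ℂ) :
    (Λ + Λ').ext' F = Λ.ext' F + Λ'.ext' F :=
  tendsto_nhds_unique ((Λ + Λ').tendsto_ext F) ((Λ.tendsto_ext F).add (Λ'.tendsto_ext F))

theorem MG.ext_sub_left (Λ Λ' : MG G) (F : G →ᵇ ℂ) :
    (Λ - Λ').ext' F = Λ.ext' F - Λ'.ext' F :=
  tendsto_nhds_unique ((Λ - Λ').tendsto_ext F) ((Λ.tendsto_ext F).sub (Λ'.tendsto_ext F))

theorem MG.ext_smul_left (a : ℂ) (Λ : MG G) (F : G →ᵇ ℂ) :
    (a • Λ).ext' F = a * Λ.ext' F :=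
  tendsto_nhds_unique ((a • Λ).tendsto_ext F) ((Λ.tendsto_ext F).const_mul a)

theorem MG.ext_zero_left (F : G →ᵇ ℂ) : (0 : MG G).ext' F = 0 :=
  tendsto_nhds_unique ((0 : MG G).tendsto_ext F) (tendsto_const_nhds.congr fun K => rfl)

theorem MG.ext_sum_left {α : Type*} (s : Finset α) (Λ : α → MG G) (F : G →ᵇ ℂ) :
    (∑ a ∈ s, Λ a).ext' F = ∑ a ∈ s, (Λ a).ext' F := by
  classical
  induction s using Finset.induction_on with
  | empty => simp [MG.ext_zero_left]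
  | insert a s ha ih => rw [Finset.sum_insert ha, Finset.sum_insert ha, MG.ext_add_left, ih]

theorem MG.ext_toBCF (Λ : MG G) (f : C₀(G, ℂ)) : Λ.ext' f.toBCF = Λ f := by
  refine tendsto_nhds_unique (Λ.tendsto_ext f.toBCF) ?_
  rw [Metric.tendsto_atTop]
  intro ε hε
  obtain ⟨K, hK⟩ := cut_approx f (ε := ε / 2 / (‖Λ‖ + 1)) (by positivity)
  refine ⟨K, fun K' hK' => ?_⟩
  rw [dist_comm, dist_eq_norm, ← map_sub]
  refine (Λ.le_norm _).trans_lt ?_
  calc ‖Λ‖ * ‖f - cmul (cut K') f.toBCF‖ ≤ ‖Λ‖ * (ε / 2 / (‖Λ‖ + 1)) :=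
        mul_le_mul_of_nonneg_left (hK K' hK') (norm_nonneg _)
    _ < ε := by
        rw [mul_div_assoc', div_lt_iff₀ (by positivity)]
        nlinarith [norm_nonneg Λ]

theorem MG.ext_tight (Λ : MG G) {ε : ℝ} (hε : 0 < ε) :
    ∃ K : Compacts G, ∀ F : G →ᵇ ℂ, (∀ x ∈ K, F x = 0) → ‖Λ.ext' F‖ ≤ ε * ‖F‖ := by
  obtain ⟨K, hK⟩ := Λ.tight hε
  refine ⟨K, fun F hF => ?_⟩
  refine le_of_tendsto (Λ.tendsto_ext F).norm (Eventually.of_forall fun K' => ?_)
  refine (hK _ fun x hx => ?_).trans (mul_le_mul_of_nonneg_left (norm_cmul_cut_le K' F) hε.le)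
  rw [cmul_apply, hF x hx, zero_mul]

theorem MG.ext_small (Λ : MG G) {ε : ℝ} (hε : 0 < ε) :
    ∃ S : Compacts G, ∀ (D : G →ᵇ ℂ) (δ : ℝ), 0 ≤ δ → (∀ x ∈ S, ‖D x‖ ≤ δ) →
      ‖Λ.ext' D‖ ≤ ‖Λ‖ * δ + ε * ‖D‖ := by
  obtain ⟨K, hK⟩ := Λ.ext_tight hε
  refine ⟨⟨tsupport (cut K), cut_hcs K⟩, fun D δ hδ hD => ?_⟩
  have h1 : D = D * (cut K).toBCF + D * (1 - (cut K).toBCF) := by
    rw [← mul_add]; simp
  rw [h1, map_add]
  refine (norm_add_le _ _).trans (add_le_add ?_ ?_)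
  · refine (Λ.norm_ext_le _).trans (mul_le_mul_of_nonneg_left ?_ (norm_nonneg _))
    refine (BoundedContinuousFunction.norm_le hδ).2 fun x => ?_
    show ‖D x * cut K x‖ ≤ δ
    by_cases hx : x ∈ tsupport (cut K)
    · rw [norm_mul]
      calc ‖D x‖ * ‖cut K x‖ ≤ δ * 1 :=
            mul_le_mul (hD x hx) (norm_cut_apply_le K x) (norm_nonneg _) hδ
        _ = δ := mul_one _
    · rw [image_eq_zero_of_notMem_tsupport hx, mul_zero, norm_zero]; exact hδ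
  · have h2 : ‖D * (1 - (cut K).toBCF)‖ ≤ ‖D‖ := by
      refine (BoundedContinuousFunction.norm_le (norm_nonneg _)).2 fun x => ?_
      show ‖D x * (1 - cut K x)‖ ≤ ‖D‖
      rw [norm_mul]
      calc ‖D x‖ * ‖1 - cut K x‖ ≤ ‖D‖ * 1 :=
            mul_le_mul (D.norm_coe_le_norm x) (norm_one_sub_cut_apply_le K x) (norm_nonneg _)
              (norm_nonneg _)
        _ = ‖D‖ := mul_one _
    have h3 : ‖D * (cut K).toBCF + D * (1 - (cut K).toBCF)‖ = ‖D‖ := by rw [← h1]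
    rw [h3]
    refine (hK _ fun x hx => ?_).trans (mul_le_mul_of_nonneg_left h2 hε.le)
    show D x * (1 - cut K x) = 0
    rw [cut_one hx, sub_self, mul_zero]

/-- multiplication of a measure by a bounded continuous function -/
def MG.bsmul (F : G →ᵇ ℂ) (Λ : MG G) : MG G :=
  MG.mk
    { toFun := fun f => Λ (bmul F f)
      map_add' := fun f g => by
        have := (bmulL F).map_add f g
        simp only [bmulL_apply] at this
        rw [this, map_add]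
      map_smul' := fun a f => by
        have := (bmulL F).map_smul a f
        simp only [bmulL_apply] at this
        rw [this, map_smul]; rfl } (‖F‖ * ‖Λ‖) (fun f => by
      refine (Λ.le_norm _).trans ?_
      rw [mul_comm ‖F‖, mul_assoc]
      exact mul_le_mul_of_nonneg_left (norm_bmul_le F f) (norm_nonneg _))

@[simp] theorem MG.bsmul_apply (F : G →ᵇ ℂ) (Λ : MG G) (f : C₀(G, ℂ)) :
    MG.bsmul F Λ f = Λ (bmul F f) := rfl

theorem MG.norm_bsmul_le (F : G →ᵇ ℂ) (Λ : MG G) : ‖MG.bsmul F Λ‖ ≤ ‖F‖ * ‖Λ‖ :=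
  MG.norm_le (by positivity) fun f => by
    rw [MG.bsmul_apply]
    refine (Λ.le_norm _).trans ?_
    rw [mul_comm ‖F‖, mul_assoc]
    exact mul_le_mul_of_nonneg_left (norm_bmul_le F f) (norm_nonneg _)

theorem MG.bsmul_add (F : G →ᵇ ℂ) (Λ Λ' : MG G) :
    MG.bsmul F (Λ + Λ') = MG.bsmul F Λ + MG.bsmul F Λ' := rfl

theorem MG.bsmul_sub (F : G →ᵇ ℂ) (Λ Λ' : MG G) :
    MG.bsmul F (Λ - Λ') = MG.bsmul F Λ - MG.bsmul F Λ' := rfl

theorem MG.bsmul_smul (F : G →ᵇ ℂ) (a : ℂ) (Λ : MG G) :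
    MG.bsmul F (a • Λ) = a • MG.bsmul F Λ := rfl

theorem MG.add_bsmul (F F' : G →ᵇ ℂ) (Λ : MG G) :
    MG.bsmul (F + F') Λ = MG.bsmul F Λ + MG.bsmul F' Λ := MG.ext fun f => by
  rw [MG.bsmul_apply, MG.add_apply, MG.bsmul_apply, MG.bsmul_apply, ← map_add]
  congr 1; ext x; simp [add_mul]

theorem MG.smul_bsmul (a : ℂ) (F : G →ᵇ ℂ) (Λ : MG G) :
    MG.bsmul (a • F) Λ = a • MG.bsmul F Λ := MG.ext fun f => by
  rw [MG.bsmul_apply, MG.smul_apply, MG.bsmul_apply, ← smul_eq_mul, ← map_smul]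
  congr 1; ext x; simp [mul_assoc]

theorem MG.mul_bsmul (F F' : G →ᵇ ℂ) (Λ : MG G) :
    MG.bsmul (F * F') Λ = MG.bsmul F (MG.bsmul F' Λ) := MG.ext fun f => by
  rw [MG.bsmul_apply, MG.bsmul_apply, MG.bsmul_apply]
  congr 1; ext x; simp; ring

theorem MG.one_bsmul (Λ : MG G) : MG.bsmul 1 Λ = Λ := MG.ext fun f => by
  rw [MG.bsmul_apply]; congr 1; ext x; simp

theorem MG.bsmul_sum {α : Type*} (s : Finset α) (F : G →ᵇ ℂ) (Λ : α → MG G) :
    MG.bsmul F (∑ a ∈ s, Λ a) = ∑ a ∈ s, MG.bsmul F (Λ a) := by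
  refine MG.ext fun f => ?_
  rw [MG.bsmul_apply, MG.sum_apply, MG.sum_apply]; rfl

theorem MG.sum_bsmul {α : Type*} (s : Finset α) (F : α → (G →ᵇ ℂ)) (Λ : MG G) :
    MG.bsmul (∑ a ∈ s, F a) Λ = ∑ a ∈ s, MG.bsmul (F a) Λ := by
  classical
  induction s using Finset.induction_on with
  | empty =>
    refine MG.ext fun f => ?_
    have : bmul (0 : G →ᵇ ℂ) f = 0 := by ext x; simp
    simp [this]
  | insert a s ha ih => rw [Finset.sum_insert ha, Finset.sum_insert ha, MG.add_bsmul, ih]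

theorem MG.ext_bsmul (F F' : G →ᵇ ℂ) (Λ : MG G) : (MG.bsmul F Λ).ext' F' = Λ.ext' (F * F') := by
  refine tendsto_nhds_unique ((MG.bsmul F Λ).tendsto_ext F') ?_
  refine (Λ.tendsto_ext (F * F')).congr fun K => ?_
  rw [MG.bsmul_apply]
  congr 1; ext x; simp; ring

end

section Group

variable {G : Type*} [CommGroup G] [TopologicalSpace G] [IsTopologicalGroup G]
  [LocallyCompactSpace G] [T2Space G]

/-- the function `y ↦ ∫ F (y x) dΛ(x)` for uniformly continuous `F` -/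
def MG.bconv (Λ : MG G) (F : G →ᵇ ℂ) (hF : IsUC F) : G →ᵇ ℂ :=
  BoundedContinuousFunction.ofNormedAddCommGroup (fun y => Λ.ext' (btr y F))
    (Λ.ext'.continuous.comp hF) (‖Λ‖ * ‖F‖)
    (fun y => (Λ.norm_ext_le _).trans (mul_le_mul_of_nonneg_left (norm_btr_le y F) (norm_nonneg _)))

@[simp] theorem MG.bconv_apply (Λ : MG G) (F : G →ᵇ ℂ) (hF : IsUC F) (y : G) :
    Λ.bconv F hF y = Λ.ext' (btr y F) := rfl

theorem MG.norm_bconv_le (Λ : MG G) (F : G →ᵇ ℂ) (hF : IsUC F) :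
    ‖Λ.bconv F hF‖ ≤ ‖Λ‖ * ‖F‖ :=
  (BoundedContinuousFunction.norm_le (by positivity)).2 fun y =>
    (Λ.norm_ext_le _).trans (mul_le_mul_of_nonneg_left (norm_btr_le y F) (norm_nonneg _))

theorem MG.ext_one (F : G →ᵇ ℂ) : (1 : MG G).ext' F = F 1 := by
  refine tendsto_nhds_unique ((1 : MG G).tendsto_ext F) ?_
  refine tendsto_const_nhds.congr' ?_
  filter_upwards [eventually_ge_atTop (⟨{1}, isCompact_singleton⟩ : Compacts G)] with K hK
  rw [MG.one_apply, cmul_apply, cut_one (hK (by simp [← SetLike.mem_coe])), mul_one]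

theorem MG.ext_mul (Λ Λ' : MG G) (F : G →ᵇ ℂ) (hF : IsUC F) :
    (Λ * Λ').ext' F = Λ.ext' (Λ'.bconv F hF) := by
  refine tendsto_nhds_unique ((Λ * Λ').tendsto_ext F) ?_
  rw [Metric.tendsto_atTop]
  intro ε hε
  set B := ‖Λ‖ * ‖F‖ + ‖Λ'‖ * ‖F‖ + ‖Λ'‖ * ‖F‖ + 1 with hB
  have hBpos : 0 < B := by positivity
  obtain ⟨S, hS⟩ := Λ.ext_small (ε := ε / B) (by positivity)
  obtain ⟨K₂, hK₂⟩ := Λ'.ext_tight (ε := ε / B) (by positivity)
  refine ⟨⟨(S : Set G) * (K₂ : Set G), S.isCompact.mul K₂.isCompact⟩, fun K hK => ?_⟩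
  rw [dist_comm, dist_eq_norm, MG.mul_apply, ← Λ.ext_toBCF, ← map_sub]
  set D := Λ'.bconv F hF - (Λ'.convFun (cmul (cut K) F)).toBCF with hD
  have hDapp : ∀ y, D y = Λ'.ext' (btr y F - (tr y (cmul (cut K) F)).toBCF) := fun y => by
    rw [map_sub, Λ'.ext_toBCF]; rfl
  have hn : ∀ y, ‖btr y F - (tr y (cmul (cut K) F)).toBCF‖ ≤ ‖F‖ := fun y => by
    refine (BoundedContinuousFunction.norm_le (norm_nonneg _)).2 fun x => ?_
    show ‖F (y * x) - F (y * x) * cut K (y * x)‖ ≤ ‖F‖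
    rw [← mul_one_sub, norm_mul]
    calc ‖F (y * x)‖ * ‖1 - cut K (y * x)‖ ≤ ‖F‖ * 1 :=
          mul_le_mul (F.norm_coe_le_norm _) (norm_one_sub_cut_apply_le K _) (norm_nonneg _)
            (norm_nonneg _)
      _ = ‖F‖ := mul_one _
  have hDn : ‖D‖ ≤ ‖Λ'‖ * ‖F‖ := by
    refine (BoundedContinuousFunction.norm_le (by positivity)).2 fun y => ?_
    rw [hDapp]
    exact (Λ'.norm_ext_le _).trans (mul_le_mul_of_nonneg_left (hn y) (norm_nonneg _))
  have hDs : ∀ y ∈ S, ‖D y‖ ≤ ε / B * ‖F‖ := by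
    intro y hy
    rw [hDapp]
    refine (hK₂ _ fun x hx => ?_).trans (mul_le_mul_of_nonneg_left (hn y) (by positivity))
    show F (y * x) - F (y * x) * cut K (y * x) = 0
    rw [cut_one (hK (Set.mul_mem_mul hy hx)), mul_one, sub_self]
  refine (hS D (ε / B * ‖F‖) (by positivity) hDs).trans_lt ?_
  calc ‖Λ‖ * (ε / B * ‖F‖) + ε / B * ‖D‖ ≤ ‖Λ‖ * (ε / B * ‖F‖) + ε / B * (‖Λ'‖ * ‖F‖) := by
        gcongr
    _ = ε / B * (‖Λ‖ * ‖F‖ + ‖Λ'‖ * ‖F‖) := by ring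
    _ < ε := by
        rw [div_mul_eq_mul_div, div_lt_iff₀ hBpos]
        have : 0 ≤ ‖Λ'‖ * ‖F‖ := by positivity
        nlinarith

end Group

end MPb7f1cf
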