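import Pool.Agent.Lib_MP_b7f1cf_an.L1

/-!
# The abstract local lemma
-/

open MeasureTheory Filter Topology TopologicalSpace
open MeasureTheory.Measure (haar)
open scoped ComplexConjugate ZeroAtInfty BoundedContinuousFunction Pointwise

set_option linter.unusedSectionVars false

noncomputable section

namespace MPb7f1cf

variable {G : Type*} [CommGroup G] [TopologicalSpace G] [IsTopologicalGroup G]
  [LocallyCompactSpace G] [T2Space G]

theorem exists_ulim_complex (U : Ultrafilter ℕ) (a : ℕ → ℂ) (C : ℝ) (h : ∀ l, ‖a l‖ ≤ C) :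
    ∃ z : ℂ, ‖z‖ ≤ C ∧ Tendsto a U (𝓝 z) := by
  have hc : IsCompact (Metric.closedBall (0 : ℂ) C) := isCompact_closedBall _ _
  obtain ⟨z, hz, hle⟩ := hc.ultrafilter_le_nhds (U.map a) (by
    rw [Filter.le_principal_iff]
    exact Filter.mem_map.2 (Filter.univ_mem' fun l => by simpa using h l))
  exact ⟨z, by simpa using hz, hle⟩

/-- one step of the recursion -/
theorem step_tendsto {κ σ : MG G} {s : ℂ} (F F' : ℕ → (G →ᵇ ℂ)) (hF : ∀ l, IsUC (F l))
    (ε : ℕ → ℝ) (hε : Tendsto ε atTop (𝓝 0))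
    (h : ∀ l y, ‖σ.ext' (btr y (F l)) - s * F' l y‖ ≤ ε l) :
    Tendsto (fun l => (κ * σ).ext' (F l) - s * κ.ext' (F' l)) atTop (𝓝 0) := by
  have hε0 : ∀ l, 0 ≤ ε l := fun l => (norm_nonneg _).trans (h l 1)
  have h1 := (hε.const_mul ‖κ‖)
  rw [mul_zero] at h1
  refine squeeze_zero_norm (fun l => ?_) h1
  rw [MG.ext_mul _ _ _ (hF l)]
  have h2 : κ.ext' (σ.bconv (F l) (hF l)) - s * κ.ext' (F' l)
      = κ.ext' (σ.bconv (F l) (hF l) - s • F' l) := by
    rw [map_sub, map_smul, smul_eq_mul]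
  rw [h2]
  refine (κ.norm_ext_le _).trans (mul_le_mul_of_nonneg_left ?_ (norm_nonneg _))
  refine (BoundedContinuousFunction.norm_le (hε0 l)).2 fun y => ?_
  simpa using h l y

theorem local_abs {σ η : MG G} {s : ℝ} (hs : 0 < s) (hη : ‖η‖ ≤ s / 2) {M n : ℕ}
    (F : ℕ → ℕ → (G →ᵇ ℂ)) (hUC : ∀ l m, IsUC (F l m)) (hF1 : ∀ l m, ‖F l m‖ ≤ 1)
    (ε : ℕ → ℝ) (hε : Tendsto ε atTop (𝓝 0))
    (h1 : ∀ l, ∀ m, m < n → ∀ y, ‖σ.ext' (btr y (F l (m + 1))) - s * F l m y‖ ≤ ε l)
    (h0 : ∀ l, F l 0 1 = 1)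
    (hJ : ∀ m, M ≤ m → m ≤ n → Tendsto (fun l => ((η + σ) ^ m).ext' (F l m)) atTop (𝓝 0)) :
    ∃ h : ℕ → ℂ, h 0 = 1 ∧ (∀ k, ‖h k‖ ≤ (1 / 2 : ℝ) ^ k) ∧
      ∀ m, M ≤ m → m ≤ n → ∑ k ∈ Finset.range (m + 1), (m.choose k : ℂ) * h k = 0 := by
  -- the basic asymptotic relation
  have hrec : ∀ k r, k + r ≤ n → Tendsto (fun l => (η ^ k * σ ^ r).ext' (F l (k + r))
      - (s : ℂ) ^ r * (η ^ k).ext' (F l k)) atTop (𝓝 0) := by
    intro k r
    induction r with
    | zero =>
      intro _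
      simp
    | succ r ih =>
      intro hr
      have h2 := ih (by omega)
      have h3 := step_tendsto (κ := η ^ k * σ ^ r) (σ := σ) (s := (s : ℂ))
        (fun l => F l (k + r + 1)) (fun l => F l (k + r)) (fun l => hUC _ _) ε hε
        (fun l y => h1 l (k + r) (by omega) y)
      have h4 := h3.add (h2.const_mul (s : ℂ))
      rw [mul_zero, add_zero] at h4
      refine h4.congr fun l => ?_
      rw [pow_succ σ r, ← mul_assoc (η ^ k) (σ ^ r) σ]
      have : k + (r + 1) = k + r + 1 := by ring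
      rw [this]
      ring
  -- the limits
  have hbd : ∀ k, ∀ l, ‖(η ^ k).ext' (F l k)‖ ≤ (s / 2) ^ k := by
    intro k l
    refine (MG.norm_ext_le _ _).trans ?_
    calc ‖η ^ k‖ * ‖F l k‖ ≤ (s / 2) ^ k * 1 := by
          refine mul_le_mul ?_ (hF1 l k) (norm_nonneg _) (by positivity)
          exact (norm_pow_le η k).trans (pow_le_pow_left₀ (norm_nonneg _) hη k)
      _ = (s / 2) ^ k := mul_one _
  choose h hn hh using fun k => exists_ulim_complex (hyperfilter ℕ)
    (fun l => (η ^ k).ext' (F l k)) ((s / 2) ^ k) (hbd k)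
  have hle : (hyperfilter ℕ : Filter ℕ) ≤ atTop := by
    rw [← Nat.cofinite_eq_atTop]; exact hyperfilter_le_cofinite
  have hs' : (s : ℂ) ≠ 0 := by exact_mod_cast hs.ne'
  have h00 : h 0 = 1 := by
    refine tendsto_nhds_unique (hh 0) (tendsto_const_nhds.congr fun l => ?_)
    rw [pow_zero, MG.ext_one, h0]
  refine ⟨fun k => h k / (s : ℂ) ^ k, ?_, ?_, ?_⟩
  · simp [h00]
  · intro k
    rw [norm_div, norm_pow, Complex.norm_real, Real.norm_eq_abs, abs_of_pos hs,
      div_le_iff₀ (by positivity)]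
    refine (hn k).trans (le_of_eq ?_)
    rw [← mul_pow]
    congr 1
    ring
  · intro m hMm hmn
    have h5 : Tendsto (fun l => ((η + σ) ^ m).ext' (F l m)) (hyperfilter ℕ)
        (𝓝 (∑ k ∈ Finset.range (m + 1), (m.choose k : ℂ) * ((s : ℂ) ^ (m - k) * h k))) := by
      have h6 : ∀ l, ((η + σ) ^ m).ext' (F l m) = ∑ k ∈ Finset.range (m + 1),
          (m.choose k : ℂ) * (((η ^ k * σ ^ (m - k)).ext' (F l (k + (m - k)))
            - (s : ℂ) ^ (m - k) * (η ^ k).ext' (F l k))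
            + (s : ℂ) ^ (m - k) * (η ^ k).ext' (F l k)) := by
        intro l
        rw [add_pow, MG.ext_sum_left]
        refine Finset.sum_congr rfl fun k hk => ?_
        have hk' : k + (m - k) = m := by
          have := Finset.mem_range.1 hk
          omega
        rw [sub_add_cancel, hk', mul_comm (η ^ k * σ ^ (m - k)), ← nsmul_eq_mul,
          ← Nat.cast_smul_eq_nsmul ℂ, MG.ext_smul_left]
      simp_rw [h6]
      refine tendsto_finset_sum _ fun k hk => ?_
      have hk' : k + (m - k) = m := by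
        have := Finset.mem_range.1 hk
        omega
      have h7 := ((hrec k (m - k) (by omega)).mono_left hle).add ((hh k).const_mul ((s : ℂ) ^ (m - k)))
      rw [zero_add] at h7
      exact h7.const_mul _
    have h8 := tendsto_nhds_unique h5 ((hJ m hMm hmn).mono_left hle)
    have h9 : ∑ k ∈ Finset.range (m + 1), (m.choose k : ℂ) * (h k / (s : ℂ) ^ k)
        = (∑ k ∈ Finset.range (m + 1), (m.choose k : ℂ) * ((s : ℂ) ^ (m - k) * h k))
          / (s : ℂ) ^ m := by
      rw [Finset.sum_div]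
      refine Finset.sum_congr rfl fun k hk => ?_
      have hk' : m = (m - k) + k := by
        have := Finset.mem_range.1 hk
        omega
      have h10 : (s : ℂ) ^ m = (s : ℂ) ^ (m - k) * (s : ℂ) ^ k := by
        rw [← pow_add, ← hk']
      rw [h10]
      field_simp
    rw [h9, h8, zero_div]

end MPb7f1cf
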