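import Pool.Agent.Lib_MP_b7f1cf_an.TransCont
import Pool.Agent.Lib_MP_b7f1cf_an.LocalAbs

/-!
# The local lemma
-/

open MeasureTheory Filter Topology TopologicalSpace
open MeasureTheory.Measure (haar)
open scoped ComplexConjugate ZeroAtInfty BoundedContinuousFunction Pointwise

set_option linter.unusedSectionVars false

noncomputable section

namespace MPb7f1cf

variable {G : Type*} [CommGroup G] [TopologicalSpace G] [IsTopologicalGroup G]
  [LocallyCompactSpace G] [T2Space G] [MeasurableSpace G] [BorelSpace G] {ι : Type*}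
  (X : IndepSys G ι)

/-- powers of `τ ν₀`, for `τ` a sum of `K` multiples of characters -/
theorem tau_pow_mem {ν₀ : MG G} {K : ℕ} (c : Fin K → ℂ) (ψ : Fin K → (G →ₜ* Circle)) {N : ℕ}
    (hN : ν₀ ^ N ∈ L1 G) {m : ℕ} (hm : K * (N - 1) + 1 ≤ m) :
    (MG.bsmul (∑ t, c t • chb (ψ t)) ν₀) ^ m ∈ transCont G := by
  have h1 : MG.bsmul (∑ t, c t • chb (ψ t)) ν₀ = ∑ t, c t • MG.bsmul (chb (ψ t)) ν₀ := by
    rw [MG.sum_bsmul]
    exact Finset.sum_congr rfl fun t _ => MG.smul_bsmul _ _ _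
  rw [h1]
  refine sum_pow_mem (transCont G) Finset.univ _ N (fun t _ => ?_) m (by simpa using hm)
  rw [smul_pow]
  refine smul_mem_transCont _ ?_
  rw [← bsmul_chb_pow]
  exact ch_mem_transCont _ (L1_subset_transCont hN)

theorem local_lemma (n : ℕ) (W : ℕ → Finset ι) (hW : ∀ l, (W l).Nonempty) (b : ℕ → ℝ)
    (hb0 : ∀ l, 0 < b l) (hb1 : ∀ l, b l ≤ 1)
    (hN : Tendsto (fun l => ((W l).card : ℝ) * (b l) ^ (2 * n)) atTop atTop)
    {σ : MG G} (hσ : σ.Pos) {s : ℝ} (hs : 0 < s) (h1 : σ.ext' 1 = s)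
    (hm1 : ∀ l, ∀ i ∈ W l, σ.ext' (chb (X.χ i)) = s * b l)
    (hm2 : ∀ l, ∀ i ∈ W l, ∀ j ∈ W l, i ≠ j →
      σ.ext' (chb (X.χ i) * star (chb (X.χ j))) = s * b l ^ 2)
    {ν : MG G} (hν : ‖ν - σ‖ ≤ s / 2)
    {ν₀ : MG G} {K : ℕ} (c : Fin K → ℂ) (ψ : Fin K → (G →ₜ* Circle))
    (hτ : ν = MG.bsmul (∑ t, c t • chb (ψ t)) ν₀) {N : ℕ} (hNN : ν₀ ^ N ∈ L1 G) :
    ∃ h : ℕ → ℂ, h 0 = 1 ∧ (∀ k, ‖h k‖ ≤ (1 / 2 : ℝ) ^ k) ∧
      ∀ m, K * (N - 1) + 1 ≤ m → m ≤ n →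
        ∑ k ∈ Finset.range (m + 1), (m.choose k : ℂ) * h k = 0 := by
  -- the error term
  set ε : ℕ → ℝ := fun l => ((b l) ^ n)⁻¹ * Real.sqrt (((W l).card : ℝ)⁻¹) with hε
  have hε0 : Tendsto ε atTop (𝓝 0) := by
    have h2 : ∀ l, ε l = Real.sqrt ((((W l).card : ℝ) * (b l) ^ (2 * n))⁻¹) := by
      intro l
      rw [mul_inv, Real.sqrt_mul (by positivity), mul_comm (√((W l).card : ℝ)⁻¹)]
      rw [Real.sqrt_inv]
      rw [show 2 * n = n * 2 by ring, pow_mul, Real.sqrt_sq (by have := hb0 l; positivity)]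
    rw [funext h2]
    have h3 := (Real.continuous_sqrt.tendsto 0).comp hN.inv_tendsto_atTop
    rw [Real.sqrt_zero] at h3
    exact h3
  have hεm : ∀ l m, m ≤ n → ((b l) ^ m)⁻¹ * Real.sqrt (((W l).card : ℝ)⁻¹) ≤ ε l := by
    intro l m hm
    refine mul_le_mul_of_nonneg_right ?_ (Real.sqrt_nonneg _)
    have := hb0 l
    exact inv_anti₀ (by positivity) (pow_le_pow_of_le_one (hb0 l).le (hb1 l) hm)
  refine local_abs (σ := σ) (η := ν - σ) hs hν (M := K * (N - 1) + 1) (n := n)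
    (fun l m => tf X (W l) (b l) m) (fun l m => tf_isUC X _ _ _) (fun l m => norm_tf_le X _ _ _)
    (fun l => s * ε l) (by simpa using hε0.const_mul s) ?_ ?_ ?_
  · intro l m hm y
    refine (tf_step X (hW l) (hb0 l) hσ hs.le h1 (hm1 l) (hm2 l) m y).trans ?_
    exact mul_le_mul_of_nonneg_left (hεm l (m + 1) hm) hs.le
  · intro l
    exact tf_zero_one X (hW l) _
  · intro m hMm hmn
    rw [sub_add_cancel]
    refine transCont_tendsto X ?_ _ (fun l => tf_isUC X _ _ _) (fun l => norm_tf_le X _ _ _)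
      ε hε0 (fun l w => (tf_mean X (hW l) (hb0 l) m w).trans (hεm l m hmn))
    rw [hτ]
    exact tau_pow_mem c ψ hNN hMm

end MPb7f1cf
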