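import Pool.Agent.Lib_MP_b7f1cf_an.Pigeon
import Pool.Agent.Lib_MP_b7f1cf_an.Local

/-!
# Final assembly
-/

open MeasureTheory Filter Topology TopologicalSpace
open MeasureTheory.Measure (haar)
open scoped ComplexConjugate ZeroAtInfty BoundedContinuousFunction Pointwise

noncomputable section

namespace MPb7f1cf

theorem window_tendsto (n : ℕ → ℕ) (j : ℕ) (B : Fin j → Bool) :
    Tendsto (fun l => ((wdSet n j B l).card : ℝ) * (bc l) ^ (2 * n j)) atTop atTop := by
  have h1 : ∀ l, ((wdSet n j B l).card : ℝ) * (bc l) ^ (2 * n j) = 2 ^ (l + 1) := by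
    intro l
    rw [card_wdSet, Nc, bc, ← pow_mul]
    push_cast
    have h2 : (l + 1) * (2 * n j + 1) = (l + 1) * (2 * n j) + (l + 1) := by ring
    rw [h2, pow_add]
    have h3 : (2 : ℝ) ^ ((l + 1) * (2 * n j)) * (1 / 2) ^ ((l + 1) * (2 * n j)) = 1 := by
      rw [← mul_pow]; norm_num
    linear_combination (2 : ℝ) ^ (l + 1) * h3
  rw [funext h1]
  exact (tendsto_pow_atTop_atTop_of_one_lt (by norm_num : (1 : ℝ) < 2)).comp (tendsto_add_atTop_nat 1)

variable {G : Type*} [CommGroup G] [TopologicalSpace G] [IsTopologicalGroup G]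
    [LocallyCompactSpace G] [T2Space G] [MeasurableSpace G] [BorelSpace G]

/-- if the orders `n j` are large enough then `muRoot` is far from every element which is nilpotent
modulo `L¹` -/
theorem muRoot_far {n : ℕ → ℕ} (X : IndepSys G (Idx n))
    (hn : ∀ j, ¬ ∃ h : ℕ → ℂ, h 0 = 1 ∧ (∀ k, ‖h k‖ ≤ (1 / 2 : ℝ) ^ k) ∧
      ∀ m, Kc j * (j - 1) + 1 ≤ m → m ≤ n j →
        ∑ k ∈ Finset.range (m + 1), (m.choose k : ℂ) * h k = 0)
    {ν : MG G} {N : ℕ} (hN : ν ^ N ∈ L1 G) : 1 / 4 < ‖ν - muRoot X‖ := by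
  by_contra hcon
  push_neg at hcon
  obtain ⟨B, hB⟩ := pigeon X N ν hcon
  have hs : 0 < sB X N B := lt_of_lt_of_le (by positivity) (sB_ge X N B)
  obtain ⟨c, ψ, hτ⟩ := isComb_tau X N (extp B)
  refine hn N (local_lemma X (n N) (wdSet n N B) (wdSet_nonempty N B) bc bc_pos
    (fun l => (bc_le l).trans (by norm_num)) (window_tendsto n N B) (sg_pos X N B) hs
    (sg_mass X N B) (fun l i hi => sg_moment1 X N B l hi)
    (fun l i hi i' hi' hne => sg_moment2 X N B l hi hi' hne)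
    (ν := MG.bsmul (tauB X N B) ν) hB c ψ (by rw [tauB, hτ]) hN)

end MPb7f1cf
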