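import Pool.Agent.Lib_MP_b7f1cf_an.L1

/-!
# From multiplicative functionals on `M(G)` to continuous characters
-/

open MeasureTheory Filter Topology TopologicalSpace
open scoped ComplexConjugate ZeroAtInfty BoundedContinuousFunction Pointwise

noncomputable section

namespace MPb7f1cf

variable {G : Type*} [CommGroup G] [TopologicalSpace G] [IsTopologicalGroup G]
  [LocallyCompactSpace G] [T2Space G]

theorem MG.dirac_one_eq : (MG.dirac (1 : G) : MG G) = 1 := MG.ext fun f => rfl

theorem MG.dirac_mul_dirac (x y : G) : (MG.dirac x : MG G) * MG.dirac y = MG.dirac (x * y) :=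
  MG.ext fun f => rfl

/-- a multiplicative functional on `M(G)` which does not vanish on a translation continuous measure
comes from a continuous character (as far as unit masses are concerned) -/
theorem char_of_algHom (φ : MG G →ₐ[ℂ] ℂ) {f : MG G} (hf : f ∈ transCont G) (hφf : φ f ≠ 0)
    {x : G} (hx : φ (MG.dirac x) ≠ 1) : ∃ χ : G →ₜ* Circle, χ x ≠ 1 := by
  have hle : ∀ y : G, ‖φ (MG.dirac y)‖ ≤ 1 := fun y =>
    (AlgHom.norm_apply_le_self φ _).trans (MG.norm_dirac_le y)
  have hmul : ∀ y z : G, φ (MG.dirac (y * z)) = φ (MG.dirac y) * φ (MG.dirac z) := fun y z => by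
    rw [← MG.dirac_mul_dirac, map_mul]
  have hone : φ (MG.dirac (1 : G)) = 1 := by rw [MG.dirac_one_eq, map_one]
  have hnorm : ∀ y : G, ‖φ (MG.dirac y)‖ = 1 := by
    intro y
    have h1 : ‖φ (MG.dirac y)‖ * ‖φ (MG.dirac y⁻¹)‖ = 1 := by
      rw [← norm_mul, ← hmul, mul_inv_cancel, hone, norm_one]
    have h2 := hle y
    have h3 := hle y⁻¹
    have h4 := norm_nonneg (φ (MG.dirac y))
    nlinarith
  let ψ : G →* Circle :=
    { toFun := fun y => ⟨φ (MG.dirac y), mem_sphere_zero_iff_norm.2 (hnorm y)⟩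
      map_one' := Circle.ext hone
      map_mul' := fun y z => Circle.ext (hmul y z) }
  have hψ : ∀ y, ((ψ y : Circle) : ℂ) = φ (MG.dirac y) := fun y => rfl
  have hcont : Continuous ψ := by
    refine continuous_of_continuousAt_one ψ ?_
    rw [ContinuousAt, map_one, tendsto_iff_dist_tendsto_zero]
    have h1 := (mem_transCont.1 hf).const_mul ‖φ f‖⁻¹
    rw [mul_zero] at h1
    refine squeeze_zero (fun y => dist_nonneg) (fun y => ?_) h1
    have h2 : dist (ψ y) 1 = ‖φ (MG.dirac y) - 1‖ := by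
      rw [← hψ, ← Circle.coe_one, ← dist_eq_norm]; rfl
    rw [h2]
    have h3 : (φ (MG.dirac y) - 1) * φ f = φ (MG.dirac y * f - f) := by
      rw [map_sub, map_mul]; ring
    have h4 : ‖φ (MG.dirac y) - 1‖ * ‖φ f‖ ≤ ‖MG.dirac y * f - f‖ := by
      rw [← norm_mul, h3]; exact AlgHom.norm_apply_le_self φ _
    rw [inv_mul_eq_div, le_div_iff₀ (norm_pos_iff.2 hφf)]
    exact h4
  refine ⟨⟨ψ, hcont⟩, fun h => hx ?_⟩
  rw [← hψ]
  exact congrArg (fun z : Circle => (z : ℂ)) h

end MPb7f1cf
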