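import Pool.Agent.Lib_MP_b7f1cf_an.Conv

/-!
# A multiplicative functional which does not vanish on an element of positive spectral radius
-/

open Filter Topology
open scoped NNReal ENNReal

noncomputable section

namespace MPb7f1cf

/-- In a commutative complex Banach algebra, if `‖h^(2^n)‖ ≥ c ρ^(2^n)` for all `n`, then some
multiplicative functional does not vanish on `h`. -/
theorem exists_algHom_of_growth' {A : Type*} [NormedCommRing A] [NormedAlgebra ℂ A]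
    [CompleteSpace A] [Nontrivial A] (h : A) {ρ c : ℝ} (hρ : 0 < ρ) (hc : 0 < c)
    (hgr : ∀ n : ℕ, c * ρ ^ (2 ^ n) ≤ ‖h ^ (2 ^ n)‖) : ∃ φ : A →ₐ[ℂ] ℂ, φ h ≠ 0 := by
  have hrad : ENNReal.ofReal ρ ≤ spectralRadius ℂ h := by
    have h1 := spectrum.pow_norm_pow_one_div_tendsto_nhds_spectralRadius h
    have h2 : Tendsto (fun n : ℕ => ENNReal.ofReal (‖h ^ (2 ^ n)‖ ^ (1 / ((2 ^ n : ℕ) : ℝ))))
        atTop (𝓝 (spectralRadius ℂ h)) :=
      h1.comp (tendsto_pow_atTop_atTop_of_one_lt (by norm_num : 1 < 2))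
    have h3 : Tendsto (fun n : ℕ => ENNReal.ofReal (c ^ (1 / ((2 ^ n : ℕ) : ℝ)) * ρ))
        atTop (𝓝 (ENNReal.ofReal (1 * ρ))) := by
      refine (ENNReal.continuous_ofReal.tendsto _).comp (Tendsto.mul_const ρ ?_)
      have h4 : Tendsto (fun n : ℕ => (1 / ((2 ^ n : ℕ) : ℝ))) atTop (𝓝 0) := by
        have : Tendsto (fun n : ℕ => ((2 ^ n : ℕ) : ℝ)) atTop atTop :=
          tendsto_natCast_atTop_atTop.comp (tendsto_pow_atTop_atTop_of_one_lt (by norm_num : 1 < 2))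
        simp only [one_div]
        exact this.inv_tendsto_atTop
      have h5 := (Real.continuousAt_const_rpow hc.ne' (b := 0)).tendsto.comp h4
      rw [Real.rpow_zero] at h5
      exact h5
    rw [one_mul] at h3
    refine le_of_tendsto_of_tendsto h3 h2 (Eventually.of_forall fun n => ?_)
    refine ENNReal.ofReal_le_ofReal ?_
    have h6 : (ρ ^ (2 ^ n)) ^ (1 / ((2 ^ n : ℕ) : ℝ)) = ρ := by
      rw [one_div, Real.pow_rpow_inv_natCast hρ.le (by positivity)]
    calc c ^ (1 / ((2 ^ n : ℕ) : ℝ)) * ρ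
        = c ^ (1 / ((2 ^ n : ℕ) : ℝ)) * (ρ ^ (2 ^ n)) ^ (1 / ((2 ^ n : ℕ) : ℝ)) := by rw [h6]
      _ = (c * ρ ^ (2 ^ n)) ^ (1 / ((2 ^ n : ℕ) : ℝ)) :=
          (Real.mul_rpow hc.le (by positivity)).symm
      _ ≤ _ := Real.rpow_le_rpow (by positivity) (hgr n) (by positivity)
  obtain ⟨z, hz, hzr⟩ := spectrum.exists_nnnorm_eq_spectralRadius h
  obtain ⟨φ, hφ⟩ := WeakDual.CharacterSpace.mem_spectrum_iff_exists.1 hz
  refine ⟨WeakDual.CharacterSpace.toAlgHom φ, fun h0 => ?_⟩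
  have h1 : z = 0 := by rw [← hφ]; exact h0
  rw [h1] at hzr
  have h2 : spectralRadius ℂ h = 0 := by rw [← hzr]; simp
  rw [h2] at hrad
  have := ENNReal.ofReal_pos.2 hρ
  exact absurd hrad (not_le.2 this)

end MPb7f1cf
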