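import Pool.Agent.Lib_MP_b7f1cf_an.GRchar
import Pool.Agent.Lib_MP_b7f1cf_an.GRspec

/-!
# Continuous characters separate the points of a locally compact abelian group
-/

open MeasureTheory Filter Topology TopologicalSpace
open MeasureTheory.Measure (haar)
open scoped ComplexConjugate ZeroAtInfty BoundedContinuousFunction Pointwise

noncomputable section

namespace MPb7f1cf

variable {G : Type*} [CommGroup G] [TopologicalSpace G] [IsTopologicalGroup G]
  [LocallyCompactSpace G] [T2Space G]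

/-- compactly supported measures -/
def MG.KS (Λ : MG G) : Prop := ∃ K : Set G, IsCompact K ∧ Λ.SuppIn K

theorem MG.KS.add {Λ Λ' : MG G} (h : Λ.KS) (h' : Λ'.KS) : (Λ + Λ').KS := by
  obtain ⟨K, hK, hs⟩ := h
  obtain ⟨K', hK', hs'⟩ := h'
  exact ⟨K ∪ K', hK.union hK', (hs.mono Set.subset_union_left).add (hs'.mono Set.subset_union_right)⟩

theorem MG.KS.smul {Λ : MG G} (h : Λ.KS) (a : ℂ) : (a • Λ).KS := by
  obtain ⟨K, hK, hs⟩ := h
  exact ⟨K, hK, hs.smul a⟩

theorem MG.KS.mul {Λ Λ' : MG G} (h : Λ.KS) (h' : Λ'.KS) : (Λ * Λ').KS := by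
  obtain ⟨K, hK, hs⟩ := h
  obtain ⟨K', hK', hs'⟩ := h'
  exact ⟨K * K', hK.mul hK', hs.mul hs'⟩

theorem MG.KS.dirac (x : G) : (MG.dirac x : MG G).KS :=
  ⟨{x}, isCompact_singleton, fun f hf => hf x rfl⟩

theorem MG.KS.one : (1 : MG G).KS := by rw [← MG.dirac_one_eq]; exact MG.KS.dirac 1

theorem MG.KS.pow {Λ : MG G} (h : Λ.KS) (n : ℕ) : (Λ ^ n).KS := by
  induction n with
  | zero => rw [pow_zero]; exact MG.KS.one
  | succ n ih => rw [pow_succ]; exact ih.mul h

theorem MG.KS.convFun {Λ : MG G} (h : Λ.KS) {f : C₀(G, ℂ)} (hf : HasCompactSupport f) :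
    HasCompactSupport (Λ.convFun f) := by
  obtain ⟨K, hK, hs⟩ := h
  refine HasCompactSupport.intro (K := tsupport f * K⁻¹) (IsCompact.mul hf hK.inv) fun x hx => ?_
  rw [MG.convFun_apply]
  refine hs _ fun z hz => ?_
  rw [tr_apply]
  refine image_eq_zero_of_notMem_tsupport fun h => hx ?_
  exact ⟨x * z, h, z⁻¹, by simpa using hz, by simp⟩

variable [MeasurableSpace G] [BorelSpace G]

/-- the inner product `∫ f conj g` -/
def ip (f g : C₀(G, ℂ)) : ℂ := ∫ x, f x * conj (g x) ∂haar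

/-- the square of the `L²` norm -/
def nq (f : C₀(G, ℂ)) : ℝ := ∫ x, ‖f x‖ ^ 2 ∂haar

theorem integrable_ip {f g : C₀(G, ℂ)} (hf : HasCompactSupport f) :
    Integrable (fun x => f x * conj (g x)) (haar : Measure G) := by
  have hc : Continuous fun x => f x * conj (g x) :=
    (map_continuous f).mul (Complex.continuous_conj.comp (map_continuous g))
  exact hc.integrable_of_hasCompactSupport hf.mul_right

theorem integrable_nq {f : C₀(G, ℂ)} (hf : HasCompactSupport f) :
    Integrable (fun x => ‖f x‖ ^ 2) (haar : Measure G) := by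
  have hc : Continuous fun x => ‖f x‖ ^ 2 := (map_continuous f).norm.pow 2
  refine hc.integrable_of_hasCompactSupport ?_
  exact hf.comp_left (g := fun z : ℂ => ‖z‖ ^ 2) (by simp)

theorem ip_self (f : C₀(G, ℂ)) : ip f f = (nq f : ℂ) := by
  rw [ip, nq, ← integral_complex_ofReal]
  congr 1
  ext x
  rw [Complex.mul_conj, Complex.normSq_eq_norm_sq]

theorem ip_add_left {f f' g : C₀(G, ℂ)} (hf : HasCompactSupport f) (hf' : HasCompactSupport f') :
    ip (f + f') g = ip f g + ip f' g := by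
  rw [ip, ip, ip, ← integral_add (integrable_ip hf) (integrable_ip hf')]
  congr 1; ext x; simp [add_mul]

theorem ip_smul_left (a : ℂ) (f g : C₀(G, ℂ)) : ip (a • f) g = a * ip f g := by
  rw [ip, ip, ← integral_const_mul]
  congr 1; ext x; simp [mul_assoc]

theorem ip_conj (f g : C₀(G, ℂ)) : conj (ip f g) = ip g f := by
  rw [ip, ip, ← integral_conj]
  congr 1; ext x; simp [mul_comm]

theorem ip_add_right {f g g' : C₀(G, ℂ)} (hg : HasCompactSupport g) (hg' : HasCompactSupport g') :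
    ip f (g + g') = ip f g + ip f g' := by
  rw [← ip_conj, ip_add_left hg hg', map_add, ip_conj, ip_conj]

theorem ip_smul_right (a : ℂ) (f g : C₀(G, ℂ)) : ip f (a • g) = conj a * ip f g := by
  rw [← ip_conj, ip_smul_left, map_mul, ip_conj]

/-- Cauchy-Schwarz -/
theorem ip_cs {f g : C₀(G, ℂ)} (hf : HasCompactSupport f) (hg : HasCompactSupport g) :
    (ip f g).re ^ 2 ≤ nq f * nq g := by
  have h1 : ∀ t : ℝ, 0 ≤ nq f * (t * t) + (2 * (ip f g).re) * t + nq g := by
    intro t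
    have h2 : nq f * (t * t) + (2 * (ip f g).re) * t + nq g =
        ∫ x, ‖(t : ℂ) * f x + g x‖ ^ 2 ∂haar := by
      have h3 : ∀ x, ‖(t : ℂ) * f x + g x‖ ^ 2 =
          (t * t) * ‖f x‖ ^ 2 + (2 * t) * (f x * conj (g x)).re + ‖g x‖ ^ 2 := by
        intro x
        rw [← Complex.normSq_eq_norm_sq, ← Complex.normSq_eq_norm_sq, ← Complex.normSq_eq_norm_sq,
          Complex.normSq_add, Complex.normSq_mul, Complex.normSq_ofReal,
          show (t : ℂ) * f x * conj (g x) = (t : ℂ) * (f x * conj (g x)) by ring,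
          Complex.re_ofReal_mul]
        ring
      simp_rw [h3]
      have i1 := (integrable_nq hf).const_mul (t * t)
      have i2 : Integrable (fun x => (2 * t) * (f x * conj (g x)).re) (haar : Measure G) :=
        (integrable_ip (g := g) hf).re.const_mul (2 * t)
      have i3 := integrable_nq hg
      have i12 : Integrable (fun x => (t * t) * ‖f x‖ ^ 2 + (2 * t) * (f x * conj (g x)).re)
        (haar : Measure G) := i1.add i2
      rw [integral_add i12 i3, integral_add i1 i2, integral_const_mul, integral_const_mul]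
      have h4 : ∫ x, (f x * conj (g x)).re ∂(haar : Measure G) = (ip f g).re := by
        rw [ip]
        exact integral_re (integrable_ip (g := g) hf)
      rw [h4, nq, nq]
      ring
    rw [h2]
    exact integral_nonneg fun x => by positivity
  have h5 := discrim_le_zero h1
  rw [discrim] at h5
  nlinarith

theorem norm_ip_le {f g : C₀(G, ℂ)} (hg : HasCompactSupport g) :
    ‖ip f g‖ ≤ ‖f‖ * ∫ x, ‖g x‖ ∂haar := by
  rw [ip, ← integral_const_mul]
  have hi : Integrable (fun x => ‖g x‖) (haar : Measure G) :=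
    (map_continuous g).norm.integrable_of_hasCompactSupport hg.norm
  refine norm_integral_le_of_norm_le (hi.const_mul _) (Eventually.of_forall fun x => ?_)
  rw [norm_mul, RCLike.norm_conj]
  exact mul_le_mul_of_nonneg_right (C0_apply_le f x) (norm_nonneg _)

/-- `Λ'` is an adjoint of `Λ` -/
def Adj (Λ Λ' : MG G) : Prop := ∀ f g : C₀(G, ℂ), HasCompactSupport f → HasCompactSupport g →
  ip (Λ.convFun f) g = ip f (Λ'.convFun g)

theorem Adj.mul {Λ Λ' Θ Θ' : MG G} (h : Adj Λ Λ') (h' : Adj Θ Θ') (hΘ : Θ.KS) (hΛ' : Λ'.KS) :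
    Adj (Λ * Θ) (Λ' * Θ') := by
  intro f g hf hg
  rw [MG.convFun_mul, h _ _ (hΘ.convFun hf) hg, h' _ _ hf (hΛ'.convFun hg), ← MG.convFun_mul,
    mul_comm]

theorem Adj.add {Λ Λ' Θ Θ' : MG G} (h : Adj Λ Λ') (h' : Adj Θ Θ') (h1 : Λ.KS) (h2 : Λ'.KS)
    (h3 : Θ.KS) (h4 : Θ'.KS) : Adj (Λ + Θ) (Λ' + Θ') := by
  intro f g hf hg
  have e1 : (Λ + Θ).convFun f = Λ.convFun f + Θ.convFun f := by ext x; rfl
  have e2 : (Λ' + Θ').convFun g = Λ'.convFun g + Θ'.convFun g := by ext x; rfl
  rw [e1, e2, ip_add_left (h1.convFun hf) (h3.convFun hf),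
    ip_add_right (h2.convFun hg) (h4.convFun hg), h f g hf hg, h' f g hf hg]

theorem Adj.smul {Λ Λ' : MG G} (h : Adj Λ Λ') (a : ℝ) : Adj ((a : ℂ) • Λ) ((a : ℂ) • Λ') := by
  intro f g hf hg
  have e1 : ((a : ℂ) • Λ).convFun f = (a : ℂ) • Λ.convFun f := by ext x; rfl
  have e2 : ((a : ℂ) • Λ').convFun g = (a : ℂ) • Λ'.convFun g := by ext x; rfl
  rw [e1, e2, ip_smul_left, ip_smul_right, h f g hf hg, Complex.conj_ofReal]

theorem Adj.dirac (x : G) : Adj (MG.dirac x : MG G) (MG.dirac x⁻¹) := by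
  intro f g _ _
  rw [ip, ip]
  have h1 := integral_mul_right_eq_self (μ := (haar : Measure G))
    (fun y => f y * conj (g (y * x⁻¹))) x
  simp only [mul_inv_cancel_right] at h1
  exact h1

set_option maxHeartbeats 2000000 in
theorem adj_density {w : G → ℂ} (hw : Continuous w) (hws : HasCompactSupport w)
    (hsymm : ∀ z, w z⁻¹ = conj (w z)) (hwi : Integrable w (haar : Measure G)) :
    Adj (MG.ofDensity haar w hwi) (MG.ofDensity haar w hwi) := by
  intro f g hf hg
  have hF1 : Continuous (fun p : G × G => f (p.1 * p.2) * w p.2 * conj (g p.1)) := by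
    have := map_continuous f
    have := map_continuous g
    fun_prop
  have hF2 : Continuous (fun p : G × G => f p.1 * conj (g (p.1 * p.2)) * conj (w p.2)) := by
    have := map_continuous f
    have := map_continuous g
    fun_prop
  have hK : IsCompact (tsupport g ×ˢ tsupport w) := IsCompact.prod hg hws
  have hK' : IsCompact (tsupport f ×ˢ tsupport w) := IsCompact.prod hf hws
  have hc1 : HasCompactSupport (fun p : G × G => f (p.1 * p.2) * w p.2 * conj (g p.1)) := by
    refine HasCompactSupport.intro hK fun p hp => ?_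
    by_cases h1 : p.1 ∈ tsupport g
    · have h2 : p.2 ∉ tsupport w := fun h2 => hp ⟨h1, h2⟩
      rw [image_eq_zero_of_notMem_tsupport h2]; simp
    · rw [image_eq_zero_of_notMem_tsupport h1]; simp
  have hc2 : HasCompactSupport (fun p : G × G => f p.1 * conj (g (p.1 * p.2)) * conj (w p.2)) := by
    refine HasCompactSupport.intro hK' fun p hp => ?_
    by_cases h1 : p.1 ∈ tsupport f
    · have h2 : p.2 ∉ tsupport w := fun h2 => hp ⟨h1, h2⟩
      rw [image_eq_zero_of_notMem_tsupport h2]; simp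
    · rw [image_eq_zero_of_notMem_tsupport h1]; simp
  have e1 : ip ((MG.ofDensity haar w hwi).convFun f) g =
      ∫ x, ∫ z, f (x * z) * w z * conj (g x) ∂(haar : Measure G) ∂(haar : Measure G) := by
    rw [ip]
    congr 1
    ext x
    rw [integral_mul_const]; rfl
  have e2 : ip f ((MG.ofDensity haar w hwi).convFun g) =
      ∫ x, ∫ z, f x * conj (g (x * z)) * conj (w z) ∂(haar : Measure G) ∂(haar : Measure G) := by
    rw [ip]
    congr 1
    ext x
    have h1 : (MG.ofDensity haar w hwi).convFun g x = ∫ z, g (x * z) * w z ∂(haar : Measure G) := rfl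
    rw [h1, ← integral_conj, ← integral_const_mul]
    congr 1
    ext z
    rw [map_mul, mul_assoc]
  have s1 := integral_integral_swap_of_hasCompactSupport
    (f := fun x z => f (x * z) * w z * conj (g x)) (μ := (haar : Measure G))
    (ν := (haar : Measure G)) hF1 hc1
  have s2 := integral_integral_swap_of_hasCompactSupport
    (f := fun x z => f x * conj (g (x * z)) * conj (w z)) (μ := (haar : Measure G))
    (ν := (haar : Measure G)) hF2 hc2
  rw [e1, e2, s1, s2, ← integral_inv_eq_self (fun z => ∫ x, f x * conj (g (x * z)) * conj (w z) ∂(haar : Measure G))]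
  congr 1
  ext z
  rw [← integral_mul_right_eq_self (fun x => f x * conj (g (x * z⁻¹)) * conj (w z⁻¹)) z]
  congr 1
  ext x
  rw [mul_inv_cancel_right, hsymm, Complex.conj_conj]
  ring

/-! ## the spectral radius argument -/

section radius

variable {h : MG G} (hks : h.KS) (hadj : Adj h h) {ξ : C₀(G, ℂ)} (hξ : HasCompactSupport ξ)

include hks hξ in
theorem hcs_pow (k : ℕ) : HasCompactSupport ((h ^ k).convFun ξ) := (hks.pow k).convFun hξ

include hks hadj hξ in
theorem ip_pow (j k : ℕ) :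
    ip ((h ^ j).convFun ξ) ((h ^ k).convFun ξ) = ip ((h ^ (j + k)).convFun ξ) ξ := by
  induction k generalizing j with
  | zero => rw [pow_zero, MG.convFun_one, add_zero]
  | succ k ih =>
    rw [pow_succ', MG.convFun_mul, ← hadj _ _ (hcs_pow hks hξ j) (hcs_pow hks hξ k),
      ← MG.convFun_mul, ← pow_succ', ih (j + 1)]
    congr 3
    ring

include hks hadj hξ in
theorem nq_pow_le (k : ℕ) :
    nq ((h ^ k).convFun ξ) ≤ ‖h ^ (2 * k)‖ * (‖ξ‖ * ∫ x, ‖ξ x‖ ∂haar) := by
  have h1 := ip_pow hks hadj hξ k k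
  rw [ip_self] at h1
  have h2 : nq ((h ^ k).convFun ξ) = (ip ((h ^ (k + k)).convFun ξ) ξ).re := by
    rw [← h1, Complex.ofReal_re]
  rw [h2]
  refine (Complex.re_le_norm _).trans ((norm_ip_le hξ).trans ?_)
  rw [← two_mul, ← mul_assoc]
  exact mul_le_mul_of_nonneg_right ((h ^ (2 * k)).norm_convFun_le ξ)
    (integral_nonneg fun _ => norm_nonneg _)

include hks hadj hξ in
theorem nq_pow_sq_le (k : ℕ) :
    nq ((h ^ k).convFun ξ) ^ 2 ≤ nq ((h ^ (2 * k)).convFun ξ) * nq ξ := by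
  have h1 := ip_pow hks hadj hξ k k
  rw [ip_self] at h1
  have h2 : nq ((h ^ k).convFun ξ) = (ip ((h ^ (k + k)).convFun ξ) ξ).re := by
    rw [← h1, Complex.ofReal_re]
  rw [h2, ← two_mul]
  exact ip_cs (hcs_pow hks hξ _) hξ

include hks hadj hξ in
/-- a self-adjoint compactly supported measure with `h ξ ≠ 0` is not quasinilpotent -/
theorem exists_algHom_of_selfAdjoint (h0 : 0 < nq ξ) (h1 : 0 < nq (h.convFun ξ)) :
    ∃ φ : MG G →ₐ[ℂ] ℂ, φ h ≠ 0 := by
  set ρ := nq (h.convFun ξ) / nq ξ with hρ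
  have hρ0 : 0 < ρ := div_pos h1 h0
  have hgr : ∀ n : ℕ, nq ξ * ρ ^ (2 ^ n) ≤ nq ((h ^ (2 ^ n)).convFun ξ) := by
    intro n
    induction n with
    | zero =>
      rw [pow_zero, pow_one, pow_one, hρ, mul_div_cancel₀ _ h0.ne']
    | succ n ih =>
      have h2 := nq_pow_sq_le hks hadj hξ (2 ^ n)
      rw [← pow_succ'] at h2
      have h3 : (nq ξ * ρ ^ (2 ^ n)) ^ 2 ≤ nq ((h ^ (2 ^ n)).convFun ξ) ^ 2 :=
        pow_le_pow_left₀ (by positivity) ih 2
      have h4 : (nq ξ * ρ ^ (2 ^ n)) ^ 2 = (nq ξ * ρ ^ (2 ^ (n + 1))) * nq ξ := by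
        rw [pow_succ 2 n, pow_mul]; ring
      rw [h4] at h3
      exact le_of_mul_le_mul_right (h3.trans h2) h0
  set C := ‖ξ‖ * ∫ x, ‖ξ x‖ ∂(haar : Measure G) with hC
  have hC0 : 0 ≤ C := mul_nonneg (norm_nonneg _) (integral_nonneg fun _ => norm_nonneg _)
  have hgr2 : ∀ n : ℕ, nq ξ / (C + 1) * ρ ^ (2 ^ n) ≤ ‖(h ^ 2) ^ (2 ^ n)‖ := by
    intro n
    have h2 := (hgr n).trans (nq_pow_le hks hadj hξ (2 ^ n))
    rw [← pow_mul, div_mul_eq_mul_div, div_le_iff₀ (by positivity)]
    refine h2.trans ?_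
    have := norm_nonneg (h ^ (2 * 2 ^ n))
    nlinarith
  haveI : Nontrivial (MG G) := NormOneClass.nontrivial
  obtain ⟨φ, hφ⟩ := exists_algHom_of_growth' (h ^ 2) hρ0 (c := nq ξ / (C + 1)) (by positivity) hgr2
  exact ⟨φ, fun h2 => hφ (by rw [map_pow, h2]; norm_num)⟩

end radius

theorem nq_pos {f : C₀(G, ℂ)} (hf : HasCompactSupport f) {x : G} (hx : f x ≠ 0) : 0 < nq f := by
  have hc : Continuous fun x => ‖f x‖ ^ 2 := (map_continuous f).norm.pow 2
  refine hc.integral_pos_of_hasCompactSupport_nonneg_nonzero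
    (hf.comp_left (g := fun z : ℂ => ‖z‖ ^ 2) (by simp)) (fun x => by positivity) (x := x) ?_
  have := norm_pos_iff.2 hx
  positivity

/-- **Gelfand-Raikov** for locally compact abelian groups. -/
theorem exists_character_aux (x : G) (hx : x ≠ 1) : ∃ χ : G →ₜ* Circle, χ x ≠ 1 := by
  -- a small symmetric neighbourhood
  obtain ⟨V₀, hV₀o, hV₀1, hV₀⟩ := exists_open_nhds_one_split
    (show ({x}ᶜ : Set G) ∈ 𝓝 (1 : G) from isOpen_compl_singleton.mem_nhds (by simpa using hx.symm))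
  set V : Set G := V₀ ∩ V₀⁻¹ with hV
  have hVo : IsOpen V := hV₀o.inter hV₀o.inv
  have hV1 : (1 : G) ∈ V := ⟨hV₀1, by simpa using hV₀1⟩
  have hVinv : ∀ z, z ∈ V → z⁻¹ ∈ V := fun z hz => ⟨hz.2, by simpa using hz.1⟩
  have hVV : ∀ y z : G, y ∈ V → z ∈ V → y * z ≠ x := fun y z hy hz => hV₀ y hy.1 z hz.1
  obtain ⟨b, hb1, hb0, hbc, hb01⟩ := exists_continuous_one_zero_of_isCompact
    (isCompact_singleton (x := (1 : G))) hVo.isClosed_compl
    (Set.disjoint_singleton_left.2 (by simpa using hV1))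
  have hbV : ∀ z, z ∉ V → b z = 0 := fun z hz => hb0 hz
  -- the symmetric bump function
  set w : G → ℝ := fun z => b z + b z⁻¹ with hw
  have hwc : Continuous w := by fun_prop
  have hwinv : ∀ z, w z⁻¹ = w z := fun z => by simp [hw, add_comm]
  have hw0 : ∀ z, 0 ≤ w z := fun z => add_nonneg (hb01 z).1 (hb01 z⁻¹).1
  have hwV : ∀ z, z ∉ V → w z = 0 := fun z hz => by
    have h1 : z⁻¹ ∉ V := fun h => hz (by simpa using hVinv _ h)
    simp [hw, hbV z hz, hbV _ h1]
  have hw1 : w 1 ≠ 0 := by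
    have : b 1 = 1 := hb1 rfl
    simp [hw, this]
  have hws : HasCompactSupport w := hbc.add (hbc.comp_homeomorph (Homeomorph.inv G))
  have hwCc : Continuous fun z => (w z : ℂ) := by fun_prop
  have hwCs : HasCompactSupport fun z => (w z : ℂ) := hws.comp_left (g := fun t : ℝ => (t : ℂ)) (by simp)
  have hwi : Integrable (fun z => (w z : ℂ)) (haar : Measure G) :=
    hwCc.integrable_of_hasCompactSupport hwCs
  let ξ : C₀(G, ℂ) := ⟨⟨fun z => (w z : ℂ), hwCc⟩, hwCs.is_zero_at_infty⟩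
  have hξ : HasCompactSupport ξ := hwCs
  have hξapp : ∀ z, ξ z = (w z : ℂ) := fun z => rfl
  set h₀ : MG G := MG.ofDensity haar (fun z => (w z : ℂ)) hwi with hh₀
  have hh₀ks : h₀.KS := ⟨tsupport w, hws, fun f hf => by
    rw [hh₀, MG.ofDensity_apply]
    have : (fun z => f z * (w z : ℂ)) = fun _ => 0 := by
      ext z
      by_cases hz : z ∈ tsupport w
      · rw [hf z hz, zero_mul]
      · rw [image_eq_zero_of_notMem_tsupport hz]; simp
    rw [this]; simp⟩
  have hadj₀ : Adj h₀ h₀ := adj_density hwCc hwCs (fun z => by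
    rw [hwinv, Complex.conj_ofReal]) hwi
  -- the operator `2 - δ_x - δ_{x⁻¹}`
  set A : MG G := ((2 : ℝ) : ℂ) • (1 : MG G) + (((-1 : ℝ) : ℂ) • MG.dirac x + ((-1 : ℝ) : ℂ) • MG.dirac x⁻¹)
    with hA
  have hAks : A.KS := (MG.KS.one.smul _).add (((MG.KS.dirac x).smul _).add ((MG.KS.dirac x⁻¹).smul _))
  have hAadj : Adj A A := by
    have h1 : Adj (1 : MG G) 1 := by
      have := Adj.dirac (1 : G)
      rwa [inv_one, MG.dirac_one_eq] at this
    have h2 : Adj (MG.dirac x⁻¹ : MG G) (MG.dirac x) := by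
      have := Adj.dirac (x⁻¹ : G)
      rwa [inv_inv] at this
    have h3 := ((Adj.dirac x).smul (-1)).add (h2.smul (-1)) ((MG.KS.dirac x).smul _)
      ((MG.KS.dirac x⁻¹).smul _) ((MG.KS.dirac x⁻¹).smul _) ((MG.KS.dirac x).smul _)
    have h4 := (h1.smul 2).add h3 (MG.KS.one.smul _) (MG.KS.one.smul _)
      (((MG.KS.dirac x).smul _).add ((MG.KS.dirac x⁻¹).smul _))
      (((MG.KS.dirac x⁻¹).smul _).add ((MG.KS.dirac x).smul _))
    rwa [add_comm (((-1 : ℝ) : ℂ) • MG.dirac x⁻¹ : MG G)] at h4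
  set h : MG G := A * h₀ with hh
  have hks : h.KS := hAks.mul hh₀ks
  have hadj : Adj h h := hAadj.mul hadj₀ hh₀ks hAks
  have hval : h.convFun ξ 1 = 2 * ((∫ z, w z * w z ∂haar : ℝ) : ℂ) := by
    have e1 : h.convFun ξ 1 = h ξ := by rw [MG.convFun_apply, tr_one]
    have e2 : h ξ = 2 * h₀ (tr 1 ξ) + (-1 * h₀ (tr x ξ) + -1 * h₀ (tr x⁻¹ ξ)) := by
      rw [hh, MG.mul_apply, hA, MG.add_apply, MG.add_apply, MG.smul_apply, MG.smul_apply,
        MG.smul_apply, MG.one_apply, MG.dirac_apply, MG.dirac_apply, MG.convFun_apply,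
        MG.convFun_apply, MG.convFun_apply]
      norm_num
    have e3 : ∀ y : G, (∀ u v : G, u ∈ V → v ∈ V → y * u ≠ v) → h₀ (tr y ξ) = 0 := by
      intro y hy
      rw [hh₀, MG.ofDensity_apply]
      have : (fun z => tr y ξ z * (w z : ℂ)) = fun _ => 0 := by
        ext z
        by_cases hz : z ∈ V
        · have h2 : y * z ∉ V := fun h2 => hy z (y * z) hz h2 rfl
          rw [tr_apply, hξapp, hwV _ h2]; simp
        · rw [hwV z hz]; simp
      rw [this]; simp
    have e4 : h₀ (tr x ξ) = 0 := e3 x fun u v hu hv huv =>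
      hVV v u⁻¹ hv (hVinv u hu) (by rw [← huv]; group)
    have e5 : h₀ (tr x⁻¹ ξ) = 0 := e3 x⁻¹ fun u v hu hv huv =>
      hVV u v⁻¹ hu (hVinv v hv) (by rw [← huv]; group)
    rw [e1, e2, e4, e5, tr_one, hh₀, MG.ofDensity_apply, mul_zero, add_zero, add_zero,
      ← integral_complex_ofReal]
    congr 2
    ext z
    rw [hξapp]; push_cast; rfl
  have hpos : 0 < ∫ z, w z * w z ∂(haar : Measure G) :=
    (hwc.mul hwc).integral_pos_of_hasCompactSupport_nonneg_nonzero (hws.mul_right)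
      (fun z => mul_nonneg (hw0 z) (hw0 z)) (x := 1) (mul_ne_zero hw1 hw1)
  obtain ⟨φ, hφ⟩ := exists_algHom_of_selfAdjoint hks hadj hξ
    (nq_pos hξ (x := 1) (by rw [hξapp]; exact_mod_cast hw1))
    (nq_pos (hks.convFun hξ) (x := 1) (by
      rw [hval]
      exact mul_ne_zero two_ne_zero (by exact_mod_cast hpos.ne')))
  rw [hh, map_mul] at hφ
  have hφA : φ A ≠ 0 := left_ne_zero_of_mul hφ
  have hφh : φ h₀ ≠ 0 := right_ne_zero_of_mul hφ
  refine char_of_algHom φ (MG.ofDensity_mem_transCont _ hwi) hφh fun h1 => hφA ?_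
  have h2 : φ (MG.dirac x⁻¹) = 1 := by
    have h3 : φ (MG.dirac x) * φ (MG.dirac x⁻¹) = 1 := by
      rw [← map_mul, MG.dirac_mul_dirac, mul_inv_cancel, MG.dirac_one_eq, map_one]
    rwa [h1, one_mul] at h3
  rw [hA, map_add, map_add, map_smul, map_smul, map_smul, h1, h2, map_one]
  norm_num

end MPb7f1cf

/-- **Gelfand-Raikov** for locally compact abelian groups: the continuous characters separate
points. -/
theorem MPb7f1cf.exists_character {Q : Type*} [CommGroup Q] [TopologicalSpace Q]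
    [IsTopologicalGroup Q] [LocallyCompactSpace Q] [T2Space Q] (x : Q) (hx : x ≠ 1) :
    ∃ χ : Q →ₜ* Circle, χ x ≠ 1 := by
  borelize Q
  exact MPb7f1cf.exists_character_aux x hx
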