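import Mathlib

/-!
# The interpolation lemma

For every `M` there is `n ≥ M` such that no sequence `h` with `h 0 = 1`, `|h k| ≤ 2^{-k}` satisfies
`∑_{k ≤ m} C(m,k) h k = 0` for all `M ≤ m ≤ n`.
-/

open Filter Topology

namespace MPb7f1cf

/-- Pascal -/
theorem pascal_sum (f : ℕ → ℂ) (m : ℕ) :
    ∑ k ∈ Finset.range (m + 2), ((m + 1).choose k : ℂ) * f k =
      (∑ k ∈ Finset.range (m + 1), (m.choose k : ℂ) * f k) +
      ∑ k ∈ Finset.range (m + 1), (m.choose k : ℂ) * f (k + 1) :=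
  Finset.sum_choose_succ_mul (fun i _ => f i) m

/-- binomial inversion -/
theorem binom_inv (m : ℕ) : ∀ h : ℕ → ℂ,
    ∑ j ∈ Finset.range (m + 1), (m.choose j : ℂ) * ((-1 : ℂ) ^ j *
      ∑ k ∈ Finset.range (j + 1), (j.choose k : ℂ) * h k) = (-1) ^ m * h m := by
  induction m with
  | zero => intro h; simp
  | succ m ih =>
    intro h
    rw [pascal_sum, ih h, pow_succ, mul_neg_one, neg_mul, ← ih (fun k => h (k + 1)), ← ih h,
      ← Finset.sum_add_distrib, ← Finset.sum_neg_distrib]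
    refine Finset.sum_congr rfl fun j _ => ?_
    rw [pascal_sum, pow_succ]
    ring

/-- the case of an infinite sequence -/
theorem interp_infinite (M : ℕ) (h : ℕ → ℂ) (h0 : h 0 = 1) (hb : ∀ k, ‖h k‖ ≤ (1 / 2 : ℝ) ^ k)
    (hz : ∀ m, M ≤ m → ∑ k ∈ Finset.range (m + 1), (m.choose k : ℂ) * h k = 0) : False := by
  set q : ℕ → ℂ := fun j => ∑ k ∈ Finset.range (j + 1), (j.choose k : ℂ) * h k with hq
  let P : Polynomial ℂ := ∑ j ∈ Finset.range M,
    Polynomial.C ((-1) ^ j * q j / (j.factorial : ℂ)) * descPochhammer ℂ j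
  have hP : ∀ m : ℕ, P.eval (m : ℂ) = (-1) ^ m * h m := by
    intro m
    have h1 : ∀ j : ℕ, (descPochhammer ℂ j).eval (m : ℂ) / (j.factorial : ℂ) = (m.choose j : ℂ) := by
      intro j
      rw [descPochhammer_eval_eq_descFactorial, Nat.descFactorial_eq_factorial_mul_choose]
      have : (j.factorial : ℂ) ≠ 0 := by exact_mod_cast Nat.factorial_ne_zero j
      push_cast
      field_simp
    have h2 : P.eval (m : ℂ) = ∑ j ∈ Finset.range M, (m.choose j : ℂ) * ((-1) ^ j * q j) := by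
      rw [Polynomial.eval_finset_sum]
      refine Finset.sum_congr rfl fun j _ => ?_
      rw [Polynomial.eval_mul, Polynomial.eval_C, ← h1 j]
      ring
    rw [h2, ← binom_inv m h]
    -- both sums agree with the sum over `range (max M (m+1))`
    have h3 : ∑ j ∈ Finset.range M, (m.choose j : ℂ) * ((-1) ^ j * q j) =
        ∑ j ∈ Finset.range (max M (m + 1)), (m.choose j : ℂ) * ((-1) ^ j * q j) := by
      refine Finset.sum_subset (Finset.range_mono (le_max_left _ _)) fun j _ hj => ?_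
      have : q j = 0 := hz j (not_lt.1 fun hlt => hj (Finset.mem_range.2 hlt))
      rw [this, mul_zero, mul_zero]
    have h4 : ∑ j ∈ Finset.range (m + 1), (m.choose j : ℂ) * ((-1) ^ j * q j) =
        ∑ j ∈ Finset.range (max M (m + 1)), (m.choose j : ℂ) * ((-1) ^ j * q j) := by
      refine Finset.sum_subset (Finset.range_mono (le_max_right _ _)) fun j _ hj => ?_
      have : m.choose j = 0 :=
        Nat.choose_eq_zero_of_lt (not_le.1 fun hle => hj (Finset.mem_range.2 (Nat.lt_succ_of_le hle)))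
      rw [this]; simp
    rw [h3, ← h4]
  have hbound : ∀ m : ℕ, ‖P.eval (m : ℂ)‖ ≤ (1 / 2 : ℝ) ^ m := by
    intro m
    rw [hP, norm_mul, norm_pow, norm_neg, norm_one, one_pow, one_mul]
    exact hb m
  have hdeg : ¬ 0 < P.degree := by
    intro hpos
    have h1 : Tendsto (fun m : ℕ => ‖(m : ℂ)‖) atTop atTop := by
      simp only [Complex.norm_natCast]
      exact tendsto_natCast_atTop_atTop
    have h2 := P.tendsto_norm_atTop hpos h1
    obtain ⟨m, hm⟩ := (h2.eventually_gt_atTop 1).exists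
    have h3 : (1 / 2 : ℝ) ^ m ≤ 1 := pow_le_one₀ (by norm_num) (by norm_num)
    linarith [hbound m]
  have hC := Polynomial.eq_C_of_degree_le_zero (not_lt.1 hdeg)
  have e0 := hP 0
  have e1 := hbound 1
  rw [hC, Polynomial.eval_C] at e0 e1
  rw [e0, h0] at e1
  norm_num at e1

theorem interp (M : ℕ) : ∃ n, M ≤ n ∧ ¬ ∃ h : ℕ → ℂ, h 0 = 1 ∧ (∀ k, ‖h k‖ ≤ (1 / 2 : ℝ) ^ k) ∧
    ∀ m, M ≤ m → m ≤ n → ∑ k ∈ Finset.range (m + 1), (m.choose k : ℂ) * h k = 0 := by
  by_contra hcon
  push_neg at hcon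
  -- the compact sets
  let K : Set (ℕ → ℂ) := Set.univ.pi fun k => Metric.closedBall (0 : ℂ) ((1 / 2 : ℝ) ^ k)
  have hK : IsCompact K := isCompact_univ_pi fun k => isCompact_closedBall _ _
  let A : ℕ → Set (ℕ → ℂ) := fun n => K ∩ ({h | h 0 = 1} ∩
    {h | ∀ m, M ≤ m → m ≤ M + n → ∑ k ∈ Finset.range (m + 1), (m.choose k : ℂ) * h k = 0})
  have hclosed : ∀ n, IsClosed ({h : ℕ → ℂ | h 0 = 1} ∩
    {h | ∀ m, M ≤ m → m ≤ M + n → ∑ k ∈ Finset.range (m + 1), (m.choose k : ℂ) * h k = 0}) := by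
    intro n
    refine IsClosed.inter ?_ ?_
    · exact isClosed_eq (continuous_apply 0) continuous_const
    · simp only [Set.setOf_forall]
      refine isClosed_iInter fun m => isClosed_iInter fun _ => isClosed_iInter fun _ => ?_
      exact isClosed_eq (by fun_prop) continuous_const
  have hne : (⋂ n, A n).Nonempty := by
    refine IsCompact.nonempty_iInter_of_sequence_nonempty_isCompact_isClosed A ?_ ?_ ?_ ?_
    · intro n h hh
      exact ⟨hh.1, hh.2.1, fun m hm hmn => hh.2.2 m hm (by omega)⟩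
    · intro n
      obtain ⟨h, hh0, hhb, hhz⟩ := hcon (M + n) (by omega)
      exact ⟨h, fun k _ => by simpa using hhb k, hh0, hhz⟩
    · exact hK.inter_right (hclosed 0)
    · exact fun n => hK.isClosed.inter (hclosed n)
  obtain ⟨h, hh⟩ := hne
  rw [Set.mem_iInter] at hh
  refine interp_infinite M h (hh 0).2.1 (fun k => ?_) fun m hm => ?_
  · simpa using (hh 0).1 k (Set.mem_univ k)
  · exact (hh m).2.2 m hm (by omega)

end MPb7f1cf
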