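import Pool.Agent.Lib_MP_b7f1cf_an.Pos

/-!
# `L¹(G)` and the ideal of translation continuous measures
-/

open MeasureTheory Filter Topology TopologicalSpace
open MeasureTheory.Measure (haar)
open scoped ComplexConjugate ZeroAtInfty BoundedContinuousFunction Pointwise

set_option linter.unusedSectionVars false

noncomputable section

namespace MPb7f1cf

variable {G : Type*} [CommGroup G] [TopologicalSpace G] [IsTopologicalGroup G]
  [LocallyCompactSpace G] [T2Space G]

/-- the unit mass at `x` -/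
def MG.dirac (x : G) : MG G :=
  MG.mk
    { toFun := fun f => f x
      map_add' := fun f g => rfl
      map_smul' := fun a f => rfl } 1 (fun f => by rw [one_mul]; exact C0_apply_le f x)

@[simp] theorem MG.dirac_apply (x : G) (f : C₀(G, ℂ)) : MG.dirac x f = f x := rfl

theorem MG.norm_dirac_le (x : G) : ‖(MG.dirac x : MG G)‖ ≤ 1 :=
  MG.norm_le zero_le_one fun f => by rw [one_mul]; exact C0_apply_le f x

theorem MG.dirac_mul_apply (x : G) (Λ : MG G) (f : C₀(G, ℂ)) :
    (MG.dirac x * Λ) f = Λ (tr x f) := rfl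

theorem MG.ch_dirac (χ : G →ₜ* Circle) (x : G) :
    MG.bsmul (chb χ) (MG.dirac x : MG G) = ((χ x : Circle) : ℂ) • MG.dirac x := by
  refine MG.ext fun f => ?_
  simp

/-- The ideal of measures whose translates depend norm continuously on the translation. -/
def transCont (G : Type*) [CommGroup G] [TopologicalSpace G] [IsTopologicalGroup G]
    [LocallyCompactSpace G] [T2Space G] : Ideal (MG G) where
  carrier := {Λ | Tendsto (fun x : G => ‖MG.dirac x * Λ - Λ‖) (𝓝 1) (𝓝 0)}
  zero_mem' := by simp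
  add_mem' := by
    intro a b ha hb
    have h := ha.add hb
    rw [add_zero] at h
    refine squeeze_zero (fun x => norm_nonneg _) (fun x => ?_) h
    have : MG.dirac x * (a + b) - (a + b) = (MG.dirac x * a - a) + (MG.dirac x * b - b) := by ring
    rw [this]
    exact norm_add_le _ _
  smul_mem' := by
    intro c a ha
    have h := ha.const_mul ‖c‖
    rw [mul_zero] at h
    refine squeeze_zero (fun x => norm_nonneg _) (fun x => ?_) h
    have : MG.dirac x * (c • a) - c • a = c * (MG.dirac x * a - a) := by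
      rw [smul_eq_mul]; ring
    rw [this]
    exact norm_mul_le _ _

theorem mem_transCont {Λ : MG G} :
    Λ ∈ transCont G ↔ Tendsto (fun x : G => ‖MG.dirac x * Λ - Λ‖) (𝓝 1) (𝓝 0) := Iff.rfl

theorem smul_mem_transCont {Λ : MG G} (c : ℂ) (h : Λ ∈ transCont G) :
    c • Λ ∈ transCont G := by
  rw [← smul_one_mul]
  exact (transCont G).mul_mem_left _ h

theorem ch_mem_transCont (χ : G →ₜ* Circle) {Λ : MG G}
    (h : Λ ∈ transCont G) : MG.bsmul (chb χ) Λ ∈ transCont G := by
  rw [mem_transCont] at *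
  have h1 : Tendsto (fun x : G => ‖(((χ x)⁻¹ : Circle) : ℂ) - 1‖) (𝓝 1) (𝓝 0) := by
    have : Continuous fun x : G => ‖(((χ x)⁻¹ : Circle) : ℂ) - 1‖ := by
      have h2 : Continuous fun x : G => (((χ x)⁻¹ : Circle) : ℂ) :=
        continuous_subtype_val.comp (map_continuous χ).inv
      fun_prop
    have h3 := this.tendsto 1
    simpa using h3
  have h4 := h.add (h1.mul_const ‖MG.bsmul (chb χ) Λ‖)
  rw [zero_mul, add_zero] at h4
  refine squeeze_zero (fun x => norm_nonneg _) (fun x => ?_) h4
  have h5 : MG.dirac x * MG.bsmul (chb χ) Λ - MG.bsmul (chb χ) Λ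
      = (((χ x)⁻¹ : Circle) : ℂ) • MG.bsmul (chb χ) (MG.dirac x * Λ - Λ)
        + ((((χ x)⁻¹ : Circle) : ℂ) - 1) • MG.bsmul (chb χ) Λ := by
    have h6 : MG.bsmul (chb χ) (MG.dirac x * Λ)
        = ((χ x : Circle) : ℂ) • (MG.dirac x * MG.bsmul (chb χ) Λ) := by
      rw [bsmul_chb_mul, MG.ch_dirac, smul_mul_assoc]
    rw [MG.bsmul_sub, h6, smul_sub, smul_smul]
    have h7 : (((χ x)⁻¹ : Circle) : ℂ) * ((χ x : Circle) : ℂ) = 1 := by
      rw [← Circle.coe_mul, inv_mul_cancel, Circle.coe_one]
    rw [h7, one_smul, sub_smul, one_smul]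
    abel
  rw [h5]
  refine (norm_add_le _ _).trans (add_le_add ?_ ?_)
  · rw [norm_smul, Circle.norm_coe, one_mul]
    refine (MG.norm_bsmul_le _ _).trans ?_
    exact mul_le_of_le_one_left (norm_nonneg _) (norm_chb_le χ)
  · rw [norm_smul]

/-- an element which can be approximated in norm by elements of `transCont` is in `transCont` -/
theorem transCont_of_approx {Λ : MG G}
    (h : ∀ ε > 0, ∃ Λ' ∈ transCont G, ‖Λ - Λ'‖ ≤ ε) : Λ ∈ transCont G := by
  rw [mem_transCont, Metric.tendsto_nhds]
  intro ε hε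
  obtain ⟨Λ', hΛ', h1⟩ := h (ε / 4) (by positivity)
  rw [mem_transCont, Metric.tendsto_nhds] at hΛ'
  filter_upwards [hΛ' (ε / 4) (by positivity)] with x hx
  rw [dist_zero_right, norm_norm] at hx ⊢
  have h2 : MG.dirac x * Λ - Λ = MG.dirac x * (Λ - Λ') + (MG.dirac x * Λ' - Λ') - (Λ - Λ') := by
    ring
  rw [h2]
  have h3 : ‖MG.dirac x * (Λ - Λ')‖ ≤ ε / 4 := by
    refine (norm_mul_le _ _).trans ?_
    calc ‖MG.dirac x‖ * ‖Λ - Λ'‖ ≤ 1 * ‖Λ - Λ'‖ :=
          mul_le_mul_of_nonneg_right (MG.norm_dirac_le x) (norm_nonneg _)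
      _ ≤ ε / 4 := by rw [one_mul]; exact h1
  have h4 := norm_sub_le (MG.dirac x * (Λ - Λ') + (MG.dirac x * Λ' - Λ')) (Λ - Λ')
  have h5 := norm_add_le (MG.dirac x * (Λ - Λ')) (MG.dirac x * Λ' - Λ')
  linarith

/-- If each `x i ^ N` is in the ideal then so is the `card * (N - 1) + 1`-st power of the sum. -/
theorem sum_pow_mem {R : Type*} [CommRing R] (I : Ideal R) {ι : Type*} (s : Finset ι) (x : ι → R)
    (N : ℕ) (h : ∀ i ∈ s, x i ^ N ∈ I) :
    ∀ m, s.card * (N - 1) + 1 ≤ m → (∑ i ∈ s, x i) ^ m ∈ I := by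
  classical
  induction s using Finset.induction_on with
  | empty =>
    intro m hm
    rw [Finset.sum_empty, zero_pow (by omega)]
    exact I.zero_mem
  | insert a s ha ih =>
    intro m hm
    rw [Finset.sum_insert ha, add_pow]
    refine I.sum_mem fun k hk => ?_
    rw [Finset.card_insert_of_notMem ha] at hm
    by_cases hkN : N ≤ k
    · have h1 : x a ^ k ∈ I := by
        obtain ⟨j, rfl⟩ := Nat.exists_eq_add_of_le hkN
        rw [pow_add]
        exact I.mul_mem_right _ (h a (Finset.mem_insert_self _ _))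
      exact I.mul_mem_right _ (I.mul_mem_right _ h1)
    · have h2 : (∑ i ∈ s, x i) ^ (m - k) ∈ I := by
        refine ih (fun i hi => h i (Finset.mem_insert_of_mem hi)) _ ?_
        have : (s.card + 1) * (N - 1) = s.card * (N - 1) + (N - 1) := by ring
        omega
      exact I.mul_mem_right _ (I.mul_mem_left _ h2)

section haar

variable [MeasurableSpace G] [BorelSpace G]

/-- `L¹(G)` inside `M(G)`: the measures with an integrable density with respect to Haar measure. -/
def L1 (G : Type*) [CommGroup G] [TopologicalSpace G] [IsTopologicalGroup G]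
    [LocallyCompactSpace G] [MeasurableSpace G] [BorelSpace G] : Set (MG G) :=
  {Λ | ∃ g : G → ℂ, Integrable g haar ∧ ∀ f : C₀(G, ℂ), Λ f = ∫ x, f x * g x ∂haar}

theorem integrable_C0_mul (μ : Measure G) (f : C₀(G, ℂ)) {g : G → ℂ} (hg : Integrable g μ) :
    Integrable (fun x => f x * g x) μ := by
  refine hg.bdd_mul (c := ‖f‖) ?_ ?_
  · exact f.continuous_toFun.aestronglyMeasurable
  · exact Eventually.of_forall fun x => C0_apply_le f x

/-- the measure with integrable density `g` -/
def MG.ofDensity (μ : Measure G) (g : G → ℂ) (hg : Integrable g μ) : MG G :=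
  MG.mk
    { toFun := fun f => ∫ x, f x * g x ∂μ
      map_add' := fun f f' => by
        rw [← integral_add (integrable_C0_mul μ f hg) (integrable_C0_mul μ f' hg)]
        congr 1
        ext x
        simp [add_mul]
      map_smul' := fun c f => by
        simp only [RingHom.id_apply, smul_eq_mul]
        rw [← integral_const_mul]
        congr 1
        ext x
        simp [mul_assoc] } (∫ x, ‖g x‖ ∂μ) (by
    intro f
    change ‖∫ x, f x * g x ∂μ‖ ≤ _
    rw [mul_comm, ← integral_const_mul]
    refine norm_integral_le_of_norm_le (hg.norm.const_mul _) ?_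
    refine Eventually.of_forall fun x => ?_
    rw [norm_mul]
    exact mul_le_mul_of_nonneg_right (C0_apply_le f x) (norm_nonneg _))

theorem MG.ofDensity_apply (μ : Measure G) (g : G → ℂ) (hg : Integrable g μ) (f : C₀(G, ℂ)) :
    MG.ofDensity μ g hg f = ∫ x, f x * g x ∂μ := rfl

theorem MG.norm_ofDensity_le (μ : Measure G) (g : G → ℂ) (hg : Integrable g μ) :
    ‖MG.ofDensity μ g hg‖ ≤ ∫ x, ‖g x‖ ∂μ := by
  refine MG.norm_le (integral_nonneg fun _ => norm_nonneg _) fun f => ?_
  rw [MG.ofDensity_apply, mul_comm, ← integral_const_mul]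
  refine norm_integral_le_of_norm_le (hg.norm.const_mul _) ?_
  refine Eventually.of_forall fun x => ?_
  rw [norm_mul]
  exact mul_le_mul_of_nonneg_right (C0_apply_le f x) (norm_nonneg _)

theorem MG.ofDensity_mem_L1 (g : G → ℂ) (hg : Integrable g haar) :
    MG.ofDensity haar g hg ∈ L1 G := ⟨g, hg, fun _ => rfl⟩

theorem tendsto_translate_L1 (g : G → ℂ) (hg : Integrable g (haar : Measure G)) :
    Tendsto (fun x : G => ∫ y, ‖g (x⁻¹ * y) - g y‖ ∂haar) (𝓝 1) (𝓝 0) := by
  let μ : Measure G := haar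
  let c : C(G, C(G, G)) := (ContinuousMap.mk (fun p : G × G => p.1⁻¹ * p.2) (by fun_prop)).curry
  have hc : ∀ x, MeasurePreserving (c x) μ μ := fun x => measurePreserving_mul_left μ x⁻¹
  have hcont : Continuous fun x : G => Lp.compMeasurePreserving (c x) (hc x) (hg.toL1 g) :=
    Continuous.compMeasurePreservingLp continuous_const c.continuous hc (by norm_num)
  have h1 : ∀ x : G, Integrable (fun y => g (x⁻¹ * y)) μ := fun x => hg.comp_mul_left x⁻¹
  have h2 : ∀ x : G, Lp.compMeasurePreserving (c x) (hc x) (hg.toL1 g)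
      = (h1 x).toL1 (fun y => g (x⁻¹ * y)) := by
    intro x
    exact Lp.toLp_compMeasurePreserving _ (hc x)
  have h3 : Continuous fun x : G =>
      ‖Lp.compMeasurePreserving (c x) (hc x) (hg.toL1 g) - hg.toL1 g‖ :=
    (hcont.sub continuous_const).norm
  have h4 : ∀ x : G, ‖Lp.compMeasurePreserving (c x) (hc x) (hg.toL1 g) - hg.toL1 g‖
      = ∫ y, ‖g (x⁻¹ * y) - g y‖ ∂μ := by
    intro x
    rw [h2, ← Integrable.toL1_sub]
    exact L1.norm_of_fun_eq_integral_norm _
  have h5 := h3.tendsto 1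
  rw [h4 1] at h5
  simp only [inv_one, one_mul, sub_self, norm_zero, integral_zero] at h5
  refine h5.congr fun x => h4 x

theorem MG.ofDensity_mem_transCont (g : G → ℂ) (hg : Integrable g haar) :
    MG.ofDensity haar g hg ∈ transCont G := by
  rw [mem_transCont]
  refine squeeze_zero (fun x => norm_nonneg _) (fun x => ?_) (tendsto_translate_L1 g hg)
  have h5 : Integrable (fun y => g (x⁻¹ * y)) (haar : Measure G) :=
    hg.comp_mul_left x⁻¹
  have h1 : MG.dirac x * MG.ofDensity haar g hg - MG.ofDensity haar g hg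
      = MG.ofDensity haar (fun y => g (x⁻¹ * y) - g y) (h5.sub hg) := by
    refine MG.ext fun f => ?_
    rw [MG.sub_apply, MG.dirac_mul_apply, MG.ofDensity_apply, MG.ofDensity_apply,
      MG.ofDensity_apply]
    have h4 : ∫ y, tr x f y * g y ∂haar = ∫ y, f y * g (x⁻¹ * y) ∂haar := by
      rw [← integral_mul_left_eq_self (fun y => f y * g (x⁻¹ * y)) x]
      simp
    rw [h4, ← integral_sub (integrable_C0_mul _ f h5) (integrable_C0_mul _ f hg)]
    congr 1
    ext y
    ring
  rw [h1]
  exact MG.norm_ofDensity_le _ _ _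

theorem L1_subset_transCont {Λ : MG G} (h : Λ ∈ L1 G) : Λ ∈ transCont G := by
  obtain ⟨g, hg, hΛ⟩ := h
  have : Λ = MG.ofDensity haar g hg := by
    refine MG.ext fun f => ?_
    rw [hΛ, MG.ofDensity_apply]
  rw [this]
  exact MG.ofDensity_mem_transCont g hg

end haar

end MPb7f1cf
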