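import Pool.Agent.Lib_MP_b7f1cf_an.L1

/-!
# A functional dominated by Haar measure on a compact set is in `L¹`
-/

open MeasureTheory Filter Topology TopologicalSpace
open MeasureTheory.Measure (haar)
open scoped ComplexConjugate ZeroAtInfty BoundedContinuousFunction Pointwise

set_option linter.unusedSectionVars false

noncomputable section

namespace MPb7f1cf

variable {G : Type*} [CommGroup G] [TopologicalSpace G] [IsTopologicalGroup G]
  [LocallyCompactSpace G] [T2Space G] [MeasurableSpace G] [BorelSpace G]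

/-- A functional dominated by a bounded multiple of Haar measure on a compact set is in `L¹`. -/
theorem mem_L1_of_bound (Λ : MG G) (C : ℝ) (S : Set G) (hS : IsCompact S)
    (h : ∀ f : C₀(G, ℂ), ‖Λ f‖ ≤ C * ∫ x in S, ‖f x‖ ∂haar) : Λ ∈ L1 G := by
  let ν : Measure G := (haar : Measure G).restrict S
  have hfin : IsFiniteMeasure ν := ⟨by
    rw [Measure.restrict_apply_univ]
    exact hS.measure_lt_top⟩
  have hmem : ∀ f : C₀(G, ℂ), MemLp (fun x => f x) 2 ν := fun f =>
    MemLp.of_bound f.continuous_toFun.aestronglyMeasurable ‖f‖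
      (Eventually.of_forall fun x => C0_apply_le f x)
  -- the linear map into `L²`
  let T : C₀(G, ℂ) →ₗ[ℂ] Lp ℂ 2 ν :=
    { toFun := fun f => (hmem f).toLp
      map_add' := fun f g => by
        rw [← MemLp.toLp_add]
        rfl
      map_smul' := fun c f => by
        rw [RingHom.id_apply, ← MemLp.toLp_const_smul]
        rfl }
  have hT : ∀ f, (T f : G → ℂ) =ᵐ[ν] fun x => f x := fun f => (hmem f).coeFn_toLp
  -- the `L¹` norm is controlled by the `L²` norm
  obtain ⟨C', hC', hbound⟩ : ∃ C' : ℝ, 0 ≤ C' ∧ ∀ f, ‖Λ f‖ ≤ C' * ‖T f‖ := by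
    have hu0 : MemLp (fun _ : G => (1 : ℂ)) 2 ν := memLp_const (1 : ℂ)
    let u : Lp ℂ 2 ν := hu0.toLp (fun _ => (1 : ℂ))
    refine ⟨|C| * ‖u‖, by positivity, fun f => ?_⟩
    have h1 : ∫ x, ‖f x‖ ∂ν ≤ ‖u‖ * ‖T f‖ := by
      have hw0 : MemLp (fun x => ((‖f x‖ : ℝ) : ℂ)) 2 ν := by
        refine MemLp.of_bound ?_ ‖f‖ (Eventually.of_forall fun x => ?_)
        · exact (Complex.continuous_ofReal.comp (map_continuous f).norm).aestronglyMeasurable
        · rw [Complex.norm_real, norm_norm]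
          exact C0_apply_le f x
      let w : Lp ℂ 2 ν := hw0.toLp (fun x => ((‖f x‖ : ℝ) : ℂ))
      have hw : (w : G → ℂ) =ᵐ[ν] fun x => ((‖f x‖ : ℝ) : ℂ) := hw0.coeFn_toLp
      have hu : (u : G → ℂ) =ᵐ[ν] fun _ => (1 : ℂ) := hu0.coeFn_toLp
      have h2 : inner ℂ u w = ((∫ x, ‖f x‖ ∂ν : ℝ) : ℂ) := by
        rw [MeasureTheory.L2.inner_def, ← integral_complex_ofReal]
        refine integral_congr_ae ?_
        filter_upwards [hw, hu] with x hx hx'
        rw [hx, hx']
        simp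
      have h3 : ‖w‖ ≤ ‖T f‖ := by
        refine Lp.norm_le_norm_of_ae_le ?_
        filter_upwards [hw, hT f] with x hx hx'
        rw [hx, hx', Complex.norm_real, norm_norm]
      have h4 := norm_inner_le_norm (𝕜 := ℂ) u w
      rw [h2, Complex.norm_real, Real.norm_eq_abs] at h4
      exact (le_abs_self _).trans (h4.trans (mul_le_mul_of_nonneg_left h3 (norm_nonneg _)))
    calc ‖Λ f‖ ≤ C * ∫ x in S, ‖f x‖ ∂haar := h f
      _ ≤ |C| * ∫ x, ‖f x‖ ∂ν :=
        mul_le_mul_of_nonneg_right (le_abs_self C) (integral_nonneg fun _ => norm_nonneg _)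
      _ ≤ |C| * (‖u‖ * ‖T f‖) := mul_le_mul_of_nonneg_left h1 (abs_nonneg _)
      _ = |C| * ‖u‖ * ‖T f‖ := by ring
  -- the functional on the range
  obtain ⟨g, hg⟩ := T.rangeRestrict.exists_rightInverse_of_surjective T.range_rangeRestrict
  have hg' : ∀ v : LinearMap.range T, T (g v) = v := fun v => by
    have := LinearMap.congr_fun hg v
    exact congrArg Subtype.val this
  let Λ' : C₀(G, ℂ) →L[ℂ] ℂ := Λ
  let ℓ : LinearMap.range T →L[ℂ] ℂ := LinearMap.mkContinuous ((Λ' : C₀(G, ℂ) →ₗ[ℂ] ℂ) ∘ₗ g) C' (by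
    intro v
    have h1 := hbound (g v)
    rw [hg'] at h1
    exact h1)
  have hℓ : ∀ f, ℓ ⟨T f, f, rfl⟩ = Λ f := by
    intro f
    have h1 : ‖Λ (g ⟨T f, f, rfl⟩ - f)‖ ≤ C' * ‖T (g ⟨T f, f, rfl⟩ - f)‖ := hbound _
    rw [map_sub T, hg', sub_self, norm_zero, mul_zero, map_sub] at h1
    have h2 := norm_le_zero_iff.1 h1
    exact sub_eq_zero.1 h2
  obtain ⟨L, hL, -⟩ := exists_extension_norm_eq _ ℓ
  let w : Lp ℂ 2 ν := (InnerProductSpace.toDual ℂ (Lp ℂ 2 ν)).symm L
  have hw : ∀ v, inner ℂ w v = L v := fun v => InnerProductSpace.toDual_symm_apply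
  refine ⟨S.indicator fun x => conj (w x), ?_, fun f => ?_⟩
  · rw [integrable_indicator_iff hS.measurableSet]
    have h1 : Integrable (w : G → ℂ) ν := (Lp.memLp w).integrable (by norm_num)
    exact (LinearIsometryEquiv.integrable_comp_iff (RCLike.conjLIE (K := ℂ))).2 h1
  · have h1 : Λ f = inner ℂ w (T f) := by
      rw [hw, ← hℓ f]
      exact (hL ⟨T f, f, rfl⟩).symm
    rw [h1, MeasureTheory.L2.inner_def]
    have h2 : ∀ x, f x * S.indicator (fun x => conj (w x)) x
        = S.indicator (fun x => f x * conj (w x)) x := by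
      intro x
      by_cases hx : x ∈ S
      · simp [hx]
      · simp [hx]
    simp_rw [h2]
    rw [integral_indicator hS.measurableSet]
    refine integral_congr_ae ?_
    filter_upwards [hT f] with x hx
    rw [hx]
    simp [RCLike.inner_apply]

end MPb7f1cf
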