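import Pool.Agent.Lib_MP_b7f1cf_an.Tree

/-!
# The localiser `τ_B` and the pigeonhole argument
-/

open MeasureTheory Filter Topology TopologicalSpace
open scoped ComplexConjugate ZeroAtInfty BoundedContinuousFunction Pointwise

noncomputable section

namespace MPb7f1cf

/-! ## the cubic `ψ(t) = (1 - t) (1 + 2t)² / 2` -/

/-- the cubic `ψ(t) = (1 - t) (1 + 2t)² / 2` -/
def psiR (t : ℝ) : ℝ := (1 - t) * (1 + 2 * t) ^ 2 / 2

theorem psiR_nonneg {t : ℝ} (h : t ≤ 1) : 0 ≤ psiR t := by
  unfold psiR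
  have : 0 ≤ 1 - t := by linarith
  positivity

theorem psiR_add_neg (t : ℝ) : psiR t + psiR (-t) = 1 := by unfold psiR; ring

theorem psiR_le_one {t : ℝ} (h : -1 ≤ t) : psiR t ≤ 1 := by
  have h1 := psiR_nonneg (t := -t) (by linarith)
  have h2 := psiR_add_neg t
  linarith

theorem one_sub_psiR_le {t : ℝ} (h : t ≤ 1) : 1 - psiR t ≤ 4 * (t - 1 / 2) ^ 2 := by
  have h2 := psiR_add_neg t
  have h3 : psiR (-t) ≤ 4 * (t - 1 / 2) ^ 2 := by
    unfold psiR
    have : 0 ≤ (1 - t) * (1 - 2 * t) ^ 2 := by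
      have : 0 ≤ 1 - t := by linarith
      positivity
    nlinarith
  linarith

/-! ## combinations of few characters -/

section comb

variable {G : Type*} [CommGroup G] [TopologicalSpace G] [IsTopologicalGroup G]

/-- `F` is a linear combination of `K` continuous characters -/
def IsComb (K : ℕ) (F : G →ᵇ ℂ) : Prop :=
  ∃ (c : Fin K → ℂ) (ψ : Fin K → (G →ₜ* Circle)), F = ∑ t, c t • chb (ψ t)

theorem IsComb.of_fintype {α : Type*} [Fintype α] {K : ℕ} (hK : Fintype.card α ≤ K)
    (c : α → ℂ) (ψ : α → (G →ₜ* Circle)) : IsComb K (∑ a, c a • chb (ψ a)) := by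
  classical
  obtain ⟨e⟩ : Nonempty (α ↪ Fin K) := Function.Embedding.nonempty_of_card_le (by simpa using hK)
  refine ⟨Function.extend e c 0, Function.extend e ψ 1, ?_⟩
  symm
  rw [← Finset.sum_subset (Finset.subset_univ (Finset.univ.map e))]
  · rw [Finset.sum_map]
    exact Finset.sum_congr rfl fun a _ => by
      rw [e.injective.extend_apply, e.injective.extend_apply]
  · intro i _ hi
    rw [Function.extend_apply']
    · simp
    · rintro ⟨a, rfl⟩
      exact hi (Finset.mem_map_of_mem e (Finset.mem_univ a))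

theorem IsComb.add {K K' : ℕ} {F F' : G →ᵇ ℂ} (h : IsComb K F) (h' : IsComb K' F') :
    IsComb (K + K') (F + F') := by
  obtain ⟨c, ψ, rfl⟩ := h
  obtain ⟨c', ψ', rfl⟩ := h'
  have := IsComb.of_fintype (α := Fin K ⊕ Fin K') (K := K + K') (by simp)
    (Sum.elim c c') (Sum.elim ψ ψ')
  simpa [Fintype.sum_sum_type] using this

theorem chb_mul (ψ ψ' : G →ₜ* Circle) : chb (ψ * ψ') = chb ψ * chb ψ' := by
  ext x; simp

theorem chb_one : chb (1 : G →ₜ* Circle) = 1 := by
  ext x; simp

theorem IsComb.mul {K K' : ℕ} {F F' : G →ᵇ ℂ} (h : IsComb K F) (h' : IsComb K' F') :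
    IsComb (K * K') (F * F') := by
  obtain ⟨c, ψ, rfl⟩ := h
  obtain ⟨c', ψ', rfl⟩ := h'
  have := IsComb.of_fintype (α := Fin K × Fin K') (K := K * K') (by simp)
    (fun p => c p.1 * c' p.2) (fun p => ψ p.1 * ψ' p.2)
  convert this using 1
  rw [Finset.sum_mul_sum, ← Finset.sum_product']
  refine Finset.sum_congr rfl fun p _ => ?_
  rw [chb_mul, smul_mul_smul_comm]

theorem IsComb.smul {K : ℕ} {F : G →ᵇ ℂ} (h : IsComb K F) (a : ℂ) : IsComb K (a • F) := by
  obtain ⟨c, ψ, rfl⟩ := h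
  exact ⟨fun t => a * c t, ψ, by rw [Finset.smul_sum]; simp [smul_smul]⟩

theorem IsComb.one : IsComb 1 (1 : G →ᵇ ℂ) := ⟨fun _ => 1, fun _ => 1, by simp [chb_one]⟩

theorem IsComb.mono {K K' : ℕ} (hK : K ≤ K') {F : G →ᵇ ℂ} (h : IsComb K F) : IsComb K' F := by
  obtain ⟨c, ψ, rfl⟩ := h
  exact IsComb.of_fintype (by simpa using hK) c ψ

theorem IsComb.sum {α : Type*} (s : Finset α) {K : ℕ} {F : α → (G →ᵇ ℂ)}
    (h : ∀ a ∈ s, IsComb K (F a)) : IsComb (s.card * K) (∑ a ∈ s, F a) := by
  classical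
  induction s using Finset.induction_on with
  | empty => exact ⟨fun t => 0, fun t => 1, by simp⟩
  | insert a s ha ih =>
    rw [Finset.sum_insert ha, Finset.card_insert_of_notMem ha, add_mul, one_mul, add_comm (s.card * K)]
    exact (h a (Finset.mem_insert_self a s)).add (ih fun b hb => h b (Finset.mem_insert_of_mem hb))

end comb

/-! ## real averages of characters -/

section avg

variable {G : Type*} [CommGroup G] [TopologicalSpace G] [IsTopologicalGroup G]
    [LocallyCompactSpace G] [T2Space G] [MeasurableSpace G] [BorelSpace G] {ι : Type*}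
    (X : IndepSys G ι)

/-- the real average `|W|⁻¹ ∑_{i ∈ W} Re χ_i` -/
def avR (W : Finset ι) (x : G) : ℝ := (W.card : ℝ)⁻¹ * ∑ i ∈ W, ((X.χ i x : Circle) : ℂ).re

/-- the real average, as a bounded continuous function -/
def avb (W : Finset ι) : G →ᵇ ℂ :=
  ((W.card : ℂ)⁻¹) • ∑ i ∈ W, (1 / 2 : ℂ) • (chb (X.χ i) + chb (X.χ i)⁻¹)

theorem bcfSum_apply {α : Type*} (s : Finset α) (F : α → (G →ᵇ ℂ)) (x : G) :
    (∑ a ∈ s, F a) x = ∑ a ∈ s, F a x := by
  classical
  induction s using Finset.induction_on with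
  | empty => simp
  | insert a s ha ih => rw [Finset.sum_insert ha, Finset.sum_insert ha, ← ih]; rfl

theorem avb_apply (W : Finset ι) (x : G) : avb X W x = (avR X W x : ℂ) := by
  rw [avb, BoundedContinuousFunction.smul_apply, bcfSum_apply, avR]
  push_cast
  rw [smul_eq_mul]
  congr 1
  refine Finset.sum_congr rfl fun i _ => ?_
  rw [BoundedContinuousFunction.smul_apply, BoundedContinuousFunction.add_apply, chb_apply,
    chb_apply]
  have h1 : (((X.χ i)⁻¹ x : Circle) : ℂ) = conj ((X.χ i x : Circle) : ℂ) := by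
    rw [← Circle.coe_inv_eq_conj]; rfl
  rw [h1, Complex.add_conj, smul_eq_mul]
  push_cast; ring

theorem abs_avR_le (W : Finset ι) (x : G) : |avR X W x| ≤ 1 := by
  rw [avR, abs_mul, abs_of_nonneg (by positivity)]
  by_cases hW : W.card = 0
  · simp [hW]
  have h1 : |∑ i ∈ W, ((X.χ i x : Circle) : ℂ).re| ≤ W.card := by
    refine (Finset.abs_sum_le_sum_abs _ _).trans ?_
    calc ∑ i ∈ W, |((X.χ i x : Circle) : ℂ).re| ≤ ∑ i ∈ W, (1 : ℝ) :=
          Finset.sum_le_sum fun i _ => (Complex.abs_re_le_norm _).trans (by rw [Circle.norm_coe])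
      _ = W.card := by simp
  have h2 : (0 : ℝ) < W.card := by positivity
  calc (W.card : ℝ)⁻¹ * |∑ i ∈ W, ((X.χ i x : Circle) : ℂ).re| ≤ (W.card : ℝ)⁻¹ * W.card :=
        mul_le_mul_of_nonneg_left h1 (by positivity)
    _ = 1 := inv_mul_cancel₀ h2.ne'

theorem avb_mem_Trig (W : Finset ι) : (fun x => (avR X W x : ℂ)) ∈ X.Trig W 1 := by
  have h1 : (fun x => (avR X W x : ℂ)) =
      ((W.card : ℂ)⁻¹) • ∑ i ∈ W, (fun x => ((((X.χ i x : Circle) : ℂ).re : ℝ) : ℂ)) := by
    ext x
    rw [avR, Pi.smul_apply, Finset.sum_apply]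
    push_cast; rfl
  rw [h1]
  exact Submodule.smul_mem _ _ (Submodule.sum_mem _ fun i hi => X.re_χ_mem_Trig hi)

theorem isComb_avb (W : Finset ι) : IsComb (2 * W.card) (avb X W) := by
  rw [avb]
  refine IsComb.smul ?_ _
  rw [mul_comm]
  refine IsComb.sum _ fun i _ => IsComb.smul ?_ _
  have h : ∀ ψ : G →ₜ* Circle, IsComb 1 (chb ψ) := fun ψ => ⟨fun _ => 1, fun _ => ψ, by simp⟩
  exact (h _).add (h _)

/-- `ψ(s · avR)`, as a bounded continuous function -/
def psib (s : ℝ) (W : Finset ι) : G →ᵇ ℂ :=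
  (1 / 2 : ℂ) • ((1 + (-s : ℂ) • avb X W) * ((1 + (2 * s : ℂ) • avb X W) * (1 + (2 * s : ℂ) • avb X W)))

theorem psib_apply (s : ℝ) (W : Finset ι) (x : G) : psib X s W x = (psiR (s * avR X W x) : ℂ) := by
  have h1 : (1 : G →ᵇ ℂ) x = 1 := rfl
  simp only [psib, BoundedContinuousFunction.smul_apply, BoundedContinuousFunction.mul_apply,
    BoundedContinuousFunction.add_apply, h1, avb_apply, smul_eq_mul, psiR]
  push_cast
  ring

theorem isComb_psib (s : ℝ) (W : Finset ι) : IsComb ((2 * W.card + 1) ^ 3) (psib X s W) := by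
  have h : ∀ a : ℂ, IsComb (2 * W.card + 1) (1 + a • avb X W) := fun a => by
    rw [add_comm (2 * W.card)]
    exact IsComb.one.add ((isComb_avb X W).smul a)
  have : (2 * W.card + 1) ^ 3 = (2 * W.card + 1) * ((2 * W.card + 1) * (2 * W.card + 1)) := by ring
  rw [this, psib]
  exact ((h _).mul ((h _).mul (h _))).smul _

theorem psib_mem_Trig (s : ℝ) (W : Finset ι) : (fun x => psib X s W x) ∈ X.Trig W 3 := by
  have h : ∀ a : ℂ, (fun x => 1 + a * (avR X W x : ℂ)) ∈ X.Trig W 1 := fun a =>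
    Submodule.add_mem _ (X.one_mem_Trig W 1) (Submodule.smul_mem _ a (avb_mem_Trig X W))
  have h2 := X.Trig_mul (h (-s : ℂ)) (X.Trig_mul (h (2 * s : ℂ)) (h (2 * s : ℂ)))
  have h3 := Submodule.smul_mem _ (1 / 2 : ℂ) h2
  convert h3 using 1
  ext x
  rw [psib_apply, Pi.smul_apply, smul_eq_mul, psiR]
  push_cast; ring

end avg

/-! ## the localiser -/

section tau

variable {G : Type*} [CommGroup G] [TopologicalSpace G] [IsTopologicalGroup G]
    [LocallyCompactSpace G] [T2Space G] [MeasurableSpace G] [BorelSpace G]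
    {n : ℕ → ℕ} (X : IndepSys G (Idx n))

/-- the sign of the `i`-th bit -/
def sgb (v : Bool) : ℝ := if v then 1 else -1

theorem sgb_sq (v : Bool) : sgb v * sgb v = 1 := by cases v <;> norm_num [sgb]

theorem abs_sgb (v : Bool) : |sgb v| = 1 := by cases v <;> norm_num [sgb]

/-- the localiser along the path `ω`, at level `j` -/
def tau : ℕ → (ℕ → Bool) → (G →ᵇ ℂ)
  | 0, _ => 1
  | j + 1, ω => tau j ω * psib X (sgb (ω j)) (mkSet n j (node j ω))

theorem node_congr {j i : ℕ} (hij : i ≤ j) {ω ω' : ℕ → Bool} (h : node j ω = node j ω') :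
    node i ω = node i ω' := by
  ext t
  exact congrFun h ⟨t, lt_of_lt_of_le t.2 hij⟩

theorem apply_congr {j i : ℕ} (hij : i < j) {ω ω' : ℕ → Bool} (h : node j ω = node j ω') :
    ω i = ω' i := congrFun h ⟨i, hij⟩

theorem tau_congr {j : ℕ} {ω ω' : ℕ → Bool} (h : node j ω = node j ω') :
    tau X j ω = tau X j ω' := by
  induction j with
  | zero => rfl
  | succ j ih =>
    rw [tau, tau, ih (node_congr (Nat.le_succ j) h), apply_congr (Nat.lt_succ_self j) h,
      node_congr (Nat.le_succ j) h]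

theorem node_extp {j : ℕ} (B : Fin j → Bool) : node j (extp B) = B := by
  ext i; simp [node, extp]

/-- value of the localiser, as a real number -/
def tauR : ℕ → (ℕ → Bool) → G → ℝ
  | 0, _, _ => 1
  | j + 1, ω, x => tauR j ω x * psiR (sgb (ω j) * avR X (mkSet n j (node j ω)) x)

theorem tau_apply (j : ℕ) (ω : ℕ → Bool) (x : G) : tau X j ω x = (tauR X j ω x : ℂ) := by
  induction j with
  | zero => simp [tau, tauR]
  | succ j ih =>
    rw [tau, tauR, BoundedContinuousFunction.mul_apply, ih, psib_apply]; push_cast; rfl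

theorem abs_sgb_avR (v : Bool) (W : Finset (Idx n)) (x : G) : |sgb v * avR X W x| ≤ 1 := by
  rw [abs_mul, abs_sgb, one_mul]; exact abs_avR_le X W x

theorem tauR_nonneg (j : ℕ) (ω : ℕ → Bool) (x : G) : 0 ≤ tauR X j ω x := by
  induction j with
  | zero => simp [tauR]
  | succ j ih =>
    rw [tauR]
    exact mul_nonneg ih (psiR_nonneg (abs_le.1 (abs_sgb_avR X _ _ x)).2)

theorem tauR_le_one (j : ℕ) (ω : ℕ → Bool) (x : G) : tauR X j ω x ≤ 1 := by
  induction j with
  | zero => simp [tauR]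
  | succ j ih =>
    rw [tauR]
    exact mul_le_one₀ ih (psiR_nonneg (abs_le.1 (abs_sgb_avR X _ _ x)).2)
      (psiR_le_one (abs_le.1 (abs_sgb_avR X _ _ x)).1)

theorem one_sub_tauR_le (j : ℕ) (ω : ℕ → Bool) (x : G) :
    1 - tauR X j ω x ≤ ∑ i ∈ Finset.range j,
      4 * (avR X (mkSet n i (node i ω)) x - sgb (ω i) / 2) ^ 2 := by
  induction j with
  | zero => simp [tauR]
  | succ j ih =>
    rw [Finset.sum_range_succ, tauR]
    set a := avR X (mkSet n j (node j ω)) x
    set s := sgb (ω j)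
    have hs : s * s = 1 := sgb_sq _
    have h1 : |s * a| ≤ 1 := abs_sgb_avR X _ _ x
    have h2 := one_sub_psiR_le (abs_le.1 h1).2
    have h3 : 4 * (s * a - 1 / 2) ^ 2 = 4 * (a - s / 2) ^ 2 := by
      linear_combination (4 * a ^ 2 - 1) * hs
    have h4 := psiR_nonneg (abs_le.1 h1).2
    have h5 := psiR_le_one (abs_le.1 h1).1
    have h6 := tauR_nonneg X j ω x
    have h7 := tauR_le_one X j ω x
    nlinarith

/-- bound for the number of characters in `tau X j ω` -/
def Kc : ℕ → ℕ
  | 0 => 1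
  | j + 1 => Kc j * (2 * Lc j + 1) ^ 3

theorem card_mkSet (j : ℕ) (B : Fin j → Bool) : (mkSet n j B).card = Lc j := by
  rw [mkSet, Finset.card_image_of_injective, Finset.card_univ, Fintype.card_fin]
  intro t t' h
  simp only [mk] at h
  have := Sigma.mk.inj_iff.1 h
  simpa using this

theorem card_wdSet (j : ℕ) (B : Fin j → Bool) (l : ℕ) : (wdSet n j B l).card = Nc n j l := by
  rw [wdSet, Finset.card_image_of_injective, Finset.card_univ, Fintype.card_fin]
  intro t t' h
  simp only [wd] at h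
  have := Sigma.mk.inj_iff.1 h
  simpa using this

theorem isComb_tau (j : ℕ) (ω : ℕ → Bool) : IsComb (Kc j) (tau X j ω) := by
  induction j with
  | zero => exact IsComb.one
  | succ j ih =>
    rw [tau, Kc]
    have h := isComb_psib X (sgb (ω j)) (mkSet n j (node j ω))
    rw [card_mkSet] at h
    exact ih.mul h

/-- the characters used in the localiser -/
def Tset (n : ℕ → ℕ) : ℕ → (ℕ → Bool) → Finset (Idx n)
  | 0, _ => ∅
  | j + 1, ω => Tset n j ω ∪ mkSet n j (node j ω)

theorem mem_Tset {j : ℕ} {ω : ℕ → Bool} {i : Idx n} (h : i ∈ Tset n j ω) :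
    ∃ j' < j, ∃ t, i = mk n j' (node j' ω) t := by
  induction j with
  | zero => simp [Tset] at h
  | succ j ih =>
    rw [Tset, Finset.mem_union] at h
    rcases h with h | h
    · obtain ⟨j', hj', t, ht⟩ := ih h
      exact ⟨j', by omega, t, ht⟩
    · obtain ⟨t, -, ht⟩ := Finset.mem_image.1 h
      exact ⟨j, by omega, t, ht.symm⟩

theorem tau_mem_Trig (j : ℕ) (ω : ℕ → Bool) : (fun x => tau X j ω x) ∈ X.Trig (Tset n j ω) 3 := by
  induction j with
  | zero => exact X.one_mem_Trig _ _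
  | succ j ih =>
    refine X.Trig_mul_disjoint ?_ ih (psib_mem_Trig X _ _)
    rw [Finset.disjoint_left]
    intro i hi hi'
    obtain ⟨j', hj', t, ht⟩ := mem_Tset hi
    obtain ⟨t', -, ht'⟩ := Finset.mem_image.1 hi'
    rw [ht] at ht'
    have : j = j' := congrArg Sigma.fst ht'
    omega

theorem Tset_congr {j : ℕ} {ω ω' : ℕ → Bool} (h : node j ω = node j ω') :
    Tset n j ω = Tset n j ω' := by
  induction j with
  | zero => rfl
  | succ j ih => rw [Tset, Tset, ih (node_congr (Nat.le_succ j) h), node_congr (Nat.le_succ j) h]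

/-- the localiser of a node -/
def tauB (j : ℕ) (B : Fin j → Bool) : G →ᵇ ℂ := tau X j (extp B)

theorem tauR_congr {j : ℕ} {ω ω' : ℕ → Bool} (h : node j ω = node j ω') (x : G) :
    tauR X j ω x = tauR X j ω' x := by
  have h1 := congrArg (fun F : G →ᵇ ℂ => F x) (tau_congr X h)
  simp only [tau_apply] at h1
  exact_mod_cast h1

theorem sum_tauR (j : ℕ) (x : G) : ∑ B : Fin j → Bool, tauR X j (extp B) x = 1 := by
  induction j with
  | zero => simp [tauR]
  | succ j ih =>
    rw [← (Fin.snocEquiv fun _ : Fin (j + 1) => Bool).sum_comp, Fintype.sum_prod_type_right, ← ih]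
    refine Finset.sum_congr rfl fun B _ => ?_
    have h1 : ∀ v : Bool, node j (extp (Fin.snocEquiv (fun _ : Fin (j + 1) => Bool) (v, B))) =
        node j (extp B) := by
      intro v
      ext i
      have hi : (i : ℕ) < j + 1 := Nat.lt_succ_of_lt i.2
      simp only [node, extp, hi, i.2, dite_true]
      exact Fin.snoc_castSucc (α := fun _ => Bool) v B i
    have h2 : ∀ v : Bool, extp (Fin.snocEquiv (fun _ : Fin (j + 1) => Bool) (v, B)) j = v := by
      intro v
      simp only [extp, Nat.lt_succ_self, dite_true]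
      exact Fin.snoc_last (α := fun _ => Bool) v B
    simp only [Fintype.sum_bool, tauR, h1, h2, tauR_congr X (h1 _)]
    rw [← mul_add]
    have h3 : sgb true = 1 := rfl
    have h4 : sgb false = -1 := rfl
    rw [h3, h4, one_mul, neg_one_mul, psiR_add_neg, mul_one]

theorem sum_tauB (j : ℕ) : ∑ B : Fin j → Bool, tauB X j B = 1 := by
  ext x
  rw [bcfSum_apply]
  simp_rw [tauB, tau_apply]
  rw [← Complex.ofReal_sum, sum_tauR]; rfl

end tau

end MPb7f1cf
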