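import Pool.Agent.Lib_MP_b7f1cf_an.Localiser

/-!
# The defect of the localiser, the moments of the windows, and the pigeonhole argument
-/

open MeasureTheory Filter Topology TopologicalSpace
open scoped ComplexConjugate ZeroAtInfty BoundedContinuousFunction Pointwise

noncomputable section

namespace MPb7f1cf

section

variable {G : Type*} [CommGroup G] [TopologicalSpace G] [IsTopologicalGroup G]
    [LocallyCompactSpace G] [T2Space G]

/-- for a family of bounded continuous functions with `∑ |τ_a| ≤ 1`, the pieces `τ_a ξ` of a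
measure have total norm at most `‖ξ‖` -/
theorem sum_norm_bsmul_le {α : Type*} (s : Finset α) (τ : α → (G →ᵇ ℂ))
    (hτ : ∀ x, ∑ a ∈ s, ‖τ a x‖ ≤ 1) (ξ : MG G) : ∑ a ∈ s, ‖MG.bsmul (τ a) ξ‖ ≤ ‖ξ‖ := by
  refine le_of_forall_pos_le_add fun δ hδ => ?_
  have hε : 0 < δ / (s.card + 1) := by positivity
  choose f hf1 hf2 using fun a : α => (MG.bsmul (τ a) ξ).exists_near hε
  choose u hu1 hu2 using fun a : α => exists_unimod (MG.bsmul (τ a) ξ (f a))
  set g : C₀(G, ℂ) := ∑ a ∈ s, u a • bmul (τ a) (f a) with hg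
  have hgn : ‖g‖ ≤ 1 := by
    refine C0_norm_le zero_le_one fun x => ?_
    rw [hg, C0_sum_apply]
    refine (norm_sum_le _ _).trans ((Finset.sum_le_sum fun a _ => ?_).trans (hτ x))
    rw [ZeroAtInftyContinuousMap.smul_apply, bmul_apply, norm_smul, hu1, one_mul, norm_mul]
    exact mul_le_of_le_one_right (norm_nonneg _) ((C0_apply_le _ x).trans (hf1 a))
  have h1 : ξ g = ((∑ a ∈ s, ‖MG.bsmul (τ a) ξ (f a)‖ : ℝ) : ℂ) := by
    rw [hg, map_sum]
    push_cast
    refine Finset.sum_congr rfl fun a _ => ?_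
    rw [map_smul, smul_eq_mul, ← hu2 a, MG.bsmul_apply]
  have h2 : ∑ a ∈ s, ‖MG.bsmul (τ a) ξ (f a)‖ ≤ ‖ξ‖ := by
    have h3 := ξ.le_norm g
    rw [h1, Complex.norm_real, Real.norm_eq_abs,
      abs_of_nonneg (Finset.sum_nonneg fun a _ => norm_nonneg _)] at h3
    nlinarith [norm_nonneg ξ]
  have h3 : ∑ a ∈ s, ‖MG.bsmul (τ a) ξ‖ ≤
      ∑ a ∈ s, (‖MG.bsmul (τ a) ξ (f a)‖ + δ / (s.card + 1)) :=
    Finset.sum_le_sum fun a _ => by linarith [hf2 a]
  rw [Finset.sum_add_distrib, Finset.sum_const, nsmul_eq_mul] at h3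
  have h4 : (s.card : ℝ) * (δ / (s.card + 1)) ≤ δ := by
    rw [mul_div_assoc', div_le_iff₀ (by positivity)]
    nlinarith
  linarith

end

section tau

variable {G : Type*} [CommGroup G] [TopologicalSpace G] [IsTopologicalGroup G]
    [LocallyCompactSpace G] [T2Space G] [MeasurableSpace G] [BorelSpace G]
    {n : ℕ → ℕ} (X : IndepSys G (Idx n))

theorem mkSet_nonempty (j : ℕ) (B : Fin j → Bool) : (mkSet n j B).Nonempty := by
  rw [← Finset.card_pos, card_mkSet]; unfold Lc; positivity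

theorem wdSet_nonempty (j : ℕ) (B : Fin j → Bool) (l : ℕ) : (wdSet n j B l).Nonempty := by
  rw [← Finset.card_pos, card_wdSet]; unfold Nc; positivity

theorem coef_mk {j : ℕ} {ω : ℕ → Bool} {i : Idx n} (hi : i ∈ mkSet n j (node j ω)) :
    coef n ω i = sgb (ω j) / 2 := by
  obtain ⟨t, -, rfl⟩ := Finset.mem_image.1 hi
  simp only [mk, coef, if_true, sgb]
  split_ifs <;> norm_num

theorem coef_wd {j : ℕ} {ω : ℕ → Bool} {l : ℕ} {i : Idx n} (hi : i ∈ wdSet n j (node j ω) l) :
    coef n ω i = bc l := by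
  obtain ⟨t, -, rfl⟩ := Finset.mem_image.1 hi
  simp only [wd, coef, if_true]

theorem mkSet_subset_Tset {j i : ℕ} (hij : i < j) (ω : ℕ → Bool) :
    mkSet n i (node i ω) ⊆ Tset n j ω := by
  induction j with
  | zero => omega
  | succ j ih =>
    rw [Tset]
    rcases Nat.lt_succ_iff_lt_or_eq.1 hij with h | h
    · exact (ih h).trans Finset.subset_union_left
    · subst h; exact Finset.subset_union_right

/-- the defect of the localiser with respect to one Riesz product -/
theorem rz_defect {j : ℕ} {ω : ℕ → Bool} {U : Finset (Idx n)} (hU : Tset n j ω ⊆ U) :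
    ((rz X ω U).ext' (1 - tau X j ω)).re ≤ 1 / 8 := by
  set H : G →ᵇ ℂ := ∑ i ∈ Finset.range j,
    (4 : ℂ) • ((avb X (mkSet n i (node i ω)) - ((sgb (ω i) / 2 : ℝ) : ℂ) • 1) *
      (avb X (mkSet n i (node i ω)) - ((sgb (ω i) / 2 : ℝ) : ℂ) • 1)) with hH
  have hHapp : ∀ x, H x = ((∑ i ∈ Finset.range j,
      4 * (avR X (mkSet n i (node i ω)) x - sgb (ω i) / 2) ^ 2 : ℝ) : ℂ) := by
    intro x
    rw [hH, bcfSum_apply]
    push_cast
    refine Finset.sum_congr rfl fun i _ => ?_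
    have h1 : (1 : G →ᵇ ℂ) x = 1 := rfl
    rw [BoundedContinuousFunction.smul_apply, BoundedContinuousFunction.mul_apply,
      BoundedContinuousFunction.sub_apply, BoundedContinuousFunction.smul_apply, h1, avb_apply,
      smul_eq_mul, smul_eq_mul]
    push_cast; ring
  have h1 : ‖(rz X ω U).ext' (1 - tau X j ω)‖ ≤ ((rz X ω U).ext' H).re := by
    refine (rz_pos X ω U).norm_ext_le fun x => ?_
    have h2 : (1 - tau X j ω) x = ((1 - tauR X j ω x : ℝ) : ℂ) := by
      have h1 : (1 : G →ᵇ ℂ) x = 1 := rfl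
      rw [BoundedContinuousFunction.sub_apply, h1, tau_apply]; push_cast; rfl
    rw [h2, hHapp, Complex.norm_real, Real.norm_eq_abs,
      abs_of_nonneg (by linarith [tauR_le_one X j ω x])]
    exact ⟨one_sub_tauR_le X j ω x, Complex.ofReal_im _⟩
  refine (Complex.re_le_norm _).trans (h1.trans ?_)
  have h3 : ((rz X ω U).ext' H).re = ∑ i ∈ Finset.range j, 4 *
      (X.E (fun x => (((avR X (mkSet n i (node i ω)) x - sgb (ω i) / 2) ^ 2 *
          X.R (coef n ω) U x : ℝ) : ℂ))).re := by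
    rw [hH, map_sum, Complex.re_sum]
    refine Finset.sum_congr rfl fun i _ => ?_
    rw [map_smul, rz_ext, smul_eq_mul]
    have : ((4 : ℂ)) = ((4 : ℝ) : ℂ) := by norm_num
    rw [this, Complex.re_ofReal_mul]
    congr 3
    ext x
    have h1 : (1 : G →ᵇ ℂ) x = 1 := rfl
    rw [BoundedContinuousFunction.mul_apply, BoundedContinuousFunction.sub_apply,
      BoundedContinuousFunction.smul_apply, h1, avb_apply, smul_eq_mul]
    push_cast; ring
  rw [h3]
  have h4 : ∀ i ∈ Finset.range j, 4 *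
      (X.E (fun x => (((avR X (mkSet n i (node i ω)) x - sgb (ω i) / 2) ^ 2 *
          X.R (coef n ω) U x : ℝ) : ℂ))).re ≤ (1 / 16) * (1 / 2) ^ i := by
    intro i hi
    have h5 := X.E_var_le (β := coef n ω) (W := mkSet n i (node i ω)) (U := U)
      ((mkSet_subset_Tset (Finset.mem_range.1 hi) ω).trans hU) (mkSet_nonempty i _)
      (b := sgb (ω i) / 2) (by rw [abs_div, abs_sgb]; norm_num) (fun i' hi' => coef_mk hi')
    have h5' : (X.E (fun x => (((avR X (mkSet n i (node i ω)) x - sgb (ω i) / 2) ^ 2 *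
          X.R (coef n ω) U x : ℝ) : ℂ))).re ≤ (Lc i : ℝ)⁻¹ := by
      rw [← card_mkSet (n := n) i (node i ω)]; exact h5
    refine (mul_le_mul_of_nonneg_left h5' (by norm_num)).trans (le_of_eq ?_)
    rw [Lc]
    push_cast
    rw [pow_add]
    have h7 : (2 : ℝ) ^ i * (1 / 2) ^ i = 1 := by rw [← mul_pow]; norm_num
    have h8 : (0 : ℝ) < 2 ^ i := by positivity
    field_simp
    norm_num
    linear_combination (-64 : ℝ) * h7
  refine (Finset.sum_le_sum h4).trans ?_
  rw [← Finset.mul_sum]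
  have h6 : ∑ i ∈ Finset.range j, (1 / 2 : ℝ) ^ i ≤ 2 := by
    rw [geom_sum_eq (by norm_num)]
    have : 0 ≤ (1 / 2 : ℝ) ^ j := by positivity
    rw [div_le_iff_of_neg (by norm_num)]
    linarith
  linarith

theorem mu_defect (j : ℕ) (B : Fin j → Bool) :
    ((mu X j B).ext' (1 - tauB X j B)).re ≤ (1 / 2) ^ j * (1 / 8) := by
  obtain ⟨k₀, hk₀⟩ := Uf_exhaust n (Tset n j (extp B))
  refine mu_le X k₀ fun k hk ω hω => ?_
  have h1 : node j (extp B) = node j ω := by rw [node_extp, hω]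
  rw [tauB, tau_congr X h1]
  exact rz_defect X (by rw [← Tset_congr h1]; exact hk₀ k hk)

/-- the mass of the localised measure -/
def sB (j : ℕ) (B : Fin j → Bool) : ℝ := ((mu X j B).ext' (tauB X j B)).re

theorem tauB_re_nonneg (j : ℕ) (B : Fin j → Bool) (x : G) :
    0 ≤ (tauB X j B x).re ∧ (tauB X j B x).im = 0 := by
  rw [tauB, tau_apply]
  exact ⟨by rw [Complex.ofReal_re]; exact tauR_nonneg X j _ x, Complex.ofReal_im _⟩

theorem norm_tauB_apply (j : ℕ) (B : Fin j → Bool) (x : G) :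
    ‖tauB X j B x‖ = tauR X j (extp B) x := by
  rw [tauB, tau_apply, Complex.norm_real, Real.norm_eq_abs, abs_of_nonneg (tauR_nonneg X j _ x)]

theorem mu_tauB_eq (j : ℕ) (B : Fin j → Bool) : (mu X j B).ext' (tauB X j B) = (sB X j B : ℂ) := by
  have h := (mu_pos X j B).norm_ext_le (F := tauB X j B) (F' := tauB X j B) fun x => by
    refine ⟨?_, (tauB_re_nonneg X j B x).2⟩
    rw [norm_tauB_apply, tauB, tau_apply, Complex.ofReal_re]
  have h2 : ((mu X j B).ext' (tauB X j B)).im = 0 := by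
    have h3 := Complex.sq_norm ((mu X j B).ext' (tauB X j B))
    rw [Complex.normSq_apply] at h3
    have h4 := Complex.re_le_norm ((mu X j B).ext' (tauB X j B))
    have h5 : ‖(mu X j B).ext' (tauB X j B)‖ = ((mu X j B).ext' (tauB X j B)).re := le_antisymm h h4
    rw [h5] at h3
    nlinarith
  apply Complex.ext
  · rw [sB, Complex.ofReal_re]
  · rw [h2, Complex.ofReal_im]

theorem sB_ge (j : ℕ) (B : Fin j → Bool) : (1 / 2) ^ j * (7 / 8) ≤ sB X j B := by
  have h1 := mu_defect X j B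
  rw [map_sub, Complex.sub_re, mu_mass, Complex.ofReal_re] at h1
  rw [sB]
  linarith

/-- the localised measure `σ_B = τ_B μ_B` -/
def sg (j : ℕ) (B : Fin j → Bool) : MG G := MG.bsmul (tauB X j B) (mu X j B)

theorem sg_pos (j : ℕ) (B : Fin j → Bool) : (sg X j B).Pos :=
  (mu_pos X j B).bsmul (tauB_re_nonneg X j B)

theorem sg_mass (j : ℕ) (B : Fin j → Bool) : (sg X j B).ext' 1 = (sB X j B : ℂ) := by
  rw [sg, MG.ext_bsmul, mul_one, mu_tauB_eq]

theorem wd_notMem_Tset {j : ℕ} {ω : ℕ → Bool} {B : Fin j → Bool} {l : ℕ} {i : Idx n}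
    (hi : i ∈ wdSet n j B l) : i ∉ Tset n j ω := by
  intro h
  obtain ⟨j', hj', t, ht⟩ := mem_Tset h
  obtain ⟨t', -, ht'⟩ := Finset.mem_image.1 hi
  rw [ht] at ht'
  have : j = j' := congrArg Sigma.fst ht'
  omega

theorem sg_moment1 (j : ℕ) (B : Fin j → Bool) (l : ℕ) {i : Idx n} (hi : i ∈ wdSet n j B l) :
    (sg X j B).ext' (chb (X.χ i)) = sB X j B * bc l := by
  rw [sg, MG.ext_bsmul, ← mu_tauB_eq, mul_comm ((mu X j B).ext' _), ← smul_eq_mul (a := ((bc l : ℝ) : ℂ)),
    ← map_smul]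
  obtain ⟨k₀, hk₀⟩ := Uf_exhaust n (insert i (Tset n j (extp B)))
  refine mu_relation X k₀ fun k hk ω hω => ?_
  have h1 : node j (extp B) = node j ω := by rw [node_extp, hω]
  subst hω
  have hU := hk₀ k hk
  rw [rz_ext, rz_ext, tauB, tau_congr X h1]
  rw [Tset_congr h1] at hU
  have h2 := X.E_mul_χ_R (β := coef n ω) (T := Tset n j ω) (U := Uf n k)
    ((Finset.subset_insert _ _).trans hU) (tau_mem_Trig X j ω) (hU (Finset.mem_insert_self _ _))
    (wd_notMem_Tset hi)
  rw [coef_wd hi, ← X.E_smul] at h2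
  calc X.E (fun x => (tau X j ω * chb (X.χ i)) x * (X.R (coef n ω) (Uf n k) x : ℂ))
      = X.E (fun x => tau X j ω x * ((X.χ i x : Circle) : ℂ) * (X.R (coef n ω) (Uf n k) x : ℂ)) := by
        congr 1
    _ = _ := h2
    _ = _ := by
        congr 1
        ext x
        rw [BoundedContinuousFunction.smul_apply, smul_eq_mul]; ring

theorem sg_moment2 (j : ℕ) (B : Fin j → Bool) (l : ℕ) {i i' : Idx n} (hi : i ∈ wdSet n j B l)
    (hi' : i' ∈ wdSet n j B l) (hne : i ≠ i') :
    (sg X j B).ext' (chb (X.χ i) * star (chb (X.χ i'))) = sB X j B * bc l ^ 2 := by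
  rw [sg, MG.ext_bsmul, ← mu_tauB_eq, mul_comm ((mu X j B).ext' _),
    ← smul_eq_mul (a := ((bc l : ℝ) : ℂ) ^ 2), ← map_smul]
  obtain ⟨k₀, hk₀⟩ := Uf_exhaust n (insert i (insert i' (Tset n j (extp B))))
  refine mu_relation X k₀ fun k hk ω hω => ?_
  have h1 : node j (extp B) = node j ω := by rw [node_extp, hω]
  subst hω
  have hU := hk₀ k hk
  rw [rz_ext, rz_ext, tauB, tau_congr X h1]
  rw [Tset_congr h1] at hU
  have h2 := X.E_mul_χ_χ_R (β := coef n ω) (T := Tset n j ω) (U := Uf n k)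
    (((Finset.subset_insert _ _).trans (Finset.subset_insert _ _)).trans hU) (tau_mem_Trig X j ω)
    (hU (Finset.mem_insert_self _ _)) (wd_notMem_Tset hi)
    (hU (Finset.mem_insert_of_mem (Finset.mem_insert_self _ _))) (wd_notMem_Tset hi') hne
  rw [coef_wd hi, coef_wd hi', ← X.E_smul] at h2
  calc X.E (fun x => (tau X j ω * (chb (X.χ i) * star (chb (X.χ i')))) x *
        (X.R (coef n ω) (Uf n k) x : ℂ))
      = X.E (fun x => tau X j ω x * (((X.χ i x : Circle) : ℂ) * conj ((X.χ i' x : Circle) : ℂ)) *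
        (X.R (coef n ω) (Uf n k) x : ℂ)) := by
        congr 1
    _ = _ := h2
    _ = _ := by
        congr 1
        ext x
        rw [BoundedContinuousFunction.smul_apply, smul_eq_mul]; ring

/-- **pigeonhole**: if `ν` is close to `μ`, then in some cell of level `j` the localised `ν` is
relatively close to `σ_B`. -/
theorem pigeon (j : ℕ) (ν : MG G) (hν : ‖ν - muRoot X‖ ≤ 1 / 4) :
    ∃ B : Fin j → Bool, ‖MG.bsmul (tauB X j B) ν - sg X j B‖ ≤ sB X j B / 2 := by
  by_contra hcon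
  push_neg at hcon
  have h1 : ∑ B : Fin j → Bool, sB X j B / 2 ≤
      ∑ B : Fin j → Bool, ‖MG.bsmul (tauB X j B) ν - sg X j B‖ :=
    Finset.sum_le_sum fun B _ => (hcon B).le
  have hcard : (Finset.univ : Finset (Fin j → Bool)).card = 2 ^ j := by simp
  have h2 : (7 / 16 : ℝ) ≤ ∑ B : Fin j → Bool, sB X j B / 2 := by
    calc (7 / 16 : ℝ) = ∑ B : Fin j → Bool, ((1 / 2 : ℝ) ^ j * (7 / 8)) / 2 := by
          rw [Finset.sum_const, hcard, nsmul_eq_mul]
          push_cast
          have : (2 : ℝ) ^ j * (1 / 2) ^ j = 1 := by rw [← mul_pow]; norm_num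
          linear_combination (-(7 / 16) : ℝ) * this
      _ ≤ _ := Finset.sum_le_sum fun B _ => by linarith [sB_ge X j B]
  have h3 : ∀ B : Fin j → Bool, ‖MG.bsmul (tauB X j B) ν - sg X j B‖ ≤
      ‖MG.bsmul (tauB X j B) (ν - muRoot X)‖ +
      ∑ B' ∈ Finset.univ.erase B, ((mu X j B').ext' (tauB X j B)).re := by
    intro B
    have h4 : MG.bsmul (tauB X j B) ν - sg X j B =
        MG.bsmul (tauB X j B) (ν - muRoot X) +
        ∑ B' ∈ Finset.univ.erase B, MG.bsmul (tauB X j B) (mu X j B') := by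
      rw [MG.bsmul_sub, ← mu_sum X j, MG.bsmul_sum, sg,
        ← Finset.add_sum_erase _ _ (Finset.mem_univ B)]
      abel
    rw [h4]
    refine (norm_add_le _ _).trans (add_le_add le_rfl ?_)
    refine (norm_sum_le _ _).trans (Finset.sum_le_sum fun B' _ => ?_)
    have h5 := ((mu_pos X j B').bsmul (tauB_re_nonneg X j B)).norm_le_mass
    rwa [MG.ext_bsmul, mul_one] at h5
  have h4 : ∑ B : Fin j → Bool, ‖MG.bsmul (tauB X j B) (ν - muRoot X)‖ ≤ 1 / 4 := by
    refine (sum_norm_bsmul_le _ _ (fun x => ?_) _).trans hν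
    simp_rw [norm_tauB_apply]
    rw [sum_tauR]
  have h5 : ∑ B : Fin j → Bool, ∑ B' ∈ Finset.univ.erase B, ((mu X j B').ext' (tauB X j B)).re ≤
      1 / 8 := by
    have h6 : ∑ B : Fin j → Bool, ∑ B' ∈ Finset.univ.erase B, ((mu X j B').ext' (tauB X j B)).re =
        ∑ B' : Fin j → Bool, ((mu X j B').ext' (1 - tauB X j B')).re := by
      rw [Finset.sum_comm' (s := Finset.univ) (t := fun B => Finset.univ.erase B)
        (t' := Finset.univ) (s' := fun B' => Finset.univ.erase B')]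
      · refine Finset.sum_congr rfl fun B' _ => ?_
        rw [← sum_tauB X j, ← Finset.add_sum_erase _ _ (Finset.mem_univ B'), add_sub_cancel_left,
          map_sum, Complex.re_sum]
      · intro B B'
        simp [ne_comm]
    rw [h6]
    calc ∑ B' : Fin j → Bool, ((mu X j B').ext' (1 - tauB X j B')).re
        ≤ ∑ B' : Fin j → Bool, (1 / 2 : ℝ) ^ j * (1 / 8) := Finset.sum_le_sum fun B' _ => mu_defect X j B'
      _ = 1 / 8 := by
          rw [Finset.sum_const, hcard, nsmul_eq_mul]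
          push_cast
          have : (2 : ℝ) ^ j * (1 / 2) ^ j = 1 := by rw [← mul_pow]; norm_num
          linear_combination (1 / 8 : ℝ) * this
  have h6 := h1.trans (Finset.sum_le_sum fun B (_ : B ∈ Finset.univ) => h3 B)
  rw [Finset.sum_add_distrib] at h6
  linarith

end tau

end MPb7f1cf
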