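import Pool.Agent.Lib_MP_b7f1cf_an.Ext

/-!
# Positive elements, supports, weak* limits, characters
-/

open MeasureTheory Filter Topology TopologicalSpace
open scoped ComplexConjugate ZeroAtInfty BoundedContinuousFunction Pointwise

noncomputable section

namespace MPb7f1cf

section

variable {G : Type*} [TopologicalSpace G]

/-- the absolute value of `f ∈ C₀` -/
def absf (f : C₀(G, ℂ)) : C₀(G, ℂ) where
  toFun x := (‖f x‖ : ℂ)
  continuous_toFun := Complex.continuous_ofReal.comp (map_continuous f).norm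
  zero_at_infty' := by
    have := (zero_at_infty f).norm
    rw [norm_zero] at this
    have h := (Complex.continuous_ofReal.tendsto 0).comp this
    rw [Complex.ofReal_zero] at h
    exact h

@[simp] theorem absf_apply (f : C₀(G, ℂ)) (x : G) : absf f x = (‖f x‖ : ℂ) := rfl

/-- positivity of a functional, in a form convenient for complex test functions -/
def MG.Pos (Λ : MG G) : Prop := ∀ f : C₀(G, ℂ), ‖Λ f‖ ≤ (Λ (absf f)).re

theorem MG.Pos.nonneg_of {Λ : MG G} (h : Λ.Pos) {g : C₀(G, ℂ)} (hg : ∀ x, 0 ≤ (g x).re ∧ (g x).im = 0) :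
    0 ≤ (Λ g).re := by
  have h1 : absf g = g := by
    ext x
    rw [absf_apply]
    obtain ⟨h0, h1⟩ := hg x
    have : g x = ((g x).re : ℂ) := by
      apply Complex.ext <;> simp [h1]
    rw [this, Complex.norm_real, Real.norm_eq_abs, abs_of_nonneg h0]
  have h2 := h g
  rw [h1] at h2
  exact (norm_nonneg _).trans h2

theorem MG.Pos.add {Λ Λ' : MG G} (h : Λ.Pos) (h' : Λ'.Pos) : (Λ + Λ').Pos := fun f => by
  rw [MG.add_apply, MG.add_apply, Complex.add_re]
  exact (norm_add_le _ _).trans (add_le_add (h f) (h' f))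

theorem MG.Pos.zero : (0 : MG G).Pos := fun f => by simp

theorem MG.Pos.smul {Λ : MG G} (h : Λ.Pos) {a : ℝ} (ha : 0 ≤ a) : ((a : ℂ) • Λ).Pos := fun f => by
  rw [MG.smul_apply, MG.smul_apply, norm_mul, Complex.norm_real, Real.norm_eq_abs, abs_of_nonneg ha,
    Complex.re_ofReal_mul]
  exact mul_le_mul_of_nonneg_left (h f) ha

theorem MG.Pos.sum {α : Type*} {s : Finset α} {Λ : α → MG G} (h : ∀ a ∈ s, (Λ a).Pos) :
    (∑ a ∈ s, Λ a).Pos := by
  classical
  induction s using Finset.induction_on with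
  | empty => simpa using MG.Pos.zero
  | insert a s ha ih =>
    rw [Finset.sum_insert ha]
    exact (h a (Finset.mem_insert_self a s)).add (ih fun b hb => h b (Finset.mem_insert_of_mem hb))

theorem MG.Pos.lim {α : Type*} {l : Filter α} [NeBot l] {Λ : α → MG G} {Λ' : MG G}
    (h : ∀ a, (Λ a).Pos) (hl : ∀ f : C₀(G, ℂ), Tendsto (fun a => Λ a f) l (𝓝 (Λ' f))) : Λ'.Pos :=
  fun f => le_of_tendsto_of_tendsto (hl f).norm
    ((Complex.continuous_re.tendsto _).comp (hl (absf f))) (Eventually.of_forall fun a => h a f)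

variable [LocallyCompactSpace G] [T2Space G]

theorem MG.Pos.bsmul {Λ : MG G} (h : Λ.Pos) {F : G →ᵇ ℂ} (hF : ∀ x, 0 ≤ (F x).re ∧ (F x).im = 0) :
    (MG.bsmul F Λ).Pos := fun f => by
  rw [MG.bsmul_apply, MG.bsmul_apply]
  have : bmul F (absf f) = absf (bmul F f) := by
    ext x
    rw [bmul_apply, absf_apply, absf_apply, bmul_apply, norm_mul, Complex.ofReal_mul]
    congr 1
    obtain ⟨h0, h1⟩ := hF x
    have : F x = ((F x).re : ℂ) := by apply Complex.ext <;> simp [h1]
    rw [this, Complex.norm_real, Real.norm_eq_abs, abs_of_nonneg h0]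
  rw [this]
  exact h _

theorem MG.Pos.norm_ext_le {Λ : MG G} (h : Λ.Pos) {F F' : G →ᵇ ℂ}
    (hF : ∀ x, ‖F x‖ ≤ (F' x).re ∧ (F' x).im = 0) : ‖Λ.ext' F‖ ≤ (Λ.ext' F').re := by
  refine le_of_tendsto_of_tendsto (Λ.tendsto_ext F).norm
    ((Complex.continuous_re.tendsto _).comp (Λ.tendsto_ext F')) (Eventually.of_forall fun K => ?_)
  refine (h _).trans ?_
  have h1 : 0 ≤ (Λ (cmul (cut K) F' - absf (cmul (cut K) F))).re := by
    refine h.nonneg_of fun x => ?_
    rw [ZeroAtInftyContinuousMap.sub_apply, absf_apply, cmul_apply, cmul_apply, norm_mul]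
    obtain ⟨t, h0, h1, ht⟩ := cut_real K x
    rw [ht, Complex.norm_real, Real.norm_eq_abs, abs_of_nonneg h0]
    obtain ⟨h2, h3⟩ := hF x
    constructor
    · simp only [Complex.sub_re, Complex.mul_re, Complex.ofReal_re, Complex.ofReal_im]
      nlinarith
    · simp [h3]
  rw [map_sub, Complex.sub_re] at h1
  simpa using h1

theorem MG.Pos.mass_nonneg {Λ : MG G} (h : Λ.Pos) : 0 ≤ (Λ.ext' 1).re :=
  (norm_nonneg _).trans (h.norm_ext_le (F := 0) (F' := 1) fun x => by simp)

theorem MG.Pos.norm_le_mass {Λ : MG G} (h : Λ.Pos) : ‖Λ‖ ≤ (Λ.ext' 1).re := by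
  refine MG.norm_le h.mass_nonneg fun f => ?_
  rw [← Λ.ext_toBCF]
  have h1 := h.norm_ext_le (F := f.toBCF) (F' := (‖f‖ : ℂ) • (1 : G →ᵇ ℂ)) fun x => by
    constructor
    · simpa using C0_apply_le f x
    · simp
  rw [map_smul, smul_eq_mul, Complex.re_ofReal_mul] at h1
  linarith

/-- `Λ` vanishes on functions vanishing on `S` -/
def MG.SuppIn (S : Set G) (Λ : MG G) : Prop := ∀ f : C₀(G, ℂ), (∀ x ∈ S, f x = 0) → Λ f = 0

omit [LocallyCompactSpace G] [T2Space G] in
theorem MG.SuppIn.mono {S S' : Set G} {Λ : MG G} (h : Λ.SuppIn S) (hS : S ⊆ S') : Λ.SuppIn S' :=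
  fun f hf => h f fun x hx => hf x (hS hx)

omit [LocallyCompactSpace G] [T2Space G] in
theorem MG.SuppIn.add {S : Set G} {Λ Λ' : MG G} (h : Λ.SuppIn S) (h' : Λ'.SuppIn S) :
    (Λ + Λ').SuppIn S := fun f hf => by rw [MG.add_apply, h f hf, h' f hf, add_zero]

omit [LocallyCompactSpace G] [T2Space G] in
theorem MG.SuppIn.smul {S : Set G} {Λ : MG G} (h : Λ.SuppIn S) (a : ℂ) :
    (a • Λ).SuppIn S := fun f hf => by rw [MG.smul_apply, h f hf, mul_zero]

omit [LocallyCompactSpace G] [T2Space G] in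
theorem MG.SuppIn.sum {α : Type*} {s : Finset α} {S : Set G} {Λ : α → MG G}
    (h : ∀ a ∈ s, (Λ a).SuppIn S) : (∑ a ∈ s, Λ a).SuppIn S := fun f hf => by
  rw [MG.sum_apply]; exact Finset.sum_eq_zero fun a ha => h a ha f hf

omit [LocallyCompactSpace G] [T2Space G] in
theorem MG.SuppIn.lim {α : Type*} {l : Filter α} [NeBot l] {S : Set G} {Λ : α → MG G} {Λ' : MG G}
    (h : ∀ a, (Λ a).SuppIn S) (hl : ∀ f : C₀(G, ℂ), Tendsto (fun a => Λ a f) l (𝓝 (Λ' f))) :
    Λ'.SuppIn S := fun f hf =>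
  tendsto_nhds_unique (hl f) (tendsto_const_nhds.congr fun a => (h a f hf).symm)

theorem MG.SuppIn.bsmul {S : Set G} {Λ : MG G} (h : Λ.SuppIn S) (F : G →ᵇ ℂ) :
    (MG.bsmul F Λ).SuppIn S := fun f hf => h _ fun x hx => by rw [bmul_apply, hf x hx, mul_zero]

theorem MG.SuppIn.ext_eq {K : Compacts G} {Λ : MG G} (h : Λ.SuppIn (K : Set G)) (F : G →ᵇ ℂ) :
    Λ.ext' F = Λ (cmul (cut K) F) := by
  refine tendsto_nhds_unique (Λ.tendsto_ext F) (tendsto_const_nhds.congr' ?_)
  filter_upwards [eventually_ge_atTop K] with K' hK'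
  rw [← sub_eq_zero, ← map_sub]
  refine h _ fun x hx => ?_
  rw [ZeroAtInftyContinuousMap.sub_apply, cmul_apply, cmul_apply, cut_one hx, cut_one (hK' hx),
    sub_self]

theorem MG.SuppIn.ext_congr {K : Compacts G} {Λ : MG G} (h : Λ.SuppIn (K : Set G)) {F F' : G →ᵇ ℂ}
    (hF : ∀ x ∈ K, F x = F' x) : Λ.ext' F = Λ.ext' F' := by
  rw [h.ext_eq, h.ext_eq, ← sub_eq_zero, ← map_sub]
  refine h _ fun x hx => ?_
  rw [ZeroAtInftyContinuousMap.sub_apply, cmul_apply, cmul_apply, hF x hx, sub_self]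

theorem MG.ext_lim {α : Type*} {l : Filter α} [NeBot l] {K : Compacts G} {Λ : α → MG G} {Λ' : MG G}
    (h : ∀ a, (Λ a).SuppIn (K : Set G))
    (hl : ∀ f : C₀(G, ℂ), Tendsto (fun a => Λ a f) l (𝓝 (Λ' f))) (F : G →ᵇ ℂ) :
    Tendsto (fun a => (Λ a).ext' F) l (𝓝 (Λ'.ext' F)) := by
  rw [(MG.SuppIn.lim h hl).ext_eq]
  refine (hl _).congr fun a => ((h a).ext_eq F).symm

omit [LocallyCompactSpace G] [T2Space G] in
/-- weak* compactness -/
theorem MG.exists_ulim (U : Ultrafilter ℕ) (Λ : ℕ → MG G) (C : ℝ) (hC : ∀ k, ‖Λ k‖ ≤ C) :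
    ∃ Λ' : MG G, ‖Λ'‖ ≤ C ∧ ∀ f : C₀(G, ℂ), Tendsto (fun k => Λ k f) U (𝓝 (Λ' f)) := by
  have hex : ∀ f : C₀(G, ℂ), ∃ a : ℂ, ‖a‖ ≤ C * ‖f‖ ∧ Tendsto (fun k => Λ k f) U (𝓝 a) := by
    intro f
    have hc : IsCompact (Metric.closedBall (0 : ℂ) (C * ‖f‖)) := isCompact_closedBall _ _
    have hmem : ∀ k, Λ k f ∈ Metric.closedBall (0 : ℂ) (C * ‖f‖) := fun k => by
      rw [mem_closedBall_zero_iff]
      exact ((Λ k).le_norm f).trans (mul_le_mul_of_nonneg_right (hC k) (norm_nonneg _))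
    obtain ⟨a, ha, hle⟩ := hc.ultrafilter_le_nhds (U.map fun k => Λ k f) (by
      rw [Filter.le_principal_iff]
      exact Filter.mem_map.2 (Filter.univ_mem' hmem))
    exact ⟨a, by simpa using ha, hle⟩
  choose L hL1 hL2 using hex
  refine ⟨MG.mk
    { toFun := L
      map_add' := fun f g => by
        refine tendsto_nhds_unique (hL2 (f + g)) ?_
        refine ((hL2 f).add (hL2 g)).congr fun k => ?_
        rw [map_add]
      map_smul' := fun a f => by
        refine tendsto_nhds_unique (hL2 (a • f)) ?_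
        refine ((hL2 f).const_mul a).congr fun k => ?_
        rw [map_smul]; rfl } C hL1, ?_, hL2⟩
  have hC0 : 0 ≤ C := (norm_nonneg _).trans (hC 0)
  exact MG.norm_le hC0 hL1

end

section Group

variable {G : Type*} [CommGroup G] [TopologicalSpace G] [IsTopologicalGroup G]

theorem MG.SuppIn.mul [LocallyCompactSpace G] [T2Space G] {S S' : Set G} {Λ Λ' : MG G}
    (h : Λ.SuppIn S) (h' : Λ'.SuppIn S') : (Λ * Λ').SuppIn (S * S') := fun f hf => by
  rw [MG.mul_apply]
  refine h _ fun x hx => ?_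
  rw [MG.convFun_apply]
  exact h' _ fun y hy => hf _ (Set.mul_mem_mul hx hy)

theorem continuous_coe_circle : Continuous fun z : Circle => (z : ℂ) := by
  have : Isometry fun z : Circle => (z : ℂ) := fun _ _ => rfl
  exact this.continuous

/-- a continuous character as a bounded continuous function -/
def chb (χ : G →ₜ* Circle) : G →ᵇ ℂ :=
  BoundedContinuousFunction.ofNormedAddCommGroup (fun x => ((χ x : Circle) : ℂ))
    (continuous_coe_circle.comp χ.continuous_toFun) 1 (fun x => by rw [Circle.norm_coe])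

@[simp] theorem chb_apply (χ : G →ₜ* Circle) (x : G) : chb χ x = ((χ x : Circle) : ℂ) := rfl

theorem norm_chb_le (χ : G →ₜ* Circle) : ‖chb χ‖ ≤ 1 :=
  (BoundedContinuousFunction.norm_le zero_le_one).2 fun x => by rw [chb_apply, Circle.norm_coe]

theorem btr_chb (χ : G →ₜ* Circle) (y : G) : btr y (chb χ) = ((χ y : Circle) : ℂ) • chb χ := by
  ext x; simp

theorem bsmul_chb_mul [LocallyCompactSpace G] [T2Space G] (χ : G →ₜ* Circle) (Λ Λ' : MG G) :
    MG.bsmul (chb χ) (Λ * Λ') = MG.bsmul (chb χ) Λ * MG.bsmul (chb χ) Λ' := by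
  refine MG.ext fun f => ?_
  rw [MG.bsmul_apply, MG.mul_apply, MG.mul_apply, MG.bsmul_apply]
  congr 1
  ext x
  rw [MG.convFun_apply, bmul_apply, MG.convFun_apply, MG.bsmul_apply, chb_apply, ← smul_eq_mul,
    ← map_smul]
  congr 1
  ext y
  simp [mul_assoc]

theorem bsmul_chb_one [LocallyCompactSpace G] [T2Space G] (χ : G →ₜ* Circle) :
    MG.bsmul (chb χ) (1 : MG G) = 1 := by
  refine MG.ext fun f => ?_
  rw [MG.bsmul_apply, MG.one_apply, MG.one_apply, bmul_apply, chb_apply]; simp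

theorem bsmul_chb_pow [LocallyCompactSpace G] [T2Space G] (χ : G →ₜ* Circle) (Λ : MG G) (n : ℕ) :
    MG.bsmul (chb χ) (Λ ^ n) = (MG.bsmul (chb χ) Λ) ^ n := by
  induction n with
  | zero => simp [bsmul_chb_one]
  | succ n ih => rw [pow_succ, pow_succ, bsmul_chb_mul, ih]

theorem IsUC.add {F F' : G →ᵇ ℂ} (h : IsUC F) (h' : IsUC F') : IsUC (F + F') := by
  have : (fun y : G => btr y (F + F')) = fun y => btr y F + btr y F' := by ext y x; rfl
  rw [IsUC, this]; exact Continuous.add h h'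

theorem IsUC.smul {F : G →ᵇ ℂ} (h : IsUC F) (a : ℂ) : IsUC (a • F) := by
  have : (fun y : G => btr y (a • F)) = fun y => a • btr y F := by ext y x; rfl
  rw [IsUC, this]; exact Continuous.const_smul h a

theorem IsUC.zero : IsUC (0 : G →ᵇ ℂ) := by
  have : (fun y : G => btr y (0 : G →ᵇ ℂ)) = fun y => 0 := by ext y x; rfl
  rw [IsUC, this]; exact continuous_const

theorem IsUC.sum {α : Type*} {s : Finset α} {F : α → (G →ᵇ ℂ)} (h : ∀ a ∈ s, IsUC (F a)) :
    IsUC (∑ a ∈ s, F a) := by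
  classical
  induction s using Finset.induction_on with
  | empty => simpa using IsUC.zero
  | insert a s ha ih =>
    rw [Finset.sum_insert ha]
    exact (h a (Finset.mem_insert_self a s)).add (ih fun b hb => h b (Finset.mem_insert_of_mem hb))

theorem IsUC.chb (χ : G →ₜ* Circle) : IsUC (chb χ) := by
  have : (fun y : G => btr y (MPb7f1cf.chb χ)) = fun y => ((χ y : Circle) : ℂ) • MPb7f1cf.chb χ := by
    ext y x; simp
  rw [IsUC, this]
  exact (continuous_coe_circle.comp χ.continuous_toFun).smul continuous_const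

/-- post-composition with a `1`-Lipschitz bounded function preserves uniform continuity -/
theorem IsUC.comp {F F' : G →ᵇ ℂ} (h : IsUC F) (hF : ∀ x y, ‖F' x - F' y‖ ≤ ‖F x - F y‖) :
    IsUC F' := by
  rw [IsUC, continuous_iff_continuousAt]
  intro y₀
  rw [ContinuousAt, Metric.tendsto_nhds]
  intro ε hε
  have h1 := (continuous_iff_continuousAt.1 h) y₀
  rw [ContinuousAt, Metric.tendsto_nhds] at h1
  filter_upwards [h1 ε hε] with y hy
  refine lt_of_le_of_lt ?_ hy
  rw [BoundedContinuousFunction.dist_le dist_nonneg]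
  intro x
  rw [dist_eq_norm, btr_apply, btr_apply]
  refine (hF _ _).trans ?_
  rw [← dist_eq_norm]
  exact (BoundedContinuousFunction.dist_coe_le_dist (f := btr y F) (g := btr y₀ F) x)

end Group

end MPb7f1cf
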