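import Pool.Agent.Lib_MP_b7f1cf_an.ConvBound
import Pool.Agent.Lib_MP_b7f1cf_an.L1b

/-!
# The measure `μ` lies in the radical of `L¹`
-/

open MeasureTheory Filter Topology TopologicalSpace
open MeasureTheory.Measure (haar)
open scoped ComplexConjugate ZeroAtInfty BoundedContinuousFunction Pointwise

set_option linter.unusedSectionVars false

noncomputable section

namespace MPb7f1cf

section prodbound

variable {G : Type*} [CommGroup G] [TopologicalSpace G] [IsTopologicalGroup G]
  [LocallyCompactSpace G] [T2Space G] [MeasurableSpace G] [BorelSpace G] {ι : Type*}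
  (X : IndepSys G ι)

/-- product of coefficient functions -/
def pc (β0 : ι → ℝ) : List (ι → ℝ) → ι → ℝ
  | [] => β0
  | β :: L => fun i => pc β0 L i * β i

theorem pc_le {β0 : ι → ℝ} {L : List (ι → ℝ)} {i : ι} {t : ℝ} (ht : 0 ≤ t)
    (h0 : |β0 i| ≤ t) (h : ∀ β ∈ L, |β i| ≤ t) : |pc β0 L i| ≤ t ^ (L.length + 1) := by
  induction L with
  | nil => simpa [pc] using h0
  | cons β L ih =>
    simp only [pc, List.length_cons, abs_mul]
    rw [pow_succ]
    exact mul_le_mul (ih fun β' hβ' => h β' (List.mem_cons_of_mem _ hβ'))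
      (h β List.mem_cons_self) (abs_nonneg _) (by positivity)

theorem pc_zero_left {β0 : ι → ℝ} {L : List (ι → ℝ)} {i : ι} (h0 : β0 i = 0) :
    pc β0 L i = 0 := by
  induction L with
  | nil => simpa [pc] using h0
  | cons β L ih => simp [pc, ih]

theorem pc_zero_of_mem {β0 : ι → ℝ} {L : List (ι → ℝ)} {i : ι} {β : ι → ℝ} (hβ : β ∈ L)
    (h0 : β i = 0) : pc β0 L i = 0 := by
  induction L with
  | nil => simp at hβ
  | cons β' L ih =>
    rcases List.mem_cons.1 hβ with rfl | h
    · simp [pc, h0]
    · simp [pc, ih h]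

theorem prod_bound (U : Finset ι) (β0 : ι → ℝ) (h0 : ∀ i, |β0 i| ≤ 1 / 2) :
    ∀ L : List (ι → ℝ), (∀ β ∈ L, ∀ i, |β i| ≤ 1 / 2) → ∀ f : C₀(G, ℂ),
      ‖(dens X (X.R β0 U) (X.R_continuous _ _) *
        (L.map fun β => dens X (X.R β U) (X.R_continuous _ _)).prod) f‖
      ≤ X.c⁻¹ * ∫ x, ‖f x‖ * ((useq X L.length).u x * X.R (pc β0 L) U x) ∂haar := by
  intro L
  induction L with
  | nil =>
    intro _ f
    rw [List.map_nil, List.prod_nil, mul_one]
    exact norm_dens_le X (X.R_continuous _ _) (X.R_nonneg h0 U) f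
  | cons β L ih =>
    intro hL f
    have hL' : ∀ β ∈ L, ∀ i, |β i| ≤ 1 / 2 := fun β' hβ' => hL β' (List.mem_cons_of_mem _ hβ')
    have h1 := conv_step X (Λ := dens X (X.R β0 U) (X.R_continuous _ _) *
        (L.map fun β => dens X (X.R β U) (X.R_continuous _ _)).prod)
      (by have := X.c_pos; positivity) (useq X L.length) (useq X (L.length + 1))
      (fun x hx => useq_succ X _ hx) (pc β0 L) β (fun i => by
        refine (pc_le (t := 1 / 2) (by norm_num) (h0 i) fun β' hβ' => hL' β' hβ' i).trans ?_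
        rw [pow_succ]
        have : (1 / 2 : ℝ) ^ L.length ≤ 1 := pow_le_one₀ (by norm_num) (by norm_num)
        linarith) (hL β List.mem_cons_self) U (ih hL') f
    rw [List.map_cons, List.prod_cons]
    have h2 : dens X (X.R β0 U) (X.R_continuous _ _) *
        (dens X (X.R β U) (X.R_continuous _ _) *
          (L.map fun β => dens X (X.R β U) (X.R_continuous _ _)).prod)
        = dens X (X.R β0 U) (X.R_continuous _ _) *
        (L.map fun β => dens X (X.R β U) (X.R_continuous _ _)).prod
          * dens X (X.R β U) (X.R_continuous _ _) := by ring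
    rw [h2]
    exact h1

end prodbound

/-! ## the weights -/

section weights

variable {n : ℕ → ℕ}

/-- summable majorant of the products of coefficients -/
def wt (n : ℕ → ℕ) (m a : ℕ) : Idx n → ℝ
  | ⟨j, _, Sum.inl _⟩ => if j < m then 1 else 0
  | ⟨j, _, Sum.inr ⟨l, _⟩⟩ => if j < m then bc l ^ a else 0

theorem wt_nonneg (m a : ℕ) (i : Idx n) : 0 ≤ wt n m a i := by
  obtain ⟨j, B, t | ⟨l, t⟩⟩ := i
  · simp only [wt]; split_ifs <;> norm_num
  · simp only [wt]; split_ifs
    · exact pow_nonneg (bc_pos l).le _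
    · exact le_rfl

theorem wt_summable (m a : ℕ) (ha : ∀ j < m, 2 * n j + 2 ≤ a) : Summable (wt n m a) := by
  refine (summable_sigma_of_nonneg (α := ℕ)
    (β := fun j : ℕ => (Fin j → Bool) × (Fin (Lc j) ⊕ Σ l : ℕ, Fin (Nc n j l)))
    (f := wt n m a) (fun p => wt_nonneg m a p)).2 ?_
  constructor
  · intro j
    rw [summable_prod_of_nonneg fun p => wt_nonneg m a ⟨j, p⟩]
    constructor
    · intro B
      refine Summable.sum _ ?_ ?_
      · exact (hasSum_fintype _).summable
      · change Summable (fun q : (Σ l : ℕ, Fin (Nc n j l)) => wt n m a ⟨j, B, Sum.inr q⟩)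
        rw [summable_sigma_of_nonneg fun q => wt_nonneg m a ⟨j, B, Sum.inr q⟩]
        constructor
        · intro l
          exact (hasSum_fintype _).summable
        · by_cases hj : j < m
          · have h1 : (fun l => ∑' y : Fin (Nc n j l), wt n m a ⟨j, B, Sum.inr ⟨l, y⟩⟩)
                = fun l => (Nc n j l : ℝ) * bc l ^ a := by
              ext l
              simp only [wt, if_pos hj]
              rw [tsum_fintype, Finset.sum_const, Finset.card_univ, Fintype.card_fin, nsmul_eq_mul]
            rw [h1]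
            refine Summable.of_nonneg_of_le (fun l => ?_) (fun l => ?_)
              (summable_geometric_of_lt_one (r := 1 / 2) (by norm_num) (by norm_num))
            · exact mul_nonneg (Nat.cast_nonneg _) (pow_nonneg (bc_pos l).le _)
            · have h2 : bc l ^ a ≤ bc l ^ (2 * n j + 2) :=
                pow_le_pow_of_le_one (bc_pos l).le ((bc_le l).trans (by norm_num)) (ha j hj)
              refine (mul_le_mul_of_nonneg_left h2 (Nat.cast_nonneg _)).trans ?_
              have h3 : (Nc n j l : ℝ) * bc l ^ (2 * n j + 2) = (1 / 2) ^ (l + 1) := by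
                rw [Nc, bc]
                push_cast
                rw [← pow_mul, show (l + 1) * (2 * n j + 2) = (l + 1) * (2 * n j + 1) + (l + 1) by
                  ring, pow_add, ← mul_assoc, ← mul_pow]
                norm_num
              rw [h3, pow_succ]
              have : 0 ≤ (1 / 2 : ℝ) ^ l := by positivity
              linarith
          · have h1 : (fun l => ∑' y : Fin (Nc n j l), wt n m a ⟨j, B, Sum.inr ⟨l, y⟩⟩)
                = fun l => 0 := by
              ext l
              simp only [wt, if_neg hj, tsum_zero]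
            rw [h1]
            exact summable_zero
    · exact (hasSum_fintype _).summable
  · refine summable_of_hasFiniteSupport ((Set.finite_Iio m).subset fun j hj => ?_)
    rw [Set.mem_Iio]
    by_contra hjm
    refine hj ?_
    have h1 : ∀ y, wt n m a ⟨j, y⟩ = 0 := by
      rintro ⟨B, t | ⟨l, t⟩⟩
      · simp only [wt, if_neg hjm]
      · simp only [wt, if_neg hjm]
    simp only [h1, tsum_zero]

/-- the coefficients of `ω`, restricted to `V` -/
def modc (n : ℕ → ℕ) (V : Finset (Idx n)) (ω : ℕ → Bool) : Idx n → ℝ :=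
  fun i => if i ∈ V then coef n ω i else 0

theorem abs_modc_le (V : Finset (Idx n)) (ω : ℕ → Bool) (i : Idx n) :
    |modc n V ω i| ≤ 1 / 2 := by
  unfold modc
  split_ifs
  · exact abs_coef_le n ω i
  · norm_num

theorem abs_modc_window_le (V : Finset (Idx n)) (ω : ℕ → Bool) (j : ℕ) (B : Fin j → Bool) (l : ℕ)
    (t : Fin (Nc n j l)) : |modc n V ω ⟨j, B, Sum.inr ⟨l, t⟩⟩| ≤ bc l := by
  unfold modc
  split_ifs
  · simp only [coef]
    split_ifs
    · rw [abs_of_pos (bc_pos l)]
    · rw [abs_zero]; exact (bc_pos l).le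
  · rw [abs_zero]; exact (bc_pos l).le

theorem node_of_coef {ω : ℕ → Bool} {j : ℕ} {B : Fin j → Bool}
    {x : Fin (Lc j) ⊕ Σ l : ℕ, Fin (Nc n j l)} (h : coef n ω ⟨j, B, x⟩ ≠ 0) : node j ω = B := by
  by_contra hne
  apply h
  rcases x with t | ⟨l, t⟩
  · simp only [coef, if_neg hne]
  · simp only [coef, if_neg hne]

theorem node_mono {ω ω' : ℕ → Bool} {m j : ℕ} (hmj : m ≤ j) (h : node j ω = node j ω') :
    node m ω = node m ω' := by
  ext i
  have := congrFun h ⟨i, lt_of_lt_of_le i.2 hmj⟩
  simpa [node] using this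

end weights

section main

variable {G : Type*} [CommGroup G] [TopologicalSpace G] [IsTopologicalGroup G]
  [LocallyCompactSpace G] [T2Space G] [MeasurableSpace G] [BorelSpace G] {n : ℕ → ℕ}
  (X : IndepSys G (Idx n))

theorem R_modc {V U : Finset (Idx n)} (hVU : V ⊆ U) (ω : ℕ → Bool) :
    X.R (coef n ω) V = X.R (modc n V ω) U := by
  ext x
  simp only [IndepSys.R]
  rw [← Finset.prod_subset hVU]
  · refine Finset.prod_congr rfl fun i hi => ?_
    simp only [modc, if_pos hi]
  · intro i _ hi
    simp only [modc, if_neg hi, zero_mul, add_zero]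

theorem rz_eq {V U : Finset (Idx n)} (hVU : V ⊆ U) (ω : ℕ → Bool) :
    rz X ω V = dens X (X.R (modc n V ω) U) (X.R_continuous _ _) := by
  refine MG.ext fun f => ?_
  rw [rz, dens_apply, dens_apply, R_modc X hVU ω]

theorem rz_prod_bound {m a : ℕ} {B B' : Fin m → Bool} (hBB' : B ≠ B')
    (ha : ∀ j < m, 2 * n j + 2 ≤ a)
    (ω0 : ℕ → Bool) (k0 : ℕ) (hω0 : node m ω0 = B) (L : List ((ℕ → Bool) × ℕ))
    (hL : a ≤ L.length + 1) (hB' : ∃ p ∈ L, node m p.1 = B') (f : C₀(G, ℂ)) :
    ‖(rz X ω0 (Uf n k0) * (L.map fun p => rz X p.1 (Uf n p.2)).prod) f‖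
      ≤ (X.c⁻¹ * Real.exp (2 * ∑' i, wt n m a i)) *
        ∫ x, ‖f x‖ * (useq X L.length).u x ∂haar := by
  have hc := X.c_pos
  -- a common stage
  obtain ⟨K, hK0, hK⟩ : ∃ K, k0 ≤ K ∧ ∀ p ∈ L, p.2 ≤ K := by
    clear hL hB'
    induction L with
    | nil => exact ⟨k0, le_rfl, by simp⟩
    | cons q L ih =>
      obtain ⟨K, h1, h2⟩ := ih
      refine ⟨max K q.2, h1.trans (le_max_left _ _), fun p hp => ?_⟩
      rcases List.mem_cons.1 hp with rfl | h
      · exact le_max_right _ _
      · exact (h2 p h).trans (le_max_left _ _)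
  set U := Uf n K with hU
  have e1 : (L.map fun p => rz X p.1 (Uf n p.2)) =
      ((L.map fun p => modc n (Uf n p.2) p.1).map fun β =>
        dens X (X.R β U) (X.R_continuous _ _)) := by
    rw [List.map_map]
    refine List.map_congr_left fun p hp => ?_
    exact rz_eq X (Uf_mono n (hK p hp)) p.1
  rw [e1, rz_eq X (Uf_mono n hK0) ω0]
  set L' := L.map fun p => modc n (Uf n p.2) p.1 with hL'
  have hlen : L'.length = L.length := List.length_map _
  have hbd := prod_bound X U (modc n (Uf n k0) ω0) (abs_modc_le _ _) L' (by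
    intro β hβ i
    obtain ⟨p, -, rfl⟩ := List.mem_map.1 hβ
    exact abs_modc_le _ _ _) f
  refine hbd.trans ?_
  rw [hlen, mul_assoc]
  refine mul_le_mul_of_nonneg_left ?_ (by positivity)
  -- bound of the coefficients
  have hcoef : ∀ i, |pc (modc n (Uf n k0) ω0) L' i| ≤ wt n m a i := by
    intro i
    obtain ⟨j, C, x⟩ := i
    by_cases hj : j < m
    · rcases x with t | ⟨l, t⟩
      · simp only [wt, if_pos hj]
        refine (pc_le (t := 1) zero_le_one ?_ ?_).trans (by simp)
        · exact (abs_modc_le _ _ _).trans (by norm_num)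
        · intro β hβ
          obtain ⟨p, -, rfl⟩ := List.mem_map.1 hβ
          exact (abs_modc_le _ _ _).trans (by norm_num)
      · simp only [wt, if_pos hj]
        refine (pc_le (t := bc l) (bc_pos l).le ?_ ?_).trans ?_
        · exact abs_modc_window_le _ _ _ _ _ _
        · intro β hβ
          obtain ⟨p, -, rfl⟩ := List.mem_map.1 hβ
          exact abs_modc_window_le _ _ _ _ _ _
        · rw [hlen]
          exact pow_le_pow_of_le_one (bc_pos l).le ((bc_le l).trans (by norm_num)) hL
    · have h0 : pc (modc n (Uf n k0) ω0) L' ⟨j, C, x⟩ = 0 := by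
        obtain ⟨p, hp, hpB'⟩ := hB'
        by_cases h1 : modc n (Uf n k0) ω0 ⟨j, C, x⟩ = 0
        · exact pc_zero_left h1
        · refine pc_zero_of_mem (β := modc n (Uf n p.2) p.1) (List.mem_map.2 ⟨p, hp, rfl⟩) ?_
          by_contra h2
          have h3 : coef n ω0 ⟨j, C, x⟩ ≠ 0 := by
            intro h; apply h1; simp only [modc, h, ite_self]
          have h4 : coef n p.1 ⟨j, C, x⟩ ≠ 0 := by
            intro h; apply h2; simp only [modc, h, ite_self]
          have h5 := node_of_coef h3
          have h6 := node_of_coef h4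
          have h7 := node_mono (not_lt.1 hj) (h5.trans h6.symm)
          exact hBB' (hω0.symm.trans (h7.trans hpB'))
      rw [h0, abs_zero]
      exact wt_nonneg m a _
  have hR : ∀ x, X.R (pc (modc n (Uf n k0) ω0) L') U x ≤ Real.exp (2 * ∑' i, wt n m a i) := by
    intro x
    refine (X.R_le (β := pc (modc n (Uf n k0) ω0) L') (fun i => ?_) U x).trans ?_
    · refine (pc_le (t := 1 / 2) (by norm_num) (abs_modc_le _ _ _) fun β hβ => ?_).trans ?_
      · obtain ⟨p, -, rfl⟩ := List.mem_map.1 hβ
        exact abs_modc_le _ _ _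
      · rw [pow_succ]
        have : (1 / 2 : ℝ) ^ L'.length ≤ 1 := pow_le_one₀ (by norm_num) (by norm_num)
        linarith
    · refine Real.exp_le_exp.2 (mul_le_mul_of_nonneg_left ?_ (by norm_num))
      exact (Finset.sum_le_sum fun i _ => hcoef i).trans
        ((wt_summable m a ha).sum_le_tsum _ fun i _ => wt_nonneg m a i)
  rw [← integral_const_mul]
  have hf := map_continuous f
  have hRc := X.R_continuous (pc (modc n (Uf n k0) ω0) L') U
  refine integral_mono ?_ ?_ fun x => ?_
  · refine Continuous.integrable_of_hasCompactSupport (by fun_prop) ?_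
    exact HasCompactSupport.mul_left (useq X L.length).hc.mul_right
  · refine Continuous.integrable_of_hasCompactSupport (by fun_prop) ?_
    exact HasCompactSupport.mul_left (HasCompactSupport.mul_left (useq X L.length).hc)
  · change ‖f x‖ * ((useq X L.length).u x * X.R (pc (modc n (Uf n k0) ω0) L') U x)
      ≤ Real.exp (2 * ∑' i, wt n m a i) * (‖f x‖ * (useq X L.length).u x)
    have h1 := mul_le_mul_of_nonneg_left (hR x)
      (mul_nonneg (norm_nonneg (f x)) ((useq X L.length).h0 x))
    calc ‖f x‖ * ((useq X L.length).u x * X.R (pc (modc n (Uf n k0) ω0) L') U x)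
        = ‖f x‖ * (useq X L.length).u x * X.R (pc (modc n (Uf n k0) ω0) L') U x := by ring
      _ ≤ ‖f x‖ * (useq X L.length).u x * Real.exp (2 * ∑' i, wt n m a i) := h1
      _ = _ := by ring

/-- closure property of `μ_B` -/
theorem mu_good {j : ℕ} {B : Fin j → Bool} {g : C₀(G, ℂ)} {b : ℝ}
    (h : ∀ ω k, node j ω = B → ‖rz X ω (Uf n k) g‖ ≤ b) : ‖mu X j B g‖ ≤ b := by
  have hb : 0 ≤ b := by
    refine (norm_nonneg _).trans (h (extp B) 0 ?_)
    ext i
    simp [node, extp]
  refine le_of_tendsto (mu_tendsto X j B g).norm (Eventually.of_forall fun k => ?_)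
  rw [stg, MG.smul_apply, norm_mul, Complex.norm_real, Real.norm_eq_abs, abs_of_nonneg (by positivity),
    MG.sum_apply]
  have h1 : ‖∑ p ∈ Finset.univ.filter (fun p : Fin k → Bool => node j (extp p) = B),
      rz X (extp p) (Uf n k) g‖ ≤ ∑ p ∈ Finset.univ.filter (fun p : Fin k → Bool =>
        node j (extp p) = B), b :=
    (norm_sum_le _ _).trans (Finset.sum_le_sum fun p hp => h _ _ (Finset.mem_filter.1 hp).2)
  rw [Finset.sum_const, nsmul_eq_mul] at h1
  have h2 : (Finset.univ.filter fun p : Fin k → Bool => node j (extp p) = B).card ≤ 2 ^ k := by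
    refine (Finset.card_le_univ _).trans (le_of_eq ?_)
    simp
  have h3 : ((Finset.univ.filter fun p : Fin k → Bool => node j (extp p) = B).card : ℝ) * b
      ≤ 2 ^ k * b := by
    refine mul_le_mul_of_nonneg_right ?_ hb
    exact_mod_cast h2
  calc (1 / 2 : ℝ) ^ k * _ ≤ (1 / 2 : ℝ) ^ k * (2 ^ k * b) :=
        mul_le_mul_of_nonneg_left (h1.trans h3) (by positivity)
    _ = b := by rw [← mul_assoc, ← mul_pow]; norm_num

theorem good_pow {T : Type*} (s : T → MG G) (μ : MG G)
    (hgood : ∀ (g : C₀(G, ℂ)) (b : ℝ), (∀ t, ‖s t g‖ ≤ b) → ‖μ g‖ ≤ b) (p : ℕ) :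
    ∀ (Θ : MG G) (f : C₀(G, ℂ)) (b : ℝ),
      (∀ L : List T, L.length = p → ‖((L.map s).prod * Θ) f‖ ≤ b) → ‖(μ ^ p * Θ) f‖ ≤ b := by
  induction p with
  | zero =>
    intro Θ f b h
    simpa using h [] rfl
  | succ p ih =>
    intro Θ f b h
    have e : μ ^ (p + 1) * Θ = μ ^ p * (μ * Θ) := by ring
    rw [e]
    refine ih (μ * Θ) f b fun L hL => ?_
    have e2 : (L.map s).prod * (μ * Θ) = μ * ((L.map s).prod * Θ) := by ring
    rw [e2, MG.mul_apply]
    refine hgood _ _ fun t => ?_
    rw [← MG.mul_apply]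
    have e3 : s t * ((L.map s).prod * Θ) = ((t :: L).map s).prod * Θ := by
      rw [List.map_cons, List.prod_cons]; ring
    rw [e3]
    exact h (t :: L) (by simp [hL])

theorem mu_mul_mem_L1 {m : ℕ} {B B' : Fin m → Bool} (hBB' : B ≠ B') :
    ∃ a, mu X m B ^ a * mu X m B' ^ a ∈ L1 G := by
  obtain ⟨a, ha0, ha⟩ : ∃ a, 0 < a ∧ ∀ j < m, 2 * n j + 2 ≤ a := by
    refine ⟨∑ j ∈ Finset.range m, (2 * n j + 2) + 1, Nat.succ_pos _, fun j hj => ?_⟩
    refine le_trans ?_ (Nat.le_succ _)
    exact Finset.single_le_sum (f := fun j => 2 * n j + 2) (fun _ _ => Nat.zero_le _)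
      (Finset.mem_range.2 hj)
  refine ⟨a, ?_⟩
  have hc := X.c_pos
  set C : ℝ := X.c⁻¹ * Real.exp (2 * ∑' i, wt n m a i) with hC
  have hC0 : 0 ≤ C := by positivity
  set u := useq X (2 * a - 1) with hu
  have hmain : ∀ f : C₀(G, ℂ), ‖(mu X m B ^ a * mu X m B' ^ a) f‖
      ≤ C * ∫ x, ‖f x‖ * u.u x ∂haar := by
    intro f
    refine good_pow (T := {q : (ℕ → Bool) × ℕ // node m q.1 = B})
      (fun q => rz X q.1.1 (Uf n q.1.2)) (mu X m B) (fun g b h => mu_good X fun ω k hω =>
        h ⟨(ω, k), hω⟩) a (mu X m B' ^ a) f _ fun L hL => ?_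
    rw [mul_comm]
    refine good_pow (T := {q : (ℕ → Bool) × ℕ // node m q.1 = B'})
      (fun q => rz X q.1.1 (Uf n q.1.2)) (mu X m B') (fun g b h => mu_good X fun ω k hω =>
        h ⟨(ω, k), hω⟩) a _ f _ fun L' hL' => ?_
    -- split off the first element of `L`
    obtain ⟨q0, L0, rfl⟩ : ∃ q0 L0, L = q0 :: L0 := by
      cases L with
      | nil => simp at hL; omega
      | cons q L => exact ⟨q, L, rfl⟩
    have hL'0 : ∃ q, q ∈ L' := by
      cases L' with
      | nil => simp at hL'; omega
      | cons q L => exact ⟨q, List.mem_cons_self⟩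
    obtain ⟨q', hq'⟩ := hL'0
    have h1 := rz_prod_bound X hBB' ha q0.1.1 q0.1.2 q0.2
      (L0.map Subtype.val ++ L'.map Subtype.val) (by
        simp only [List.length_append, List.length_map]
        simp only [List.length_cons] at hL
        omega) ⟨q'.1, List.mem_append_right _ (List.mem_map.2 ⟨q', hq', rfl⟩), q'.2⟩ f
    have hlen : (L0.map Subtype.val ++ L'.map Subtype.val).length = 2 * a - 1 := by
      simp only [List.length_append, List.length_map]
      simp only [List.length_cons] at hL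
      omega
    rw [hlen] at h1
    have e1 : (L'.map fun q => rz X q.1.1 (Uf n q.1.2)).prod *
        ((q0 :: L0).map fun q => rz X q.1.1 (Uf n q.1.2)).prod
        = rz X q0.1.1 (Uf n q0.1.2) *
          ((L0.map Subtype.val ++ L'.map Subtype.val).map fun p => rz X p.1 (Uf n p.2)).prod := by
      rw [List.map_cons, List.prod_cons, List.map_append, List.prod_append, List.map_map,
        List.map_map]
      change _ = rz X q0.1.1 (Uf n q0.1.2) *
        ((L0.map fun q => rz X q.1.1 (Uf n q.1.2)).prod *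
          (L'.map fun q => rz X q.1.1 (Uf n q.1.2)).prod)
      ring
    rw [e1]
    exact h1
  refine mem_L1_of_bound _ C (tsupport u.u) u.hc.isCompact fun f => (hmain f).trans ?_
  refine mul_le_mul_of_nonneg_left ?_ hC0
  have hf := map_continuous f
  have h1 : ∫ x, ‖f x‖ * u.u x ∂haar = ∫ x in tsupport u.u, ‖f x‖ * u.u x ∂haar := by
    rw [setIntegral_eq_integral_of_forall_compl_eq_zero]
    intro x hx
    rw [image_eq_zero_of_notMem_tsupport hx, mul_zero]
  rw [h1]
  refine setIntegral_mono ?_ ?_ fun x => ?_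
  · exact (ContinuousOn.integrableOn_compact u.hc.isCompact (by fun_prop))
  · exact (ContinuousOn.integrableOn_compact u.hc.isCompact (by fun_prop))
  · exact mul_le_of_le_one_right (norm_nonneg _) (u.h1 x)

/-- **`μ` is in the radical of `L¹`.** -/
theorem muRoot_rad (φ : MG G →ₐ[ℂ] ℂ) (hφ : ∀ f ∈ L1 G, φ f = 0) : φ (muRoot X) = 0 := by
  have key : ∀ m : ℕ, ‖φ (muRoot X)‖ ≤ (1 / 2) ^ m := by
    intro m
    rw [← mu_sum X m, map_sum]
    by_cases hex : ∃ B : Fin m → Bool, φ (mu X m B) ≠ 0
    · obtain ⟨B, hB⟩ := hex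
      rw [Finset.sum_eq_single_of_mem B (Finset.mem_univ _)]
      · exact (AlgHom.norm_apply_le_self φ _).trans (mu_norm_le X m B)
      · intro B' _ hne
        obtain ⟨a, ha⟩ := mu_mul_mem_L1 X (Ne.symm hne)
        have h1 := hφ _ ha
        rw [map_mul, map_pow, map_pow] at h1
        rcases mul_eq_zero.1 h1 with h2 | h2
        · exact absurd (eq_zero_of_pow_eq_zero h2) hB
        · exact eq_zero_of_pow_eq_zero h2
    · push Not at hex
      simp only [hex, Finset.sum_const_zero, norm_zero]
      positivity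
  have h0 : ‖φ (muRoot X)‖ ≤ 0 := by
    refine ge_of_tendsto (tendsto_pow_atTop_nhds_zero_of_lt_one (r := (1 / 2 : ℝ)) (by norm_num)
      (by norm_num)) (Eventually.of_forall fun m => key m)
  exact norm_le_zero_iff.1 h0

end main

end MPb7f1cf
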