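import Mathlib

/-!
# Independent systems of characters and Riesz products (interface)

Everything here is about honest integrals against Haar measure.
-/

open MeasureTheory MeasureTheory.Measure
open scoped ComplexConjugate

set_option linter.unusedSectionVars false

noncomputable section

namespace MPb7f1cf

/-- A weight `f₀ ∈ C_c(G)` together with a family of continuous characters which are
independent up to exponent 4 in mean with respect to `f₀ · haar`. -/
structure IndepSys (G : Type*) [CommGroup G] [TopologicalSpace G] [IsTopologicalGroup G]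
    [LocallyCompactSpace G] [MeasurableSpace G] [BorelSpace G] (ι : Type*) where
  f₀ : C(G, ℝ)
  χ : ι → (G →ₜ* Circle)
  hcs : HasCompactSupport f₀
  h0 : ∀ x, 0 ≤ f₀ x
  h1 : ∀ x, f₀ x ≤ 1
  hpos : 0 < ∫ x, f₀ x ∂(haar : Measure G)
  hnt : ∀ i, ∃ x, f₀ x ≠ 0 ∧ χ i x ≠ 1
  horth : ∀ (s : Finset ι) (e : ι → ℤ), (∀ i ∈ s, |e i| ≤ 4) →
    (∃ i ∈ s, ∃ x, f₀ x ≠ 0 ∧ (χ i x) ^ (e i) ≠ 1) →
    ∫ x, (f₀ x : ℂ) * ∏ i ∈ s, ((χ i x : Circle) : ℂ) ^ (e i) ∂(haar : Measure G) = 0

namespace IndepSys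

variable {G : Type*} [CommGroup G] [TopologicalSpace G] [IsTopologicalGroup G]
    [LocallyCompactSpace G] [T2Space G] [MeasurableSpace G] [BorelSpace G] {ι : Type*}
    (X : IndepSys G ι)

/-- total mass of the weight -/
def c : ℝ := ∫ x, X.f₀ x ∂(haar : Measure G)

/-- the mean of `F` with respect to the probability measure `f₀ haar / c` -/
def E (F : G → ℂ) : ℂ := (∫ x, (X.f₀ x : ℂ) * F x ∂(haar : Measure G)) / (X.c : ℂ)

/-- trigonometric polynomials in the characters `χ i`, `i ∈ T`, with exponents `≤ d` -/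
def Trig (T : Finset ι) (d : ℕ) : Submodule ℂ (G → ℂ) :=
  Submodule.span ℂ {F | ∃ e : ι → ℤ, (∀ i ∈ T, |e i| ≤ d) ∧
    F = fun x => ∏ i ∈ T, ((X.χ i x : Circle) : ℂ) ^ (e i)}

/-- `κ i = 1` if `χ i ^ 2 = 1` on the support of `f₀`, and `1/2` otherwise -/
def κ (i : ι) : ℝ := open Classical in if ∀ x, X.f₀ x ≠ 0 → (X.χ i x) ^ 2 = 1 then 1 else 1 / 2

/-- the real kernel `K i = Re χ i / κ i` -/
def K (i : ι) (x : G) : ℝ := ((X.χ i x : Circle) : ℂ).re / X.κ i

/-- the Riesz product with coefficients `β` over the finite set `U` -/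
def R (β : ι → ℝ) (U : Finset ι) (x : G) : ℝ := ∏ i ∈ U, (1 + β i * X.K i x)

/-! ## basic facts -/

theorem c_pos : 0 < X.c := X.hpos

theorem c_ne : (X.c : ℂ) ≠ 0 := by exact_mod_cast X.c_pos.ne'

theorem integrable_mul {F : G → ℂ} (h : Continuous F) :
    Integrable (fun x => (X.f₀ x : ℂ) * F x) (haar : Measure G) := by
  have hc : Continuous (fun x => (X.f₀ x : ℂ) * F x) :=
    (Complex.continuous_ofReal.comp X.f₀.continuous).mul h
  have hs : HasCompactSupport (fun x => (X.f₀ x : ℂ) * F x) := by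
    have h1 : HasCompactSupport (fun x => (X.f₀ x : ℂ)) :=
      X.hcs.comp_left (g := fun t : ℝ => (t : ℂ)) (by simp)
    exact h1.mul_right
  exact hc.integrable_of_hasCompactSupport hs

theorem integrable_mul_real {F : G → ℝ} (h : Continuous F) :
    Integrable (fun x => X.f₀ x * F x) (haar : Measure G) := by
  have hc : Continuous (fun x => X.f₀ x * F x) := X.f₀.continuous.mul h
  exact hc.integrable_of_hasCompactSupport (HasCompactSupport.mul_right X.hcs)

theorem E_const (a : ℂ) : X.E (fun _ => a) = a := by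
  unfold E
  rw [integral_mul_const, integral_complex_ofReal]
  have := X.c_ne
  unfold c at *
  field_simp

theorem E_one : X.E (fun _ => 1) = 1 := X.E_const 1

theorem E_add {F₁ F₂ : G → ℂ} (h₁ : Continuous F₁) (h₂ : Continuous F₂) :
    X.E (fun x => F₁ x + F₂ x) = X.E F₁ + X.E F₂ := by
  unfold E
  rw [← add_div, ← integral_add (X.integrable_mul h₁) (X.integrable_mul h₂)]
  simp only [mul_add]

theorem E_sum {α : Type*} (s : Finset α) {F : α → G → ℂ} (h : ∀ a ∈ s, Continuous (F a)) :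
    X.E (fun x => ∑ a ∈ s, F a x) = ∑ a ∈ s, X.E (F a) := by
  unfold E
  rw [← Finset.sum_div, ← integral_finsetSum s (fun a ha => X.integrable_mul (h a ha))]
  simp only [Finset.mul_sum]

theorem E_smul (a : ℂ) (F : G → ℂ) : X.E (fun x => a * F x) = a * X.E F := by
  unfold E
  rw [← mul_div_assoc, ← integral_const_mul]
  congr 2
  ext x
  ring

theorem E_ofReal (F : G → ℝ) :
    X.E (fun x => (F x : ℂ)) = (((∫ x, X.f₀ x * F x ∂(haar : Measure G)) / X.c : ℝ) : ℂ) := by
  unfold E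
  rw [Complex.ofReal_div, ← integral_complex_ofReal]
  congr 2
  ext x
  push_cast
  rfl

/-- monotonicity: `|E F| ≤ Re (E F')` if `|F| ≤ F'` pointwise -/
theorem norm_E_le {F : G → ℂ} {F' : G → ℝ} (h : Continuous F) (h' : Continuous F')
    (hle : ∀ x, ‖F x‖ ≤ F' x) : ‖X.E F‖ ≤ (X.E (fun x => (F' x : ℂ))).re := by
  rw [E_ofReal, Complex.ofReal_re]
  unfold E
  rw [norm_div, Complex.norm_real, Real.norm_eq_abs, abs_of_pos X.c_pos]
  refine div_le_div_of_nonneg_right ?_ X.c_pos.le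
  refine (norm_integral_le_integral_norm _).trans ?_
  refine integral_mono (X.integrable_mul h).norm (X.integrable_mul_real h') fun x => ?_
  simp only [norm_mul, Complex.norm_real, Real.norm_eq_abs, abs_of_nonneg (X.h0 x)]
  exact mul_le_mul_of_nonneg_left (hle x) (X.h0 x)

theorem χ_continuous (i : ι) : Continuous fun x => ((X.χ i x : Circle) : ℂ) :=
  continuous_subtype_val.comp (X.χ i).continuous_toFun

theorem monomial_continuous (T : Finset ι) (e : ι → ℤ) :
    Continuous (fun x => ∏ i ∈ T, ((X.χ i x : Circle) : ℂ) ^ (e i)) := by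
  refine continuous_finsetProd _ fun i _ => ?_
  have h1 : Continuous fun x => ((X.χ i x : Circle) : ℂ) := X.χ_continuous i
  exact h1.zpow₀ _ fun x => Or.inl (Circle.coe_ne_zero _)

theorem Trig_continuous {T : Finset ι} {d : ℕ} {F : G → ℂ} (h : F ∈ X.Trig T d) :
    Continuous F := by
  unfold Trig at h
  induction h using Submodule.span_induction with
  | mem F hF =>
    obtain ⟨e, -, rfl⟩ := hF
    exact X.monomial_continuous T e
  | zero => exact continuous_const
  | add F F' _ _ h1 h2 => exact h1.add h2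
  | smul a F _ h => exact continuous_const.mul h

theorem norm_monomial (T : Finset ι) (e : ι → ℤ) (x : G) :
    ‖∏ i ∈ T, ((X.χ i x : Circle) : ℂ) ^ (e i)‖ = 1 := by
  rw [norm_prod]
  refine Finset.prod_eq_one fun i _ => ?_
  rw [norm_zpow, Circle.norm_coe, one_zpow]

theorem Trig_bounded {T : Finset ι} {d : ℕ} {F : G → ℂ} (h : F ∈ X.Trig T d) :
    ∃ C, ∀ x, ‖F x‖ ≤ C := by
  unfold Trig at h
  induction h using Submodule.span_induction with
  | mem F hF =>
    obtain ⟨e, -, rfl⟩ := hF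
    exact ⟨1, fun x => (X.norm_monomial T e x).le⟩
  | zero => exact ⟨0, fun x => by simp⟩
  | add F F' _ _ h1 h2 =>
    obtain ⟨C, hC⟩ := h1
    obtain ⟨C', hC'⟩ := h2
    exact ⟨C + C', fun x => (norm_add_le _ _).trans (add_le_add (hC x) (hC' x))⟩
  | smul a F _ h =>
    obtain ⟨C, hC⟩ := h
    refine ⟨‖a‖ * C, fun x => ?_⟩
    rw [Pi.smul_apply, smul_eq_mul, norm_mul]
    exact mul_le_mul_of_nonneg_left (hC x) (norm_nonneg _)

theorem monomial_mem {T : Finset ι} {d : ℕ} {e : ι → ℤ} (he : ∀ i ∈ T, |e i| ≤ d) :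
    (fun x => ∏ i ∈ T, ((X.χ i x : Circle) : ℂ) ^ (e i)) ∈ X.Trig T d :=
  Submodule.subset_span ⟨e, he, rfl⟩

theorem Trig_mono {T T' : Finset ι} {d d' : ℕ} (h : T ⊆ T') (hd : d ≤ d') :
    X.Trig T d ≤ X.Trig T' d' := by
  classical
  unfold Trig
  rw [Submodule.span_le]
  rintro F ⟨e, he, rfl⟩
  refine Submodule.subset_span ⟨fun i => if i ∈ T then e i else 0, fun i _ => ?_, ?_⟩
  · by_cases hi : i ∈ T
    · simp only [hi, if_true]
      exact (he i hi).trans (by exact_mod_cast hd)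
    · simp only [hi, if_false, abs_zero]
      positivity
  · funext x
    rw [← Finset.prod_subset h]
    · refine Finset.prod_congr rfl fun i hi => ?_
      simp only [if_pos hi]
    · intro i _ hi
      simp only [if_neg hi, zpow_zero]

theorem Trig_mul {T : Finset ι} {a b : ℕ} {F F' : G → ℂ} (h : F ∈ X.Trig T a)
    (h' : F' ∈ X.Trig T b) : (fun x => F x * F' x) ∈ X.Trig T (a + b) := by
  unfold Trig at h
  induction h using Submodule.span_induction with
  | mem F hF =>
    obtain ⟨e, he, rfl⟩ := hF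
    unfold Trig at h'
    induction h' using Submodule.span_induction with
    | mem F' hF' =>
      obtain ⟨e', he', rfl⟩ := hF'
      refine Submodule.subset_span ⟨fun i => e i + e' i, fun i hi => ?_, ?_⟩
      · refine (abs_add_le _ _).trans ?_
        push_cast
        exact add_le_add (he i hi) (he' i hi)
      · funext x
        rw [← Finset.prod_mul_distrib]
        refine Finset.prod_congr rfl fun i hi => ?_
        rw [zpow_add₀ (Circle.coe_ne_zero _)]
    | zero =>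
      convert (X.Trig T (a + b)).zero_mem using 1
      funext x
      simp
    | add F' F'' _ _ h1 h2 =>
      have := (X.Trig T (a + b)).add_mem h1 h2
      convert this using 1
      funext x
      simp [mul_add]
    | smul r F' _ h =>
      have := (X.Trig T (a + b)).smul_mem r h
      convert this using 1
      funext x
      simp
      ring
  | zero =>
    convert (X.Trig T (a + b)).zero_mem using 1
    funext x
    simp
  | add F F'' _ _ h1 h2 =>
    have := (X.Trig T (a + b)).add_mem h1 h2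
    convert this using 1
    funext x
    simp [add_mul]
  | smul r F _ h =>
    have := (X.Trig T (a + b)).smul_mem r h
    convert this using 1
    funext x
    simp
    ring

theorem Trig_mul_disjoint [DecidableEq ι] {T T' : Finset ι} {d : ℕ} (hd : Disjoint T T')
    {F F' : G → ℂ} (h : F ∈ X.Trig T d)
    (h' : F' ∈ X.Trig T' d) : (fun x => F x * F' x) ∈ X.Trig (T ∪ T') d := by
  unfold Trig at h
  induction h using Submodule.span_induction with
  | mem F hF =>
    obtain ⟨e, he, rfl⟩ := hF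
    unfold Trig at h'
    induction h' using Submodule.span_induction with
    | mem F' hF' =>
      obtain ⟨e', he', rfl⟩ := hF'
      refine Submodule.subset_span ⟨fun i => if i ∈ T then e i else e' i, fun i hi => ?_, ?_⟩
      · by_cases hiT : i ∈ T
        · simp only [hiT, if_true]; exact he i hiT
        · simp only [hiT, if_false]
          exact he' i ((Finset.mem_union.1 hi).resolve_left hiT)
      · funext x
        rw [Finset.prod_union hd]
        congr 1
        · refine Finset.prod_congr rfl fun i hi => ?_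
          simp only [if_pos hi]
        · refine Finset.prod_congr rfl fun i hi => ?_
          simp only [if_neg (Finset.disjoint_right.1 hd hi)]
    | zero =>
      convert (X.Trig (T ∪ T') d).zero_mem using 1
      funext x
      simp
    | add F' F'' _ _ h1 h2 =>
      have := (X.Trig (T ∪ T') d).add_mem h1 h2
      convert this using 1
      funext x
      simp [mul_add]
    | smul r F' _ h =>
      have := (X.Trig (T ∪ T') d).smul_mem r h
      convert this using 1
      funext x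
      simp
      ring
  | zero =>
    convert (X.Trig (T ∪ T') d).zero_mem using 1
    funext x
    simp
  | add F F'' _ _ h1 h2 =>
    have := (X.Trig (T ∪ T') d).add_mem h1 h2
    convert this using 1
    funext x
    simp [add_mul]
  | smul r F _ h =>
    have := (X.Trig (T ∪ T') d).smul_mem r h
    convert this using 1
    funext x
    simp
    ring

theorem one_mem_Trig (T : Finset ι) (d : ℕ) : (fun _ => (1 : ℂ)) ∈ X.Trig T d := by
  refine Submodule.subset_span ⟨fun _ => 0, fun i _ => by simp, ?_⟩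
  funext x
  simp

theorem const_mem_Trig (T : Finset ι) (d : ℕ) (a : ℂ) : (fun _ => a) ∈ X.Trig T d := by
  have := (X.Trig T d).smul_mem a (X.one_mem_Trig T d)
  convert this using 1
  funext x
  simp

theorem χ_zpow_mem_Trig {T : Finset ι} {i : ι} (hi : i ∈ T) {d : ℕ} {k : ℤ} (hk : |k| ≤ d) :
    (fun x => ((X.χ i x : Circle) : ℂ) ^ k) ∈ X.Trig T d := by
  classical
  refine Submodule.subset_span ⟨fun j => if j = i then k else 0, fun j _ => ?_, ?_⟩
  · by_cases h : j = i
    · simp only [h, if_true]; exact hk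
    · simp only [h, if_false, abs_zero]; positivity
  · funext x
    rw [Finset.prod_eq_single i]
    · simp only [if_true]
    · intro j _ hj
      simp only [if_neg hj, zpow_zero]
    · intro h; exact absurd hi h

theorem χ_mem_Trig {T : Finset ι} {i : ι} (hi : i ∈ T) :
    (fun x => ((X.χ i x : Circle) : ℂ)) ∈ X.Trig T 1 := by
  have := X.χ_zpow_mem_Trig hi (d := 1) (k := 1) (by simp)
  simpa using this

theorem conj_χ_eq (i : ι) (x : G) :
    conj ((X.χ i x : Circle) : ℂ) = ((X.χ i x : Circle) : ℂ) ^ (-1 : ℤ) := by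
  rw [zpow_neg_one, ← Circle.coe_inv_eq_conj, Circle.coe_inv]

theorem conj_χ_mem_Trig {T : Finset ι} {i : ι} (hi : i ∈ T) :
    (fun x => conj ((X.χ i x : Circle) : ℂ)) ∈ X.Trig T 1 := by
  have := X.χ_zpow_mem_Trig hi (d := 1) (k := -1) (by simp)
  convert this using 1
  funext x
  exact X.conj_χ_eq i x

theorem re_χ_mem_Trig {T : Finset ι} {i : ι} (hi : i ∈ T) :
    (fun x => ((((X.χ i x : Circle) : ℂ).re : ℝ) : ℂ)) ∈ X.Trig T 1 := by
  have h1 := (X.Trig T 1).add_mem (X.χ_mem_Trig hi) (X.conj_χ_mem_Trig hi)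
  have h2 := (X.Trig T 1).smul_mem (1 / 2 : ℂ) h1
  convert h2 using 1
  funext x
  rw [Complex.re_eq_add_conj]
  simp
  ring

theorem K_mem_Trig {T : Finset ι} {i : ι} (hi : i ∈ T) :
    (fun x => (X.K i x : ℂ)) ∈ X.Trig T 1 := by
  have h2 := (X.Trig T 1).smul_mem ((X.κ i : ℂ)⁻¹) (X.re_χ_mem_Trig hi)
  convert h2 using 1
  funext x
  unfold K
  push_cast
  simp
  ring

theorem factor_mem_Trig (β : ι → ℝ) {T : Finset ι} {i : ι} (hi : i ∈ T) :
    (fun x => ((1 + β i * X.K i x : ℝ) : ℂ)) ∈ X.Trig T 1 := by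
  have h2 := (X.Trig T 1).add_mem (X.one_mem_Trig T 1)
    ((X.Trig T 1).smul_mem (β i : ℂ) (X.K_mem_Trig hi))
  convert h2 using 1
  funext x
  push_cast
  simp

theorem R_mem_Trig (β : ι → ℝ) (U : Finset ι) :
    (fun x => (X.R β U x : ℂ)) ∈ X.Trig U 1 := by
  classical
  induction U using Finset.induction_on with
  | empty =>
    unfold R
    simpa using X.one_mem_Trig ∅ 1
  | insert i U hi ih =>
    have h1 : (fun x => ((1 + β i * X.K i x : ℝ) : ℂ)) ∈ X.Trig {i} 1 :=
      X.factor_mem_Trig β (Finset.mem_singleton_self i)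
    have h2 := X.Trig_mul_disjoint (Finset.disjoint_singleton_left.2 hi) h1 ih
    have h3 : ({i} ∪ U : Finset ι) = insert i U := by
      ext j; simp
    rw [h3] at h2
    convert h2 using 1
    funext x
    unfold R
    rw [Finset.prod_insert hi]
    push_cast
    rfl

/-! ## independence -/

theorem E_monomial_eq_zero {T : Finset ι} {e : ι → ℤ} (he : ∀ i ∈ T, |e i| ≤ 4)
    (h : ∃ i ∈ T, ∃ x, X.f₀ x ≠ 0 ∧ (X.χ i x) ^ (e i) ≠ 1) :
    X.E (fun x => ∏ i ∈ T, ((X.χ i x : Circle) : ℂ) ^ (e i)) = 0 := by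
  unfold E
  rw [X.horth T e he h, zero_div]

theorem E_congr {F F' : G → ℂ} (h : ∀ x, X.f₀ x ≠ 0 → F x = F' x) : X.E F = X.E F' := by
  unfold E
  congr 2
  ext x
  by_cases hx : X.f₀ x = 0
  · simp [hx]
  · rw [h x hx]

theorem E_monomial_eq_one {T : Finset ι} {e : ι → ℤ}
    (h : ∀ i ∈ T, ∀ x, X.f₀ x ≠ 0 → (X.χ i x) ^ (e i) = 1) :
    X.E (fun x => ∏ i ∈ T, ((X.χ i x : Circle) : ℂ) ^ (e i)) = 1 := by
  rw [← X.E_one]
  refine X.E_congr fun x hx => Finset.prod_eq_one fun i hi => ?_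
  rw [← Circle.coe_zpow, h i hi x hx, Circle.coe_one]

theorem E_mul_monomial_of_disjoint {T T' : Finset ι} (hT : Disjoint T T') {e e' : ι → ℤ}
    (he : ∀ i ∈ T, |e i| ≤ 4) (he' : ∀ i ∈ T', |e' i| ≤ 4) :
    X.E (fun x => (∏ i ∈ T, ((X.χ i x : Circle) : ℂ) ^ (e i)) *
      ∏ i ∈ T', ((X.χ i x : Circle) : ℂ) ^ (e' i)) =
    X.E (fun x => ∏ i ∈ T, ((X.χ i x : Circle) : ℂ) ^ (e i)) *
      X.E (fun x => ∏ i ∈ T', ((X.χ i x : Circle) : ℂ) ^ (e' i)) := by
  classical
  have hkey : ∀ x, (∏ i ∈ T, ((X.χ i x : Circle) : ℂ) ^ (e i)) *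
      ∏ i ∈ T', ((X.χ i x : Circle) : ℂ) ^ (e' i) =
      ∏ i ∈ T ∪ T', ((X.χ i x : Circle) : ℂ) ^ ((fun i => if i ∈ T then e i else e' i) i) := by
    intro x
    rw [Finset.prod_union hT]
    congr 1
    · refine Finset.prod_congr rfl fun i hi => ?_
      simp only [if_pos hi]
    · refine Finset.prod_congr rfl fun i hi => ?_
      simp only [if_neg (Finset.disjoint_right.1 hT hi)]
  rw [funext hkey]
  have hu : ∀ i ∈ T ∪ T', |(fun i => if i ∈ T then e i else e' i) i| ≤ 4 := by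
    intro i hi
    by_cases hiT : i ∈ T
    · simp only [hiT, if_true]; exact he i hiT
    · simp only [hiT, if_false]
      exact he' i ((Finset.mem_union.1 hi).resolve_left hiT)
  by_cases h1 : ∃ i ∈ T, ∃ x, X.f₀ x ≠ 0 ∧ (X.χ i x) ^ (e i) ≠ 1
  · rw [X.E_monomial_eq_zero he h1, zero_mul]
    refine X.E_monomial_eq_zero hu ?_
    obtain ⟨i, hi, x, hx, hne⟩ := h1
    refine ⟨i, Finset.mem_union_left _ hi, x, hx, ?_⟩
    simp only [if_pos hi]
    exact hne
  · push Not at h1
    by_cases h2 : ∃ i ∈ T', ∃ x, X.f₀ x ≠ 0 ∧ (X.χ i x) ^ (e' i) ≠ 1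
    · rw [X.E_monomial_eq_zero he' h2, mul_zero]
      refine X.E_monomial_eq_zero hu ?_
      obtain ⟨i, hi, x, hx, hne⟩ := h2
      refine ⟨i, Finset.mem_union_right _ hi, x, hx, ?_⟩
      simp only [if_neg (Finset.disjoint_right.1 hT hi)]
      exact hne
    · push Not at h2
      rw [X.E_monomial_eq_one h1, X.E_monomial_eq_one h2, one_mul]
      refine X.E_monomial_eq_one fun i hi x hx => ?_
      by_cases hiT : i ∈ T
      · simp only [hiT, if_true]; exact h1 i hiT x hx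
      · simp only [hiT, if_false]
        exact h2 i ((Finset.mem_union.1 hi).resolve_left hiT) x hx

theorem E_zero : X.E (fun _ => 0) = 0 := X.E_const 0

theorem E_mul_of_disjoint {T T' : Finset ι} (hT : Disjoint T T') {F F' : G → ℂ}
    (h : F ∈ X.Trig T 4) (h' : F' ∈ X.Trig T' 4) :
    X.E (fun x => F x * F' x) = X.E F * X.E F' := by
  have hc' : ∀ F' ∈ X.Trig T' 4, ∀ F : G → ℂ, F ∈ X.Trig T 4 → Continuous fun x => F x * F' x :=
    fun F' hF' F hF => (X.Trig_continuous hF).mul (X.Trig_continuous hF')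
  unfold Trig at h
  induction h using Submodule.span_induction with
  | mem F hF =>
    have hF0 : F ∈ X.Trig T 4 := Submodule.subset_span hF
    obtain ⟨e, he, rfl⟩ := hF
    unfold Trig at h'
    induction h' using Submodule.span_induction with
    | mem F' hF' =>
      obtain ⟨e', he', rfl⟩ := hF'
      exact X.E_mul_monomial_of_disjoint hT (by exact_mod_cast he) (by exact_mod_cast he')
    | zero =>
      have h0 : X.E (0 : G → ℂ) = 0 := X.E_zero
      rw [h0, mul_zero, ← X.E_zero]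
      congr 1
      funext x
      simp
    | add F' F'' h1' h2' h1 h2 =>
      have h3 : (fun x => (∏ i ∈ T, ((X.χ i x : Circle) : ℂ) ^ (e i)) * (F' + F'') x) =
        fun x => (∏ i ∈ T, ((X.χ i x : Circle) : ℂ) ^ (e i)) * F' x +
          (∏ i ∈ T, ((X.χ i x : Circle) : ℂ) ^ (e i)) * F'' x := by
        funext x; simp [mul_add]
      rw [h3, X.E_add (hc' F' h1' _ hF0) (hc' F'' h2' _ hF0), h1, h2]
      have h4 : X.E (F' + F'') = X.E F' + X.E F'' :=
        X.E_add (X.Trig_continuous h1') (X.Trig_continuous h2')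
      rw [h4, mul_add]
    | smul r F' h1' h =>
      have h3 : (fun x => (∏ i ∈ T, ((X.χ i x : Circle) : ℂ) ^ (e i)) * (r • F') x) =
        fun x => r * ((∏ i ∈ T, ((X.χ i x : Circle) : ℂ) ^ (e i)) * F' x) := by
        funext x; simp; ring
      have h4 : X.E (r • F') = r * X.E F' := X.E_smul r F'
      rw [h3, X.E_smul, h, h4]
      ring
  | zero =>
    have h0 : X.E (0 : G → ℂ) = 0 := X.E_zero
    rw [h0, zero_mul, ← X.E_zero]
    congr 1
    funext x
    simp
  | add F F'' h1' h2' h1 h2 =>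
    have h3 : (fun x => (F + F'') x * F' x) = fun x => F x * F' x + F'' x * F' x := by
      funext x; simp [add_mul]
    rw [h3, X.E_add (hc' F' h' F h1') (hc' F' h' F'' h2'), h1, h2]
    have h4 : X.E (F + F'') = X.E F + X.E F'' :=
      X.E_add (X.Trig_continuous h1') (X.Trig_continuous h2')
    rw [h4, add_mul]
  | smul r F h1' h =>
    have h3 : (fun x => (r • F) x * F' x) = fun x => r * (F x * F' x) := by
      funext x; simp; ring
    have h4 : X.E (r • F) = r * X.E F := X.E_smul r F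
    rw [h3, X.E_smul, h, h4]
    ring

theorem κ_pos (i : ι) : 0 < X.κ i := by
  unfold κ
  split_ifs <;> norm_num

theorem half_le_κ (i : ι) : 1 / 2 ≤ X.κ i := by
  unfold κ
  split_ifs <;> norm_num

theorem abs_K_le (i : ι) (x : G) : |X.K i x| ≤ 2 := by
  unfold K
  rw [abs_div, abs_of_pos (X.κ_pos i), div_le_iff₀ (X.κ_pos i)]
  have h1 : |((X.χ i x : Circle) : ℂ).re| ≤ 1 := by
    have := Complex.abs_re_le_norm ((X.χ i x : Circle) : ℂ)
    rwa [Circle.norm_coe] at this
  have h2 := X.half_le_κ i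
  linarith

theorem K_continuous (i : ι) : Continuous (X.K i) :=
  (Complex.continuous_re.comp (X.χ_continuous i)).div_const _

theorem R_continuous (β : ι → ℝ) (U : Finset ι) : Continuous (X.R β U) := by
  unfold R
  exact continuous_finsetProd _ fun i _ => continuous_const.add (continuous_const.mul (X.K_continuous i))

theorem abs_mul_K_le {β : ι → ℝ} (i : ι) (x : G) :
    |β i * X.K i x| ≤ 2 * |β i| := by
  rw [abs_mul]
  nlinarith [X.abs_K_le i x, abs_nonneg (β i)]

theorem factor_nonneg {β : ι → ℝ} (hβ : ∀ i, |β i| ≤ 1 / 2) (i : ι) (x : G) :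
    0 ≤ 1 + β i * X.K i x := by
  have h1 := X.abs_mul_K_le (β := β) i x
  have h2 := hβ i
  have h3 := abs_le.1 h1
  linarith [h3.1]

theorem R_nonneg {β : ι → ℝ} (hβ : ∀ i, |β i| ≤ 1 / 2) (U : Finset ι) (x : G) :
    0 ≤ X.R β U x :=
  Finset.prod_nonneg fun i _ => X.factor_nonneg hβ i x

/-- crude upper bound -/
theorem R_le {β : ι → ℝ} (hβ : ∀ i, |β i| ≤ 1 / 2) (U : Finset ι) (x : G) :
    X.R β U x ≤ Real.exp (2 * ∑ i ∈ U, |β i|) := by
  unfold R
  rw [Finset.mul_sum, Real.exp_sum]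
  refine Finset.prod_le_prod (fun i _ => X.factor_nonneg hβ i x) fun i _ => ?_
  have h1 := (abs_le.1 (X.abs_mul_K_le (β := β) i x)).2
  linarith [Real.add_one_le_exp (2 * |β i|)]

theorem R_union (β : ι → ℝ) {T U : Finset ι} [DecidableEq ι] (hTU : T ⊆ U) (x : G) :
    X.R β U x = X.R β T x * X.R β (U \ T) x := by
  unfold R
  rw [mul_comm]
  exact (Finset.prod_sdiff hTU).symm

theorem E_χ (i : ι) : X.E (fun x => ((X.χ i x : Circle) : ℂ)) = 0 := by
  have h := X.E_monomial_eq_zero (T := {i}) (e := fun _ => 1) (by simp) (by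
    obtain ⟨x, hx, hx'⟩ := X.hnt i
    exact ⟨i, Finset.mem_singleton_self i, x, hx, by simpa using hx'⟩)
  simpa using h

theorem E_conj (F : G → ℂ) : X.E (fun x => conj (F x)) = conj (X.E F) := by
  unfold E
  rw [map_div₀, Complex.conj_ofReal, ← integral_conj]
  congr 2
  ext x
  simp

theorem E_re (i : ι) : X.E (fun x => ((((X.χ i x : Circle) : ℂ).re : ℝ) : ℂ)) = 0 := by
  have h1 : (fun x => ((((X.χ i x : Circle) : ℂ).re : ℝ) : ℂ)) =
      fun x => (1 / 2 : ℂ) * (((X.χ i x : Circle) : ℂ) + conj ((X.χ i x : Circle) : ℂ)) := by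
    funext x
    rw [Complex.re_eq_add_conj]
    ring
  have hc := X.χ_continuous i
  have hc' : Continuous fun x => conj ((X.χ i x : Circle) : ℂ) := Complex.continuous_conj.comp hc
  rw [h1, X.E_smul, X.E_add hc hc', X.E_conj, X.E_χ]
  simp

theorem E_K (i : ι) : X.E (fun x => (X.K i x : ℂ)) = 0 := by
  have h1 : (fun x => (X.K i x : ℂ)) =
      fun x => ((X.κ i : ℂ)⁻¹) * ((((X.χ i x : Circle) : ℂ).re : ℝ) : ℂ) := by
    funext x
    unfold K
    push_cast
    ring
  rw [h1, X.E_smul, X.E_re, mul_zero]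

theorem E_factor (β : ι → ℝ) (i : ι) : X.E (fun x => ((1 + β i * X.K i x : ℝ) : ℂ)) = 1 := by
  have h1 : (fun x => ((1 + β i * X.K i x : ℝ) : ℂ)) =
      fun x => 1 + (β i : ℂ) * (X.K i x : ℂ) := by
    funext x
    push_cast
    rfl
  have hc : Continuous fun x => (β i : ℂ) * (X.K i x : ℂ) :=
    continuous_const.mul (Complex.continuous_ofReal.comp (X.K_continuous i))
  rw [h1, X.E_add continuous_const hc, X.E_smul, X.E_K, X.E_one]
  simp

theorem R_insert [DecidableEq ι] (β : ι → ℝ) {U : Finset ι} {i : ι} (hi : i ∉ U) (x : G) :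
    X.R β (insert i U) x = (1 + β i * X.K i x) * X.R β U x := by
  unfold R
  rw [Finset.prod_insert hi]

theorem E_R (β : ι → ℝ) (U : Finset ι) : X.E (fun x => (X.R β U x : ℂ)) = 1 := by
  classical
  induction U using Finset.induction_on with
  | empty =>
    unfold R
    simpa using X.E_one
  | insert i U hi ih =>
    have h1 : (fun x => ((1 + β i * X.K i x : ℝ) : ℂ)) ∈ X.Trig {i} 1 :=
      X.factor_mem_Trig β (Finset.mem_singleton_self i)
    have h3 : (fun x => (X.R β (insert i U) x : ℂ)) =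
        fun x => ((1 + β i * X.K i x : ℝ) : ℂ) * (X.R β U x : ℂ) := by
      funext x
      rw [X.R_insert β hi]
      push_cast
      rfl
    rw [h3, X.E_mul_of_disjoint (Finset.disjoint_singleton_left.2 hi)
      (X.Trig_mono (Finset.Subset.refl _) (by norm_num) h1)
      (X.Trig_mono (Finset.Subset.refl _) (by norm_num) (X.R_mem_Trig β U)), ih, X.E_factor]
    simp

/-- the moments only depend on the coefficients of the characters involved -/
theorem E_mul_R {β : ι → ℝ} {T U : Finset ι} (hTU : T ⊆ U)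
    {F : G → ℂ} (hF : F ∈ X.Trig T 3) :
    X.E (fun x => F x * (X.R β U x : ℂ)) = X.E (fun x => F x * (X.R β T x : ℂ)) := by
  classical
  have h1 : (fun x => F x * (X.R β U x : ℂ)) =
      fun x => (F x * (X.R β T x : ℂ)) * (X.R β (U \ T) x : ℂ) := by
    funext x
    rw [X.R_union β hTU]
    push_cast
    ring
  have h2 : (fun x => F x * (X.R β T x : ℂ)) ∈ X.Trig T 4 :=
    X.Trig_mul (a := 3) (b := 1) hF (X.R_mem_Trig β T)
  have h3 : (fun x => (X.R β (U \ T) x : ℂ)) ∈ X.Trig (U \ T) 4 :=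
    X.Trig_mono (Finset.Subset.refl _) (by norm_num) (X.R_mem_Trig β _)
  rw [h1, X.E_mul_of_disjoint Finset.disjoint_sdiff h2 h3, X.E_R, mul_one]

theorem E_mul_fresh {β : ι → ℝ} {T U : Finset ι} (hTU : T ⊆ U)
    {F : G → ℂ} (hF : F ∈ X.Trig T 3) {i : ι} (hi : i ∈ U) (hiT : i ∉ T)
    {φ : G → ℂ} (hφ : φ ∈ X.Trig {i} 3) :
    X.E (fun x => F x * φ x * (X.R β U x : ℂ)) =
      X.E (fun x => φ x * ((1 + β i * X.K i x : ℝ) : ℂ)) *
        X.E (fun x => F x * (X.R β U x : ℂ)) := by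
  classical
  have hd : Disjoint T {i} := Finset.disjoint_singleton_right.2 hiT
  have h1 : (fun x => F x * φ x) ∈ X.Trig (T ∪ {i}) 3 := X.Trig_mul_disjoint hd hF hφ
  have hTi : T ∪ {i} ⊆ U := by
    intro j hj
    rcases Finset.mem_union.1 hj with h | h
    · exact hTU h
    · rw [Finset.mem_singleton.1 h]; exact hi
  rw [X.E_mul_R hTi h1, X.E_mul_R hTU hF]
  have h2 : (fun x => F x * φ x * (X.R β (T ∪ {i}) x : ℂ)) =
      fun x => (φ x * ((1 + β i * X.K i x : ℝ) : ℂ)) * (F x * (X.R β T x : ℂ)) := by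
    funext x
    unfold R
    rw [Finset.prod_union hd, Finset.prod_singleton]
    push_cast
    ring
  have h3 : (fun x => F x * (X.R β T x : ℂ)) ∈ X.Trig T 4 :=
    X.Trig_mul (a := 3) (b := 1) hF (X.R_mem_Trig β T)
  have h4 : (fun x => φ x * ((1 + β i * X.K i x : ℝ) : ℂ)) ∈ X.Trig {i} 4 :=
    X.Trig_mul (a := 3) (b := 1) hφ (X.factor_mem_Trig β (Finset.mem_singleton_self i))
  rw [h2, X.E_mul_of_disjoint hd.symm h4 h3]

theorem E_χ_sq (i : ι) :
    X.E (fun x => ((X.χ i x : Circle) : ℂ) ^ 2) = 2 * (X.κ i : ℂ) - 1 := by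
  by_cases h : ∀ x, X.f₀ x ≠ 0 → (X.χ i x) ^ 2 = 1
  · have h1 : X.E (fun x => ((X.χ i x : Circle) : ℂ) ^ 2) = 1 := by
      rw [← X.E_one]
      refine X.E_congr fun x hx => ?_
      rw [← Circle.coe_pow, h x hx, Circle.coe_one]
    have h2 : X.κ i = 1 := by
      unfold κ
      rw [if_pos h]
    rw [h1, h2]
    norm_num
  · have h2 : X.κ i = 1 / 2 := by
      unfold κ
      rw [if_neg h]
    push Not at h
    obtain ⟨x, hx, hne⟩ := h
    have h3 := X.E_monomial_eq_zero (T := {i}) (e := fun _ => 2) (by simp)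
      ⟨i, Finset.mem_singleton_self i, x, hx, by exact_mod_cast hne⟩
    have h4 : (fun x => ∏ j ∈ ({i} : Finset ι), ((X.χ j x : Circle) : ℂ) ^ ((fun _ => 2 : ι → ℤ) j)) =
        fun x => ((X.χ i x : Circle) : ℂ) ^ 2 := by
      funext x
      rw [Finset.prod_singleton]
      norm_cast
    rw [h4] at h3
    rw [h3, h2]
    push_cast
    norm_num

theorem χ_mul_conj (i : ι) (x : G) :
    ((X.χ i x : Circle) : ℂ) * conj ((X.χ i x : Circle) : ℂ) = 1 := by
  rw [X.conj_χ_eq, zpow_neg_one, mul_inv_cancel₀ (Circle.coe_ne_zero _)]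

theorem E_χ_mul_factor (β : ι → ℝ) (i : ι) :
    X.E (fun x => ((X.χ i x : Circle) : ℂ) * ((1 + β i * X.K i x : ℝ) : ℂ)) = β i := by
  have hκ : (X.κ i : ℂ) ≠ 0 := by exact_mod_cast (X.κ_pos i).ne'
  have h1 : (fun x => ((X.χ i x : Circle) : ℂ) * ((1 + β i * X.K i x : ℝ) : ℂ)) =
      fun x => ((X.χ i x : Circle) : ℂ) +
        ((β i : ℂ) / (2 * X.κ i)) * (((X.χ i x : Circle) : ℂ) ^ 2 + 1) := by
    funext x
    unfold K
    push_cast
    rw [Complex.re_eq_add_conj]
    have h2 := X.χ_mul_conj i x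
    field_simp
    linear_combination (β i : ℂ) * h2
  have hc := X.χ_continuous i
  have hc1 : Continuous fun x => ((β i : ℂ) / (2 * X.κ i)) * (((X.χ i x : Circle) : ℂ) ^ 2 + 1) :=
    continuous_const.mul ((hc.pow 2).add continuous_const)
  have hc2 : Continuous fun x => ((X.χ i x : Circle) : ℂ) ^ 2 := hc.pow 2
  rw [h1, X.E_add hc hc1, X.E_smul, X.E_add hc2 continuous_const, X.E_χ_sq, X.E_one, X.E_χ]
  field_simp
  ring

theorem E_conj_χ_mul_factor (β : ι → ℝ) (i : ι) :
    X.E (fun x => conj ((X.χ i x : Circle) : ℂ) * ((1 + β i * X.K i x : ℝ) : ℂ)) = β i := by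
  have h1 : (fun x => conj ((X.χ i x : Circle) : ℂ) * ((1 + β i * X.K i x : ℝ) : ℂ)) =
      fun x => conj (((X.χ i x : Circle) : ℂ) * ((1 + β i * X.K i x : ℝ) : ℂ)) := by
    funext x
    rw [map_mul, Complex.conj_ofReal]
  rw [h1, X.E_conj, X.E_χ_mul_factor, Complex.conj_ofReal]

/-- first moment of a fresh character -/
theorem E_mul_χ_R {β : ι → ℝ} {T U : Finset ι} (hTU : T ⊆ U)
    {F : G → ℂ} (hF : F ∈ X.Trig T 3) {i : ι} (hi : i ∈ U) (hiT : i ∉ T) :
    X.E (fun x => F x * ((X.χ i x : Circle) : ℂ) * (X.R β U x : ℂ)) =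
      β i * X.E (fun x => F x * (X.R β U x : ℂ)) := by
  have h := X.E_mul_fresh (β := β) hTU hF hi hiT
    (X.Trig_mono (Finset.Subset.refl _) (by norm_num) (X.χ_mem_Trig (Finset.mem_singleton_self i)))
  rw [h, X.E_χ_mul_factor]

theorem E_mul_conj_χ_R {β : ι → ℝ} {T U : Finset ι} (hTU : T ⊆ U)
    {F : G → ℂ} (hF : F ∈ X.Trig T 3) {i : ι} (hi : i ∈ U) (hiT : i ∉ T) :
    X.E (fun x => F x * conj ((X.χ i x : Circle) : ℂ) * (X.R β U x : ℂ)) =
      β i * X.E (fun x => F x * (X.R β U x : ℂ)) := by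
  have h := X.E_mul_fresh (β := β) hTU hF hi hiT
    (X.Trig_mono (Finset.Subset.refl _) (by norm_num)
      (X.conj_χ_mem_Trig (Finset.mem_singleton_self i)))
  rw [h, X.E_conj_χ_mul_factor]

/-- mixed second moment of two fresh characters -/
theorem E_mul_χ_χ_R {β : ι → ℝ} {T U : Finset ι} (hTU : T ⊆ U)
    {F : G → ℂ} (hF : F ∈ X.Trig T 3) {i i' : ι} (hi : i ∈ U) (hiT : i ∉ T)
    (hi' : i' ∈ U) (hiT' : i' ∉ T) (hne : i ≠ i') :
    X.E (fun x => F x * (((X.χ i x : Circle) : ℂ) * conj ((X.χ i' x : Circle) : ℂ)) *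
        (X.R β U x : ℂ)) =
      β i * β i' * X.E (fun x => F x * (X.R β U x : ℂ)) := by
  classical
  have hd : Disjoint T {i} := Finset.disjoint_singleton_right.2 hiT
  have h1 : (fun x => F x * ((X.χ i x : Circle) : ℂ)) ∈ X.Trig (T ∪ {i}) 3 :=
    X.Trig_mul_disjoint hd hF
      (X.Trig_mono (Finset.Subset.refl _) (by norm_num) (X.χ_mem_Trig (Finset.mem_singleton_self i)))
  have hTi : T ∪ {i} ⊆ U := by
    intro j hj
    rcases Finset.mem_union.1 hj with h | h
    · exact hTU h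
    · rw [Finset.mem_singleton.1 h]; exact hi
  have hi'2 : i' ∉ T ∪ {i} := by
    intro h
    rcases Finset.mem_union.1 h with h | h
    · exact hiT' h
    · exact hne (Finset.mem_singleton.1 h).symm
  have h2 := X.E_mul_conj_χ_R (β := β) hTi h1 hi' hi'2
  have h3 : (fun x => F x * (((X.χ i x : Circle) : ℂ) * conj ((X.χ i' x : Circle) : ℂ)) *
        (X.R β U x : ℂ)) = fun x => F x * ((X.χ i x : Circle) : ℂ) *
          conj ((X.χ i' x : Circle) : ℂ) * (X.R β U x : ℂ) := by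
    funext x
    ring
  rw [h3, h2, X.E_mul_χ_R hTU hF hi hiT]
  ring

theorem E_re_mul_factor (β : ι → ℝ) (i : ι) :
    X.E (fun x => ((((X.χ i x : Circle) : ℂ).re : ℝ) : ℂ) * ((1 + β i * X.K i x : ℝ) : ℂ)) =
      β i := by
  have h1 : (fun x => ((((X.χ i x : Circle) : ℂ).re : ℝ) : ℂ) * ((1 + β i * X.K i x : ℝ) : ℂ)) =
      fun x => (1 / 2 : ℂ) * (((X.χ i x : Circle) : ℂ) * ((1 + β i * X.K i x : ℝ) : ℂ) +
        conj ((X.χ i x : Circle) : ℂ) * ((1 + β i * X.K i x : ℝ) : ℂ)) := by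
    funext x
    rw [Complex.re_eq_add_conj]
    ring
  have hK : Continuous fun x => ((1 + β i * X.K i x : ℝ) : ℂ) :=
    Complex.continuous_ofReal.comp (continuous_const.add (continuous_const.mul (X.K_continuous i)))
  have hc1 : Continuous fun x => ((X.χ i x : Circle) : ℂ) * ((1 + β i * X.K i x : ℝ) : ℂ) :=
    (X.χ_continuous i).mul hK
  have hc2 : Continuous fun x => conj ((X.χ i x : Circle) : ℂ) * ((1 + β i * X.K i x : ℝ) : ℂ) :=
    (Complex.continuous_conj.comp (X.χ_continuous i)).mul hK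
  rw [h1, X.E_smul, X.E_add hc1 hc2, X.E_χ_mul_factor, X.E_conj_χ_mul_factor]
  ring

theorem abs_re_le (i : ι) (x : G) : |((X.χ i x : Circle) : ℂ).re| ≤ 1 := by
  have := Complex.abs_re_le_norm ((X.χ i x : Circle) : ℂ)
  rwa [Circle.norm_coe] at this

/-- variance of the average of `Re χ` over a block `W` on which `β` is constant -/
theorem E_var_le {β : ι → ℝ} {W U : Finset ι} (hWU : W ⊆ U) (hW : W.Nonempty) {b : ℝ}
    (hb : |b| ≤ 1 / 2) (hβ : ∀ i ∈ W, β i = b) :
    (X.E (fun x => (((((W.card : ℝ)⁻¹ * ∑ i ∈ W, ((X.χ i x : Circle) : ℂ).re) - b) ^ 2 *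
      X.R β U x : ℝ) : ℂ))).re ≤ (W.card : ℝ)⁻¹ := by
  classical
  have hW0 : (0 : ℝ) < W.card := by exact_mod_cast hW.card_pos
  set φ : ι → G → ℝ := fun i x => ((X.χ i x : Circle) : ℂ).re - b with hφ
  have hφc : ∀ i, Continuous (fun x => (φ i x : ℂ)) := fun i =>
    Complex.continuous_ofReal.comp
      ((Complex.continuous_re.comp (X.χ_continuous i)).sub continuous_const)
  have hRc : Continuous (fun x => (X.R β U x : ℂ)) :=
    Complex.continuous_ofReal.comp (X.R_continuous β U)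
  have h1 : (fun x => (((((W.card : ℝ)⁻¹ * ∑ i ∈ W, ((X.χ i x : Circle) : ℂ).re) - b) ^ 2 *
      X.R β U x : ℝ) : ℂ)) =
      fun x => ((W.card : ℂ)⁻¹ ^ 2) * ∑ i ∈ W, ∑ j ∈ W,
        (φ j x : ℂ) * (φ i x : ℂ) * (X.R β U x : ℂ) := by
    funext x
    have h2 : (W.card : ℝ)⁻¹ * ∑ i ∈ W, ((X.χ i x : Circle) : ℂ).re - b =
        (W.card : ℝ)⁻¹ * ∑ i ∈ W, φ i x := by
      simp only [hφ]
      rw [Finset.sum_sub_distrib, Finset.sum_const, nsmul_eq_mul]
      field_simp
    rw [h2]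
    push_cast
    rw [mul_pow, pow_two (∑ i ∈ W, (φ i x : ℂ)), Finset.sum_mul_sum, mul_assoc, Finset.sum_mul]
    congr 1
    refine Finset.sum_congr rfl fun i _ => ?_
    rw [Finset.sum_mul]
    refine Finset.sum_congr rfl fun j _ => ?_
    ring
  have hc2 : ∀ i ∈ W, ∀ j ∈ W, Continuous fun x => (φ j x : ℂ) * (φ i x : ℂ) * (X.R β U x : ℂ) :=
    fun i _ j _ => ((hφc j).mul (hφc i)).mul hRc
  rw [h1, X.E_smul, X.E_sum W fun i hi => continuous_finsetSum _ fun j hj => hc2 i hi j hj]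
  have hmem : ∀ i, (fun x => (φ i x : ℂ)) ∈ X.Trig {i} 1 := by
    intro i
    have h3 := (X.Trig {i} 1).sub_mem (X.re_χ_mem_Trig (Finset.mem_singleton_self i))
      (X.const_mem_Trig {i} 1 (b : ℂ))
    convert h3 using 1
    funext x
    simp [hφ]
  have hφ1 : ∀ i ∈ W, X.E (fun x => (φ i x : ℂ) * ((1 + β i * X.K i x : ℝ) : ℂ)) = 0 := by
    intro i hi
    have hK : Continuous fun x => ((1 + β i * X.K i x : ℝ) : ℂ) :=
      Complex.continuous_ofReal.comp (continuous_const.add (continuous_const.mul (X.K_continuous i)))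
    have h3 : (fun x => (φ i x : ℂ) * ((1 + β i * X.K i x : ℝ) : ℂ)) =
        fun x => ((((X.χ i x : Circle) : ℂ).re : ℝ) : ℂ) * ((1 + β i * X.K i x : ℝ) : ℂ) +
          (-b : ℂ) * ((1 + β i * X.K i x : ℝ) : ℂ) := by
      funext x
      simp only [hφ]
      push_cast
      ring
    have hc3 : Continuous fun x => ((((X.χ i x : Circle) : ℂ).re : ℝ) : ℂ) *
        ((1 + β i * X.K i x : ℝ) : ℂ) :=
      (Complex.continuous_ofReal.comp (Complex.continuous_re.comp (X.χ_continuous i))).mul hK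
    have hc4 : Continuous fun x => (-b : ℂ) * ((1 + β i * X.K i x : ℝ) : ℂ) :=
      continuous_const.mul hK
    rw [h3, X.E_add hc3 hc4, X.E_re_mul_factor, X.E_smul, X.E_factor, hβ i hi]
    ring
  have hoff : ∀ i ∈ W, ∀ j ∈ W, j ≠ i →
      X.E (fun x => (φ j x : ℂ) * (φ i x : ℂ) * (X.R β U x : ℂ)) = 0 := by
    intro i hi j hj hne
    have h4 := X.E_mul_fresh (β := β) (T := {j}) (U := U) (i := i)
      (Finset.singleton_subset_iff.2 (hWU hj))
      (X.Trig_mono (Finset.Subset.refl _) (by norm_num) (hmem j)) (hWU hi)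
      (by simpa using hne.symm)
      (X.Trig_mono (Finset.Subset.refl _) (by norm_num) (hmem i))
    rw [h4, hφ1 i hi, zero_mul]
  have hdiag : ∀ i ∈ W, (X.E (fun x => (φ i x : ℂ) * (φ i x : ℂ) * (X.R β U x : ℂ))).re ≤ 1 := by
    intro i hi
    have h5 : (fun x => (φ i x : ℂ) * (φ i x : ℂ)) ∈ X.Trig {i} 3 :=
      X.Trig_mono (Finset.Subset.refl _) (by norm_num) (X.Trig_mul (hmem i) (hmem i))
    have h4 := X.E_mul_fresh (β := β) (T := ∅) (U := U) (i := i) (Finset.empty_subset _)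
      (X.one_mem_Trig ∅ 3) (hWU hi) (Finset.notMem_empty i) h5
    simp only [one_mul] at h4
    rw [h4, X.E_R, mul_one]
    have hKc : Continuous fun x => (1 + β i * X.K i x : ℝ) :=
      continuous_const.add (continuous_const.mul (X.K_continuous i))
    have hK : Continuous fun x => ((1 + β i * X.K i x : ℝ) : ℂ) :=
      Complex.continuous_ofReal.comp hKc
    have hrc : Continuous fun x => ((X.χ i x : Circle) : ℂ).re :=
      Complex.continuous_re.comp (X.χ_continuous i)
    have hrcC : Continuous fun x => ((((X.χ i x : Circle) : ℂ).re : ℝ) : ℂ) :=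
      Complex.continuous_ofReal.comp hrc
    have h6 : (fun x => (φ i x : ℂ) * (φ i x : ℂ) * ((1 + β i * X.K i x : ℝ) : ℂ)) =
        fun x => ((((((X.χ i x : Circle) : ℂ).re) ^ 2 * (1 + β i * X.K i x) : ℝ) : ℂ) +
          ((-2 * b : ℂ) * (((((X.χ i x : Circle) : ℂ).re : ℝ) : ℂ) * ((1 + β i * X.K i x : ℝ) : ℂ)) +
          (b ^ 2 : ℂ) * ((1 + β i * X.K i x : ℝ) : ℂ))) := by
      funext x
      simp only [hφ]
      push_cast
      ring
    have hc5 : Continuous fun x => (((((X.χ i x : Circle) : ℂ).re) ^ 2 * (1 + β i * X.K i x) : ℝ) : ℂ) :=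
      Complex.continuous_ofReal.comp ((hrc.pow 2).mul hKc)
    have hc6 : Continuous fun x => (-2 * b : ℂ) * (((((X.χ i x : Circle) : ℂ).re : ℝ) : ℂ) *
        ((1 + β i * X.K i x : ℝ) : ℂ)) := continuous_const.mul (hrcC.mul hK)
    have hc7 : Continuous fun x => (b ^ 2 : ℂ) * ((1 + β i * X.K i x : ℝ) : ℂ) :=
      continuous_const.mul hK
    have hc8 : Continuous fun x => (-2 * b : ℂ) * (((((X.χ i x : Circle) : ℂ).re : ℝ) : ℂ) *
        ((1 + β i * X.K i x : ℝ) : ℂ)) + (b ^ 2 : ℂ) * ((1 + β i * X.K i x : ℝ) : ℂ) :=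
      hc6.add hc7
    rw [h6, X.E_add hc5 hc8, X.E_add hc6 hc7, X.E_smul, X.E_smul, X.E_re_mul_factor,
      X.E_factor, hβ i hi]
    have h7 : ‖X.E (fun x => (((((X.χ i x : Circle) : ℂ).re) ^ 2 * (1 + b * X.K i x) : ℝ) : ℂ))‖ ≤
        1 := by
      have h8 := X.norm_E_le (F := fun x => (((((X.χ i x : Circle) : ℂ).re) ^ 2 *
        (1 + b * X.K i x) : ℝ) : ℂ)) (F' := fun x => 1 + b * X.K i x)
        (by rw [← hβ i hi]; exact hc5) (by rw [← hβ i hi]; exact hKc) (fun x => by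
          rw [Complex.norm_real, Real.norm_eq_abs, abs_mul]
          have h9 : 0 ≤ 1 + b * X.K i x := by
            have h10 := X.factor_nonneg (β := fun _ => b) (fun _ => hb) i x
            exact h10
          rw [abs_of_nonneg h9]
          have h11 : |((X.χ i x : Circle) : ℂ).re ^ 2| ≤ 1 := by
            rw [abs_pow]
            exact pow_le_one₀ (abs_nonneg _) (X.abs_re_le i x)
          nlinarith)
      have h12 := X.E_factor (fun _ => b) i
      rw [h12] at h8
      simpa using h8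
    have h13 := (Complex.re_le_norm _).trans h7
    have h14 : (X.E (fun x => (((((X.χ i x : Circle) : ℂ).re) ^ 2 * (1 + b * X.K i x) : ℝ) : ℂ)) +
      (-2 * (b:ℂ) * (b:ℂ) + (b:ℂ) ^ 2 * 1)).re =
      (X.E (fun x => (((((X.χ i x : Circle) : ℂ).re) ^ 2 * (1 + b * X.K i x) : ℝ) : ℂ))).re -
        b ^ 2 := by
      rw [Complex.add_re]
      have : (-2 * (b:ℂ) * (b:ℂ) + (b:ℂ) ^ 2 * 1) = ((-b ^ 2 : ℝ) : ℂ) := by push_cast; ring
      rw [this, Complex.ofReal_re]
      ring
    rw [h14]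
    nlinarith [sq_nonneg b]
  have hsum : ∑ i ∈ W, X.E (fun x => ∑ j ∈ W, (φ j x : ℂ) * (φ i x : ℂ) * (X.R β U x : ℂ)) =
      ∑ i ∈ W, X.E (fun x => (φ i x : ℂ) * (φ i x : ℂ) * (X.R β U x : ℂ)) := by
    refine Finset.sum_congr rfl fun i hi => ?_
    rw [X.E_sum W fun j hj => hc2 i hi j hj]
    exact Finset.sum_eq_single i (fun j hj hne => hoff i hi j hj hne) (fun h => absurd hi h)
  rw [hsum]
  have h15 : ((W.card : ℂ)⁻¹ ^ 2) = (((W.card : ℝ)⁻¹ ^ 2 : ℝ) : ℂ) := by push_cast; rfl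
  rw [h15, Complex.re_ofReal_mul, Complex.re_sum]
  have h16 : ∑ i ∈ W, (X.E (fun x => (φ i x : ℂ) * (φ i x : ℂ) * (X.R β U x : ℂ))).re ≤ W.card := by
    refine (Finset.sum_le_sum hdiag).trans ?_
    simp
  calc (W.card : ℝ)⁻¹ ^ 2 * ∑ i ∈ W, (X.E (fun x => (φ i x : ℂ) * (φ i x : ℂ) *
      (X.R β U x : ℂ))).re ≤ (W.card : ℝ)⁻¹ ^ 2 * W.card :=
        mul_le_mul_of_nonneg_left h16 (by positivity)
    _ = (W.card : ℝ)⁻¹ := by field_simp

theorem E_χ_mul_conj_χ [DecidableEq ι] (i j : ι) :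
    X.E (fun x => ((X.χ i x : Circle) : ℂ) * conj ((X.χ j x : Circle) : ℂ)) =
      if j = i then 1 else 0 := by
  by_cases h : j = i
  · subst h
    rw [if_pos rfl]
    simp only [X.χ_mul_conj]
    exact X.E_one
  · rw [if_neg h]
    have hd : Disjoint ({i} : Finset ι) {j} := by
      rw [Finset.disjoint_singleton]; exact fun h' => h h'.symm
    rw [X.E_mul_of_disjoint hd
      (X.Trig_mono (Finset.Subset.refl _) (by norm_num) (X.χ_mem_Trig (Finset.mem_singleton_self i)))
      (X.Trig_mono (Finset.Subset.refl _) (by norm_num)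
        (X.conj_χ_mem_Trig (Finset.mem_singleton_self j))), X.E_χ, zero_mul]

/-- second moment of the (translated) complex average over a block `W` for the plain weight -/
theorem E_window_sq {W : Finset ι} (hW : W.Nonempty) (w : G) :
    X.E (fun x => ((‖(W.card : ℂ)⁻¹ * ∑ i ∈ W, ((X.χ i (w * x) : Circle) : ℂ)‖ ^ 2 : ℝ) : ℂ)) =
      ((W.card : ℝ)⁻¹ : ℝ) := by
  classical
  have hW0 : (W.card : ℂ) ≠ 0 := by exact_mod_cast hW.card_pos.ne'
  have h1 : (fun x => ((‖(W.card : ℂ)⁻¹ * ∑ i ∈ W, ((X.χ i (w * x) : Circle) : ℂ)‖ ^ 2 : ℝ) : ℂ)) =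
      fun x => ((W.card : ℂ)⁻¹ ^ 2) * ∑ i ∈ W, ∑ j ∈ W,
        (((X.χ i w : Circle) : ℂ) * conj ((X.χ j w : Circle) : ℂ)) *
        (((X.χ i x : Circle) : ℂ) * conj ((X.χ j x : Circle) : ℂ)) := by
    funext x
    push_cast
    rw [← Complex.mul_conj', map_mul, map_inv₀, Complex.conj_natCast, _root_.map_sum]
    have h2 : (W.card : ℂ)⁻¹ * (∑ i ∈ W, ((X.χ i (w * x) : Circle) : ℂ)) *
        ((W.card : ℂ)⁻¹ * ∑ i ∈ W, conj ((X.χ i (w * x) : Circle) : ℂ)) =
        ((W.card : ℂ)⁻¹ ^ 2) * ((∑ i ∈ W, ((X.χ i (w * x) : Circle) : ℂ)) *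
          ∑ i ∈ W, conj ((X.χ i (w * x) : Circle) : ℂ)) := by ring
    rw [h2, Finset.sum_mul_sum]
    congr 1
    refine Finset.sum_congr rfl fun i _ => Finset.sum_congr rfl fun j _ => ?_
    rw [map_mul, map_mul, Circle.coe_mul, Circle.coe_mul, map_mul]
    ring
  have hc : ∀ i j, Continuous fun x => (((X.χ i w : Circle) : ℂ) * conj ((X.χ j w : Circle) : ℂ)) *
        (((X.χ i x : Circle) : ℂ) * conj ((X.χ j x : Circle) : ℂ)) := fun i j =>
    continuous_const.mul ((X.χ_continuous i).mul (Complex.continuous_conj.comp (X.χ_continuous j)))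
  rw [h1, X.E_smul, X.E_sum W fun i _ => continuous_finsetSum _ fun j _ => hc i j]
  have h3 : ∀ i ∈ W, X.E (fun x => ∑ j ∈ W, (((X.χ i w : Circle) : ℂ) *
      conj ((X.χ j w : Circle) : ℂ)) *
        (((X.χ i x : Circle) : ℂ) * conj ((X.χ j x : Circle) : ℂ))) = 1 := by
    intro i hi
    rw [X.E_sum W fun j _ => hc i j]
    have h4 : ∀ j ∈ W, X.E (fun x => (((X.χ i w : Circle) : ℂ) * conj ((X.χ j w : Circle) : ℂ)) *
        (((X.χ i x : Circle) : ℂ) * conj ((X.χ j x : Circle) : ℂ))) = if j = i then 1 else 0 := by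
      intro j _
      rw [X.E_smul, X.E_χ_mul_conj_χ]
      by_cases h : j = i
      · subst h
        rw [X.χ_mul_conj, if_pos rfl, one_mul]
      · rw [if_neg h, mul_zero]
    rw [Finset.sum_congr rfl h4, Finset.sum_ite_eq' W i, if_pos hi]
  rw [Finset.sum_congr rfl h3, Finset.sum_const, nsmul_eq_mul, mul_one]
  push_cast
  field_simp

/-! ## convolution of Riesz products -/

/-- expectation of products of functions of different characters -/
theorem E_prod_fresh {U : Finset ι} {g : ι → G → ℂ} (hg : ∀ i ∈ U, g i ∈ X.Trig {i} 4) :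
    (fun x => ∏ i ∈ U, g i x) ∈ X.Trig U 4 ∧
      X.E (fun x => ∏ i ∈ U, g i x) = ∏ i ∈ U, X.E (g i) := by
  classical
  induction U using Finset.induction_on with
  | empty =>
    simp only [Finset.prod_empty]
    exact ⟨X.one_mem_Trig _ _, X.E_one⟩
  | insert a U ha ih =>
    obtain ⟨ih1, ih2⟩ := ih fun i hi => hg i (Finset.mem_insert_of_mem hi)
    have hd : Disjoint {a} U := Finset.disjoint_singleton_left.2 ha
    have h1 := X.Trig_mul_disjoint hd (hg a (Finset.mem_insert_self a U)) ih1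
    have h2 := X.E_mul_of_disjoint hd (hg a (Finset.mem_insert_self a U)) ih1
    have h3 : {a} ∪ U = insert a U := rfl
    rw [h3] at h1
    simp_rw [Finset.prod_insert ha]
    exact ⟨h1, by rw [h2, ih2]⟩

/-- the second factor in the convolution, as a trigonometric polynomial in `y` -/
theorem K_inv_mul (i : ι) (x y : G) :
    (X.K i (y⁻¹ * x) : ℂ) = ((2 * X.κ i : ℝ) : ℂ)⁻¹ *
      (conj ((X.χ i x : Circle) : ℂ) * ((X.χ i y : Circle) : ℂ)
        + ((X.χ i x : Circle) : ℂ) * conj ((X.χ i y : Circle) : ℂ)) := by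
  have h1 : ((X.χ i (y⁻¹ * x) : Circle) : ℂ)
      = conj ((X.χ i y : Circle) : ℂ) * ((X.χ i x : Circle) : ℂ) := by
    rw [map_mul, map_inv, Circle.coe_mul, Circle.coe_inv_eq_conj]
  have hκ : (X.κ i : ℂ) ≠ 0 := by exact_mod_cast (X.κ_pos i).ne'
  unfold K
  rw [h1]
  push_cast
  rw [Complex.re_eq_add_conj, map_mul, Complex.conj_conj]
  field_simp
  ring

theorem factor2_mem_Trig (b : ℝ) (i : ι) (x : G) :
    (fun y => ((1 + b * X.K i (y⁻¹ * x) : ℝ) : ℂ)) ∈ X.Trig {i} 1 := by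
  have h1 : (fun y => ((1 + b * X.K i (y⁻¹ * x) : ℝ) : ℂ)) = (fun _ => (1 : ℂ)) +
      (((b : ℂ) * ((2 * X.κ i : ℝ) : ℂ)⁻¹ * conj ((X.χ i x : Circle) : ℂ)) •
          (fun y => ((X.χ i y : Circle) : ℂ)) +
        ((b : ℂ) * ((2 * X.κ i : ℝ) : ℂ)⁻¹ * ((X.χ i x : Circle) : ℂ)) •
          (fun y => conj ((X.χ i y : Circle) : ℂ))) := by
    funext y
    simp only [Pi.add_apply, Pi.smul_apply, smul_eq_mul]
    rw [Complex.ofReal_add, Complex.ofReal_mul, X.K_inv_mul]
    push_cast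
    ring
  rw [h1]
  exact Submodule.add_mem _ (X.one_mem_Trig _ _) (Submodule.add_mem _
    (Submodule.smul_mem _ _ (X.χ_mem_Trig (Finset.mem_singleton_self i)))
    (Submodule.smul_mem _ _ (X.conj_χ_mem_Trig (Finset.mem_singleton_self i))))

theorem E_factor_mul_factor2 (β γ : ι → ℝ) (i : ι) (x : G) :
    X.E (fun y => ((1 + β i * X.K i y : ℝ) : ℂ) * ((1 + γ i * X.K i (y⁻¹ * x) : ℝ) : ℂ))
      = ((1 + β i * γ i * X.K i x : ℝ) : ℂ) := by
  have hκ : (X.κ i : ℂ) ≠ 0 := by exact_mod_cast (X.κ_pos i).ne'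
  have hK : Continuous fun y => ((1 + β i * X.K i y : ℝ) : ℂ) := by
    have := X.K_continuous i
    exact Complex.continuous_ofReal.comp (by fun_prop)
  have hχ := X.χ_continuous i
  have hχ' : Continuous fun y => conj ((X.χ i y : Circle) : ℂ) :=
    Complex.continuous_conj.comp hχ
  have h1 : (fun y => ((1 + β i * X.K i y : ℝ) : ℂ) * ((1 + γ i * X.K i (y⁻¹ * x) : ℝ) : ℂ)) =
      fun y => ((1 + β i * X.K i y : ℝ) : ℂ) +
        (((γ i : ℂ) * ((2 * X.κ i : ℝ) : ℂ)⁻¹ * conj ((X.χ i x : Circle) : ℂ)) *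
          (((X.χ i y : Circle) : ℂ) * ((1 + β i * X.K i y : ℝ) : ℂ)) +
        ((γ i : ℂ) * ((2 * X.κ i : ℝ) : ℂ)⁻¹ * ((X.χ i x : Circle) : ℂ)) *
          (conj ((X.χ i y : Circle) : ℂ) * ((1 + β i * X.K i y : ℝ) : ℂ))) := by
    funext y
    rw [Complex.ofReal_add 1 (γ i * _), Complex.ofReal_mul (γ i), X.K_inv_mul]
    push_cast
    ring
  have c1 : Continuous fun y => ((γ i : ℂ) * ((2 * X.κ i : ℝ) : ℂ)⁻¹ * conj ((X.χ i x : Circle) : ℂ)) *
          (((X.χ i y : Circle) : ℂ) * ((1 + β i * X.K i y : ℝ) : ℂ)) :=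
    continuous_const.mul (hχ.mul hK)
  have c2 : Continuous fun y => ((γ i : ℂ) * ((2 * X.κ i : ℝ) : ℂ)⁻¹ * ((X.χ i x : Circle) : ℂ)) *
          (conj ((X.χ i y : Circle) : ℂ) * ((1 + β i * X.K i y : ℝ) : ℂ)) :=
    continuous_const.mul (hχ'.mul hK)
  have c12 : Continuous fun y =>
      ((γ i : ℂ) * ((2 * X.κ i : ℝ) : ℂ)⁻¹ * conj ((X.χ i x : Circle) : ℂ)) *
          (((X.χ i y : Circle) : ℂ) * ((1 + β i * X.K i y : ℝ) : ℂ)) +
      ((γ i : ℂ) * ((2 * X.κ i : ℝ) : ℂ)⁻¹ * ((X.χ i x : Circle) : ℂ)) *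
          (conj ((X.χ i y : Circle) : ℂ) * ((1 + β i * X.K i y : ℝ) : ℂ)) := c1.add c2
  rw [h1, X.E_add hK c12, X.E_add c1 c2, X.E_smul, X.E_smul, X.E_χ_mul_factor,
    X.E_conj_χ_mul_factor, X.E_factor]
  unfold K
  push_cast
  rw [Complex.re_eq_add_conj]
  field_simp
  ring

/-- convolution of Riesz products -/
theorem conv_R (β γ : ι → ℝ) (U : Finset ι) (x : G) :
    ∫ y, X.f₀ y * (X.R β U y * X.R γ U (y⁻¹ * x)) ∂(haar : Measure G) =
      X.c * X.R (fun i => β i * γ i) U x := by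
  have h1 := (X.E_prod_fresh (U := U)
    (g := fun i y => ((1 + β i * X.K i y : ℝ) : ℂ) * ((1 + γ i * X.K i (y⁻¹ * x) : ℝ) : ℂ))
    fun i _ => X.Trig_mono (Finset.Subset.refl _) (show 1 + 1 ≤ 4 by norm_num)
      (X.Trig_mul (X.factor_mem_Trig β (Finset.mem_singleton_self i))
        (X.factor2_mem_Trig (γ i) i x))).2
  have h2 : (fun y => ∏ i ∈ U, ((1 + β i * X.K i y : ℝ) : ℂ) *
      ((1 + γ i * X.K i (y⁻¹ * x) : ℝ) : ℂ)) =
      fun y => ((X.R β U y * X.R γ U (y⁻¹ * x) : ℝ) : ℂ) := by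
    funext y
    rw [Finset.prod_mul_distrib]
    unfold R
    push_cast
    rfl
  rw [h2, X.E_ofReal, Finset.prod_congr rfl fun i _ => X.E_factor_mul_factor2 β γ i x] at h1
  have h3 : (∏ i ∈ U, ((1 + β i * γ i * X.K i x : ℝ) : ℂ)) =
      ((X.R (fun i => β i * γ i) U x : ℝ) : ℂ) := by
    unfold R
    push_cast
    rfl
  rw [h3] at h1
  have h4 := Complex.ofReal_injective h1
  have hc := X.c_pos
  rw [div_eq_iff hc.ne'] at h4
  rw [h4, mul_comm]


end IndepSys

end MPb7f1cf
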