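import Mathlib

/-!
# The selection theorem for locally compact abelian groups

Let `G` be a non-discrete locally compact Hausdorff abelian group and `B` a natural number.
We construct a function `f₀` in `C_c(G)`, `0 ≤ f₀ ≤ 1`, and a sequence `χ i` of characters of `G`,
nontrivial on the support of `f₀`, such that `∫ f₀ ∏ χ_i ^ e_i = 0` for all finitely supported
integer vectors `e` with entries of absolute value at most `B` such that `χ_i ^ e_i` is nontrivial
on the support of `f₀` for at least one `i`.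
-/

open Set Filter Topology Pointwise MeasureTheory

namespace B7F1CF.Selection


/-! ### Algebra: a weakly dissociate sequence in an infinite abelian group -/

/-- In an infinite abelian group, every finite set can be avoided. -/
theorem avoid {Γ : Type*} [CommGroup Γ] [Infinite Γ] (D : ℕ) (Φ : Set Γ) (hΦ : Φ.Finite) :
    ∃ g : Γ, g ≠ 1 ∧ ∀ e : ℤ, |e| ≤ D → g ^ e ≠ 1 → g ^ e ∉ Φ := by
  classical
  by_cases hfin : ∀ n : ℕ, 0 < n → {g : Γ | g ^ n = 1}.Finite
  · -- all torsion subgroups are finite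
    have hfin' : ∀ e : ℤ, e ≠ 0 → {g : Γ | g ^ e = 1}.Finite := by
      intro e he
      have h := hfin e.natAbs (Int.natAbs_pos.mpr he)
      refine h.subset ?_
      intro g hg
      simp only [mem_ofPred_eq] at hg ⊢
      rcases Int.natAbs_eq e with h1 | h1
      · rw [h1, zpow_natCast] at hg
        exact hg
      · rw [h1, zpow_neg, zpow_natCast, inv_eq_one] at hg
        exact hg
    have hroot : ∀ e : ℤ, e ≠ 0 → ∀ φ : Γ, {g : Γ | g ^ e = φ}.Finite := by
      intro e he φ
      by_cases hne : {g : Γ | g ^ e = φ}.Nonempty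
      · obtain ⟨g0, hg0⟩ := hne
        refine ((hfin' e he).image (fun g => g0 * g)).subset ?_
        intro g hg
        refine ⟨g0⁻¹ * g, ?_, by simp⟩
        simp only [mem_ofPred_eq] at hg hg0 ⊢
        rw [mul_zpow, inv_zpow, hg0, hg, inv_mul_cancel]
      · rw [Set.not_nonempty_iff_eq_empty] at hne
        rw [hne]; exact Set.finite_empty
    have hbad : ({g : Γ | g = 1} ∪ ⋃ e ∈ (Finset.Icc (-(D:ℤ)) D).filter (· ≠ 0),
        ⋃ φ ∈ Φ, {g : Γ | g ^ e = φ}).Finite := by
      refine Set.Finite.union (by simp) ?_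
      refine Set.Finite.biUnion (Finset.finite_toSet _) ?_
      intro e he
      refine hΦ.biUnion ?_
      intro φ _
      refine hroot e ?_ φ
      simpa using (Finset.mem_filter.mp (Finset.mem_coe.mp he)).2
    obtain ⟨g, hg⟩ := hbad.exists_notMem
    refine ⟨g, ?_, ?_⟩
    · intro h; exact hg (Or.inl h)
    · intro e he hne hmem
      apply hg
      right
      simp only [mem_iUnion]
      refine ⟨e, ?_, g ^ e, hmem, rfl⟩
      rw [Finset.mem_filter, Finset.mem_Icc]
      refine ⟨abs_le.mp he, ?_⟩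
      rintro rfl
      exact hne (zpow_zero g)
  · -- some torsion subgroup is infinite
    push Not at hfin
    have hex : ∃ n : ℕ, 0 < n ∧ {g : Γ | g ^ n = 1}.Infinite := hfin
    let p := Nat.find hex
    obtain ⟨hp0, hpinf⟩ : 0 < p ∧ {g : Γ | g ^ p = 1}.Infinite := Nat.find_spec hex
    have hmin : ∀ m, 0 < m → m < p → {g : Γ | g ^ m = 1}.Finite := by
      intro m hm hmp
      by_contra hcon
      exact Nat.find_min hex hmp ⟨hm, hcon⟩
    have hp1 : p ≠ 1 := by
      intro h
      rw [h] at hpinf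
      apply hpinf
      simp
    have hprime : p.Prime := by
      by_contra hnp
      obtain ⟨a, b, ha, hb, hab⟩ : ∃ a b, 1 < a ∧ 1 < b ∧ a * b = p := by
        obtain ⟨a, b, h⟩ := (Nat.not_prime_iff_exists_mul_eq (by omega)).mp hnp
        obtain ⟨h1, h2, h3⟩ := h
        refine ⟨a, b, ?_, ?_, h3⟩
        · rcases Nat.lt_or_ge 1 a with h | h
          · exact h
          · interval_cases a <;> simp_all
        · rcases Nat.lt_or_ge 1 b with h | h
          · exact h
          · interval_cases b <;> simp_all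
      have hap : a < p := by nlinarith
      have hbp : b < p := by nlinarith
      have hA := hmin a (by omega) hap
      have hB := hmin b (by omega) hbp
      apply hpinf
      -- g ↦ g ^ a maps Γ[p] to Γ[b] with finite fibres
      have hcover : {g : Γ | g ^ p = 1} ⊆ ⋃ φ ∈ {g : Γ | g ^ b = 1}, {g : Γ | g ^ a = φ} := by
        intro g hg
        simp only [mem_ofPred_eq, mem_iUnion] at hg ⊢
        refine ⟨g ^ a, ?_, rfl⟩
        rw [← pow_mul, hab, hg]
      refine Set.Finite.subset ?_ hcover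
      refine hB.biUnion ?_
      intro φ _
      by_cases hne : {g : Γ | g ^ a = φ}.Nonempty
      · obtain ⟨g0, hg0⟩ := hne
        refine (hA.image (fun g => g0 * g)).subset ?_
        intro g hg
        refine ⟨g0⁻¹ * g, ?_, by simp⟩
        simp only [mem_ofPred_eq] at hg hg0 ⊢
        rw [mul_pow, inv_pow, hg0, hg, inv_mul_cancel]
      · rw [Set.not_nonempty_iff_eq_empty] at hne
        rw [hne]; exact Set.finite_empty
    -- injectivity of g ↦ g ^ e on Γ[p], if p ∤ e
    have hbad : ({g : Γ | g = 1} ∪ ⋃ e ∈ (Finset.Icc (-(D:ℤ)) D),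
        ⋃ φ ∈ Φ, {g : Γ | g ^ p = 1 ∧ g ^ e ≠ 1 ∧ g ^ e = φ}).Finite := by
      refine Set.Finite.union (by simp) ?_
      refine Set.Finite.biUnion (Finset.finite_toSet _) ?_
      intro e _
      refine hΦ.biUnion ?_
      intro φ _
      refine Set.Subsingleton.finite ?_
      rintro g ⟨hg1, hg2, hg3⟩ g' ⟨hg1', hg2', hg3'⟩
      have hcop : ¬ (p : ℤ) ∣ e := by
        rintro ⟨k, rfl⟩
        apply hg2
        rw [zpow_mul, zpow_natCast, hg1, one_zpow]
      have hc : IsCoprime (p : ℤ) e := by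
        rw [Int.isCoprime_iff_gcd_eq_one]
        have := (Nat.Prime.coprime_iff_not_dvd hprime (n := e.natAbs)).mpr
          (fun h => hcop (Int.natCast_dvd.mpr h))
        simpa [Int.gcd] using this
      obtain ⟨u, v, huv⟩ := hc
      have key : ∀ x : Γ, x ^ p = 1 → x = (x ^ e) ^ v := by
        intro x hx
        calc x = x ^ (u * p + v * e) := by rw [huv, zpow_one]
          _ = (x ^ e) ^ v := by
            rw [zpow_add, mul_comm u, zpow_mul, zpow_natCast, hx, one_zpow, one_mul,
              mul_comm v, zpow_mul]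
      rw [key g hg1, key g' hg1', hg3, hg3']
    obtain ⟨g, hgp, hg⟩ := hpinf.exists_notMem_finite hbad
    refine ⟨g, ?_, ?_⟩
    · intro h; exact hg (Or.inl h)
    · intro e he hne hmem
      apply hg
      right
      simp only [mem_iUnion]
      refine ⟨e, ?_, g ^ e, hmem, hgp, hne, rfl⟩
      rw [Finset.mem_Icc]
      exact abs_le.mp he

/-- An infinite abelian group contains a weakly dissociate sequence. -/
theorem exists_dissociate (Γ : Type*) [CommGroup Γ] [Infinite Γ] (D : ℕ) :
    ∃ γ : ℕ → Γ, (∀ i, γ i ≠ 1) ∧ ∀ (s : Finset ℕ) (e : ℕ → ℤ), (∀ i ∈ s, |e i| ≤ D) →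
      (∃ i ∈ s, γ i ^ e i ≠ 1) → ∏ i ∈ s, γ i ^ e i ≠ 1 := by
  classical
  choose g hg1 hg2 using fun Φ : Finset Γ => avoid (Γ := Γ) D (Φ : Set Γ) Φ.finite_toSet
  let Ψ : ℕ → Finset Γ := fun n => Nat.rec {1}
    (fun _ Φ => (Φ ×ˢ Finset.Icc (-(D:ℤ)) D).image (fun q => q.1 * (g Φ) ^ q.2)) n
  have hΨ0 : Ψ 0 = {1} := rfl
  have hΨs : ∀ n, Ψ (n+1) = ((Ψ n) ×ˢ Finset.Icc (-(D:ℤ)) D).image
      (fun q => q.1 * (g (Ψ n)) ^ q.2) := fun n => rfl
  refine ⟨fun n => g (Ψ n), fun i => hg1 _, ?_⟩
  -- products over initial segments are in `Ψ`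
  have hprod : ∀ n (e : ℕ → ℤ), (∀ i < n, |e i| ≤ D) →
      ∏ i ∈ Finset.range n, g (Ψ i) ^ e i ∈ Ψ n := by
    intro n
    induction n with
    | zero => intro e _; simp [hΨ0]
    | succ n ih =>
      intro e he
      rw [Finset.prod_range_succ, hΨs, Finset.mem_image]
      refine ⟨(_, e n), ?_, rfl⟩
      rw [Finset.mem_product]
      refine ⟨ih e (fun i hi => he i (by omega)), ?_⟩
      rw [Finset.mem_Icc]
      exact abs_le.mp (he n (by omega))
  -- the statement for initial segments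
  have hmain : ∀ n (e : ℕ → ℤ), (∀ i < n, |e i| ≤ D) → (∃ i < n, g (Ψ i) ^ e i ≠ 1) →
      ∏ i ∈ Finset.range n, g (Ψ i) ^ e i ≠ 1 := by
    intro n
    induction n with
    | zero => rintro e _ ⟨i, hi, _⟩; omega
    | succ n ih =>
      rintro e he ⟨i, hi, hne⟩
      rw [Finset.prod_range_succ]
      by_cases hn : g (Ψ n) ^ e n = 1
      · rw [hn, mul_one]
        refine ih e (fun j hj => he j (by omega)) ⟨i, ?_, hne⟩
        rcases Nat.lt_succ_iff_lt_or_eq.mp hi with h | h
        · exact h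
        · subst h; exact absurd hn hne
      · intro hcon
        have h1 : g (Ψ n) ^ e n = ∏ i ∈ Finset.range n, g (Ψ i) ^ (- e i) := by
          have h2 : ∏ i ∈ Finset.range n, g (Ψ i) ^ (- e i)
              = (∏ i ∈ Finset.range n, g (Ψ i) ^ (e i))⁻¹ := by
            rw [← Finset.prod_inv_distrib]
            refine Finset.prod_congr rfl ?_
            intro i _
            rw [zpow_neg]
          rw [h2]
          exact eq_inv_of_mul_eq_one_right hcon
        refine hg2 (Ψ n) (e n) (he n (by omega)) hn ?_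
        rw [h1]
        exact hprod n (fun i => - e i) (fun i hi => by rw [abs_neg]; exact he i (by omega))
  intro s e he hex
  -- reduce to initial segments
  obtain ⟨n, hn⟩ : ∃ n, s ⊆ Finset.range n := s.exists_nat_subset_range
  have h := hmain n (fun i => if i ∈ s then e i else 0) ?_ ?_
  · intro hcon
    apply h
    rw [← hcon]
    symm
    have : ∀ i ∈ s, g (Ψ i) ^ e i = g (Ψ i) ^ (if i ∈ s then e i else 0) := by
      intro i hi; rw [if_pos hi]
    rw [Finset.prod_congr rfl this]
    refine Finset.prod_subset hn ?_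
    intro i _ hi
    rw [if_neg hi, zpow_zero]
  · intro i _
    by_cases hi : i ∈ s
    · simp only [if_pos hi]; exact he i hi
    · simp [if_neg hi]
  · obtain ⟨i, hi, hne⟩ := hex
    refine ⟨i, Finset.mem_range.mp (hn hi), ?_⟩
    simp only [if_pos hi]
    exact hne



/-! ### Topological groups: a discrete cocompact subgroup -/

variable {G : Type*} [CommGroup G] [TopologicalSpace G] [IsTopologicalGroup G]

/-- Relative monothetic lemma. -/
theorem monothetic [LocallyCompactSpace G] (D : Subgroup G) (t : G) :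
    (∃ C : Set G, IsCompact C ∧ ∀ n : ℤ, ∃ c ∈ C, ∃ d ∈ D, t ^ n = c * d) ∨
    (∃ U ∈ 𝓝 (1 : G), ∀ n : ℤ, ∀ d ∈ D, t ^ n * d ∈ U → n = 0) := by
  classical
  by_cases hb : ∃ U ∈ 𝓝 (1 : G), ∀ n : ℤ, ∀ d ∈ D, t ^ n * d ∈ U → n = 0
  · exact Or.inr hb
  left
  push Not at hb
  -- Step 1: arbitrarily large positive exponents
  have step1 : ∀ U ∈ 𝓝 (1 : G), ∀ N : ℕ, ∃ n : ℤ, (N : ℤ) < n ∧ ∃ d ∈ D, t ^ n * d ∈ U := by
    intro U hU N
    have hc : Tendsto (fun x : G => x ^ (N + 1)) (𝓝 1) (𝓝 1) := by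
      have : Continuous (fun x : G => x ^ (N + 1)) := continuous_pow _
      simpa using this.tendsto 1
    have hc' : Tendsto (fun x : G => (x⁻¹) ^ (N + 1)) (𝓝 1) (𝓝 1) := by
      have : Continuous (fun x : G => (x⁻¹) ^ (N + 1)) := (continuous_pow _).comp continuous_inv
      simpa using this.tendsto 1
    obtain ⟨n, d, hd, hmem, hn⟩ := hb _ (inter_mem (hc hU) (hc' hU))
    rcases lt_or_gt_of_ne hn with hneg | hpos
    · refine ⟨-n * (N + 1), ?_, (d⁻¹) ^ (N + 1), D.pow_mem (D.inv_mem hd) _, ?_⟩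
      · nlinarith
      · have := hmem.2
        simp only [mem_preimage] at this
        convert this using 1
        rw [mul_inv, mul_pow, ← zpow_neg]
        congr 1
        rw [zpow_mul]
        norm_cast
    · refine ⟨n * (N + 1), ?_, d ^ (N + 1), D.pow_mem hd _, ?_⟩
      · nlinarith
      · have := hmem.1
        simp only [mem_preimage] at this
        convert this using 1
        rw [mul_pow]
        congr 1
        rw [zpow_mul]
        norm_cast
  -- compact neighbourhood of 1 and symmetric open one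
  obtain ⟨U, hUc, hU⟩ : ∃ U : Set G, IsCompact U ∧ U ∈ 𝓝 (1 : G) := exists_compact_mem_nhds 1
  obtain ⟨W0, hW0U, hW0o, hW01⟩ := mem_nhds_iff.mp hU
  set W : Set G := W0 ∩ W0⁻¹ with hW
  have hWo : IsOpen W := hW0o.inter hW0o.inv
  have hW1 : (1 : G) ∈ W := ⟨hW01, by simpa using hW01⟩
  have hWU : W ⊆ U := fun x hx => hW0U hx.1
  have hWinv : ∀ x, x ∈ W → x⁻¹ ∈ W := by
    rintro x ⟨h1, h2⟩
    exact ⟨h2, by simpa using h1⟩
  set S : Set G := {x | ∃ m : ℤ, ∃ d ∈ D, x = t ^ m * d} with hS
  -- Step 2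
  have step2 : ∀ h ∈ closure S, ∃ k : ℕ, 1 ≤ k ∧ ∃ d ∈ D, h⁻¹ * t ^ (k : ℤ) * d ∈ W := by
    intro h hh
    have hopen : IsOpen {x : G | h⁻¹ * x ∈ W} := hWo.preimage (continuous_const.mul continuous_id)
    obtain ⟨x, hx1, m, d, hd, rfl⟩ := mem_closure_iff.mp hh _ hopen (by
      simpa using hW1)
    have hopen2 : IsOpen {y : G | h⁻¹ * (t ^ m * d) * y ∈ W} :=
      hWo.preimage (continuous_const.mul continuous_id)
    obtain ⟨n, hn, d', hd', hmem⟩ := step1 {y : G | h⁻¹ * (t ^ m * d) * y ∈ W}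
      (hopen2.mem_nhds (by simpa using hx1)) (m.natAbs)
    have hmn : 0 < m + n := by
      have := neg_abs_le m
      have h2 : ((m.natAbs : ℕ) : ℤ) = |m| := Int.natCast_natAbs m
      omega
    refine ⟨(m + n).toNat, by omega, d * d', D.mul_mem hd hd', ?_⟩
    have h3 : (((m + n).toNat : ℕ) : ℤ) = m + n := Int.toNat_of_nonneg hmn.le
    rw [h3]
    have h4 : h⁻¹ * (t ^ m * d) * (t ^ n * d') ∈ W := hmem
    have h5 : h⁻¹ * t ^ (m + n) * (d * d') = h⁻¹ * (t ^ m * d) * (t ^ n * d') := by
      rw [zpow_add]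
      simp only [mul_assoc, mul_left_comm, mul_comm]
    rw [h5]
    exact h4
  -- compactness
  have hK : IsCompact (U ∩ closure S) := hUc.inter_right isClosed_closure
  obtain ⟨T, hT⟩ := hK.elim_finite_subcover
    (fun k : ℕ => {h : G | 1 ≤ k ∧ ∃ d ∈ D, h * t ^ (-(k : ℤ)) * d ∈ W})
    (by
      intro k
      by_cases hk : 1 ≤ k
      · have : {h : G | 1 ≤ k ∧ ∃ d ∈ D, h * t ^ (-(k : ℤ)) * d ∈ W}
            = ⋃ d ∈ D, {h : G | h * t ^ (-(k : ℤ)) * d ∈ W} := by
          ext h; simp [hk]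
        rw [this]
        refine isOpen_biUnion ?_
        intro d _
        exact hWo.preimage ((continuous_id.mul continuous_const).mul continuous_const)
      · have : {h : G | 1 ≤ k ∧ ∃ d ∈ D, h * t ^ (-(k : ℤ)) * d ∈ W} = ∅ := by
          ext h; simp [hk]
        rw [this]; exact isOpen_empty)
    (by
      rintro h ⟨_, hh⟩
      obtain ⟨k, hk, d, hd, hmem⟩ := step2 h hh
      rw [mem_iUnion]
      refine ⟨k, hk, d⁻¹, D.inv_mem hd, ?_⟩
      have := hWinv _ hmem
      convert this using 1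
      rw [mul_inv, mul_inv, inv_inv, zpow_neg])
  obtain ⟨N, hN⟩ : ∃ N, T ⊆ Finset.range N := T.exists_nat_subset_range
  refine ⟨⋃ k ∈ Finset.range N, (fun x => t ^ (-(k : ℤ)) * x) '' U, ?_, ?_⟩
  · refine (Finset.range N).isCompact_biUnion ?_
    intro k _
    exact hUc.image (continuous_const.mul continuous_id)
  · intro m
    -- minimal `k ≥ 1` with `t ^ (m + k) * d ∈ U`
    have hex : ∃ k : ℕ, 1 ≤ k ∧ ∃ d ∈ D, t ^ (m + k) * d ∈ U := by
      obtain ⟨k, hk, d, hd, hmem⟩ := step2 (t ^ (-m)) (subset_closure ⟨-m, 1, D.one_mem, by simp⟩)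
      refine ⟨k, hk, d, hd, hWU ?_⟩
      convert hmem using 1
      rw [zpow_add, ← zpow_neg, neg_neg]
    obtain ⟨hk1, d, hd, hmem⟩ := Nat.find_spec hex
    set k := Nat.find hex with hk
    have hmin : ∀ j : ℕ, j < k → ¬ (1 ≤ j ∧ ∃ d ∈ D, t ^ (m + j) * d ∈ U) :=
      fun j hj => Nat.find_min hex hj
    have hKmem : t ^ (m + k) * d ∈ U ∩ closure S := ⟨hmem, subset_closure ⟨m + k, d, hd, rfl⟩⟩
    obtain ⟨j, hjT⟩ := mem_iUnion.mp (hT hKmem)
    obtain ⟨hjT, hj1, d', hd', hj⟩ := mem_iUnion.mp hjT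
    have hjN : j < N := Finset.mem_range.mp (hN hjT)
    have hkj : k ≤ j := by
      by_contra hcon
      push Not at hcon
      refine hmin (k - j) (by omega) ⟨by omega, d * d', D.mul_mem hd hd', hWU ?_⟩
      convert hj using 1
      have : (((k - j : ℕ) : ℤ)) = (k : ℤ) - j := by
        push_cast [hcon.le]; ring
      rw [this, show m + ((k : ℤ) - j) = (m + k) + (-(j : ℤ)) by ring, zpow_add t (m + (k:ℤ))]
      simp only [mul_assoc, mul_left_comm, mul_comm]
    refine ⟨t ^ (-(k : ℤ)) * (t ^ (m + k) * d), ?_, d⁻¹, D.inv_mem hd, ?_⟩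
    · rw [mem_iUnion₂]
      exact ⟨k, Finset.mem_range.mpr (by omega), _, hmem, rfl⟩
    · rw [← mul_assoc, ← zpow_add]
      simp

/-- Induction over the generators. -/
theorem exists_discrete_aux [LocallyCompactSpace G] (G0 : Subgroup G)
    (T : List G) : ∀ (V : Set G) (D0 : Subgroup G), IsCompact V →
      (∃ U ∈ 𝓝 (1 : G), ∀ d ∈ D0, d ∈ U → d = 1) → D0 ≤ G0 → (∀ t ∈ T, t ∈ G0) →
      (∀ x ∈ G0, ∃ v ∈ V, ∃ d ∈ D0, ∃ s ∈ Subgroup.closure {t | t ∈ T}, x = v * d * s) →
      ∃ (C : Set G) (D : Subgroup G), IsCompact C ∧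
        (∃ U ∈ 𝓝 (1 : G), ∀ d ∈ D, d ∈ U → d = 1) ∧ D ≤ G0 ∧
        (∀ x ∈ G0, ∃ v ∈ C, ∃ d ∈ D, x = v * d) := by
  induction T with
  | nil =>
    intro V D0 hV hD0 hD0G _ h
    refine ⟨V, D0, hV, hD0, hD0G, ?_⟩
    intro x hx
    obtain ⟨v, hv, d, hd, s, hs, rfl⟩ := h x hx
    have : s = 1 := by simpa using hs
    exact ⟨v, hv, d, hd, by rw [this, mul_one]⟩
  | cons t T ih =>
    intro V D0 hV hD0 hD0G hT h
    have htG : t ∈ G0 := hT t (by simp)
    have hTG : ∀ t' ∈ T, t' ∈ G0 := fun t' ht' => hT t' (by simp [ht'])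
    -- decomposition of the closure
    have hdec : ∀ s ∈ Subgroup.closure {t' | t' ∈ t :: T}, ∃ n : ℤ,
        ∃ s' ∈ Subgroup.closure {t' | t' ∈ T}, s = t ^ n * s' := by
      intro s hs
      have h1 : {t' | t' ∈ t :: T} = {t} ∪ {t' | t' ∈ T} := by
        ext x; simp
      rw [h1, Subgroup.closure_union, Subgroup.mem_sup] at hs
      obtain ⟨y, hy, z, hz, rfl⟩ := hs
      obtain ⟨n, rfl⟩ := Subgroup.mem_closure_singleton.mp hy
      exact ⟨n, z, hz, rfl⟩
    rcases monothetic D0 t with ⟨C, hC, hCt⟩ | ⟨U', hU', hU'n⟩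
    · refine ih (V * C) D0 (hV.mul hC) hD0 hD0G hTG ?_
      intro x hx
      obtain ⟨v, hv, d, hd, s, hs, rfl⟩ := h x hx
      obtain ⟨n, s', hs', rfl⟩ := hdec s hs
      obtain ⟨c, hc, d', hd', hcd⟩ := hCt n
      refine ⟨v * c, Set.mul_mem_mul hv hc, d * d', D0.mul_mem hd hd', s', hs', ?_⟩
      rw [hcd]
      simp only [mul_left_comm, mul_comm]
    · obtain ⟨U, hU, hUD⟩ := hD0
      refine ih V (D0 ⊔ Subgroup.zpowers t) hV ⟨U ∩ U', inter_mem hU hU', ?_⟩ ?_ hTG ?_
      · intro d hd hdU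
        rw [Subgroup.mem_sup] at hd
        obtain ⟨y, hy, z, hz, rfl⟩ := hd
        obtain ⟨n, rfl⟩ := Subgroup.mem_zpowers_iff.mp hz
        have hn : n = 0 := hU'n n y hy (by rw [mul_comm]; exact hdU.2)
        subst hn
        rw [zpow_zero, mul_one] at hdU ⊢
        exact hUD y hy hdU.1
      · refine sup_le hD0G ?_
        rw [Subgroup.zpowers_le]
        exact htG
      · intro x hx
        obtain ⟨v, hv, d, hd, s, hs, rfl⟩ := h x hx
        obtain ⟨n, s', hs', rfl⟩ := hdec s hs
        refine ⟨v, hv, d * t ^ n, ?_, s', hs', ?_⟩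
        · rw [Subgroup.mem_sup]
          exact ⟨d, hd, t ^ n, Subgroup.zpow_mem_zpowers t n, rfl⟩
        · simp only [mul_assoc, mul_left_comm, mul_comm]

/-- An open subgroup with a discrete cocompact subgroup. -/
theorem exists_discrete (G : Type*) [CommGroup G] [TopologicalSpace G] [IsTopologicalGroup G]
    [LocallyCompactSpace G] :
    ∃ (G0 D : Subgroup G) (C : Set G), IsOpen (G0 : Set G) ∧ IsCompact C ∧
      (∃ U ∈ 𝓝 (1 : G), ∀ d ∈ D, d ∈ U → d = 1) ∧ D ≤ G0 ∧ C ⊆ G0 ∧
      (∀ x ∈ G0, ∃ v ∈ C, ∃ d ∈ D, x = v * d) := by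
  classical
  obtain ⟨U0, hU0c, hU0⟩ : ∃ U : Set G, IsCompact U ∧ U ∈ 𝓝 (1 : G) := exists_compact_mem_nhds 1
  set U : Set G := U0 ∪ U0⁻¹ with hUdef
  have hUc : IsCompact U := hU0c.union hU0c.inv
  have hU : U ∈ 𝓝 (1 : G) := mem_of_superset hU0 subset_union_left
  have hUinv : ∀ x ∈ U, x⁻¹ ∈ U := by
    rintro x (h | h)
    · right; simpa using h
    · left; simpa using h
  have hU1 : (1 : G) ∈ U := mem_of_mem_nhds hU
  set G0 : Subgroup G := Subgroup.closure U with hG0def
  have hUG0 : U ⊆ G0 := Subgroup.subset_closure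
  have hG0o : IsOpen (G0 : Set G) := G0.isOpen_of_mem_nhds (mem_of_superset hU hUG0)
  -- U * U is covered by finitely many translates
  obtain ⟨T, hTsub, hT⟩ := (hUc.mul hUc).elim_nhds_subcover (fun x => (fun y => x * y) '' U)
    (by
      intro x _
      have : (fun y => x * y) '' U ∈ 𝓝 (x * 1) := by
        rw [← map_mul_left_nhds]
        exact image_mem_map hU
      simpa using this)
  have hTG0 : ∀ t ∈ T, t ∈ G0 := by
    intro t ht
    obtain ⟨a, ha, b, hb, hab⟩ := Set.mem_mul.mp (hTsub t ht)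
    rw [← hab]
    exact G0.mul_mem (hUG0 ha) (hUG0 hb)
  have hdec : ∀ x ∈ G0, ∃ v ∈ U, ∃ s ∈ Subgroup.closure (T : Set G), x = v * s := by
    intro x hx
    refine Subgroup.closure_induction (p := fun x _ => ∃ v ∈ U,
      ∃ s ∈ Subgroup.closure (T : Set G), x = v * s) ?_ ?_ ?_ ?_ hx
    · intro x hx
      exact ⟨x, hx, 1, Subgroup.one_mem _, by simp⟩
    · exact ⟨1, hU1, 1, Subgroup.one_mem _, by simp⟩
    · rintro x y _ _ ⟨v, hv, s, hs, rfl⟩ ⟨v', hv', s', hs', rfl⟩
      obtain ⟨t, ht⟩ := mem_iUnion.mp (hT (Set.mul_mem_mul hv hv'))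
      obtain ⟨htT, u, hu, hut⟩ := mem_iUnion.mp ht
      refine ⟨u, hu, t * (s * s'), Subgroup.mul_mem _ (Subgroup.subset_closure htT)
        (Subgroup.mul_mem _ hs hs'), ?_⟩
      have h2 : v * v' = t * u := hut.symm
      calc v * s * (v' * s') = (v * v') * (s * s') := by
            simp only [mul_left_comm, mul_comm]
        _ = u * (t * (s * s')) := by
            rw [h2]; simp only [mul_left_comm, mul_comm]
    · rintro x _ ⟨v, hv, s, hs, rfl⟩
      exact ⟨v⁻¹, hUinv v hv, s⁻¹, Subgroup.inv_mem _ hs, by rw [mul_inv]⟩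
  obtain ⟨C, D, hC, hD, hDG, hcov⟩ := exists_discrete_aux G0 T.toList U ⊥ hUc
    ⟨univ, univ_mem, by simp⟩ bot_le (by simpa using hTG0) (by
      intro x hx
      obtain ⟨v, hv, s, hs, rfl⟩ := hdec x hx
      refine ⟨v, hv, 1, Subgroup.one_mem _, s, ?_, by simp⟩
      simpa using hs)
  refine ⟨G0, D, C ∩ G0, hG0o, hC.inter_right (G0.isClosed_of_isOpen hG0o), hD, hDG,
    inter_subset_right, ?_⟩
  intro x hx
  obtain ⟨v, hv, d, hd, rfl⟩ := hcov x hx
  refine ⟨v, ⟨hv, ?_⟩, d, hd, rfl⟩
  have : v = (v * d) * d⁻¹ := by simp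
  rw [SetLike.mem_coe, this]
  exact G0.mul_mem hx (G0.inv_mem (hDG hd))



/-! ### A function with constant periodization -/


/-- A discrete subgroup has finite intersection with compact sets. -/
theorem finite_of_compact (D : Subgroup G) (hD : ∃ U ∈ 𝓝 (1 : G), ∀ d ∈ D, d ∈ U → d = 1)
    {K : Set G} (hK : IsCompact K) : {d : D | (d : G) ∈ K}.Finite := by
  classical
  obtain ⟨U, hU, hUD⟩ := hD
  have hV : ∀ᶠ q : G × G in 𝓝 (1 : G) ×ˢ 𝓝 (1 : G), q.1 * q.2⁻¹ ∈ U := by
    have : Tendsto (fun q : G × G => q.1 * q.2⁻¹) (𝓝 (1, 1)) (𝓝 (1 * 1⁻¹)) :=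
      (continuous_fst.mul continuous_snd.inv).tendsto _
    rw [nhds_prod_eq] at this
    exact this (by simpa using hU)
  obtain ⟨V, hV1, hVU⟩ : ∃ V ∈ 𝓝 (1 : G), ∀ a ∈ V, ∀ b ∈ V, a * b⁻¹ ∈ U := by
    obtain ⟨A, hA, B, hB, hAB⟩ := Filter.mem_prod_iff.mp hV
    exact ⟨A ∩ B, inter_mem hA hB, fun a ha b hb => hAB (Set.mk_mem_prod ha.1 hb.2)⟩
  obtain ⟨T, -, hT⟩ := hK.elim_nhds_subcover (fun x => (fun y => x * y) '' V)
    (by
      intro x _
      have : (fun y => x * y) '' V ∈ 𝓝 (x * 1) := by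
        rw [← map_mul_left_nhds]
        exact image_mem_map hV1
      simpa using this)
  have hsub : {d : D | (d : G) ∈ K} ⊆ ⋃ t ∈ T, {d : D | (d : G) ∈ (fun y => t * y) '' V} := by
    intro d hd
    obtain ⟨t, ht⟩ := mem_iUnion.mp (hT hd)
    obtain ⟨htT, ht⟩ := mem_iUnion.mp ht
    rw [mem_iUnion₂]
    exact ⟨t, htT, ht⟩
  refine Set.Finite.subset (Set.Finite.biUnion T.finite_toSet ?_) hsub
  intro t _
  refine Set.Subsingleton.finite ?_
  rintro ⟨d, hd⟩ ⟨v, hv, hdv⟩ ⟨d', hd'⟩ ⟨v', hv', hdv'⟩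
  have h1 : d * d'⁻¹ = 1 := by
    refine hUD _ (D.mul_mem hd (D.inv_mem hd')) ?_
    have : d * d'⁻¹ = v * v'⁻¹ := by
      have h1 : t * v = d := hdv
      have h2 : t * v' = d' := hdv'
      rw [← h1, ← h2, mul_inv]
      calc t * v * (t⁻¹ * v'⁻¹) = (t * t⁻¹) * (v * v'⁻¹) := by
            simp only [mul_assoc, mul_left_comm]
        _ = v * v'⁻¹ := by rw [mul_inv_cancel, one_mul]
    rw [this]
    exact hVU v hv v' hv'
  have : d = d' := by rwa [mul_inv_eq_one] at h1
  exact Subtype.ext this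

/-- The periodization along `D`. -/
noncomputable def per (D : Subgroup G) (f : G → ℝ) (x : G) : ℝ := ∑ᶠ d : D, f (x * d)

theorem per_finite (D : Subgroup G) (hD : ∃ U ∈ 𝓝 (1 : G), ∀ d ∈ D, d ∈ U → d = 1)
    {f : G → ℝ} (hf : HasCompactSupport f) (x : G) :
    (Function.support (fun d : D => f (x * d))).Finite := by
  refine (finite_of_compact D hD (hf.image (f := fun y => x⁻¹ * y)
    (continuous_const.mul continuous_id))).subset ?_
  intro d hd
  refine ⟨x * d, subset_tsupport f hd, by simp⟩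

theorem per_continuous [LocallyCompactSpace G] (D : Subgroup G)
    (hD : ∃ U ∈ 𝓝 (1 : G), ∀ d ∈ D, d ∈ U → d = 1)
    {f : G → ℝ} (hfc : Continuous f) (hf : HasCompactSupport f) : Continuous (per D f) := by
  refine continuous_finsum (fun d => hfc.comp (continuous_id.mul continuous_const)) ?_
  intro x
  obtain ⟨W, hWc, hW⟩ := exists_compact_mem_nhds x
  refine ⟨W, hW, ?_⟩
  refine (finite_of_compact D hD (hWc.inv.mul hf)).subset ?_
  rintro d ⟨y, hy, hyW⟩
  refine Set.mem_mul.mpr ⟨y⁻¹, by simpa using hyW, y * d, subset_tsupport f hy, by simp⟩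

omit [TopologicalSpace G] [IsTopologicalGroup G] in
theorem per_mul (D : Subgroup G) (f : G → ℝ) (x : G) {d : G} (hd : d ∈ D) :
    per D f (x * d) = per D f x := by
  unfold per
  rw [← finsum_comp_equiv (f := fun d' : D => f (x * d')) (Equiv.mulLeft (⟨d, hd⟩ : D))]
  refine finsum_congr fun d' => ?_
  simp [mul_assoc]

/-- Existence of the function `f₀`. -/
theorem exists_f₀ [LocallyCompactSpace G] [T2Space G] (G0 D : Subgroup G) (C : Set G)
    (hG0 : IsOpen (G0 : Set G)) (hC : IsCompact C)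
    (hD : ∃ U ∈ 𝓝 (1 : G), ∀ d ∈ D, d ∈ U → d = 1) (hCG : C ⊆ G0)
    (hcov : ∀ x ∈ G0, ∃ v ∈ C, ∃ d ∈ D, x = v * d) :
    ∃ f₀ : C(G, ℝ), HasCompactSupport f₀ ∧ (∀ x, 0 ≤ f₀ x) ∧ (∀ x, f₀ x ≤ 1) ∧
      (∀ x, x ∉ G0 → f₀ x = 0) ∧ (∀ x ∈ G0, per D f₀ x = 1) := by
  classical
  obtain ⟨φ, hφ1, hφ0, hφc, hφ⟩ := exists_continuous_one_zero_of_isCompact hC
    hG0.isClosed_compl (disjoint_compl_right_iff_subset.mpr hCG)
  have hΦc : Continuous (per D φ) := per_continuous D hD φ.continuous hφc
  have hnn : ∀ x, 0 ≤ per D φ x := fun x => finsum_nonneg fun d => (hφ _).1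
  have hle : ∀ x, φ x ≤ per D φ x := by
    intro x
    have h1 : φ x = (fun d : D => φ (x * d)) 1 := by simp
    rw [h1]
    exact single_le_finsum (1 : D) (per_finite D hD hφc x) (fun d => (hφ _).1)
  have hge1 : ∀ x ∈ G0, 1 ≤ per D φ x := by
    intro x hx
    obtain ⟨v, hv, d, hd, rfl⟩ := hcov x hx
    rw [per_mul D φ v hd]
    have := hle v
    rw [hφ1 hv] at this
    simpa using this
  have hmaxpos : ∀ x, 0 < max (per D φ x) 1 := fun x => lt_max_of_lt_right one_pos
  have hmaxc : Continuous fun x => max (per D φ x) 1 := hΦc.max continuous_const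
  refine ⟨⟨fun x => φ x / max (per D φ x) 1, φ.continuous.div hmaxc (fun x => (hmaxpos x).ne')⟩,
    ?_, ?_, ?_, ?_, ?_⟩
  · refine hφc.mono ?_
    intro x hx
    simp only [Function.mem_support, ContinuousMap.coe_mk] at hx ⊢
    intro h
    exact hx (by rw [h, zero_div])
  · intro x
    exact div_nonneg (hφ x).1 (hmaxpos x).le
  · intro x
    simp only [ContinuousMap.coe_mk]
    rw [div_le_one (hmaxpos x)]
    exact (hφ x).2.trans (le_max_right _ _)
  · intro x hx
    simp only [ContinuousMap.coe_mk]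
    have : φ x = 0 := hφ0 (by simpa using hx)
    rw [this, zero_div]
  · intro x hx
    have h1 : per D (fun x => φ x / max (per D φ x) 1) x
        = (∑ᶠ d : D, φ (x * d)) * (max (per D φ x) 1)⁻¹ := by
      rw [finsum_mul' _ _ (per_finite D hD hφc x)]
      refine finsum_congr fun d => ?_
      have := per_mul D φ x d.2
      simp only []
      rw [this, div_eq_mul_inv]
    have h2 : (∑ᶠ d : D, φ (x * d)) = max (per D φ x) 1 := by
      rw [max_eq_left (hge1 x hx)]
      rfl
    change per D (fun x => φ x / max (per D φ x) 1) x = 1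
    rw [h1, h2, mul_inv_cancel₀ (hmaxpos x).ne']

/-- The integral of `f₀` against a nontrivial character trivial on `D` vanishes. -/
theorem integral_eq_zero [LocallyCompactSpace G] [MeasurableSpace G] [BorelSpace G]
    (G0 D : Subgroup G)
    (hD : ∃ U ∈ 𝓝 (1 : G), ∀ d ∈ D, d ∈ U → d = 1)
    (f₀ : C(G, ℝ)) (hf : HasCompactSupport f₀) (hf0 : ∀ x, x ∉ G0 → f₀ x = 0)
    (hper : ∀ x ∈ G0, per D f₀ x = 1)
    (γ : G →ₜ* Circle) (hγD : ∀ d ∈ D, γ d = 1) {y : G} (hy : y ∈ G0) (hγ : γ y ≠ 1) :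
    ∫ x, (f₀ x : ℂ) * (γ x : ℂ) ∂Measure.haar = 0 := by
  classical
  set h : G → ℝ := fun x => f₀ (x * y) - f₀ x with hh
  have hγc : Continuous fun x => ((γ x : Circle) : ℂ) :=
    continuous_subtype_val.comp (map_continuous γ)
  have hf₁c : Continuous fun x => f₀ (x * y) := f₀.continuous.comp (continuous_id.mul continuous_const)
  have hf₁ : HasCompactSupport fun x => f₀ (x * y) :=
    hf.comp_homeomorph (Homeomorph.mulRight y)
  have hhc : Continuous h := hf₁c.sub f₀.continuous
  have hhs : HasCompactSupport h := hf₁.sub hf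
  have hh0 : ∀ x, x ∉ G0 → h x = 0 := by
    intro x hx
    have : x * y ∉ G0 := by
      intro hxy
      apply hx
      have : x = (x * y) * y⁻¹ := by simp
      rw [this]
      exact G0.mul_mem hxy (G0.inv_mem hy)
    simp only [hh, hf0 _ this, hf0 _ hx, sub_zero]
  have hhper : ∀ x ∈ G0, per D h x = 0 := by
    intro x hx
    have h1 : per D h x = per D (fun x => f₀ (x * y)) x - per D f₀ x := by
      unfold per
      rw [← finsum_sub_distrib (per_finite D hD hf₁ x) (per_finite D hD hf x)]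
    have h2 : per D (fun x => f₀ (x * y)) x = per D f₀ (x * y) := by
      unfold per
      refine finsum_congr fun d => ?_
      simp only []
      rw [mul_right_comm]
    rw [h1, h2, hper _ (G0.mul_mem hx hy), hper _ hx, sub_self]
  -- the finite set of relevant translations
  have hSfin : {d : D | (d : G) ∈ (tsupport h)⁻¹ * tsupport f₀}.Finite :=
    finite_of_compact D hD (hhs.inv.mul hf)
  set S : Finset D := hSfin.toFinset with hS
  have hSmem : ∀ (d : D) (x : G), h x ≠ 0 → f₀ (x * d) ≠ 0 → d ∈ S := by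
    intro d x h1 h2
    rw [hS, Set.Finite.mem_toFinset]
    exact Set.mem_mul.mpr ⟨x⁻¹, by simpa using subset_tsupport h h1, x * d,
      subset_tsupport _ h2, by simp⟩
  have hint : ∀ (a : G → ℝ) (b : G → ℝ), Continuous a → HasCompactSupport a → Continuous b →
      Integrable (fun x => ((a x : ℂ) * (γ x : ℂ)) * (b x : ℂ)) (Measure.haar : Measure G) := by
    intro a b ha has hb
    refine Continuous.integrable_of_hasCompactSupport ?_ ?_
    · exact ((Complex.continuous_ofReal.comp ha).mul hγc).mul (Complex.continuous_ofReal.comp hb)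
    · refine has.mono ?_
      intro x hx
      simp only [Function.mem_support] at hx ⊢
      intro h0
      exact hx (by rw [h0]; simp)
  have key : ∫ x, (h x : ℂ) * (γ x : ℂ) ∂(Measure.haar : Measure G) = 0 := by
    calc ∫ x, (h x : ℂ) * (γ x : ℂ) ∂(Measure.haar : Measure G)
        = ∫ x, ∑ d ∈ S, ((h x : ℂ) * (γ x : ℂ)) * (f₀ (x * d) : ℂ) ∂(Measure.haar : Measure G) := by
          congr 1
          funext x
          by_cases hx : h x = 0
          · simp [hx]
          · have hxG : x ∈ G0 := by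
              by_contra hcon
              exact hx (hh0 x hcon)
            rw [← Finset.mul_sum]
            have h1 : ∑ d ∈ S, (f₀ (x * d) : ℂ) = 1 := by
              have h2 : per D f₀ x = ∑ d ∈ S, f₀ (x * d) := by
                unfold per
                refine finsum_eq_sum_of_support_subset _ ?_
                intro d hd
                exact Finset.mem_coe.mpr (hSmem d x hx hd)
              rw [hper x hxG] at h2
              exact_mod_cast h2.symm
            rw [h1, mul_one]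
      _ = ∑ d ∈ S, ∫ x, ((h x : ℂ) * (γ x : ℂ)) * (f₀ (x * d) : ℂ) ∂(Measure.haar : Measure G) := by
          refine integral_finsetSum _ ?_
          intro d _
          exact hint h (fun x => f₀ (x * d)) hhc hhs
            (f₀.continuous.comp (continuous_id.mul continuous_const))
      _ = ∑ d ∈ S, ∫ x, ((f₀ x : ℂ) * (γ x : ℂ)) * (h (x * (d : G)⁻¹) : ℂ)
            ∂(Measure.haar : Measure G) := by
          refine Finset.sum_congr rfl fun d _ => ?_
          rw [← integral_mul_right_eq_self _ ((d : G)⁻¹)]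
          congr 1
          funext x
          rw [map_mul, map_inv, hγD _ d.2, inv_one, mul_one, inv_mul_cancel_right]
          ring
      _ = ∫ x, ∑ d ∈ S, ((f₀ x : ℂ) * (γ x : ℂ)) * (h (x * (d : G)⁻¹) : ℂ)
            ∂(Measure.haar : Measure G) := by
          refine (integral_finsetSum _ ?_).symm
          intro d _
          exact hint f₀ (fun x => h (x * (d : G)⁻¹)) f₀.continuous hf
            (hhc.comp (continuous_id.mul continuous_const))
      _ = ∫ _x, (0 : ℂ) ∂(Measure.haar : Measure G) := by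
          congr 1
          funext x
          rw [← Finset.mul_sum]
          by_cases hx : f₀ x = 0
          · simp [hx]
          · have hxG : x ∈ G0 := by
              by_contra hcon
              exact hx (hf0 x hcon)
            have h1 : ∑ d ∈ S, (h (x * (d : G)⁻¹) : ℂ) = 0 := by
              have h2 : per D h x = ∑ d ∈ S, h (x * (d : G)⁻¹) := by
                unfold per
                rw [← finsum_comp_equiv (Equiv.inv D)]
                refine (finsum_eq_sum_of_support_subset (fun d : D => h (x * (d : G)⁻¹)) ?_)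
                intro d hd
                refine Finset.mem_coe.mpr (hSmem d (x * (d : G)⁻¹) hd ?_)
                rwa [inv_mul_cancel_right]
              rw [hhper x hxG] at h2
              exact_mod_cast h2.symm
            rw [h1, mul_zero]
      _ = 0 := by simp
  have hshift : ∫ x, (f₀ (x * y) : ℂ) * (γ x : ℂ) ∂(Measure.haar : Measure G)
      = ((γ y : ℂ))⁻¹ * ∫ x, (f₀ x : ℂ) * (γ x : ℂ) ∂(Measure.haar : Measure G) := by
    have h1 : ∫ x, (f₀ (x * y) : ℂ) * (γ (x * y) : ℂ) ∂(Measure.haar : Measure G)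
        = ∫ x, (f₀ x : ℂ) * (γ x : ℂ) ∂(Measure.haar : Measure G) :=
      integral_mul_right_eq_self (fun x => (f₀ x : ℂ) * (γ x : ℂ)) y
    rw [← h1, ← integral_const_mul]
    congr 1
    funext x
    have h2 : γ (x * y) = γ x * γ y := map_mul γ x y
    rw [h2, Circle.coe_mul]
    have : (γ y : ℂ) ≠ 0 := Circle.coe_ne_zero _
    field_simp
  have hsub : ∫ x, (h x : ℂ) * (γ x : ℂ) ∂(Measure.haar : Measure G)
      = (∫ x, (f₀ (x * y) : ℂ) * (γ x : ℂ) ∂(Measure.haar : Measure G))
        - ∫ x, (f₀ x : ℂ) * (γ x : ℂ) ∂(Measure.haar : Measure G) := by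
    rw [← integral_sub]
    · congr 1
      funext x
      simp only [hh]
      push_cast
      ring
    · simpa using hint (fun x => f₀ (x * y)) (fun _ => 1) hf₁c hf₁ continuous_const
    · simpa using hint f₀ (fun _ => 1) f₀.continuous hf continuous_const
  rw [hsub, hshift, ← sub_one_mul] at key
  rcases mul_eq_zero.mp key with h1 | h1
  · exfalso
    apply hγ
    rw [sub_eq_zero, inv_eq_one] at h1
    exact Circle.coe_eq_one.mp h1
  · exact h1

/-! ### Assembly -/

/-- If a discrete subgroup has finite index in an open subgroup, then the group is discrete. -/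
theorem discrete_of_finiteIndex [T2Space G] (G0 D : Subgroup G)
    (hG0 : IsOpen (G0 : Set G)) (hD : ∃ U ∈ 𝓝 (1 : G), ∀ d ∈ D, d ∈ U → d = 1)
    (hfin : (D.subgroupOf G0).FiniteIndex) : DiscreteTopology G := by
  obtain ⟨U, hU, hUD⟩ := hD
  obtain ⟨W, hWU, hWo, hW1⟩ := mem_nhds_iff.mp hU
  have hdisc : DiscreteTopology D := by
    refine discreteTopology_of_isOpen_singleton_one ?_
    have : ({1} : Set D) = (Subtype.val : D → G) ⁻¹' W := by
      ext d
      simp only [mem_singleton_iff, mem_preimage]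
      constructor
      · rintro rfl; exact hW1
      · intro hd; exact Subtype.ext (hUD d d.2 (hWU hd))
    rw [this]
    exact hWo.preimage continuous_subtype_val
  have hDc : IsClosed (D : Set G) := Subgroup.isClosed_of_discrete
  have hDc' : IsClosed ((D.subgroupOf G0 : Subgroup G0) : Set G0) :=
    hDc.preimage continuous_subtype_val
  have hDo' : IsOpen ((D.subgroupOf G0 : Subgroup G0) : Set G0) :=
    Subgroup.isOpen_of_isClosed_of_finiteIndex _ hDc'
  have hDo : IsOpen ((Subtype.val : G0 → G) '' ((D.subgroupOf G0 : Subgroup G0) : Set G0)) :=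
    hG0.isOpenMap_subtype_val _ hDo'
  refine discreteTopology_of_isOpen_singleton_one ?_
  have : ({1} : Set G) =
      ((Subtype.val : G0 → G) '' ((D.subgroupOf G0 : Subgroup G0) : Set G0)) ∩ W := by
    ext x
    simp only [mem_singleton_iff, mem_inter_iff, mem_image, SetLike.mem_coe,
      Subgroup.mem_subgroupOf]
    constructor
    · rintro rfl
      exact ⟨⟨1, by simp, rfl⟩, hW1⟩
    · rintro ⟨⟨z, hz, rfl⟩, hx⟩
      exact hUD _ hz (hWU hx)
  rw [this]
  exact hDo.inter hWo

/-- The Selection Theorem, given enough characters. -/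
theorem selection_of_characters [LocallyCompactSpace G] [T2Space G] [MeasurableSpace G]
    [BorelSpace G]
    (hchar : ∀ D : Subgroup G, IsClosed (D : Set G) → ∀ x ∉ D, ∃ χ : G →ₜ* Circle,
      (∀ d ∈ D, χ d = 1) ∧ χ x ≠ 1)
    (hG : ¬ DiscreteTopology G) (B : ℕ) :
    ∃ (f₀ : C(G, ℝ)) (χ : ℕ → (G →ₜ* Circle)), HasCompactSupport f₀ ∧ (∀ x, 0 ≤ f₀ x) ∧
      (∀ x, f₀ x ≤ 1) ∧ 0 < ∫ x, f₀ x ∂Measure.haar ∧
      (∀ i, ∃ x, f₀ x ≠ 0 ∧ χ i x ≠ 1) ∧
      ∀ (s : Finset ℕ) (e : ℕ → ℤ), (∀ i ∈ s, |e i| ≤ B) →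
        (∃ i ∈ s, ∃ x, f₀ x ≠ 0 ∧ (χ i x) ^ (e i) ≠ 1) →
        ∫ x, (f₀ x : ℂ) * ∏ i ∈ s, ((χ i x : Circle) : ℂ) ^ (e i) ∂Measure.haar = 0 := by
  classical
  obtain ⟨G0, D, C, hG0, hC, hD, hDG, hCG, hcov⟩ := exists_discrete G
  obtain ⟨f₀, hf, hf0, hf1, hfG0, hper⟩ := exists_f₀ G0 D C hG0 hC hD hCG hcov
  have hDc : IsClosed (D : Set G) := by
    obtain ⟨U, hU, hUD⟩ := hD
    obtain ⟨W, hWU, hWo, hW1⟩ := mem_nhds_iff.mp hU
    have hdisc : DiscreteTopology D := by
      refine discreteTopology_of_isOpen_singleton_one ?_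
      have : ({1} : Set D) = (Subtype.val : D → G) ⁻¹' W := by
        ext d
        simp only [mem_singleton_iff, mem_preimage]
        constructor
        · rintro rfl; exact hW1
        · intro hd; exact Subtype.ext (hUD d d.2 (hWU hd))
      rw [this]
      exact hWo.preimage continuous_subtype_val
    exact Subgroup.isClosed_of_discrete
  -- the group of characters trivial on `D`, restricted to `G0`
  let X : Subgroup (G →ₜ* Circle) :=
    { carrier := {χ | ∀ d ∈ D, χ d = 1}
      mul_mem' := by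
        intro a b ha hb d hd
        rw [ContinuousMonoidHom.mul_apply, ha d hd, hb d hd, mul_one]
      one_mem' := by
        intro d _
        rfl
      inv_mem' := by
        intro a ha d hd
        change (a d)⁻¹ = 1
        rw [ha d hd, inv_one] }
  let ρ : X →* (G0 →* Circle) :=
    { toFun := fun χ => (χ : G →ₜ* Circle).toMonoidHom.comp G0.subtype
      map_one' := rfl
      map_mul' := fun a b => rfl }
  have hρ : ∀ (χ : X) (x : G0), ρ χ x = (χ : G →ₜ* Circle) x := fun _ _ => rfl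
  have hinf : Infinite ρ.range := by
    by_contra hcon
    rw [not_infinite_iff_finite] at hcon
    have := hcon
    have := Fintype.ofFinite ρ.range
    -- evaluation
    let ev : G0 →* (ρ.range → Circle) :=
      { toFun := fun x γ => (γ : G0 →* Circle) x
        map_one' := by funext γ; simp
        map_mul' := by intro a b; funext γ; simp }
    have hker : ev.ker = D.subgroupOf G0 := by
      ext x
      rw [MonoidHom.mem_ker, Subgroup.mem_subgroupOf]
      constructor
      · intro h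
        by_contra hx
        obtain ⟨χ, hχD, hχx⟩ := hchar D hDc x hx
        apply hχx
        have := congrFun h ⟨ρ ⟨χ, hχD⟩, ⟨_, rfl⟩⟩
        exact this
      · intro hx
        funext γ
        obtain ⟨γ, χ, rfl⟩ := γ
        exact χ.2 x hx
    have hran : Finite ev.range := by
      set n := Nat.card ρ.range with hn
      have hn0 : 0 < n := Nat.card_pos
      have hroots : {z : Circle | z ^ n = 1}.Finite := by
        have h1 : {z : ℂ | z ^ n = 1}.Finite := by
          have := (Polynomial.nthRoots n (1 : ℂ)).toFinset.finite_toSet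
          refine this.subset ?_
          intro z hz
          simp only [Finset.mem_coe, Multiset.mem_toFinset]
          rw [Polynomial.mem_nthRoots hn0]
          exact hz
        refine Set.Finite.of_finite_image (f := fun z : Circle => (z : ℂ)) (h1.subset ?_)
          (fun a _ b _ hab => Circle.coe_injective hab)
        rintro _ ⟨z, hz, rfl⟩
        have hz' : z ^ n = 1 := hz
        change (z : ℂ) ^ n = 1
        rw [← Circle.coe_pow, hz', Circle.coe_one]
      have hpi : (Set.univ.pi fun _ : ρ.range => {z : Circle | z ^ n = 1}).Finite :=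
        Set.Finite.pi fun _ => hroots
      refine (hpi.subset ?_ : ((ev.range : Subgroup (ρ.range → Circle)) : Set _).Finite)
      rintro _ ⟨x, rfl⟩
      intro γ _
      have h1 : (γ : G0 →* Circle) ^ n = 1 := by
        have := pow_card_eq_one' (x := γ)
        have h2 := congrArg (fun t : ρ.range => (t : G0 →* Circle)) this
        simp only [Subgroup.coe_pow, Subgroup.coe_one] at h2
        exact h2
      have h2 := DFunLike.congr_fun h1 x
      exact h2
    have hfi : (D.subgroupOf G0).FiniteIndex := by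
      rw [← hker]
      exact Subgroup.finiteIndex_ker ev
    exact hG (discrete_of_finiteIndex G0 D hG0 hD hfi)
  obtain ⟨γ, hγ1, hγ⟩ := exists_dissociate ρ.range B
  choose χ hχ using fun i => (γ i).2
  -- support of `f₀`
  have hsupp : ∀ x, f₀ x ≠ 0 → x ∈ G0 := by
    intro x hx
    by_contra hcon
    exact hx (hfG0 x hcon)
  refine ⟨f₀, fun i => (χ i : G →ₜ* Circle), hf, hf0, hf1, ?_, ?_, ?_⟩
  · -- positive integral
    obtain ⟨x, hx⟩ : ∃ x, f₀ x ≠ 0 := by
      by_contra hcon
      push Not at hcon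
      have := hper 1 G0.one_mem
      unfold per at this
      simp [hcon] at this
    exact f₀.continuous.integral_pos_of_hasCompactSupport_nonneg_nonzero hf hf0 hx
  · intro i
    have h1 : ∃ x : G0, (γ i : G0 →* Circle) x ≠ 1 := by
      by_contra hcon
      push Not at hcon
      apply hγ1 i
      apply Subtype.ext
      exact MonoidHom.ext fun x => hcon x
    obtain ⟨x, hx⟩ := h1
    obtain ⟨d, hd⟩ : ∃ d : D, f₀ (x * d) ≠ 0 := by
      by_contra hcon
      push Not at hcon
      have := hper x x.2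
      unfold per at this
      simp [hcon] at this
    refine ⟨x * d, hd, ?_⟩
    rw [map_mul, (χ i).2 d d.2, mul_one, ← hρ, hχ i]
    exact hx
  · rintro s e he ⟨i, hi, x, hx, hne⟩
    have hprod := hγ s e he ⟨i, hi, ?_⟩
    · -- there is a point where the product character is nontrivial
      have h1 : ∃ y : G0, ((∏ i ∈ s, γ i ^ e i : ρ.range) : G0 →* Circle) y ≠ 1 := by
        by_contra hcon
        push Not at hcon
        apply hprod
        apply Subtype.ext
        exact MonoidHom.ext fun x => hcon x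
      obtain ⟨y, hy⟩ := h1
      set Ψ : X := ∏ i ∈ s, χ i ^ e i with hΨ
      have hρΨ : ρ Ψ = ((∏ i ∈ s, γ i ^ e i : ρ.range) : G0 →* Circle) := by
        rw [hΨ, map_prod]
        simp only [map_zpow, hχ]
        push_cast
        rfl
      have hΨy : (Ψ : G →ₜ* Circle) y ≠ 1 := by
        rw [← hρ, hρΨ]
        exact hy
      have hval : ∀ x, (Ψ : G →ₜ* Circle) x = ∏ i ∈ s, ((χ i : G →ₜ* Circle) x) ^ e i := by
        intro x
        let evx : (G →ₜ* Circle) →* Circle :=
          { toFun := fun f => f x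
            map_one' := rfl
            map_mul' := fun _ _ => rfl }
        have h3 : ∀ f : G →ₜ* Circle, evx f = f x := fun _ => rfl
        have h5 : (Ψ : G →ₜ* Circle) = ∏ i ∈ s, (χ i : G →ₜ* Circle) ^ e i := by
          rw [hΨ]
          push_cast
          rfl
        rw [← h3, h5, map_prod]
        refine Finset.prod_congr rfl fun i _ => ?_
        rw [map_zpow, h3]
      have h4 := integral_eq_zero G0 D hD f₀ hf hfG0 hper (Ψ : G →ₜ* Circle) Ψ.2 y.2 hΨy
      rw [← h4]
      congr 1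
      funext x
      rw [hval x]
      congr 1
      have h6 := map_prod Circle.coeHom (fun i => ((χ i : G →ₜ* Circle) x) ^ e i) s
      simp only [map_zpow] at h6
      exact h6.symm
    · intro hcon
      apply hne
      have h2 := DFunLike.congr_fun (congrArg (fun t : ρ.range => (t : G0 →* Circle)) hcon)
        ⟨x, hsupp x hx⟩
      simp only [Subgroup.coe_zpow, Subgroup.coe_one] at h2
      rw [← hχ i] at h2
      exact h2


omit [IsTopologicalGroup G] in
/-- The characters of all locally compact Hausdorff abelian groups separate points from closed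
subgroups, as soon as they separate points from `1`. -/
theorem characters_of_closed (D : Subgroup G)
    (hchar : ∀ x : G ⧸ D, x ≠ 1 → ∃ χ : (G ⧸ D) →ₜ* Circle, χ x ≠ 1) :
    ∀ x ∉ D, ∃ χ : G →ₜ* Circle, (∀ d ∈ D, χ d = 1) ∧ χ x ≠ 1 := by
  intro x hx
  obtain ⟨χ, hχ⟩ := hchar (QuotientGroup.mk x) (by
    intro h
    exact hx ((QuotientGroup.eq_one_iff x).mp h))
  refine ⟨χ.comp ⟨QuotientGroup.mk' D, QuotientGroup.continuous_mk⟩, ?_, hχ⟩
  intro d hd
  have h1 : ((d : G) : G ⧸ D) = 1 := (QuotientGroup.eq_one_iff d).mpr hd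
  change χ ((d : G) : G ⧸ D) = 1
  rw [h1, map_one]

universe u

/-- The Selection Theorem, given the Gelfand-Raikov theorem. -/
theorem selection_of_exists_character
    (hchar : ∀ (Q : Type u) [CommGroup Q] [TopologicalSpace Q] [IsTopologicalGroup Q]
      [LocallyCompactSpace Q] [T2Space Q] (x : Q), x ≠ 1 → ∃ χ : Q →ₜ* Circle, χ x ≠ 1)
    {G : Type u} [CommGroup G] [TopologicalSpace G] [IsTopologicalGroup G]
    [LocallyCompactSpace G] [T2Space G] [MeasurableSpace G] [BorelSpace G]
    (hG : ¬ DiscreteTopology G) (B : ℕ) :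
    ∃ (f₀ : C(G, ℝ)) (χ : ℕ → (G →ₜ* Circle)), HasCompactSupport f₀ ∧ (∀ x, 0 ≤ f₀ x) ∧
      (∀ x, f₀ x ≤ 1) ∧ 0 < ∫ x, f₀ x ∂MeasureTheory.Measure.haar ∧
      (∀ i, ∃ x, f₀ x ≠ 0 ∧ χ i x ≠ 1) ∧
      ∀ (s : Finset ℕ) (e : ℕ → ℤ), (∀ i ∈ s, |e i| ≤ B) →
        (∃ i ∈ s, ∃ x, f₀ x ≠ 0 ∧ (χ i x) ^ (e i) ≠ 1) →
        ∫ x, (f₀ x : ℂ) * ∏ i ∈ s, ((χ i x : Circle) : ℂ) ^ (e i)
          ∂MeasureTheory.Measure.haar = 0 := by
  refine selection_of_characters ?_ hG B
  intro D hD
  have : IsClosed (D : Set G) := hD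
  exact characters_of_closed D (hchar (G ⧸ D))

end B7F1CF.Selection
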