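import Pool.Agent.Lib_MP_b7f1cf_an.Basic

/-!
# The dual of `C₀(G)`: tightness
-/

open MeasureTheory Filter Topology TopologicalSpace
open scoped ComplexConjugate ZeroAtInfty BoundedContinuousFunction Pointwise

noncomputable section

namespace MPb7f1cf

/-- `M(G)`: the bounded regular complex Borel measures on `G`, realised (Riesz representation) as
the continuous linear functionals on `C₀(G)`; the norm is the total variation norm. -/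
def MG (G : Type*) [TopologicalSpace G] : Type _ := C₀(G, ℂ) →L[ℂ] ℂ

section

variable {G : Type*} [TopologicalSpace G]

instance : NormedAddCommGroup (MG G) := inferInstanceAs (NormedAddCommGroup (C₀(G, ℂ) →L[ℂ] ℂ))
instance : NormedSpace ℂ (MG G) := inferInstanceAs (NormedSpace ℂ (C₀(G, ℂ) →L[ℂ] ℂ))
instance : CompleteSpace (MG G) := inferInstanceAs (CompleteSpace (C₀(G, ℂ) →L[ℂ] ℂ))
instance : FunLike (MG G) C₀(G, ℂ) ℂ := inferInstanceAs (FunLike (C₀(G, ℂ) →L[ℂ] ℂ) C₀(G, ℂ) ℂ)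
instance : ContinuousLinearMapClass (MG G) ℂ C₀(G, ℂ) ℂ :=
  inferInstanceAs (ContinuousLinearMapClass (C₀(G, ℂ) →L[ℂ] ℂ) ℂ C₀(G, ℂ) ℂ)

theorem MG.ext {Λ Λ' : MG G} (h : ∀ f : C₀(G, ℂ), Λ f = Λ' f) : Λ = Λ' :=
  ContinuousLinearMap.ext h

@[simp] theorem MG.add_apply (Λ Λ' : MG G) (f : C₀(G, ℂ)) : (Λ + Λ') f = Λ f + Λ' f := rfl
@[simp] theorem MG.sub_apply (Λ Λ' : MG G) (f : C₀(G, ℂ)) : (Λ - Λ') f = Λ f - Λ' f := rfl
@[simp] theorem MG.neg_apply (Λ : MG G) (f : C₀(G, ℂ)) : (-Λ) f = -Λ f := rfl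
@[simp] theorem MG.zero_apply (f : C₀(G, ℂ)) : (0 : MG G) f = 0 := rfl
@[simp] theorem MG.smul_apply (a : ℂ) (Λ : MG G) (f : C₀(G, ℂ)) : (a • Λ) f = a * Λ f := rfl

theorem MG.sum_apply {α : Type*} (s : Finset α) (Λ : α → MG G) (f : C₀(G, ℂ)) :
    (∑ a ∈ s, Λ a) f = ∑ a ∈ s, Λ a f := by
  classical
  induction s using Finset.induction_on with
  | empty => simp
  | insert a s ha ih => rw [Finset.sum_insert ha, Finset.sum_insert ha, MG.add_apply, ih]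

theorem MG.le_norm (Λ : MG G) (f : C₀(G, ℂ)) : ‖Λ f‖ ≤ ‖Λ‖ * ‖f‖ :=
  ContinuousLinearMap.le_opNorm (Λ : C₀(G, ℂ) →L[ℂ] ℂ) f

theorem MG.norm_le {Λ : MG G} {C : ℝ} (hC : 0 ≤ C) (h : ∀ f : C₀(G, ℂ), ‖Λ f‖ ≤ C * ‖f‖) :
    ‖Λ‖ ≤ C :=
  ContinuousLinearMap.opNorm_le_bound (Λ : C₀(G, ℂ) →L[ℂ] ℂ) hC h

/-- build an element of `MG G` from a bounded linear functional -/
def MG.mk (L : C₀(G, ℂ) →ₗ[ℂ] ℂ) (C : ℝ) (h : ∀ f, ‖L f‖ ≤ C * ‖f‖) : MG G :=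
  L.mkContinuous C h

@[simp] theorem MG.mk_apply (L : C₀(G, ℂ) →ₗ[ℂ] ℂ) (C : ℝ) (h : ∀ f, ‖L f‖ ≤ C * ‖f‖)
    (f : C₀(G, ℂ)) : MG.mk L C h f = L f := rfl

theorem MG.exists_near (Λ : MG G) {ε : ℝ} (hε : 0 < ε) :
    ∃ f : C₀(G, ℂ), ‖f‖ ≤ 1 ∧ ‖Λ‖ - ε ≤ ‖Λ f‖ := by
  obtain ⟨f, hf, h⟩ := ContinuousLinearMap.exists_lt_apply_of_lt_opNorm
    (Λ : C₀(G, ℂ) →L[ℂ] ℂ) (r := ‖Λ‖ - ε) (by
      show ‖Λ‖ - ε < ‖Λ‖
      linarith)
  exact ⟨f, hf.le, h.le⟩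

theorem exists_unimod (a : ℂ) : ∃ u : ℂ, ‖u‖ = 1 ∧ u * a = ‖a‖ := by
  by_cases ha : a = 0
  · exact ⟨1, by simp, by simp [ha]⟩
  · refine ⟨conj a / ‖a‖, ?_, ?_⟩
    · rw [norm_div, RCLike.norm_conj, Complex.norm_real, norm_norm, div_self]
      exact norm_ne_zero_iff.2 ha
    · rw [div_mul_eq_mul_div, ← Complex.normSq_eq_conj_mul_self, Complex.normSq_eq_norm_sq]
      have : (‖a‖ : ℂ) ≠ 0 := by exact_mod_cast norm_ne_zero_iff.2 ha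
      field_simp
      push_cast
      ring

variable [T2Space G] [LocallyCompactSpace G]

theorem cut_approx (f : C₀(G, ℂ)) {ε : ℝ} (hε : 0 < ε) :
    ∃ K : Compacts G, ∀ K' : Compacts G, K ≤ K' → ‖f - cmul (cut K') f.toBCF‖ ≤ ε := by
  have h := zero_at_infty f
  have h2 := h (Metric.ball_mem_nhds (0 : ℂ) hε)
  rw [Filter.mem_map, Filter.mem_cocompact] at h2
  obtain ⟨K, hK, hKs⟩ := h2
  refine ⟨⟨K, hK⟩, fun K' hKK' => C0_norm_le hε.le fun x => ?_⟩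
  rw [ZeroAtInftyContinuousMap.sub_apply, cmul_apply]
  show ‖f x - f x * cut K' x‖ ≤ ε
  by_cases hx : x ∈ K
  · have : cut K' x = 1 := cut_one (hKK' hx)
    rw [this]; simp [hε.le]
  · have h3 : ‖f x‖ < ε := by simpa using hKs hx
    have : f x - f x * cut K' x = f x * (1 - cut K' x) := by ring
    rw [this, norm_mul]
    calc ‖f x‖ * ‖1 - cut K' x‖ ≤ ‖f x‖ * 1 := by
          exact mul_le_mul_of_nonneg_left (norm_one_sub_cut_apply_le K' x) (norm_nonneg _)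
      _ ≤ ε := by linarith

/-- **Tightness** of functionals on `C₀(G)`. -/
theorem MG.tight (Λ : MG G) {ε : ℝ} (hε : 0 < ε) :
    ∃ K : Compacts G, ∀ g : C₀(G, ℂ), (∀ x ∈ K, g x = 0) → ‖Λ g‖ ≤ ε * ‖g‖ := by
  obtain ⟨f, hf1, hf⟩ := Λ.exists_near (half_pos hε)
  obtain ⟨K₀, hK₀⟩ := cut_approx f (ε := ε / 2 / (‖Λ‖ + 1)) (by positivity)
  set f₁ := cmul (cut K₀) f.toBCF with hf₁
  have hf₁app : ∀ x, f₁ x = f x * cut K₀ x := fun x => rfl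
  have hΛf₁ : ‖Λ‖ - ε ≤ ‖Λ f₁‖ := by
    have h1 : ‖Λ (f - f₁)‖ ≤ ε / 2 := by
      calc ‖Λ (f - f₁)‖ ≤ ‖Λ‖ * ‖f - f₁‖ := Λ.le_norm _
        _ ≤ ‖Λ‖ * (ε / 2 / (‖Λ‖ + 1)) := mul_le_mul_of_nonneg_left (hK₀ K₀ le_rfl) (norm_nonneg _)
        _ ≤ ε / 2 := by
            rw [mul_div_assoc', div_le_iff₀ (by positivity)]
            nlinarith [norm_nonneg Λ]
    have h2 : Λ f₁ = Λ f - Λ (f - f₁) := by rw [map_sub]; ring
    have h3 : ‖Λ f‖ - ‖Λ (f - f₁)‖ ≤ ‖Λ f₁‖ := by rw [h2]; exact norm_sub_norm_le _ _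
    linarith
  have hf₁n : ∀ x, ‖f₁ x‖ ≤ 1 := fun x => by
    rw [hf₁app, norm_mul]
    calc ‖f x‖ * ‖cut K₀ x‖ ≤ 1 * 1 :=
          mul_le_mul ((C0_apply_le f x).trans hf1) (norm_cut_apply_le _ _) (norm_nonneg _) zero_le_one
      _ = 1 := one_mul 1
  refine ⟨⟨tsupport (cut K₀), cut_hcs K₀⟩, fun g hg => ?_⟩
  obtain ⟨u, hu, hua⟩ := exists_unimod (Λ f₁)
  obtain ⟨v, hv, hvb⟩ := exists_unimod (Λ g)
  have h1 : ‖((‖g‖ : ℂ) * u) • f₁ + v • g‖ ≤ ‖g‖ := by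
    refine C0_norm_le (norm_nonneg _) fun x => ?_
    rw [ZeroAtInftyContinuousMap.add_apply, ZeroAtInftyContinuousMap.smul_apply,
      ZeroAtInftyContinuousMap.smul_apply]
    by_cases hx : x ∈ tsupport (cut K₀)
    · rw [hg x hx, smul_zero, add_zero, norm_smul, norm_mul, hu, mul_one, Complex.norm_real,
        norm_norm]
      exact mul_le_of_le_one_right (norm_nonneg _) (hf₁n x)
    · have : f₁ x = 0 := by rw [hf₁app, image_eq_zero_of_notMem_tsupport hx, mul_zero]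
      rw [this, smul_zero, zero_add, norm_smul, hv, one_mul]
      exact C0_apply_le g x
  have h2 := (Λ.le_norm (((‖g‖ : ℂ) * u) • f₁ + v • g)).trans
    (mul_le_mul_of_nonneg_left h1 (norm_nonneg _))
  rw [map_add, map_smul, map_smul, smul_eq_mul, smul_eq_mul, hvb, mul_assoc, hua,
    ← Complex.ofReal_mul, ← Complex.ofReal_add, Complex.norm_real, Real.norm_eq_abs,
    abs_of_nonneg (by positivity)] at h2
  nlinarith [norm_nonneg g]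

end

end MPb7f1cf
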