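import Pool.Agent.Lib_MP_b7f1cf_an.Window

/-!
# Measures with norm continuous translation do not see deep windows
-/

open MeasureTheory Filter Topology TopologicalSpace
open MeasureTheory.Measure (haar)
open scoped ComplexConjugate ZeroAtInfty BoundedContinuousFunction Pointwise

set_option linter.unusedSectionVars false

noncomputable section

namespace MPb7f1cf

variable {G : Type*} [CommGroup G] [TopologicalSpace G] [IsTopologicalGroup G]
  [LocallyCompactSpace G] [T2Space G] [MeasurableSpace G] [BorelSpace G] {ι : Type*}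
  (X : IndepSys G ι)

theorem IndepSys.E_ofRealT (φ : G → ℝ) :
    X.E (fun x => ((φ x : ℝ) : ℂ)) = (((∫ x, X.f₀ x * φ x ∂haar) / X.c : ℝ) : ℂ) := by
  rw [IndepSys.E]
  push_cast
  congr 1
  rw [← integral_complex_ofReal]
  congr 1
  ext x
  push_cast
  rfl

theorem IndepSys.exists_pos : ∃ x₀, 0 < X.f₀ x₀ := by
  by_contra hcon
  push Not at hcon
  have h1 : ∀ x, X.f₀ x = 0 := fun x => le_antisymm (hcon x) (X.h0 x)
  have h2 := X.hpos
  simp [h1] at h2

/-- approximate identities -/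
theorem approx_id_mul {κ : MG G} {ε : ℝ} {g : G → ℝ} (hg : Integrable g haar)
    (hgc : Integrable (fun x => ((g x : ℝ) : ℂ)) haar)
    (hg0 : ∀ x, 0 ≤ g x) (hg1 : ∫ x, g x ∂haar = 1)
    (hε : 0 ≤ ε)
    (h : ∀ x, g x ≠ 0 → ‖MG.dirac x * κ - κ‖ ≤ ε) :
    ‖MG.ofDensity haar (fun x => ((g x : ℝ) : ℂ)) hgc * κ - κ‖ ≤ ε := by
  refine MG.norm_le hε fun f => ?_
  rw [MG.sub_apply, MG.mul_apply, MG.ofDensity_apply]
  have h1 : κ f = ∫ x, κ f * ((g x : ℝ) : ℂ) ∂haar := by
    rw [integral_const_mul, integral_complex_ofReal, hg1]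
    simp
  rw [h1, ← integral_sub (integrable_C0_mul _ _ hgc) (hgc.const_mul _)]
  have h2 : ∫ x, ε * ‖f‖ * g x ∂(haar : Measure G) = ε * ‖f‖ := by
    rw [integral_const_mul, hg1, mul_one]
  rw [← h2]
  refine norm_integral_le_of_norm_le (hg.const_mul _) (Eventually.of_forall fun x => ?_)
  have h3 : κ.convFun f x * ((g x : ℝ) : ℂ) - κ f * ((g x : ℝ) : ℂ)
      = (MG.dirac x * κ - κ) f * ((g x : ℝ) : ℂ) := by
    rw [MG.sub_apply, MG.dirac_mul_apply, MG.convFun_apply]
    ring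
  rw [h3, norm_mul, Complex.norm_real, Real.norm_eq_abs, abs_of_nonneg (hg0 x)]
  by_cases hx : g x = 0
  · rw [hx]; simp
  · refine mul_le_mul_of_nonneg_right ?_ (hg0 x)
    exact (MG.le_norm _ _).trans (mul_le_mul_of_nonneg_right (h x hx) (norm_nonneg _))

theorem transCont_tendsto {κ : MG G} (hκ : κ ∈ transCont G) (F : ℕ → (G →ᵇ ℂ))
    (hUC : ∀ l, IsUC (F l)) (hF1 : ∀ l, ‖F l‖ ≤ 1) (δ : ℕ → ℝ) (hδ : Tendsto δ atTop (𝓝 0))
    (h : ∀ l w, (X.E (fun x => ((‖F l (w * x)‖ : ℝ) : ℂ))).re ≤ δ l) :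
    Tendsto (fun l => κ.ext' (F l)) atTop (𝓝 0) := by
  obtain ⟨x₀, hx₀⟩ := X.exists_pos
  rw [Metric.tendsto_atTop]
  intro ε hε
  rw [mem_transCont, Metric.tendsto_nhds] at hκ
  have hev := hκ (ε / 2) (by positivity)
  have hev2 : ∀ᶠ y in 𝓝 (1 : G), X.f₀ x₀ / 2 < X.f₀ (y * x₀) := by
    have h1 : Continuous fun y : G => X.f₀ (y * x₀) := by fun_prop
    have h2 := h1.tendsto 1
    rw [one_mul] at h2
    exact h2.eventually (lt_mem_nhds (by linarith))
  obtain ⟨V, hV, hVo, hV1⟩ := eventually_nhds_iff.1 (hev.and hev2)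
  obtain ⟨g, hg1, hg0, hgc, hg01⟩ := exists_continuous_one_zero_of_isCompact
    (isCompact_singleton (x := (1 : G))) (isClosed_compl_iff.2 hVo)
    (Set.disjoint_singleton_left.2 (fun hmem => hmem hV1))
  have hgV : ∀ x, g x ≠ 0 → x ∈ V := by
    intro x hx
    by_contra hxV
    exact hx (hg0 hxV)
  set I : ℝ := ∫ x, g x ∂haar with hI
  have hIpos : 0 < I := by
    refine Continuous.integral_pos_of_hasCompactSupport_nonneg_nonzero g.continuous hgc
      (fun x => (hg01 x).1) (x := 1) ?_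
    have : g 1 = 1 := hg1 rfl
    rw [this]
    exact one_ne_zero
  have hgint : Integrable (fun x => g x) (haar : Measure G) :=
    g.continuous.integrable_of_hasCompactSupport hgc
  have hgI : Integrable (fun x => g x / I) (haar : Measure G) := hgint.div_const I
  have hgIc : Integrable (fun x => (((g x / I : ℝ)) : ℂ)) (haar : Measure G) := hgI.ofReal
  set γ : MG G := MG.ofDensity haar (fun x => (((g x / I : ℝ)) : ℂ)) hgIc with hγ
  have hγκ : ‖γ * κ - κ‖ ≤ ε / 2 := by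
    refine approx_id_mul hgI hgIc (fun x => div_nonneg (hg01 x).1 hIpos.le) ?_ (by positivity) ?_
    · rw [integral_div, ← hI, div_self hIpos.ne']
    · intro x hx
      have hxV : x ∈ V := hgV x fun h0 => hx (by rw [h0, zero_div])
      have := (hV x hxV).1
      rw [dist_zero_right, norm_norm] at this
      exact this.le
  -- the bound for the smooth part
  set C : ℝ := 2 / (X.f₀ x₀ * I) with hC
  have hC0 : 0 ≤ C := by positivity
  have hsm : ∀ l, ‖(κ * γ).ext' (F l)‖ ≤ ‖κ‖ * (C * (X.c * δ l)) := by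
    intro l
    rw [MG.ext_mul _ _ _ (hUC l)]
    refine (κ.norm_ext_le _).trans (mul_le_mul_of_nonneg_left ?_ (norm_nonneg _))
    have hδ0 : 0 ≤ δ l := by
      refine le_trans ?_ (h l 1)
      rw [X.E_ofRealT, Complex.ofReal_re]
      exact div_nonneg (integral_nonneg fun x => mul_nonneg (X.h0 x) (norm_nonneg _)) X.c_pos.le
    refine (BoundedContinuousFunction.norm_le (by have := X.c_pos; positivity)).2
      fun y => ?_
    rw [MG.bconv_apply, ofDensity_ext hgIc (K := ⟨tsupport g, hgc⟩) (fun x hx => by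
      rw [image_eq_zero_of_notMem_tsupport hx]; simp)]
    have h1 : X.c * δ l ≥ ∫ x, X.f₀ x * ‖F l (y * x₀⁻¹ * x)‖ ∂haar := by
      have h2 := h l (y * x₀⁻¹)
      rw [X.E_ofRealT, Complex.ofReal_re, div_le_iff₀ X.c_pos] at h2
      rw [mul_comm X.c]
      exact h2
    have h3 : ∫ x, C * (X.f₀ (x * x₀) * ‖F l (y * x)‖) ∂haar
        = C * ∫ x, X.f₀ x * ‖F l (y * x₀⁻¹ * x)‖ ∂haar := by
      rw [integral_const_mul]
      congr 1
      rw [← integral_mul_right_eq_self (fun x => X.f₀ x * ‖F l (y * x₀⁻¹ * x)‖) x₀]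
      congr 1
      ext x
      congr 3
      rw [mul_assoc, mul_comm x₀⁻¹, mul_assoc x, mul_inv_cancel, mul_one]
    refine le_trans ?_ (h3.le.trans (mul_le_mul_of_nonneg_left h1 hC0))
    refine norm_integral_le_of_norm_le ?_ (Eventually.of_forall fun x => ?_)
    · refine Integrable.const_mul ?_ _
      refine Continuous.integrable_of_hasCompactSupport (by fun_prop) ?_
      refine HasCompactSupport.mul_right ?_
      exact X.hcs.comp_homeomorph (Homeomorph.mulRight x₀)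
    · rw [btr_apply, norm_mul, Complex.norm_real, Real.norm_eq_abs,
        abs_of_nonneg (div_nonneg (hg01 x).1 hIpos.le)]
      have h4 : g x / I ≤ C * X.f₀ (x * x₀) := by
        by_cases hx : g x = 0
        · rw [hx, zero_div]
          exact mul_nonneg hC0 (X.h0 _)
        · have h5 := (hV x (hgV x hx)).2
          have h6 := (hg01 x).2
          rw [hC, div_mul_eq_mul_div, div_le_div_iff₀ hIpos (by positivity)]
          have h7 : g x * X.f₀ x₀ ≤ 2 * X.f₀ (x * x₀) := by nlinarith [(hg01 x).1]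
          nlinarith
      calc ‖F l (y * x)‖ * (g x / I) ≤ ‖F l (y * x)‖ * (C * X.f₀ (x * x₀)) :=
            mul_le_mul_of_nonneg_left h4 (norm_nonneg _)
        _ = C * (X.f₀ (x * x₀) * ‖F l (y * x)‖) := by ring
  -- conclusion
  have hlim : Tendsto (fun l => ‖κ‖ * (C * (X.c * δ l))) atTop (𝓝 0) := by
    have := ((hδ.const_mul X.c).const_mul C).const_mul ‖κ‖
    simpa using this
  obtain ⟨l₀, hl₀⟩ := eventually_atTop.1 (hlim.eventually (gt_mem_nhds (half_pos hε)))
  refine ⟨l₀, fun l hl => ?_⟩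
  rw [dist_zero_right]
  have h1 : κ.ext' (F l) = (κ * γ).ext' (F l) - (γ * κ - κ).ext' (F l) := by
    rw [MG.ext_sub_left, mul_comm κ γ]
    ring
  rw [h1]
  have h2 : ‖(γ * κ - κ).ext' (F l)‖ ≤ ε / 2 := by
    refine (MG.norm_ext_le _ _).trans ?_
    calc ‖γ * κ - κ‖ * ‖F l‖ ≤ ε / 2 * 1 :=
          mul_le_mul hγκ (hF1 l) (norm_nonneg _) (by positivity)
      _ = ε / 2 := mul_one _
  have h3 := hsm l
  have h4 := hl₀ l hl
  have h5 := norm_sub_le ((κ * γ).ext' (F l)) ((γ * κ - κ).ext' (F l))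
  linarith

/-- the test functions are small in mean -/
theorem tf_mean {W : Finset ι} (hW : W.Nonempty) {b : ℝ} (hb0 : 0 < b) (m : ℕ) (w : G) :
    (X.E (fun x => ((‖tf X W b m (w * x)‖ : ℝ) : ℂ))).re
      ≤ (b ^ m)⁻¹ * Real.sqrt ((W.card : ℝ)⁻¹) := by
  set δ : ℝ := Real.sqrt ((W.card : ℝ)⁻¹) with hδ
  have hcard : 0 < (W.card : ℝ) := by exact_mod_cast hW.card_pos
  have hδ0 : 0 < δ := Real.sqrt_pos.2 (by positivity)
  have hδ2 : δ ^ 2 = (W.card : ℝ)⁻¹ := Real.sq_sqrt (by positivity)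
  set A : ℝ := (b ^ m)⁻¹ with hA
  have hA0 : 0 < A := by positivity
  have h1 := X.E_window_sq hW w
  have h1' : (fun x => ((‖(W.card : ℂ)⁻¹ * ∑ i ∈ W, ((X.χ i (w * x) : Circle) : ℂ)‖ ^ 2 : ℝ) : ℂ))
      = fun x => ((‖ell X W (w * x)‖ ^ 2 : ℝ) : ℂ) := by
    ext x
    rw [ell_apply]
  rw [h1', X.E_ofRealT] at h1
  have h2 : (∫ x, X.f₀ x * ‖ell X W (w * x)‖ ^ 2 ∂haar) / X.c = (W.card : ℝ)⁻¹ := by
    exact_mod_cast h1
  rw [div_eq_iff X.c_pos.ne'] at h2
  rw [X.E_ofRealT, Complex.ofReal_re, div_le_iff₀ X.c_pos]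
  have hi1 : Integrable (fun x => A * (δ / 2) * X.f₀ x) (haar : Measure G) :=
    (X.f₀.continuous.integrable_of_hasCompactSupport X.hcs).const_mul _
  have hi2 : Integrable (fun x => X.f₀ x * ‖ell X W (w * x)‖ ^ 2) (haar : Measure G) := by
    refine Continuous.integrable_of_hasCompactSupport (by fun_prop) ?_
    exact X.hcs.mul_right
  have h3 : ∫ x, (A * (δ / 2) * X.f₀ x + A * (1 / (2 * δ)) * (X.f₀ x * ‖ell X W (w * x)‖ ^ 2)) ∂haar
      = A * δ * X.c := by
    rw [integral_add hi1 (hi2.const_mul _), integral_const_mul, integral_const_mul, h2, ← hδ2]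
    change A * (δ / 2) * X.c + A * (1 / (2 * δ)) * (δ ^ 2 * X.c) = A * δ * X.c
    field_simp
    ring
  rw [← h3]
  refine integral_mono ?_ (hi1.add (hi2.const_mul _)) fun x => ?_
  · refine Continuous.integrable_of_hasCompactSupport (by fun_prop) ?_
    exact X.hcs.mul_right
  · change X.f₀ x * ‖tf X W b m (w * x)‖ ≤ A * (δ / 2) * X.f₀ x
      + A * (1 / (2 * δ)) * (X.f₀ x * ‖ell X W (w * x)‖ ^ 2)
    set t : ℝ := ‖ell X W (w * x)‖ with ht
    have h4 : ‖tf X W b m (w * x)‖ ≤ A * t := by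
      rw [tf_apply, Complex.norm_real, Real.norm_eq_abs, abs_of_nonneg (tent_nonneg _)]
      refine (tent_le_norm _).trans (le_of_eq ?_)
      rw [norm_div, norm_pow, Complex.norm_real, Real.norm_eq_abs, abs_of_pos hb0, hA]
      field_simp
      rw [ht]
    have h8 : t ≤ δ / 2 + 1 / (2 * δ) * t ^ 2 := by
      have h9 : 0 ≤ (t - δ) ^ 2 / (2 * δ) := by positivity
      have h10 : (t - δ) ^ 2 / (2 * δ) = δ / 2 + 1 / (2 * δ) * t ^ 2 - t := by
        field_simp
        ring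
      linarith
    calc X.f₀ x * ‖tf X W b m (w * x)‖ ≤ X.f₀ x * (A * (δ / 2 + 1 / (2 * δ) * t ^ 2)) := by
          refine mul_le_mul_of_nonneg_left (h4.trans ?_) (X.h0 x)
          exact mul_le_mul_of_nonneg_left h8 hA0.le
      _ = _ := by ring

end MPb7f1cf
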