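import Pool.Agent.Lib_MP_b7f1cf_an.Pos
import Pool.Agent.Lib_MP_b7f1cf_an.Riesz

/-!
# The tree of Riesz products and the measure `μ`
-/

open MeasureTheory Filter Topology TopologicalSpace
open scoped ComplexConjugate ZeroAtInfty BoundedContinuousFunction Pointwise

noncomputable section

namespace MPb7f1cf

/-! ## indices and parameters -/

/-- number of markers of a node of level `j` -/
def Lc (j : ℕ) : ℕ := 2 ^ (j + 6)

/-- number of characters in the `l`-th window of a node of level `j` -/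
def Nc (n : ℕ → ℕ) (j l : ℕ) : ℕ := 2 ^ ((l + 1) * (2 * n j + 1))

/-- coefficient of the characters in the `l`-th window -/
def bc (l : ℕ) : ℝ := (1 / 2) ^ (l + 1)

/-- index of a factor: a level `j`, a node `B ∈ {0,1}^j`, and then either a marker or an element
of a window -/
def Idx (n : ℕ → ℕ) : Type :=
  Σ j : ℕ, (Fin j → Bool) × (Fin (Lc j) ⊕ Σ l : ℕ, Fin (Nc n j l))

instance (n : ℕ → ℕ) : DecidableEq (Idx n) :=
  inferInstanceAs (DecidableEq (Σ j : ℕ, (Fin j → Bool) × (Fin (Lc j) ⊕ Σ l : ℕ, Fin (Nc n j l))))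

instance (n : ℕ → ℕ) : Countable (Idx n) :=
  inferInstanceAs (Countable (Σ j : ℕ, (Fin j → Bool) × (Fin (Lc j) ⊕ Σ l : ℕ, Fin (Nc n j l))))

instance (n : ℕ → ℕ) : Encodable (Idx n) := Encodable.ofCountable _

/-- the marker `t` of node `B` -/
def mk (n : ℕ → ℕ) (j : ℕ) (B : Fin j → Bool) (t : Fin (Lc j)) : Idx n := ⟨j, B, Sum.inl t⟩

/-- the element `t` of the `l`-th window of node `B` -/
def wd (n : ℕ → ℕ) (j : ℕ) (B : Fin j → Bool) (l : ℕ) (t : Fin (Nc n j l)) : Idx n :=
  ⟨j, B, Sum.inr ⟨l, t⟩⟩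

/-- set of markers of node `B` -/
def mkSet (n : ℕ → ℕ) (j : ℕ) (B : Fin j → Bool) : Finset (Idx n) :=
  Finset.univ.image (mk n j B)

/-- the `l`-th window of node `B` -/
def wdSet (n : ℕ → ℕ) (j : ℕ) (B : Fin j → Bool) (l : ℕ) : Finset (Idx n) :=
  Finset.univ.image (wd n j B l)

/-- the node of level `j` on the path `ω` -/
def node (j : ℕ) (ω : ℕ → Bool) : Fin j → Bool := fun i => ω i

/-- the coefficients of the factors along a path `ω` -/
def coef (n : ℕ → ℕ) (ω : ℕ → Bool) : Idx n → ℝ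
  | ⟨j, B, Sum.inl _⟩ => if node j ω = B then (if ω j then 1 / 2 else -(1 / 2)) else 0
  | ⟨j, B, Sum.inr ⟨l, _⟩⟩ => if node j ω = B then bc l else 0

/-- extension of a finite path by `false` -/
def extp {k : ℕ} (p : Fin k → Bool) : ℕ → Bool := fun i => if h : i < k then p ⟨i, h⟩ else false

/-- exhausting sequence of finite sets of indices -/
def Uf (n : ℕ → ℕ) (k : ℕ) : Finset (Idx n) :=
  (Finset.range k).biUnion fun m => (Encodable.decode (α := Idx n) m).toFinset

theorem Uf_exhaust (n : ℕ → ℕ) (T : Finset (Idx n)) : ∃ k₀, ∀ k, k₀ ≤ k → T ⊆ Uf n k := by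
  refine ⟨(T.sup fun i => Encodable.encode i) + 1, fun k hk i hi => ?_⟩
  have h1 : Encodable.encode i ≤ T.sup fun i => Encodable.encode i :=
    Finset.le_sup (f := fun i => Encodable.encode i) hi
  rw [Uf, Finset.mem_biUnion]
  exact ⟨Encodable.encode i, Finset.mem_range.2 (by omega), by simp⟩

theorem Uf_mono (n : ℕ → ℕ) {k k' : ℕ} (h : k ≤ k') : Uf n k ⊆ Uf n k' :=
  Finset.biUnion_subset_biUnion_of_subset_left _ (Finset.range_mono h)

theorem bc_pos (l : ℕ) : 0 < bc l := by unfold bc; positivity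

theorem bc_le (l : ℕ) : bc l ≤ 1 / 2 := by
  unfold bc
  calc (1 / 2 : ℝ) ^ (l + 1) = (1 / 2) ^ l * (1 / 2) := pow_succ _ _
    _ ≤ 1 * (1 / 2) := by
        refine mul_le_mul_of_nonneg_right ?_ (by norm_num)
        exact pow_le_one₀ (by norm_num) (by norm_num)
    _ = 1 / 2 := one_mul _

theorem abs_coef_le (n : ℕ → ℕ) (ω : ℕ → Bool) (i : Idx n) : |coef n ω i| ≤ 1 / 2 := by
  obtain ⟨j, B, t | ⟨l, t⟩⟩ := i
  · simp only [coef]
    split_ifs <;> norm_num
  · simp only [coef]
    split_ifs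
    · rw [abs_of_pos (bc_pos l)]; exact bc_le l
    · norm_num

theorem card_nodes {k j : ℕ} (hjk : j ≤ k) (B : Fin j → Bool) :
    (Finset.univ.filter fun p : Fin k → Bool => node j (extp p) = B).card = 2 ^ (k - j) := by
  classical
  have h1 : (Finset.univ.filter fun p : Fin k → Bool => node j (extp p) = B) =
      Fintype.piFinset (fun i : Fin k => if h : (i : ℕ) < j then {B ⟨i, h⟩} else Finset.univ) := by
    ext p
    simp only [Finset.mem_filter, Finset.mem_univ, true_and, Fintype.mem_piFinset]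
    constructor
    · intro h i
      split_ifs with hi
      · rw [Finset.mem_singleton, ← h]
        simp [node, extp]
      · exact Finset.mem_univ _
    · intro h
      ext i
      have hik : (i : ℕ) < k := lt_of_lt_of_le i.2 hjk
      have := h ⟨i, hik⟩
      simp only [i.2, dite_true, Finset.mem_singleton] at this
      simp [node, extp, hik, this]
  rw [h1, Fintype.card_piFinset]
  have h2 : ∀ i : Fin k, (if h : (i : ℕ) < j then ({B ⟨i, h⟩} : Finset Bool) else Finset.univ).card =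
      if (i : ℕ) < j then 1 else 2 := by
    intro i; split_ifs <;> simp
  simp_rw [h2]
  rw [Fin.prod_univ_eq_prod_range (fun i => if i < j then 1 else 2) k]
  obtain ⟨m, rfl⟩ := Nat.exists_eq_add_of_le hjk
  rw [Finset.prod_range_add, Nat.add_sub_cancel_left]
  rw [Finset.prod_congr rfl (fun i hi => if_pos (Finset.mem_range.1 hi)), Finset.prod_const_one,
    one_mul, Finset.prod_congr rfl (fun i _ => if_neg (by omega)), Finset.prod_const,
    Finset.card_range]

/-! ## functionals given by densities -/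

section dens

variable {G : Type*} [CommGroup G] [TopologicalSpace G] [IsTopologicalGroup G]
    [LocallyCompactSpace G] [T2Space G] [MeasurableSpace G] [BorelSpace G] {ι : Type*}
    (X : IndepSys G ι)

/-- the measure `F f₀ haar / c` -/
def dens (F : G → ℝ) (hF : Continuous F) : MG G :=
  MG.mk
    { toFun := fun f => X.E (fun x => f x * (F x : ℂ))
      map_add' := fun f g => by
        rw [← X.E_add (by fun_prop) (by fun_prop)]
        congr 1; ext x; simp [add_mul]
      map_smul' := fun a f => by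
        rw [RingHom.id_apply, smul_eq_mul, ← X.E_smul]
        congr 1; ext x; simp [mul_assoc] } (X.E (fun x => ((|F x| : ℝ) : ℂ))).re (fun f => by
    have h := X.norm_E_le (F := fun x => f x * (F x : ℂ)) (F' := fun x => ‖f‖ * |F x|)
      (by fun_prop) (by fun_prop) (fun x => by
        rw [norm_mul, Complex.norm_real, Real.norm_eq_abs]
        exact mul_le_mul_of_nonneg_right (C0_apply_le f x) (abs_nonneg _))
    refine h.trans ?_
    have : X.E (fun x => ((‖f‖ * |F x| : ℝ) : ℂ)) = (‖f‖ : ℂ) * X.E (fun x => ((|F x| : ℝ) : ℂ)) := by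
      rw [← X.E_smul]; congr 1; ext x; push_cast; rfl
    rw [this, Complex.re_ofReal_mul, mul_comm])

theorem dens_apply (F : G → ℝ) (hF : Continuous F) (f : C₀(G, ℂ)) :
    dens X F hF f = X.E (fun x => f x * (F x : ℂ)) := rfl

theorem dens_pos {F : G → ℝ} (hF : Continuous F) (h0 : ∀ x, 0 ≤ F x) : (dens X F hF).Pos := by
  intro f
  rw [dens_apply, dens_apply]
  have h := X.norm_E_le (F := fun x => f x * (F x : ℂ)) (F' := fun x => ‖f x‖ * F x)
      (by fun_prop) (by fun_prop) (fun x => by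
        rw [norm_mul, Complex.norm_real, Real.norm_eq_abs, abs_of_nonneg (h0 x)])
  refine h.trans (le_of_eq ?_)
  congr 2; ext x; simp

/-- the support of the weight, as a compact set -/
def Kf : Compacts G := ⟨tsupport X.f₀, X.hcs⟩

theorem dens_suppIn {F : G → ℝ} (hF : Continuous F) : (dens X F hF).SuppIn (Kf X : Set G) := by
  intro f hf
  rw [dens_apply, IndepSys.E]
  have : (fun x => (X.f₀ x : ℂ) * (f x * (F x : ℂ))) = fun _ => 0 := by
    ext x
    by_cases hx : x ∈ tsupport X.f₀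
    · rw [hf x hx]; simp
    · rw [image_eq_zero_of_notMem_tsupport hx]; simp
  rw [this]; simp

theorem dens_ext {F : G → ℝ} (hF : Continuous F) (H : G →ᵇ ℂ) :
    (dens X F hF).ext' H = X.E (fun x => H x * (F x : ℂ)) := by
  rw [(dens_suppIn X hF).ext_eq, dens_apply, IndepSys.E, IndepSys.E]
  congr 2
  ext x
  by_cases hx : x ∈ tsupport X.f₀
  · rw [cmul_apply, cut_one (show x ∈ Kf X from hx), mul_one]
  · rw [image_eq_zero_of_notMem_tsupport hx]; simp

end dens

/-! ## reindexing of independent systems -/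

section reindex

variable {G : Type*} [CommGroup G] [TopologicalSpace G] [IsTopologicalGroup G]
    [LocallyCompactSpace G] [T2Space G] [MeasurableSpace G] [BorelSpace G] {ι κ : Type*}

/-- restriction of an independent system along an injection -/
def IndepSys.reindex (X : IndepSys G ι) (e : κ ↪ ι) : IndepSys G κ where
  f₀ := X.f₀
  χ := fun i => X.χ (e i)
  hcs := X.hcs
  h0 := X.h0
  h1 := X.h1
  hpos := X.hpos
  hnt := fun i => X.hnt (e i)
  horth := by
    intro s a ha hne
    have h := X.horth (s.map e) (Function.extend e a 0) (fun i hi => by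
      obtain ⟨k, hk, rfl⟩ := Finset.mem_map.1 hi
      rw [e.injective.extend_apply]; exact ha k hk) (by
      obtain ⟨i, hi, x, hx, hxne⟩ := hne
      exact ⟨e i, Finset.mem_map_of_mem e hi, x, hx, by rw [e.injective.extend_apply]; exact hxne⟩)
    rw [← h]
    congr 1
    ext x
    rw [Finset.prod_map]
    congr 1
    exact Finset.prod_congr rfl fun i _ => by rw [e.injective.extend_apply]

end reindex

/-! ## the stage measures and the limit measures -/

section measures

variable {G : Type*} [CommGroup G] [TopologicalSpace G] [IsTopologicalGroup G]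
    [LocallyCompactSpace G] [T2Space G] [MeasurableSpace G] [BorelSpace G]
    {n : ℕ → ℕ} (X : IndepSys G (Idx n))

/-- the Riesz product along the path `ω` over a finite set of factors -/
def rz (ω : ℕ → Bool) (U : Finset (Idx n)) : MG G :=
  dens X (X.R (coef n ω) U) (X.R_continuous _ _)

theorem rz_pos (ω : ℕ → Bool) (U : Finset (Idx n)) : (rz X ω U).Pos :=
  dens_pos X _ fun x => X.R_nonneg (abs_coef_le n ω) U x

theorem rz_suppIn (ω : ℕ → Bool) (U : Finset (Idx n)) : (rz X ω U).SuppIn (Kf X : Set G) :=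
  dens_suppIn X _

theorem rz_ext (ω : ℕ → Bool) (U : Finset (Idx n)) (H : G →ᵇ ℂ) :
    (rz X ω U).ext' H = X.E (fun x => H x * (X.R (coef n ω) U x : ℂ)) :=
  dens_ext X _ H

theorem rz_mass (ω : ℕ → Bool) (U : Finset (Idx n)) : (rz X ω U).ext' 1 = 1 := by
  rw [rz_ext]
  have : (fun x => (1 : G →ᵇ ℂ) x * (X.R (coef n ω) U x : ℂ)) =
      fun x => (X.R (coef n ω) U x : ℂ) := by ext x; simp
  rw [this, X.E_R]

/-- the stage `k` of the measure of node `B` (of level `j`) -/
def stg (j : ℕ) (B : Fin j → Bool) (k : ℕ) : MG G :=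
  (((1 / 2 : ℝ) ^ k : ℝ) : ℂ) • ∑ p ∈ Finset.univ.filter (fun p : Fin k → Bool => node j (extp p) = B),
    rz X (extp p) (Uf n k)

theorem stg_pos (j : ℕ) (B : Fin j → Bool) (k : ℕ) : (stg X j B k).Pos :=
  (MG.Pos.sum fun p _ => rz_pos X _ _).smul (by positivity)

theorem stg_suppIn (j : ℕ) (B : Fin j → Bool) (k : ℕ) : (stg X j B k).SuppIn (Kf X : Set G) :=
  (MG.SuppIn.sum fun p _ => rz_suppIn X _ _).smul _

theorem stg_ext (j : ℕ) (B : Fin j → Bool) (k : ℕ) (H : G →ᵇ ℂ) :
    (stg X j B k).ext' H = (((1 / 2 : ℝ) ^ k : ℝ) : ℂ) *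
      ∑ p ∈ Finset.univ.filter (fun p : Fin k → Bool => node j (extp p) = B),
        (rz X (extp p) (Uf n k)).ext' H := by
  rw [stg, MG.ext_smul_left, MG.ext_sum_left]

theorem stg_mass {j : ℕ} (B : Fin j → Bool) {k : ℕ} (hk : j ≤ k) :
    (stg X j B k).ext' 1 = (((1 / 2 : ℝ) ^ j : ℝ) : ℂ) := by
  rw [stg_ext]
  simp_rw [rz_mass]
  rw [Finset.sum_const, card_nodes hk, nsmul_eq_mul, mul_one]
  obtain ⟨m, rfl⟩ := Nat.exists_eq_add_of_le hk
  rw [Nat.add_sub_cancel_left, pow_add]
  push_cast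
  rw [mul_assoc, ← mul_pow]
  norm_num

theorem stg_norm_le (j : ℕ) (B : Fin j → Bool) (k : ℕ) : ‖stg X j B k‖ ≤ 1 := by
  refine (stg_pos X j B k).norm_le_mass.trans ?_
  rw [stg_ext]
  simp_rw [rz_mass]
  rw [Finset.sum_const, nsmul_eq_mul, mul_one, ← Complex.ofReal_natCast, ← Complex.ofReal_mul,
    Complex.ofReal_re]
  have h1 : (Finset.univ.filter fun p : Fin k → Bool => node j (extp p) = B).card ≤ 2 ^ k := by
    refine (Finset.card_le_univ _).trans (le_of_eq ?_)
    simp
  calc (1 / 2 : ℝ) ^ k * ((Finset.univ.filter fun p : Fin k → Bool => node j (extp p) = B).card : ℝ)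
      ≤ (1 / 2 : ℝ) ^ k * 2 ^ k := by
        refine mul_le_mul_of_nonneg_left ?_ (by positivity)
        exact_mod_cast h1
    _ = 1 := by rw [← mul_pow]; norm_num

/-- the measure `μ_B` of node `B`: a weak* limit of the stages -/
def mu (j : ℕ) (B : Fin j → Bool) : MG G :=
  Classical.choose (MG.exists_ulim (hyperfilter ℕ) (stg X j B) 1 (stg_norm_le X j B))

theorem mu_tendsto (j : ℕ) (B : Fin j → Bool) (f : C₀(G, ℂ)) :
    Tendsto (fun k => stg X j B k f) (hyperfilter ℕ) (𝓝 (mu X j B f)) :=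
  (Classical.choose_spec (MG.exists_ulim (hyperfilter ℕ) (stg X j B) 1 (stg_norm_le X j B))).2 f

theorem mu_pos (j : ℕ) (B : Fin j → Bool) : (mu X j B).Pos :=
  MG.Pos.lim (stg_pos X j B) (mu_tendsto X j B)

theorem mu_suppIn (j : ℕ) (B : Fin j → Bool) : (mu X j B).SuppIn (Kf X : Set G) :=
  MG.SuppIn.lim (stg_suppIn X j B) (mu_tendsto X j B)

theorem mu_ext_tendsto (j : ℕ) (B : Fin j → Bool) (H : G →ᵇ ℂ) :
    Tendsto (fun k => (stg X j B k).ext' H) (hyperfilter ℕ) (𝓝 ((mu X j B).ext' H)) :=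
  MG.ext_lim (stg_suppIn X j B) (mu_tendsto X j B) H

theorem hyper_ge (k₀ : ℕ) : ∀ᶠ k in (hyperfilter ℕ : Filter ℕ), k₀ ≤ k := by
  have : (hyperfilter ℕ : Filter ℕ) ≤ atTop := by
    rw [← Nat.cofinite_eq_atTop]; exact hyperfilter_le_cofinite
  exact this (eventually_ge_atTop k₀)

theorem mu_mass (j : ℕ) (B : Fin j → Bool) : (mu X j B).ext' 1 = (((1 / 2 : ℝ) ^ j : ℝ) : ℂ) := by
  refine tendsto_nhds_unique (mu_ext_tendsto X j B 1) (tendsto_const_nhds.congr' ?_)
  filter_upwards [hyper_ge j] with k hk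
  exact (stg_mass X B hk).symm

theorem mu_norm_le (j : ℕ) (B : Fin j → Bool) : ‖mu X j B‖ ≤ (1 / 2) ^ j := by
  refine (mu_pos X j B).norm_le_mass.trans (le_of_eq ?_)
  rw [mu_mass, Complex.ofReal_re]

/-- the measure of the root -/
def muRoot : MG G := mu X 0 Fin.elim0

theorem stg_sum (j k : ℕ) : ∑ B : Fin j → Bool, stg X j B k = stg X 0 Fin.elim0 k := by
  simp only [stg]
  rw [← Finset.smul_sum, Finset.sum_fiberwise (Finset.univ : Finset (Fin k → Bool))
    (fun p => node j (extp p)) (fun p => rz X (extp p) (Uf n k))]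
  congr 1
  refine Finset.sum_congr ?_ fun _ _ => rfl
  rw [eq_comm, Finset.filter_true_of_mem]
  intro p _
  exact Subsingleton.elim _ _

theorem mu_sum (j : ℕ) : ∑ B : Fin j → Bool, mu X j B = muRoot X := by
  refine MG.ext fun f => ?_
  rw [MG.sum_apply]
  refine tendsto_nhds_unique (tendsto_finset_sum _ fun B _ => mu_tendsto X j B f) ?_
  refine (mu_tendsto X 0 Fin.elim0 f).congr fun k => ?_
  rw [← stg_sum X j k, MG.sum_apply]

/-- a linear relation that holds for every Riesz product `rz ω U`, `ω ∈ B`, `U` large, holds for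
`mu B`. -/
theorem mu_relation {j : ℕ} {B : Fin j → Bool} {H H' : G →ᵇ ℂ} (k₀ : ℕ)
    (h : ∀ k, k₀ ≤ k → ∀ ω : ℕ → Bool, node j ω = B →
      (rz X ω (Uf n k)).ext' H = (rz X ω (Uf n k)).ext' H') :
    (mu X j B).ext' H = (mu X j B).ext' H' := by
  refine tendsto_nhds_unique (mu_ext_tendsto X j B H) ((mu_ext_tendsto X j B H').congr' ?_)
  filter_upwards [hyper_ge k₀] with k hk
  rw [stg_ext, stg_ext]
  congr 1
  refine Finset.sum_congr rfl fun p hp => ?_
  exact (h k hk _ (Finset.mem_filter.1 hp).2).symm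

/-- an upper bound that holds for every Riesz product `rz ω U`, `ω ∈ B`, `U` large, holds for
`mu B`. -/
theorem mu_le {j : ℕ} {B : Fin j → Bool} {H : G →ᵇ ℂ} {C : ℝ} (k₀ : ℕ)
    (h : ∀ k, k₀ ≤ k → ∀ ω : ℕ → Bool, node j ω = B → ((rz X ω (Uf n k)).ext' H).re ≤ C) :
    ((mu X j B).ext' H).re ≤ (1 / 2) ^ j * C := by
  refine le_of_tendsto ((Complex.continuous_re.tendsto _).comp (mu_ext_tendsto X j B H)) ?_
  filter_upwards [hyper_ge (max k₀ j)] with k hk
  show ((stg X j B k).ext' H).re ≤ _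
  rw [stg_ext, Complex.re_ofReal_mul, Complex.re_sum]
  have h1 : ∑ p ∈ Finset.univ.filter (fun p : Fin k → Bool => node j (extp p) = B),
      ((rz X (extp p) (Uf n k)).ext' H).re ≤
      ∑ p ∈ Finset.univ.filter (fun p : Fin k → Bool => node j (extp p) = B), C :=
    Finset.sum_le_sum fun p hp =>
      h k ((le_max_left _ _).trans hk) _ (Finset.mem_filter.1 hp).2
  rw [Finset.sum_const, card_nodes ((le_max_right _ _).trans hk), nsmul_eq_mul] at h1
  refine (mul_le_mul_of_nonneg_left h1 (by positivity)).trans (le_of_eq ?_)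
  obtain ⟨m, hm⟩ := Nat.exists_eq_add_of_le ((le_max_right _ _).trans hk)
  rw [hm, Nat.add_sub_cancel_left, pow_add]
  push_cast
  have : (1 / 2 : ℝ) ^ m * 2 ^ m = 1 := by rw [← mul_pow]; norm_num
  linear_combination ((1 / 2 : ℝ) ^ j * C) * this

end measures

end MPb7f1cf
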