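import Pool.Agent.Lib_MP_b7f1cf_an.L1
import Pool.Agent.Lib_MP_b7f1cf_an.Riesz

/-!
# Window averages and test functions
-/

open MeasureTheory Filter Topology TopologicalSpace
open MeasureTheory.Measure (haar)
open scoped ComplexConjugate ZeroAtInfty BoundedContinuousFunction Pointwise

set_option linter.unusedSectionVars false

noncomputable section

namespace MPb7f1cf

variable {G : Type*} [CommGroup G] [TopologicalSpace G] [IsTopologicalGroup G]
  [LocallyCompactSpace G] [T2Space G]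

/-! ## real-ness of positive functionals -/

theorem MG.Pos.ext_im_of_nonneg {Λ : MG G} (h : Λ.Pos) {F : G →ᵇ ℂ}
    (hF : ∀ x, 0 ≤ (F x).re ∧ (F x).im = 0) : (Λ.ext' F).im = 0 := by
  have h1 := h.norm_ext_le (F := F) (F' := F) fun x => by
    obtain ⟨h0, h2⟩ := hF x
    refine ⟨le_of_eq ?_, h2⟩
    have h3 : F x = ((F x).re : ℂ) := by apply Complex.ext <;> simp [h2]
    rw [h3, Complex.norm_real, Complex.ofReal_re, Real.norm_eq_abs, abs_of_nonneg h0]
  have h4 := Complex.sq_norm_sub_sq_re (Λ.ext' F)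
  have h5 : (Λ.ext' F).re ≤ ‖Λ.ext' F‖ := Complex.re_le_norm _
  have h6 : (Λ.ext' F).im ^ 2 ≤ 0 := by
    rw [← h4]
    have h7 : 0 ≤ ‖Λ.ext' F‖ := norm_nonneg _
    have h8 : (Λ.ext' F).re = ‖Λ.ext' F‖ := le_antisymm h5 h1
    rw [h8]
    simp
  exact pow_eq_zero_iff (two_ne_zero) |>.1 (le_antisymm h6 (sq_nonneg _))

theorem MG.Pos.ext_im_of_real {Λ : MG G} (h : Λ.Pos) {F : G →ᵇ ℂ}
    (hF : ∀ x, (F x).im = 0) : (Λ.ext' F).im = 0 := by
  have h1 : (Λ.ext' 1).im = 0 := h.ext_im_of_nonneg fun x => by simp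
  have h2 : (Λ.ext' (F + (‖F‖ : ℂ) • 1)).im = 0 := h.ext_im_of_nonneg fun x => by
    constructor
    · have h3 : ‖F x‖ ≤ ‖F‖ := F.norm_coe_le_norm x
      have h4 : |(F x).re| ≤ ‖F x‖ := Complex.abs_re_le_norm _
      have h5 := abs_le.1 h4
      simp only [BoundedContinuousFunction.coe_add, Pi.add_apply, BoundedContinuousFunction.coe_smul,
        BoundedContinuousFunction.coe_one, Pi.one_apply, smul_eq_mul, mul_one, Complex.add_re,
        Complex.ofReal_re]
      linarith [h5.1]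
    · simp [hF x]
  rw [map_add, map_smul, Complex.add_im, smul_eq_mul, Complex.im_ofReal_mul, h1] at h2
  simpa using h2

theorem MG.Pos.ext_star {Λ : MG G} (h : Λ.Pos) (F : G →ᵇ ℂ) :
    Λ.ext' (star F) = conj (Λ.ext' F) := by
  have h1 : (Λ.ext' (F + star F)).im = 0 := h.ext_im_of_real fun x => by simp
  have h2 : (Λ.ext' (Complex.I • (F - star F))).im = 0 := h.ext_im_of_real fun x => by
    simp
  rw [map_add, Complex.add_im] at h1
  rw [map_smul, map_sub, smul_eq_mul, Complex.mul_im, Complex.sub_re, Complex.sub_im,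
    Complex.I_re, Complex.I_im] at h2
  apply Complex.ext
  · rw [Complex.conj_re]; linarith
  · rw [Complex.conj_im]; linarith

/-! ## the window average -/

section window

variable [MeasurableSpace G] [BorelSpace G] {ι : Type*} (X : IndepSys G ι)

/-- the average of the characters over a window -/
def ell (W : Finset ι) : G →ᵇ ℂ := (W.card : ℂ)⁻¹ • ∑ i ∈ W, chb (X.χ i)

theorem bcf_sum_apply {α : Type*} (s : Finset α) (F : α → (G →ᵇ ℂ)) (x : G) :
    (∑ a ∈ s, F a) x = ∑ a ∈ s, F a x := by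
  rw [BoundedContinuousFunction.coe_sum, Finset.sum_apply]

theorem ell_apply (W : Finset ι) (x : G) :
    ell X W x = (W.card : ℂ)⁻¹ * ∑ i ∈ W, ((X.χ i x : Circle) : ℂ) := by
  rw [ell, BoundedContinuousFunction.smul_apply, bcf_sum_apply]
  simp

theorem ell_isUC (W : Finset ι) : IsUC (ell X W) :=
  (IsUC.sum fun i _ => IsUC.chb (X.χ i)).smul _

theorem ell_one {W : Finset ι} (hW : W.Nonempty) : ell X W 1 = 1 := by
  rw [ell_apply]
  simp [hW.card_pos.ne']

/-- the second moment of a translated, recentred window average -/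
theorem ext_window {W : Finset ι} (hW : W.Nonempty) {b : ℝ}
    {σ : MG G} (hσ : σ.Pos) {s : ℝ} (h1 : σ.ext' 1 = s)
    (hm1 : ∀ i ∈ W, σ.ext' (chb (X.χ i)) = s * b)
    (hm2 : ∀ i ∈ W, ∀ j ∈ W, i ≠ j → σ.ext' (chb (X.χ i) * star (chb (X.χ j))) = s * b ^ 2)
    (y : G) (D : G →ᵇ ℂ) (hD : D = btr y (ell X W) - ((b : ℂ) * ell X W y) • 1) :
    σ.ext' (D * star D) = ((s * (1 - b ^ 2) * (W.card : ℝ)⁻¹ : ℝ) : ℂ) := by
  classical
  let u : ι → ℂ := fun i => ((X.χ i y : Circle) : ℂ)
  let e : ι → (G →ᵇ ℂ) := fun i => chb (X.χ i) - (b : ℂ) • 1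
  have hu : ∀ i, u i * conj (u i) = 1 := by
    intro i
    rw [Complex.mul_conj, Complex.normSq_eq_norm_sq, Circle.norm_coe]
    simp
  have hD' : D = (W.card : ℂ)⁻¹ • ∑ i ∈ W, u i • e i := by
    rw [hD]
    ext x
    rw [BoundedContinuousFunction.coe_sub, Pi.sub_apply, btr_apply, ell_apply,
      BoundedContinuousFunction.smul_apply, BoundedContinuousFunction.smul_apply, ell_apply,
      bcf_sum_apply]
    simp only [u, e, BoundedContinuousFunction.coe_smul, BoundedContinuousFunction.coe_sub,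
      Pi.sub_apply, chb_apply, BoundedContinuousFunction.coe_one, Pi.one_apply, smul_eq_mul,
      mul_one, map_mul, Circle.coe_mul]
    rw [mul_left_comm, ← mul_sub, Finset.mul_sum, ← Finset.sum_sub_distrib]
    congr 1
    refine Finset.sum_congr rfl fun i _ => ?_
    ring
  have hee : ∀ i ∈ W, ∀ j ∈ W, σ.ext' (e i * star (e j))
      = if i = j then (s * (1 - b ^ 2) : ℂ) else 0 := by
    intro i hi j hj
    have h2 : e i * star (e j) = chb (X.χ i) * star (chb (X.χ j)) - (b : ℂ) • chb (X.χ i)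
        - (b : ℂ) • star (chb (X.χ j)) + ((b : ℂ) ^ 2) • 1 := by
      ext x
      simp [e]
      ring
    rw [h2, map_add, map_sub, map_sub, map_smul, map_smul, map_smul, hσ.ext_star, hm1 i hi,
      hm1 j hj, h1]
    split_ifs with hij
    · subst hij
      have h3 : chb (X.χ i) * star (chb (X.χ i)) = 1 := by
        ext x
        simp only [BoundedContinuousFunction.coe_mul, Pi.mul_apply, chb_apply,
          BoundedContinuousFunction.coe_one, Pi.one_apply, BoundedContinuousFunction.coe_star,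
          Pi.star_apply, RCLike.star_def]
        rw [Complex.mul_conj, Complex.normSq_eq_norm_sq, Circle.norm_coe]
        simp
      rw [h3, h1]
      simp only [smul_eq_mul, map_mul, Complex.conj_ofReal]
      ring
    · rw [hm2 i hi j hj hij]
      simp only [smul_eq_mul, map_mul, Complex.conj_ofReal]
      ring
  have hDD : D * star D = ((W.card : ℂ)⁻¹ * (W.card : ℂ)⁻¹) •
      ∑ i ∈ W, ∑ j ∈ W, (u i * conj (u j)) • (e i * star (e j)) := by
    rw [hD']
    ext x
    simp only [BoundedContinuousFunction.coe_mul, Pi.mul_apply,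
          BoundedContinuousFunction.coe_star, BoundedContinuousFunction.coe_smul,
          Pi.star_apply, RCLike.star_def, bcf_sum_apply, smul_eq_mul, map_mul, map_sum, map_inv₀,
          map_natCast]
    rw [mul_mul_mul_comm, Finset.sum_mul_sum]
    congr 1
    refine Finset.sum_congr rfl fun i _ => Finset.sum_congr rfl fun j _ => ?_
    ring
  rw [hDD, map_smul, map_sum]
  simp_rw [map_sum, map_smul, smul_eq_mul]
  have h4 : ∀ i ∈ W, ∑ j ∈ W, u i * conj (u j) * σ.ext' (e i * star (e j))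
      = (s * (1 - b ^ 2) : ℂ) := by
    intro i hi
    rw [Finset.sum_eq_single_of_mem i hi]
    · rw [hee i hi i hi, if_pos rfl, hu, one_mul]
    · intro j hj hji
      rw [hee i hi j hj, if_neg hji.symm, mul_zero]
  rw [Finset.sum_congr rfl h4, Finset.sum_const, nsmul_eq_mul]
  have h5 : (W.card : ℂ) ≠ 0 := by exact_mod_cast hW.card_pos.ne'
  push_cast
  field_simp

/-- the test function on `ℂ` -/
def tent (z : ℂ) : ℝ := max 0 (1 - ‖z - 1‖)

theorem tent_nonneg (z : ℂ) : 0 ≤ tent z := le_max_left _ _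

theorem tent_le_one (z : ℂ) : tent z ≤ 1 := max_le zero_le_one (by linarith [norm_nonneg (z - 1)])

theorem tent_one : tent 1 = 1 := by simp [tent]

theorem tent_le_norm (z : ℂ) : tent z ≤ ‖z‖ := by
  refine max_le (norm_nonneg _) ?_
  have : ‖(1 : ℂ)‖ ≤ ‖z‖ + ‖z - 1‖ := by
    calc ‖(1 : ℂ)‖ = ‖z - (z - 1)‖ := by congr 1; ring
      _ ≤ ‖z‖ + ‖z - 1‖ := norm_sub_le _ _
  rw [norm_one] at this
  linarith

theorem tent_lipschitz (z w : ℂ) : |tent z - tent w| ≤ ‖z - w‖ := by
  unfold tent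
  refine (abs_max_sub_max_le_max _ _ _ _).trans ?_
  refine max_le (by simp) ?_
  have : 1 - ‖z - 1‖ - (1 - ‖w - 1‖) = ‖w - 1‖ - ‖z - 1‖ := by ring
  rw [this]
  refine (abs_norm_sub_norm_le _ _).trans (le_of_eq ?_)
  rw [← norm_neg]
  congr 1
  ring

theorem tent_continuous : Continuous tent := by unfold tent; fun_prop

/-- the test function `tent (ell / b ^ m)` -/
def tf (W : Finset ι) (b : ℝ) (m : ℕ) : G →ᵇ ℂ :=
  BoundedContinuousFunction.ofNormedAddCommGroup
    (fun x => ((tent (ell X W x / (b : ℂ) ^ m) : ℝ) : ℂ))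
    (Complex.continuous_ofReal.comp (tent_continuous.comp (by fun_prop))) 1 (fun x => by
      rw [Complex.norm_real, Real.norm_eq_abs, abs_of_nonneg (tent_nonneg _)]
      exact tent_le_one _)

theorem tf_apply (W : Finset ι) (b : ℝ) (m : ℕ) (x : G) :
    tf X W b m x = ((tent (ell X W x / (b : ℂ) ^ m) : ℝ) : ℂ) := rfl

theorem norm_tf_le (W : Finset ι) (b : ℝ) (m : ℕ) : ‖tf X W b m‖ ≤ 1 :=
  BoundedContinuousFunction.norm_ofNormedAddCommGroup_le _ zero_le_one _

theorem tf_isUC (W : Finset ι) (b : ℝ) (m : ℕ) : IsUC (tf X W b m) := by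
  refine ((ell_isUC X W).smul ((b : ℂ) ^ m)⁻¹).comp fun x y => ?_
  rw [tf_apply, tf_apply, ← Complex.ofReal_sub, Complex.norm_real, Real.norm_eq_abs]
  refine (tent_lipschitz _ _).trans (le_of_eq ?_)
  congr 1
  simp only [BoundedContinuousFunction.coe_smul, smul_eq_mul]
  ring

theorem tf_zero_one {W : Finset ι} (hW : W.Nonempty) (b : ℝ) : tf X W b 0 1 = 1 := by
  rw [tf_apply, ell_one X hW]
  simp [tent_one]

/-- one step -/
theorem tf_step {W : Finset ι} (hW : W.Nonempty) {b : ℝ} (hb0 : 0 < b)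
    {σ : MG G} (hσ : σ.Pos) {s : ℝ} (hs : 0 ≤ s) (h1 : σ.ext' 1 = s)
    (hm1 : ∀ i ∈ W, σ.ext' (chb (X.χ i)) = s * b)
    (hm2 : ∀ i ∈ W, ∀ j ∈ W, i ≠ j → σ.ext' (chb (X.χ i) * star (chb (X.χ j))) = s * b ^ 2)
    (m : ℕ) (y : G) :
    ‖σ.ext' (btr y (tf X W b (m + 1))) - s * tf X W b m y‖
      ≤ s * ((b ^ (m + 1))⁻¹ * Real.sqrt ((W.card : ℝ)⁻¹)) := by
  set D : G →ᵇ ℂ := btr y (ell X W) - ((b : ℂ) * ell X W y) • 1 with hD
  set δ : ℝ := Real.sqrt ((W.card : ℝ)⁻¹) with hδ
  have hcard : 0 < (W.card : ℝ) := by exact_mod_cast hW.card_pos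
  have hδ0 : 0 < δ := Real.sqrt_pos.2 (by positivity)
  have hδ2 : δ ^ 2 = (W.card : ℝ)⁻¹ := Real.sq_sqrt (by positivity)
  have hb : (b : ℂ) ≠ 0 := by exact_mod_cast hb0.ne'
  have e1 : σ.ext' (btr y (tf X W b (m + 1))) - s * tf X W b m y
      = σ.ext' (btr y (tf X W b (m + 1)) - tf X W b m y • 1) := by
    rw [map_sub, map_smul, h1, smul_eq_mul]
    ring
  rw [e1]
  set A : ℝ := (b ^ (m + 1))⁻¹ with hA
  have hA0 : 0 < A := by positivity
  have h2 := hσ.norm_ext_le (F := btr y (tf X W b (m + 1)) - tf X W b m y • 1)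
    (F' := ((A * (δ / 2) : ℝ) : ℂ) • 1 + ((A * (1 / (2 * δ)) : ℝ) : ℂ) • (D * star D)) (fun x => by
      have h3 : (D * star D) x = ((‖D x‖ ^ 2 : ℝ) : ℂ) := by
        simp only [BoundedContinuousFunction.coe_mul, Pi.mul_apply,
          BoundedContinuousFunction.coe_star, Pi.star_apply, RCLike.star_def]
        rw [Complex.mul_conj, Complex.normSq_eq_norm_sq]
      have h4 : (((A * (δ / 2) : ℝ) : ℂ) • (1 : G →ᵇ ℂ)
          + ((A * (1 / (2 * δ)) : ℝ) : ℂ) • (D * star D)) x
          = ((A * (δ / 2) + A * (1 / (2 * δ)) * ‖D x‖ ^ 2 : ℝ) : ℂ) := by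
        rw [BoundedContinuousFunction.coe_add, Pi.add_apply, BoundedContinuousFunction.smul_apply,
          BoundedContinuousFunction.smul_apply, h3]
        simp
      rw [h4]
      refine ⟨?_, Complex.ofReal_im _⟩
      rw [Complex.ofReal_re]
      have h5 : ‖(btr y (tf X W b (m + 1)) - tf X W b m y • (1 : G →ᵇ ℂ)) x‖ ≤ A * ‖D x‖ := by
        have h6 : (btr y (tf X W b (m + 1)) - tf X W b m y • (1 : G →ᵇ ℂ)) x
            = ((tent (ell X W (y * x) / (b : ℂ) ^ (m + 1)) - tent (ell X W y / (b : ℂ) ^ m) : ℝ) : ℂ) := by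
          simp [tf_apply]
        rw [h6, Complex.norm_real, Real.norm_eq_abs]
        refine (tent_lipschitz _ _).trans (le_of_eq ?_)
        have h7 : ell X W (y * x) / (b : ℂ) ^ (m + 1) - ell X W y / (b : ℂ) ^ m
            = (A : ℂ) * D x := by
          simp only [hD, hA, BoundedContinuousFunction.coe_sub, Pi.sub_apply, btr_apply,
            BoundedContinuousFunction.coe_smul, BoundedContinuousFunction.coe_one, Pi.one_apply,
            smul_eq_mul, mul_one]
          push_cast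
          field_simp
          ring
        rw [h7, norm_mul, Complex.norm_real, Real.norm_eq_abs, abs_of_pos hA0]
      refine h5.trans ?_
      have h8 : ‖D x‖ ≤ δ / 2 + 1 / (2 * δ) * ‖D x‖ ^ 2 := by
        have h9 : 0 ≤ (‖D x‖ - δ) ^ 2 / (2 * δ) := by positivity
        have h10 : (‖D x‖ - δ) ^ 2 / (2 * δ) = δ / 2 + 1 / (2 * δ) * ‖D x‖ ^ 2 - ‖D x‖ := by
          field_simp
          ring
        linarith
      calc A * ‖D x‖ ≤ A * (δ / 2 + 1 / (2 * δ) * ‖D x‖ ^ 2) :=
            mul_le_mul_of_nonneg_left h8 hA0.le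
        _ = _ := by ring)
  refine h2.trans ?_
  rw [map_add, map_smul, map_smul, h1, ext_window X hW hσ h1 hm1 hm2 y D hD]
  simp only [smul_eq_mul, ← Complex.ofReal_mul, ← Complex.ofReal_add, Complex.ofReal_re]
  rw [← hδ2]
  have h11 : A * (1 / (2 * δ)) * (s * (1 - b ^ 2) * δ ^ 2) = A * (δ / 2) * s * (1 - b ^ 2) := by
    field_simp
  rw [h11]
  have h12 : A * (δ / 2) * s * (1 - b ^ 2) ≤ A * (δ / 2) * s := by
    have : 0 ≤ A * (δ / 2) * s := by positivity
    nlinarith [sq_nonneg b]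
  calc A * (δ / 2) * s + A * (δ / 2) * s * (1 - b ^ 2) ≤ A * (δ / 2) * s + A * (δ / 2) * s := by
        linarith
    _ = s * (A * δ) := by ring

/-! ## measures with continuous translation do not see deep windows -/

theorem ofDensity_suppIn {g : G → ℂ} (hg : Integrable g (haar : Measure G)) {S : Set G}
    (h : ∀ x, x ∉ S → g x = 0) : (MG.ofDensity haar g hg).SuppIn S := by
  intro f hf
  rw [MG.ofDensity_apply]
  have : (fun x => f x * g x) = fun _ => 0 := by
    ext x
    by_cases hx : x ∈ S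
    · rw [hf x hx, zero_mul]
    · rw [h x hx, mul_zero]
  rw [this, integral_zero]

theorem ofDensity_ext {g : G → ℂ} (hg : Integrable g (haar : Measure G)) {K : Compacts G}
    (h : ∀ x, x ∉ K → g x = 0) (H : G →ᵇ ℂ) :
    (MG.ofDensity haar g hg).ext' H = ∫ x, H x * g x ∂haar := by
  rw [(ofDensity_suppIn hg (S := (K : Set G)) h).ext_eq, MG.ofDensity_apply]
  congr 1
  ext x
  by_cases hx : x ∈ K
  · rw [cmul_apply, cut_one hx, mul_one]
  · rw [h x hx, mul_zero, mul_zero]

end window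

end MPb7f1cf
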